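import Pool.Agent.Lib.MP_e426f4_ag.M.Alg
import Pool.Agent.Lib.MP_e426f4_ag.G.AlgReal

/-!
# Complex estimates for multihomogeneous forms
-/

set_option linter.unusedSectionVars false

namespace NKPHP

open GenHP Finset Filter Topology

section monomials
variable {ι : Type*} [Fintype ι] [DecidableEq ι]

private theorem nac_mon_norm_le (x : ι → ℂ) (X : ℝ) (hX : 1 ≤ X) (hx : ∀ i, ‖x i‖ ≤ X)
    (t : ι → ℕ) : ‖mon x t‖ ≤ X ^ (∑ i, t i) := by
  refine ALR.induct (P := fun k t => ‖mon x t‖ ≤ X ^ k) ?_ ?_ t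
  · rw [ALR.mon_zero]; simp
  · intro k t j h
    rw [ALR.mon_succ, norm_mul, pow_succ, mul_comm (X ^ k)]
    exact mul_le_mul (hx j) h (norm_nonneg _) (by linarith)

private theorem nac_dmon_norm_le (x : ι → ℂ) (i : ι) (X : ℝ) (hX : 1 ≤ X) (hx : ∀ i, ‖x i‖ ≤ X)
    (t : ι → ℕ) : ‖dmon x i t‖ ≤ ((∑ l, t l : ℕ) : ℝ) * X ^ (∑ l, t l) := by
  have := ALR.induct (ι := ι) (P := fun k t => ‖mon x t‖ ≤ X ^ k ∧ ‖dmon x i t‖ ≤ (k : ℝ) * X ^ k)
    ?_ ?_ t
  · exact this.2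
  · rw [ALR.mon_zero, ALR.dmon_zero]; simp
  · rintro k t j ⟨h1, h2⟩
    refine ⟨?_, ?_⟩
    · rw [ALR.mon_succ, norm_mul, pow_succ, mul_comm (X ^ k)]
      exact mul_le_mul (hx j) h1 (norm_nonneg _) (by linarith)
    · rw [ALR.dmon_succ]
      have hX0 : 0 < X := by linarith
      have hk : X ^ k ≤ X ^ (k + 1) := pow_le_pow_right₀ hX (by omega)
      have e1 : ‖(if i = j then mon x t else 0)‖ ≤ X ^ (k + 1) := by
        split_ifs
        · exact h1.trans hk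
        · simp; positivity
      have e2 : ‖x j * dmon x i t‖ ≤ X * ((k : ℝ) * X ^ k) := by
        rw [norm_mul]
        exact mul_le_mul (hx j) h2 (norm_nonneg _) hX0.le
      refine (norm_add_le _ _).trans ?_
      push_cast
      have e3 : X * ((k : ℝ) * X ^ k) = (k : ℝ) * X ^ (k + 1) := by ring
      rw [e3] at e2
      linarith

private theorem nac_diffs (x y : ι → ℂ) (i : ι) (X Y : ℝ) (hX : 1 ≤ X) (hY : 0 ≤ Y) (hYX : Y ≤ X)
    (hx : ∀ i, ‖x i‖ ≤ X) (hy : ∀ i, ‖y i‖ ≤ Y) (t : ι → ℕ) :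
    ‖mon (fun l => x l + y l) t - mon x t - ∑ j, dmon x j t * y j‖
        ≤ 4 ^ (∑ l, t l) * X ^ (∑ l, t l) * Y ^ 2 ∧
    ‖dmon (fun l => x l + y l) i t - dmon x i t‖
        ≤ ((∑ l, t l : ℕ) : ℝ) * 4 ^ (∑ l, t l) * X ^ (∑ l, t l) * Y := by
  have := ALR.induct (ι := ι) (P := fun k t =>
    ‖mon x t‖ ≤ X ^ k ∧ ‖dmon x i t‖ ≤ (k : ℝ) * X ^ k ∧
    ‖mon (fun l => x l + y l) t - mon x t‖ ≤ (2 ^ k - 1) * X ^ k * Y ∧
    ‖mon (fun l => x l + y l) t - mon x t - ∑ j, dmon x j t * y j‖ ≤ 4 ^ k * X ^ k * Y ^ 2 ∧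
    ‖dmon (fun l => x l + y l) i t - dmon x i t‖ ≤ (k : ℝ) * 4 ^ k * X ^ k * Y) ?_ ?_ t
  · exact ⟨this.2.2.2.1, this.2.2.2.2⟩
  · refine ⟨?_, ?_, ?_, ?_, ?_⟩
    · rw [ALR.mon_zero]; simp
    · rw [ALR.dmon_zero]; simp
    · rw [ALR.mon_zero, ALR.mon_zero]; simp
    · rw [ALR.mon_zero, ALR.mon_zero]
      simp only [ALR.dmon_zero]
      simp
      positivity
    · rw [ALR.dmon_zero, ALR.dmon_zero]; simp
  · rintro k t j ⟨h1, h2, h3, h4, h5⟩
    have hX0 : 0 < X := by linarith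
    have hk : X ^ k ≤ X ^ (k + 1) := pow_le_pow_right₀ hX (by omega)
    have hxj : ‖x j + y j‖ ≤ 2 * X := (norm_add_le _ _).trans (by linarith [hx j, hy j])
    have hXk : 0 < X ^ k := by positivity
    have h24 : (2 : ℝ) ^ k ≤ 4 ^ k := pow_le_pow_left₀ (by norm_num) (by norm_num) k
    have h2k : (1 : ℝ) ≤ 2 ^ k := one_le_pow₀ (by norm_num)
    have hk2 : (k : ℝ) ≤ 2 ^ k := by
      have := (Nat.lt_two_pow_self (n := k)).le
      calc (k : ℝ) ≤ ((2 ^ k : ℕ) : ℝ) := by exact_mod_cast this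
        _ = 2 ^ k := by push_cast; rfl
    refine ⟨?_, ?_, ?_, ?_, ?_⟩
    · rw [ALR.mon_succ, norm_mul, pow_succ, mul_comm (X ^ k)]
      exact mul_le_mul (hx j) h1 (norm_nonneg _) hX0.le
    · rw [ALR.dmon_succ]
      have e1 : ‖(if i = j then mon x t else 0)‖ ≤ X ^ (k + 1) := by
        split_ifs
        · exact h1.trans hk
        · simp; positivity
      have e2 : ‖x j * dmon x i t‖ ≤ X * ((k : ℝ) * X ^ k) := by
        rw [norm_mul]
        exact mul_le_mul (hx j) h2 (norm_nonneg _) hX0.le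
      refine (norm_add_le _ _).trans ?_
      push_cast
      have e3 : X * ((k : ℝ) * X ^ k) = (k : ℝ) * X ^ (k + 1) := by ring
      rw [e3] at e2
      linarith
    · -- first difference
      rw [ALR.mon_succ, ALR.mon_succ]
      have e : (x j + y j) * mon (fun l => x l + y l) t - x j * mon x t
          = (x j + y j) * (mon (fun l => x l + y l) t - mon x t)
            + y j * mon x t := by ring
      rw [e]
      refine (norm_add_le _ _).trans ?_
      rw [norm_mul, norm_mul]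
      have a1 : ‖x j + y j‖ * ‖mon (fun l => x l + y l) t - mon x t‖
          ≤ (2 * X) * ((2 ^ k - 1) * X ^ k * Y) :=
        mul_le_mul hxj h3 (norm_nonneg _) (by linarith)
      have a2 : ‖y j‖ * ‖mon x t‖ ≤ Y * X ^ (k + 1) :=
        mul_le_mul (hy j) (h1.trans hk) (norm_nonneg _) hY
      have a3 : (2 * X) * ((2 ^ k - 1) * X ^ k * Y) + Y * X ^ (k + 1)
          = (2 ^ (k + 1) - 1) * X ^ (k + 1) * Y := by ring
      linarith
    · -- second order remainder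
      have e : mon (fun l => x l + y l) (t + Pi.single j 1) - mon x (t + Pi.single j 1)
          - ∑ l, dmon x l (t + Pi.single j 1) * y l
          = x j * (mon (fun l => x l + y l) t - mon x t - ∑ l, dmon x l t * y l)
            + y j * (mon (fun l => x l + y l) t - mon x t) := by
        rw [ALR.mon_succ, ALR.mon_succ]
        have e1 : ∑ l, dmon x l (t + Pi.single j 1) * y l
            = mon x t * y j + x j * ∑ l, dmon x l t * y l := by
          rw [Finset.mul_sum]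
          have : ∀ l, dmon x l (t + Pi.single j 1) * y l
              = (if l = j then mon x t * y l else 0) + x j * (dmon x l t * y l) := by
            intro l
            rw [ALR.dmon_succ]
            split_ifs <;> ring
          rw [Finset.sum_congr rfl fun l _ => this l, Finset.sum_add_distrib]
          simp
        rw [e1]; ring
      rw [e]
      refine (norm_add_le _ _).trans ?_
      rw [norm_mul, norm_mul]
      have a1 := mul_le_mul (hx j) h4 (norm_nonneg _) hX0.le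
      have a2 := mul_le_mul (hy j) h3 (norm_nonneg _) hY
      have a3 : Y * ((2 ^ k - 1) * X ^ k * Y) ≤ 4 ^ k * X ^ (k + 1) * Y ^ 2 := by
        have b1 : (2 ^ k - 1 : ℝ) * X ^ k ≤ 4 ^ k * X ^ (k + 1) :=
          mul_le_mul (by linarith) hk hXk.le (by positivity)
        calc Y * ((2 ^ k - 1) * X ^ k * Y) = ((2 ^ k - 1) * X ^ k) * Y ^ 2 := by ring
          _ ≤ 4 ^ k * X ^ (k + 1) * Y ^ 2 := mul_le_mul_of_nonneg_right b1 (by positivity)
      have a4 : 4 ^ (k + 1) * X ^ (k + 1) * Y ^ 2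
          = X * (4 ^ k * X ^ k * Y ^ 2) + 3 * (4 ^ k * X ^ (k + 1) * Y ^ 2) := by ring
      have a5 : 0 ≤ 4 ^ k * X ^ (k + 1) * Y ^ 2 := by positivity
      linarith
    · -- difference of the derivatives
      have e : dmon (fun l => x l + y l) i (t + Pi.single j 1) - dmon x i (t + Pi.single j 1)
          = (if i = j then mon (fun l => x l + y l) t - mon x t else 0)
            + (x j + y j) * (dmon (fun l => x l + y l) i t - dmon x i t)
            + y j * dmon x i t := by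
        rw [ALR.dmon_succ, ALR.dmon_succ]
        split_ifs <;> ring
      rw [e]
      refine (norm_add_le _ _).trans ?_
      have a0 := norm_add_le (if i = j then mon (fun l => x l + y l) t - mon x t else 0)
        ((x j + y j) * (dmon (fun l => x l + y l) i t - dmon x i t))
      have a1 : ‖(if i = j then mon (fun l => x l + y l) t - mon x t else 0)‖
          ≤ (2 ^ k - 1) * X ^ k * Y := by
        split_ifs
        · exact h3
        · rw [norm_zero]
          have : (0 : ℝ) ≤ 2 ^ k - 1 := by linarith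
          positivity
      have a2 : ‖(x j + y j) * (dmon (fun l => x l + y l) i t - dmon x i t)‖
          ≤ (2 * X) * ((k : ℝ) * 4 ^ k * X ^ k * Y) := by
        rw [norm_mul]
        exact mul_le_mul hxj h5 (norm_nonneg _) (by linarith)
      have a3 : ‖y j * dmon x i t‖ ≤ Y * ((k : ℝ) * X ^ k) := by
        rw [norm_mul]
        exact mul_le_mul (hy j) h2 (norm_nonneg _) hY
      have b1 : (2 ^ k - 1) * X ^ k * Y ≤ 4 ^ k * X ^ (k + 1) * Y :=
        mul_le_mul_of_nonneg_right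
          (mul_le_mul (by linarith) hk hXk.le (by positivity)) hY
      have b2 : Y * ((k : ℝ) * X ^ k) ≤ 4 ^ k * X ^ (k + 1) * Y := by
        calc Y * ((k : ℝ) * X ^ k) = ((k : ℝ) * X ^ k) * Y := by ring
          _ ≤ 4 ^ k * X ^ (k + 1) * Y := mul_le_mul_of_nonneg_right
              (mul_le_mul (hk2.trans h24) hk hXk.le (by positivity)) hY
      push_cast
      have b3 : ((k : ℝ) + 1) * 4 ^ (k + 1) * X ^ (k + 1) * Y
          = 2 * ((2 * X) * ((k : ℝ) * 4 ^ k * X ^ k * Y)) + 4 * (4 ^ k * X ^ (k + 1) * Y) := by ring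
      have b4 : 0 ≤ (2 * X) * ((k : ℝ) * 4 ^ k * X ^ k * Y) := by positivity
      have b5 : 0 ≤ 4 ^ k * X ^ (k + 1) * Y := by positivity
      linarith

end monomials

private theorem nac_sum_bound {I : Type*} [Fintype I] (A B : I → ℂ) (a b : ℝ) (hA : ∀ m, ‖A m‖ ≤ a)
    (hB : ∀ m, ‖B m‖ ≤ b) : ‖∑ m, A m * B m‖ ≤ Fintype.card I * (a * b) := by
  calc ‖∑ m, A m * B m‖ ≤ ∑ m, ‖A m * B m‖ := norm_sum_le _ _
    _ ≤ ∑ _m : I, a * b := by
        refine Finset.sum_le_sum fun m _ => ?_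
        rw [norm_mul]
        exact mul_le_mul (hA m) (hB m) (norm_nonneg _) ((norm_nonneg _).trans (hA m))
    _ = Fintype.card I * (a * b) := by
        rw [Finset.sum_const, nsmul_eq_mul, Finset.card_univ]


section general

theorem Fg_norm_le {I ι : Type*} [Fintype I] [Fintype ι] (e : I → ι → ℕ) (dd : ℕ)
    (he : ∀ t, ∑ i, e t i ≤ dd) (A : I → ℂ) (x : ι → ℂ) (a X : ℝ) (hX : 1 ≤ X)
    (hA : ∀ m, ‖A m‖ ≤ a) (hx : ∀ i, ‖x i‖ ≤ X) :
    ‖Fg e A x‖ ≤ Fintype.card I * a * X ^ dd := by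
  classical
  rw [mul_assoc]
  exact nac_sum_bound A _ a _ hA fun m =>
    (nac_mon_norm_le x X hX hx (e m)).trans (pow_le_pow_right₀ hX (he m))

theorem Dg_norm_le {I ι : Type*} [Fintype I] [Fintype ι] [DecidableEq ι] (e : I → ι → ℕ) (dd : ℕ)
    (he : ∀ t, ∑ i, e t i ≤ dd) (A : I → ℂ) (x : ι → ℂ) (j : ι) (a X : ℝ) (hX : 1 ≤ X)
    (hA : ∀ m, ‖A m‖ ≤ a) (hx : ∀ i, ‖x i‖ ≤ X) :
    ‖Dg e A x j‖ ≤ Fintype.card I * dd * a * X ^ dd := by
  have h := nac_sum_bound A (fun m => dmon x j (e m)) a ((dd : ℝ) * X ^ dd) hA fun m =>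
    (nac_dmon_norm_le x j X hX hx (e m)).trans
      (mul_le_mul (by exact_mod_cast he m) (pow_le_pow_right₀ hX (he m)) (by positivity)
        (by positivity))
  calc ‖Dg e A x j‖ ≤ Fintype.card I * (a * ((dd : ℝ) * X ^ dd)) := h
    _ = Fintype.card I * dd * a * X ^ dd := by ring

theorem FgC_taylor {I ι : Type*} [Fintype I] [Fintype ι] [DecidableEq ι] (e : I → ι → ℕ) (dd : ℕ)
    (he : ∀ t, ∑ i, e t i ≤ dd) (A : I → ℂ) (x y : ι → ℂ) (a X Y : ℝ) (hX : 1 ≤ X) (hY : 0 ≤ Y)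
    (hYX : Y ≤ X) (hA : ∀ m, ‖A m‖ ≤ a) (hx : ∀ i, ‖x i‖ ≤ X) (hy : ∀ i, ‖y i‖ ≤ Y) :
    ‖Fg e A (fun i => x i + y i) - Fg e A x - ∑ j, Dg e A x j * y j‖ ≤
      Fintype.card I * 4 ^ dd * a * X ^ dd * Y ^ 2 := by
  rcases isEmpty_or_nonempty ι with hι | ⟨⟨i0⟩⟩
  · have e1 : ∀ m, e m = 0 := fun m => funext fun i => (hι.false i).elim
    have e2 : Fg e A (fun i => x i + y i) = Fg e A x := by
      unfold Fg
      simp [e1, ALR.mon_zero]
    rw [e2, sub_self, zero_sub, norm_neg]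
    simp only [Finset.univ_eq_empty, Finset.sum_empty, norm_zero]
    rcases isEmpty_or_nonempty I with hI | ⟨⟨m0⟩⟩
    · simp
    · have : 0 ≤ a := (norm_nonneg _).trans (hA m0)
      positivity
  · have h := nac_sum_bound A
      (fun m => mon (fun l => x l + y l) (e m) - mon x (e m) - ∑ j, dmon x j (e m) * y j) a
      (4 ^ dd * X ^ dd * Y ^ 2) hA fun m =>
        (nac_diffs x y i0 X Y hX hY hYX hx hy (e m)).1.trans
        (mul_le_mul_of_nonneg_right (mul_le_mul (pow_le_pow_right₀ (by norm_num) (he m))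
          (pow_le_pow_right₀ hX (he m)) (by positivity) (by positivity)) (by positivity))
    have e1 : Fg e A (fun i => x i + y i) - Fg e A x - ∑ j, Dg e A x j * y j
        = ∑ m, A m * (mon (fun l => x l + y l) (e m) - mon x (e m)
          - ∑ j, dmon x j (e m) * y j) := by
      unfold Fg Dg
      have e2 : ∑ j, (∑ t, A t * dmon x j (e t)) * y j
          = ∑ t, A t * ∑ j, dmon x j (e t) * y j := by
        simp_rw [Finset.sum_mul, Finset.mul_sum]
        rw [Finset.sum_comm]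
        refine Finset.sum_congr rfl fun t _ => Finset.sum_congr rfl fun j _ => by ring
      rw [e2, ← Finset.sum_sub_distrib, ← Finset.sum_sub_distrib]
      refine Finset.sum_congr rfl fun t _ => by ring
    rw [e1]
    refine h.trans (le_of_eq ?_)
    ring

theorem DgC_taylor {I ι : Type*} [Fintype I] [Fintype ι] [DecidableEq ι] (e : I → ι → ℕ) (dd : ℕ)
    (he : ∀ t, ∑ i, e t i ≤ dd) (A : I → ℂ) (x y : ι → ℂ) (j : ι) (a X Y : ℝ) (hX : 1 ≤ X)
    (hY : 0 ≤ Y) (hYX : Y ≤ X) (hA : ∀ m, ‖A m‖ ≤ a) (hx : ∀ i, ‖x i‖ ≤ X) (hy : ∀ i, ‖y i‖ ≤ Y) :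
    ‖Dg e A (fun i => x i + y i) j - Dg e A x j‖ ≤
      Fintype.card I * dd * 4 ^ dd * a * X ^ dd * Y := by
  have h := nac_sum_bound A (fun m => dmon (fun l => x l + y l) j (e m) - dmon x j (e m)) a
    ((dd : ℝ) * 4 ^ dd * X ^ dd * Y) hA fun m =>
      (nac_diffs x y j X Y hX hY hYX hx hy (e m)).2.trans
      (mul_le_mul_of_nonneg_right (mul_le_mul (mul_le_mul (by exact_mod_cast he m)
        (pow_le_pow_right₀ (by norm_num) (he m)) (by positivity) (by positivity))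
        (pow_le_pow_right₀ hX (he m)) (by positivity) (by positivity)) hY)
  have e1 : Dg e A (fun i => x i + y i) j - Dg e A x j
      = ∑ m, A m * (dmon (fun l => x l + y l) j (e m) - dmon x j (e m)) := by
    unfold Dg
    rw [← Finset.sum_sub_distrib]
    refine Finset.sum_congr rfl fun t _ => by ring
  rw [e1]
  refine h.trans (le_of_eq ?_)
  ring

end general

section multi
variable {ι : Type} [Fintype ι] [DecidableEq ι] {n d : ι → ℕ}

theorem MFC_norm_le (A : MIdx n d → ℂ) (z : MVar n → ℂ) (a X : ℝ) (hX : 1 ≤ X)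
    (hA : ∀ t, ‖A t‖ ≤ a) (hz : ∀ v, ‖z v‖ ≤ X) : ‖MF A z‖ ≤ NM n d * a * X ^ (∑ i, d i) :=
  Fg_norm_le mex (∑ i, d i) (fun t => (mex_sum t).le) A z a X hX hA hz

theorem MDC_norm_le (A : MIdx n d → ℂ) (z : MVar n → ℂ) (v : MVar n) (a X : ℝ) (hX : 1 ≤ X)
    (hA : ∀ t, ‖A t‖ ≤ a) (hz : ∀ v, ‖z v‖ ≤ X) :
    ‖MD A z v‖ ≤ NM n d * (∑ i, d i : ℕ) * a * X ^ (∑ i, d i) :=
  Dg_norm_le mex (∑ i, d i) (fun t => (mex_sum t).le) A z v a X hX hA hz

theorem MFC_taylor (A : MIdx n d → ℂ) (z y : MVar n → ℂ) (a X Y : ℝ) (hX : 1 ≤ X) (hY : 0 ≤ Y)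
    (hYX : Y ≤ X) (hA : ∀ t, ‖A t‖ ≤ a) (hz : ∀ v, ‖z v‖ ≤ X) (hy : ∀ v, ‖y v‖ ≤ Y) :
    ‖MF A (fun v => z v + y v) - MF A z - ∑ v, MD A z v * y v‖ ≤
      NM n d * 4 ^ (∑ i, d i) * a * X ^ (∑ i, d i) * Y ^ 2 :=
  FgC_taylor mex (∑ i, d i) (fun t => (mex_sum t).le) A z y a X Y hX hY hYX hA hz hy

theorem MDC_taylor (A : MIdx n d → ℂ) (z y : MVar n → ℂ) (v : MVar n) (a X Y : ℝ) (hX : 1 ≤ X)
    (hY : 0 ≤ Y) (hYX : Y ≤ X) (hA : ∀ t, ‖A t‖ ≤ a) (hz : ∀ v, ‖z v‖ ≤ X)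
    (hy : ∀ v, ‖y v‖ ≤ Y) :
    ‖MD A (fun v => z v + y v) v - MD A z v‖ ≤
      NM n d * (∑ i, d i : ℕ) * 4 ^ (∑ i, d i) * a * X ^ (∑ i, d i) * Y :=
  DgC_taylor mex (∑ i, d i) (fun t => (mex_sum t).le) A z y v a X Y hX hY hYX hA hz hy

/-- Lipschitz bound for the value -/
theorem MFC_lip (A : MIdx n d → ℂ) (z y : MVar n → ℂ) (a X Y : ℝ) (hX : 1 ≤ X) (hY : 0 ≤ Y)
    (hYX : Y ≤ X) (hA : ∀ t, ‖A t‖ ≤ a) (hz : ∀ v, ‖z v‖ ≤ X) (hy : ∀ v, ‖y v‖ ≤ Y) :
    ‖MF A (fun v => z v + y v) - MF A z‖ ≤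
      NM n d * (Fintype.card (MVar n) * (∑ i, d i : ℕ) + 4 ^ (∑ i, d i) * X) * a *
        X ^ (∑ i, d i) * Y := by
  have ha : 0 ≤ a := by
    have h1 : 0 < Fintype.card (MIdx n d) := NM_pos n d
    obtain ⟨t⟩ := Fintype.card_pos_iff.mp h1
    exact (norm_nonneg _).trans (hA t)
  have h1 := MFC_taylor A z y a X Y hX hY hYX hA hz hy
  have h2 : ‖∑ v, MD A z v * y v‖ ≤
      Fintype.card (MVar n) * ((NM n d * (∑ i, d i : ℕ) * a * X ^ (∑ i, d i)) * Y) :=
    nac_sum_bound (fun v => MD A z v) y _ Y (fun v => MDC_norm_le A z v a X hX hA hz) hy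
  have h3 : Y ^ 2 ≤ X * Y := by
    rw [sq]
    exact mul_le_mul_of_nonneg_right hYX hY
  have h4 : (NM n d : ℝ) * 4 ^ (∑ i, d i) * a * X ^ (∑ i, d i) * Y ^ 2 ≤
      NM n d * 4 ^ (∑ i, d i) * a * X ^ (∑ i, d i) * (X * Y) :=
    mul_le_mul_of_nonneg_left h3 (by positivity)
  have h5 : MF A (fun v => z v + y v) - MF A z =
      (MF A (fun v => z v + y v) - MF A z - ∑ v, MD A z v * y v) + ∑ v, MD A z v * y v := by ring
  rw [h5]
  refine (norm_add_le _ _).trans ((add_le_add (h1.trans h4) h2).trans (le_of_eq ?_))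
  ring

end multi

end NKPHP
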