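import Pool.Agent.Lib.MP_e426f4_ag.NKP.Defs2
import Pool.Agent.Lib.MP_e426f4_ag.N.Const
import Pool.Agent.Lib.MP_e426f4_ag.N.HensLocal

/-!
NKP-Approx: unimodular vectors over `𝓞 K` in given residue classes and near given points at all infinite places.

TEMPLATE (over ℤ): M/Approx.lean (exists_prim_approx); the primitivity over 𝓞 K is achieved differently:
PROOF. W = primorial w, Q = W^(2k) (as an element of 𝓞 K). (1) CRT (Ideal.quotientInfRingEquivPiQuotient / Ideal.exists_forall_sub_mem_ideal or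
`IsDedekindDomain.exists_forall_sub_mem_ideal` for the finite set of maximal ideals containing W, which is finite: Ideal.finite_factors / the primes dividing span {W}; N/HensLocal.lean contains the
same CRT for hens_of_local, see its private lemmas): ys a with ys a - yp P a ∈ P ^ (2 k vW W P) for all maximal P containing W.
(2) T natural, large; y' a = ys a + Q * rnd a with rnd a ∈ 𝓞 K, ‖sg w' (rnd a) - (T eta w' a - sg w' (ys a)) / Q‖ <= cK (exists_round; the family is RV by PtI), so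
‖sg w' (y' a) - T eta w' a‖ <= cK Q for all w'. Q ∈ P^(2 k vW): W ∈ P^(vW W P) (definition of vW: multiplicity; see N/HensLocal).
(3) Some y' a1 ≠ 0 (T > cK Q, a1 with ‖eta w' a1‖ = 1); a2 ≠ a1 another index (m >= 1). N1 = |Algebra.norm ℤ (y' a1)| > 0; N1 = N_W * N2, N2 coprime to W, all primes of N_W divide W (e.g.
Nat.factorization; or N2 = N1 / gcd (N1, W^N1)). Choose M > 0 natural, M ≡ 1 mod W^(2k), M ≡ 0 mod N2 (Nat.chineseRemainder).
y a = M y' a (a ≠ a2), y a2 = M y' a2 + Q, N = M * T.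
(4) Prim y: otherwise the ideal span (range y) is contained in a maximal P (Ideal.exists_le_maximal). If W ∈ P: y a ≡ y' a ≡ yp P a mod P, contradiction with hyp. If W ∉ P:
M y' a1 ∈ P; if y' a1 ∈ P then N1 ∈ P (y' a1 divides its norm in 𝓞 K: Algebra.norm, `Algebra.dvd_norm`-type lemma or Ideal.absNorm_mem / Ideal.absNorm_mem of span), so N2 ∈ P (the primes of N_W divide W, W ∉ P) and M ∈ P;
so M ∈ P in both cases, hence Q = y a2 - M y' a2 ∈ P, W ∈ P: contradiction. Prim from span = ⊤ (Ideal.mem_span_range_iff_exists_fun).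
(5) y a - yp P a = (M - 1) y' a + (y' a - yp P a) [+ Q] ∈ P^(2 k vW). (6) ‖sg w' (y a) / N - eta w' a‖ <= (cK Q + Q / M) / T <= delta for T large. N > 0.
-/

set_option linter.unusedSectionVars false

namespace NKPHP

open NumberField GenHP NFHP NKHP Finset

variable {K : Type} [Field K] [NumberField K]

private theorem ap_prime (P : Ideal (𝓞 K)) (hP : P.IsPrime) (n : ℕ) (hn : 0 < n)
    (h : (n : 𝓞 K) ∈ P) : ∃ q : ℕ, q.Prime ∧ q ∣ n ∧ (q : 𝓞 K) ∈ P := by
  induction n using Nat.strong_induction_on with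
  | _ n ih =>
    rcases Nat.lt_or_ge 1 n with h1 | h1
    · obtain ⟨q, hq, m, rfl⟩ := Nat.exists_prime_and_dvd (n := n) (by omega)
      rw [Nat.cast_mul] at h
      rcases hP.mem_or_mem h with h2 | h2
      · exact ⟨q, hq, dvd_mul_right _ _, h2⟩
      · have hm : 0 < m := Nat.pos_of_ne_zero (by rintro rfl; simp at hn)
        have hlt : m < q * m := by
          have := hq.two_le
          nlinarith
        obtain ⟨q', hq', hd, hm'⟩ := ih m hlt hm h2
        exact ⟨q', hq', hd.mul_left _, hm'⟩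
    · have : n = 1 := by omega
      rw [this, Nat.cast_one] at h
      exact absurd ((Ideal.eq_top_iff_one _).2 h) hP.ne_top

/-- a natural number `M ≡ 1` modulo `Q` which lies in all prime ideals containing `z` but not `W` -/
private theorem ap_M (W k : ℕ) (hW : 0 < W) (z : 𝓞 K) (hz : z ≠ 0) :
    ∃ M : ℕ, 0 < M ∧ ((W ^ (2 * k) : ℕ) : 𝓞 K) ∣ (M : 𝓞 K) - 1 ∧
      ∀ P : Ideal (𝓞 K), P.IsPrime → (W : 𝓞 K) ∉ P → z ∈ P → (M : 𝓞 K) ∈ P := by
  classical
  obtain ⟨N1, hN1⟩ : ∃ N1 : ℕ, N1 = Ideal.absNorm (Ideal.span {z}) := ⟨_, rfl⟩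
  have hN1pos : 0 < N1 := by
    rw [hN1]
    apply Nat.pos_of_ne_zero
    rw [Ne, Ideal.absNorm_eq_zero_iff, Ideal.span_singleton_eq_bot]
    exact hz
  have hN1mem : (N1 : 𝓞 K) ∈ Ideal.span {z} := by
    rw [hN1]
    exact Ideal.absNorm_mem _
  obtain ⟨N2, hN2⟩ : ∃ N2 : ℕ, N2 = ∏ q ∈ N1.primeFactors.filter (fun q => ¬ q ∣ W), q := ⟨_, rfl⟩
  have hcop : Nat.Coprime (W ^ (2 * k)) N2 := by
    rw [hN2]
    apply Nat.Coprime.prod_right
    intro q hq
    rw [Finset.mem_filter] at hq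
    apply Nat.Coprime.pow_left
    rw [Nat.coprime_comm]
    exact (Nat.Prime.coprime_iff_not_dvd (Nat.prime_of_mem_primeFactors hq.1)).2 hq.2
  obtain ⟨M0, h1, h2⟩ := Nat.chineseRemainder hcop 1 0
  have hQ0 : 0 < W ^ (2 * k) := by positivity
  have hN20 : 0 < N2 := by
    rw [hN2]
    apply Finset.prod_pos
    intro q hq
    rw [Finset.mem_filter] at hq
    exact (Nat.prime_of_mem_primeFactors hq.1).pos
  refine ⟨M0 + W ^ (2 * k) * N2, by positivity, ?_, ?_⟩
  · have h3 : ((W ^ (2 * k) : ℕ) : ℤ) ∣ (M0 : ℤ) - 1 := by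
      have := (Nat.modEq_iff_dvd.1 h1.symm)
      simpa using this
    obtain ⟨c, hc⟩ := h3
    refine ⟨(c : 𝓞 K) + (N2 : 𝓞 K), ?_⟩
    have h4 : (M0 : 𝓞 K) - 1 = ((W ^ (2 * k) : ℕ) : 𝓞 K) * (c : 𝓞 K) := by
      have := congrArg (fun x : ℤ => (x : 𝓞 K)) hc
      simpa using this
    push_cast at h4 ⊢
    linear_combination h4
  · intro P hP hWP hzP
    have hN1P : (N1 : 𝓞 K) ∈ P :=
      (Ideal.span_singleton_le_iff_mem _).2 hzP hN1mem
    obtain ⟨q, hq, hqd, hqP⟩ := ap_prime P hP N1 hN1pos hN1P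
    have hqW : ¬ q ∣ W := by
      rintro ⟨c, hc⟩
      apply hWP
      rw [hc, Nat.cast_mul]
      exact Ideal.mul_mem_right _ _ hqP
    have hqN2 : q ∣ N2 := by
      rw [hN2]
      apply Finset.dvd_prod_of_mem (fun q : ℕ => q)
      rw [Finset.mem_filter, Nat.mem_primeFactors]
      exact ⟨⟨hq, hqd, hN1pos.ne'⟩, hqW⟩
    have h3 : N2 ∣ M0 := (Nat.modEq_zero_iff_dvd).1 h2
    have h4 : q ∣ M0 + W ^ (2 * k) * N2 :=
      dvd_add (hqN2.trans h3) (hqN2.mul_left _)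
    obtain ⟨c, hc⟩ := h4
    rw [hc, Nat.cast_mul]
    exact Ideal.mul_mem_right _ _ hqP

/-- simultaneous congruences modulo powers of the primes containing `W` -/
private theorem ap_crt (W : ℕ) (hW : 0 < W) (e : Ideal (𝓞 K) → ℕ) (f : Ideal (𝓞 K) → 𝓞 K) :
    ∃ y : 𝓞 K, ∀ P : Ideal (𝓞 K), P.IsMaximal → (W : 𝓞 K) ∈ P → y - f P ∈ P ^ e P := by
  classical
  have hWne : (W : 𝓞 K) ≠ 0 := by exact_mod_cast hW.ne'
  obtain ⟨Wi, hWi⟩ : ∃ Wi : Ideal (𝓞 K), Wi = Ideal.span {(W : 𝓞 K)} := ⟨_, rfl⟩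
  have hWi0 : Wi ≠ ⊥ := by
    rw [hWi, Ne, Ideal.span_singleton_eq_bot]
    exact hWne
  obtain ⟨S, hS⟩ : ∃ S : Finset (Ideal (𝓞 K)),
    S = (UniqueFactorizationMonoid.normalizedFactors Wi).toFinset := ⟨_, rfl⟩
  have hSmem : ∀ P, P ∈ S ↔ P.IsPrime ∧ Wi ≤ P := fun P => by
    rw [hS, Multiset.mem_toFinset, Ideal.mem_normalizedFactors_iff hWi0]
  have hSbot : ∀ P ∈ S, P ≠ ⊥ := by
    intro P hP h0
    have := ((hSmem P).1 hP).2
    rw [h0] at this
    exact hWi0 (le_bot_iff.1 this)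
  have hSprime : ∀ P ∈ S, Prime P := fun P hP =>
    Ideal.prime_of_isPrime (hSbot P hP) ((hSmem P).1 hP).1
  have hSof : ∀ P : Ideal (𝓞 K), P.IsMaximal → (W : 𝓞 K) ∈ P → P ∈ S := fun P hP h => by
    rw [hSmem]
    refine ⟨hP.isPrime, ?_⟩
    rw [hWi, Ideal.span_singleton_le_iff_mem]
    exact h
  obtain ⟨y, hy⟩ := IsDedekindDomain.exists_forall_sub_mem_ideal (s := S)
    (fun P : Ideal (𝓞 K) => P) e hSprime (fun i _ j _ h => h) (fun P => f P)
  exact ⟨y, fun P hP h => hy P (hSof P hP h)⟩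

private theorem ap_Q (W k : ℕ) (hW : 0 < W) (P : Ideal (𝓞 K)) (hP : P.IsMaximal)
    (h : (W : 𝓞 K) ∈ P) : ((W ^ (2 * k) : ℕ) : 𝓞 K) ∈ P ^ (2 * (k * vW W P)) ∧ 1 ≤ vW W P := by
  have hWne : (W : 𝓞 K) ≠ 0 := by exact_mod_cast hW.ne'
  have hP0 : P ≠ ⊥ := by
    rintro rfl
    exact hWne (by simpa using h)
  have hPp : Prime P := Ideal.prime_of_isPrime hP0 hP.isPrime
  have hfin : FiniteMultiplicity P (Ideal.span {(W : 𝓞 K)}) :=
    FiniteMultiplicity.of_prime_left hPp (by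
      rw [Ne, Ideal.zero_eq_bot, Ideal.span_singleton_eq_bot]
      exact hWne)
  have h1 : P ^ vW W P ∣ Ideal.span {(W : 𝓞 K)} := pow_multiplicity_dvd _ _
  have h2 : (W : 𝓞 K) ∈ P ^ vW W P := Ideal.dvd_span_singleton.1 h1
  refine ⟨?_, ?_⟩
  · have h3 := Ideal.pow_mem_pow h2 (2 * k)
    rw [← pow_mul] at h3
    rw [Nat.cast_pow]
    have h4 : vW W P * (2 * k) = 2 * (k * vW W P) := by ring
    rwa [h4] at h3
  · unfold vW
    rw [Nat.one_le_iff_ne_zero]
    intro h3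
    rw [multiplicity_eq_zero] at h3
    exact h3 (Ideal.dvd_span_singleton.2 h)

theorem exists_prim_approx (w k m : ℕ) (hw : 2 ≤ w) (hk : 1 ≤ k) (hm : 1 ≤ m)
    (yp : Ideal (𝓞 K) → Fin (m + 1) → 𝓞 K)
    (hyp : ∀ P : Ideal (𝓞 K), P.IsMaximal → (primorial w : 𝓞 K) ∈ P → ∃ a, yp P a ∉ P)
    (eta : InfinitePlace K → Fin (m + 1) → ℂ) (heta : ∀ w', PtI w' (eta w')) (delta : ℝ)
    (hdel : 0 < delta) :
    ∃ (y : Fin (m + 1) → 𝓞 K) (N : ℕ), 0 < N ∧ Prim y ∧
      (∀ P : Ideal (𝓞 K), P.IsMaximal → (primorial w : 𝓞 K) ∈ P →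
        ∀ a, y a - yp P a ∈ P ^ (2 * (k * vW (primorial w) P))) ∧
      ∀ w' a, ‖sg w' (y a) / N - eta w' a‖ ≤ delta := by
  classical
  obtain ⟨W, hWdef⟩ : ∃ W : ℕ, W = primorial w := ⟨_, rfl⟩
  rw [← hWdef] at hyp ⊢
  have hW0 : 0 < W := by rw [hWdef]; exact primorial_pos w
  obtain ⟨Q, hQ⟩ : ∃ Q : ℕ, Q = W ^ (2 * k) := ⟨_, rfl⟩
  have hQ0 : 0 < Q := by rw [hQ]; positivity
  have hQr : (0 : ℝ) < Q := by exact_mod_cast hQ0
  have hQc : (Q : ℂ) ≠ 0 := by exact_mod_cast hQ0.ne'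
  have hQP : ∀ P : Ideal (𝓞 K), P.IsMaximal → (W : 𝓞 K) ∈ P →
      (Q : 𝓞 K) ∈ P ^ (2 * (k * vW W P)) := fun P hP h => by
    rw [hQ]; exact (ap_Q W k hW0 P hP h).1
  have hvP : ∀ P : Ideal (𝓞 K), P.IsMaximal → (W : 𝓞 K) ∈ P →
      P ^ (2 * (k * vW W P)) ≤ P := fun P hP h => by
    have h1 := (ap_Q W k hW0 P hP h).2
    apply Ideal.pow_le_self
    have : 1 ≤ k * vW W P := Nat.one_le_iff_ne_zero.2 (by
      apply Nat.mul_ne_zero <;> omega)
    omega
  -- congruences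
  choose ys hys using fun a => ap_crt (K := K) W hW0 (fun P => 2 * (k * vW W P)) (fun P => yp P a)
  -- size
  obtain ⟨T, hT⟩ : ∃ T : ℕ, (cK K + 1) * Q + (cK K + 1) * Q / delta < T := exists_nat_gt _
  have hcK := cK_pos (K := K)
  have hT1 : (cK K + 1) * Q < T := by
    have : 0 < (cK K + 1) * Q / delta := by positivity
    linarith
  have hT2 : (cK K + 1) * Q / delta < T := by
    have : 0 < (cK K + 1) * Q := by positivity
    linarith
  have hTr : (0 : ℝ) < T := by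
    have : 0 < (cK K + 1) * Q := by positivity
    linarith
  have hT0 : 0 < T := by exact_mod_cast hTr
  have hrv : ∀ a, RV fun w' : InfinitePlace K => ((T : ℂ) * eta w' a - sg w' (ys a)) / (Q : ℂ) := by
    intro a
    have h1 : RV fun w' : InfinitePlace K => ((T : ℝ) : ℂ) := RV_ofReal fun _ => (T : ℝ)
    have h2 : RV fun w' : InfinitePlace K => ((Q : ℝ) : ℂ) := RV_ofReal fun _ => (Q : ℝ)
    have h3 : RV fun w' : InfinitePlace K => eta w' a := fun w' hw' => (heta w').1 hw' a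
    have h4 := RV_div (RV_sub (RV_mul h1 h3) (RV_sg (ys a))) h2
    simpa using h4
  choose rnd hrnd using fun a => exists_round (hrv a)
  obtain ⟨y', hy'⟩ : ∃ y' : Fin (m + 1) → 𝓞 K, ∀ a, y' a = ys a + (Q : 𝓞 K) * rnd a :=
    ⟨_, fun _ => rfl⟩
  have hy'1 : ∀ w' a, ‖sg w' (y' a) - T * eta w' a‖ ≤ cK K * Q := by
    intro w' a
    have h1 := hrnd a w'
    have h2 : sg w' (y' a) - T * eta w' a =
        (Q : ℂ) * (sg w' (rnd a) - ((T : ℂ) * eta w' a - sg w' (ys a)) / (Q : ℂ)) := by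
      rw [hy', map_add, map_mul, sg_natCast]
      field_simp
      ring
    rw [h2, norm_mul, Complex.norm_natCast, mul_comm]
    exact mul_le_mul_of_nonneg_right h1 hQr.le
  have hy'2 : ∀ P : Ideal (𝓞 K), P.IsMaximal → (W : 𝓞 K) ∈ P → ∀ a,
      y' a - yp P a ∈ P ^ (2 * (k * vW W P)) := by
    intro P hP h a
    have h2 : y' a - yp P a = (ys a - yp P a) + (Q : 𝓞 K) * rnd a := by
      rw [hy']; ring
    rw [h2]
    exact Ideal.add_mem _ (hys a P hP h) (Ideal.mul_mem_right _ _ (hQP P hP h))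
  -- two indices
  obtain ⟨w0⟩ : Nonempty (InfinitePlace K) := inferInstance
  obtain ⟨a1, ha1⟩ := (heta w0).2.2
  have hya1 : y' a1 ≠ 0 := by
    intro h0
    have h1 := hy'1 w0 a1
    rw [h0, map_zero, zero_sub, norm_neg, norm_mul, ha1, mul_one, Complex.norm_natCast] at h1
    nlinarith
  have : Nontrivial (Fin (m + 1)) := Fin.nontrivial_iff_two_le.2 (by omega)
  obtain ⟨a2, ha2⟩ := exists_ne a1
  obtain ⟨M, hM0, hM1, hM2⟩ := ap_M (K := K) W k hW0 (y' a1) hya1
  rw [← hQ] at hM1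
  have hMr : (1 : ℝ) ≤ M := by exact_mod_cast hM0
  obtain ⟨y, hy⟩ : ∃ y : Fin (m + 1) → 𝓞 K, ∀ a, y a = (M : 𝓞 K) * y' a +
      (if a = a2 then (Q : 𝓞 K) else 0) := ⟨_, fun _ => rfl⟩
  have hyP : ∀ P : Ideal (𝓞 K), P.IsMaximal → (W : 𝓞 K) ∈ P → ∀ a,
      y a - yp P a ∈ P ^ (2 * (k * vW W P)) := by
    intro P hP h a
    obtain ⟨c, hc⟩ := hM1
    have h2 : y a - yp P a = (y' a - yp P a) + (Q : 𝓞 K) * (c * y' a) +
        (if a = a2 then (Q : 𝓞 K) else 0) := by
      rw [hy]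
      linear_combination (y' a) * hc
    rw [h2]
    refine Ideal.add_mem _ (Ideal.add_mem _ (hy'2 P hP h a)
      (Ideal.mul_mem_right _ _ (hQP P hP h))) ?_
    split_ifs
    · exact hQP P hP h
    · exact Ideal.zero_mem _
  refine ⟨y, M * T, Nat.mul_pos hM0 hT0, ?_, hyP, ?_⟩
  · -- primitive
    have htop : Ideal.span (Set.range y) = ⊤ := by
      by_contra hne
      obtain ⟨P, hP, hle⟩ := Ideal.exists_le_maximal _ hne
      have hyin : ∀ a, y a ∈ P := fun a => hle (Ideal.subset_span ⟨a, rfl⟩)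
      by_cases hWP : (W : 𝓞 K) ∈ P
      · obtain ⟨a, ha⟩ := hyp P hP hWP
        apply ha
        have h1 := hvP P hP hWP (hyP P hP hWP a)
        have h2 : yp P a = y a - (y a - yp P a) := by ring
        rw [h2]
        exact Ideal.sub_mem _ (hyin a) h1
      · have h1 : (M : 𝓞 K) * y' a1 ∈ P := by
          have h2 := hyin a1
          rw [hy, if_neg (Ne.symm ha2), add_zero] at h2
          exact h2
        have hMP : (M : 𝓞 K) ∈ P := by
          rcases hP.isPrime.mem_or_mem h1 with h2 | h2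
          · exact h2
          · exact hM2 P hP.isPrime hWP h2
        have hQin : (Q : 𝓞 K) ∈ P := by
          have h2 := hyin a2
          rw [hy, if_pos rfl] at h2
          exact (Ideal.add_mem_iff_right _ (Ideal.mul_mem_right _ _ hMP)).1 h2
        rw [hQ, Nat.cast_pow] at hQin
        exact hWP (hP.isPrime.mem_of_pow_mem _ hQin)
    have h1 : (1 : 𝓞 K) ∈ Ideal.span (Set.range y) := by rw [htop]; exact Submodule.mem_top
    rw [Ideal.mem_span_range_iff_exists_fun] at h1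
    exact h1
  · intro w' a
    have hMc : (M : ℂ) ≠ 0 := by exact_mod_cast hM0.ne'
    have hTc : (T : ℂ) ≠ 0 := by exact_mod_cast hT0.ne'
    have h1 : sg w' (y a) / ((M * T : ℕ) : ℂ) - eta w' a =
        (sg w' (y' a) - T * eta w' a) / T + (if a = a2 then (Q : ℂ) else 0) / (M * T) := by
      rw [hy, map_add, map_mul, sg_natCast, apply_ite (sg w'), sg_natCast, map_zero]
      push_cast
      field_simp
      ring
    rw [h1]
    have h2 : ‖(sg w' (y' a) - T * eta w' a) / T‖ ≤ cK K * Q / T := by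
      rw [norm_div, Complex.norm_natCast]
      exact div_le_div_of_nonneg_right (hy'1 w' a) hTr.le
    have h3 : ‖(if a = a2 then (Q : ℂ) else 0) / ((M : ℂ) * T)‖ ≤ Q / T := by
      rw [norm_div, norm_mul, Complex.norm_natCast, Complex.norm_natCast]
      have h4 : ‖(if a = a2 then (Q : ℂ) else 0)‖ ≤ Q := by
        split_ifs
        · rw [Complex.norm_natCast]
        · rw [norm_zero]; exact hQr.le
      calc ‖(if a = a2 then (Q : ℂ) else 0)‖ / ((M : ℝ) * T) ≤ Q / ((M : ℝ) * T) :=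
            div_le_div_of_nonneg_right h4 (by positivity)
        _ ≤ Q / T := by
            apply div_le_div_of_nonneg_left hQr.le hTr
            nlinarith
    refine (norm_add_le _ _).trans ((add_le_add h2 h3).trans ?_)
    have h4 : cK K * Q / T + Q / T = (cK K + 1) * Q / T := by ring
    rw [h4, div_le_iff₀ hTr]
    rw [div_lt_iff₀ hdel] at hT2
    linarith

end NKPHP
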