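import Pool.Agent.Lib.MP_e426f4_ag.NKP.Defs
import Pool.Agent.Lib.MP_e426f4_ag.NK.AlgDep
import Pool.Agent.Lib.MP_e426f4_ag.CI.Basic

/-! Module NKP-Basic: the boxes of systems, the house ordering. -/

namespace NKPHP

open NumberField GenHP NFHP NKHP Finset Filter Topology
open CIPHP (PSys NP PJac blk pev)

section multi
variable {ι : Type} [Fintype ι] [DecidableEq ι]
variable {K : Type} [Field K] [NumberField K] {n : ι → ℕ} {r : ℕ} {d : Fin r → ι → ℕ}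

theorem BoxP_finite (H : ℝ) : (BoxP K n d H).Finite := by
  have h1 := Set.Finite.pi' (fun j : Fin r => Set.Finite.pi' (fun _ : MIdx n (d j) =>
    boxO_finite (K := K) H))
  exact h1

theorem card_BoxP (H : ℕ) : (BoxP K n d H).ncard = (2 * H + 1) ^ (mK K * NP n d) := by
  classical
  have h1 : (BoxP K n d H).ncard = ∏ j : Fin r, Set.ncard {a : MIdx n (d j) → 𝓞 K |
      ∀ t, a t ∈ {a : 𝓞 K | ∀ k, |(crd a k : ℝ)| ≤ H}} :=
    CIHP.ncard_pi (fun j : Fin r => {a : MIdx n (d j) → 𝓞 K |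
      ∀ t, a t ∈ {a : 𝓞 K | ∀ k, |(crd a k : ℝ)| ≤ H}}) (fun j => by
        have h2 := Set.Finite.pi' (fun _ : MIdx n (d j) => boxO_finite (K := K) H)
        exact h2)
  rw [h1]
  have h3 : ∀ j : Fin r, Set.ncard {a : MIdx n (d j) → 𝓞 K |
      ∀ t, a t ∈ {a : 𝓞 K | ∀ k, |(crd a k : ℝ)| ≤ H}} = (2 * H + 1) ^ (mK K * NM n (d j)) := by
    intro j
    rw [CIHP.ncard_pi (fun _ : MIdx n (d j) => {a : 𝓞 K | ∀ k, |(crd a k : ℝ)| ≤ H})
      (fun _ => boxO_finite (K := K) H)]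
    rw [card_boxO, Finset.prod_const, Finset.card_univ, ← pow_mul]
    rfl
  rw [Finset.prod_congr rfl fun j _ => h3 j, Finset.prod_pow_eq_pow_sum, ← Finset.mul_sum]
  rfl

theorem houseP_sub1 (H : ℕ) : HouseP K n d H ⊆ BoxP K n d (⌈cK K * (H : ℝ)⌉₊ : ℕ) := by
  intro A hA i t j
  exact (crd_le_of_norm_sg (hA i t) j).trans (Nat.le_ceil _)

theorem houseP_sub2 (H : ℕ) : BoxP K n d (⌊(H : ℝ) / cK K⌋₊ : ℕ) ⊆ HouseP K n d H := by
  intro A hA i t w
  have hc := cK_pos (K := K)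
  have h1 : (⌊(H : ℝ) / cK K⌋₊ : ℝ) ≤ (H : ℝ) / cK K := Nat.floor_le (by positivity)
  calc ‖sg w (A i t)‖ ≤ cK K * (⌊(H : ℝ) / cK K⌋₊ : ℝ) := norm_sg_le_of_crd (hA i t) w
    _ ≤ cK K * ((H : ℝ) / cK K) := mul_le_mul_of_nonneg_left h1 hc.le
    _ = H := by field_simp

theorem houseP_finite (H : ℝ) : (HouseP K n d H).Finite := by
  refine (BoxP_finite (cK K * H)).subset ?_
  intro A hA i t j
  exact crd_le_of_norm_sg (hA i t) j

theorem MF_mapK {R S : Type*} [CommRing R] [CommRing S] {d : ι → ℕ} (f : R →+* S)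
    (A : MIdx n d → R) (z : MVar n → R) :
    MF (fun t => f (A t)) (fun v => f (z v)) = f (MF A z) := by
  simp only [MF, Fg, mon, map_sum, map_mul, map_prod, map_pow]

end multi

end NKPHP
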