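import Pool.Agent.Lib.MP_e426f4_ag.NKP.Defs2
import Pool.Agent.Lib.MP_e426f4_ag.N.CubeCount
import Pool.Agent.Lib.MP_e426f4_ag.M.ClassCard
import Pool.Agent.Lib.MP_e426f4_ag.P.Alg

/-!
NKP-Box: boxes of vectors over `𝓞 K` with an arbitrary finite index type; classes modulo an ideal.

TEMPLATES: N/CubeCount (BoxK_finite, card_BoxK), N/Equi.lean (box_classes_le: the same proof with `Idx n d` replaced
by `I`), M/ClassCard (class_card), P/Alg (card_sigma_NP, the currying equivalence Equiv.piCurry as in P/PosProp).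

box_fin, box_card: product of the cubes {a | all |crd a j| <= H}, `cube_finite`, `ncard_cube`; for the exact number
(2H+1)^m use exists_crd / crd_ext as in `card_BoxK`.
box_classes: exactly as in N/Equi.lean (cube_count with `e = log 2 / (card I + 1)`).
class_cardK: `cube_count` for the ideal (Q) and each coordinate t: (1 - e)^(card I) >= 1 - eps, (1 + e)^(card I) <= 1 + eps for
e small; absNorm (span {Q}) = Q ^ mK K (private absNorm_nat in N/PadicCount: copy it); the class is a product over t.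
boxP_*: transport along A |-> fun x : Σ j, MIdx n (d j) => A x.1 x.2 (Equiv.piCurry), card_sigma_NP.
-/

set_option linter.unusedSectionVars false

namespace NKPHP

open NumberField GenHP NFHP NKHP Finset Filter Topology
open CIPHP (PSys NP PJac blk pev)

variable {K : Type} [Field K] [NumberField K]

private theorem bx_radius (N : ℕ) (eps : ℝ) (he : 0 < eps) :
    ∃ e0 : ℝ, 0 < e0 ∧ e0 ≤ 1 / 2 ∧ (1 + e0) ^ N ≤ 1 + eps ∧ 1 - eps ≤ (1 - e0) ^ N := by
  have h1 : Tendsto (fun t : ℝ => (1 + t) ^ N) (𝓝 0) (𝓝 1) := by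
    have : Tendsto (fun t : ℝ => (1 + t) ^ N) (𝓝 0) (𝓝 ((1 + 0) ^ N)) :=
      (tendsto_const_nhds.add tendsto_id).pow N
    simpa using this
  have h2 : Tendsto (fun t : ℝ => (1 - t) ^ N) (𝓝 0) (𝓝 1) := by
    have : Tendsto (fun t : ℝ => (1 - t) ^ N) (𝓝 0) (𝓝 ((1 - 0) ^ N)) :=
      (tendsto_const_nhds.sub tendsto_id).pow N
    simpa using this
  have e1 := h1.eventually (gt_mem_nhds (by linarith : (1 : ℝ) < 1 + eps))
  have e2 := h2.eventually (lt_mem_nhds (by linarith : (1 : ℝ) - eps < 1))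
  obtain ⟨δ, hδ, h⟩ := Metric.eventually_nhds_iff.mp (e1.and e2)
  refine ⟨min (δ / 2) (1 / 2), by positivity, min_le_right _ _, ?_⟩
  have hm : 0 < min (δ / 2) (1 / 2) := by positivity
  have h3 := h (y := min (δ / 2) (1 / 2)) (by
    rw [dist_zero_right, Real.norm_eq_abs, abs_of_pos hm]
    exact (min_le_left _ _).trans_lt (by linarith))
  exact ⟨h3.1.le, h3.2.le⟩

private theorem bx_absNorm_nat (M : ℕ) : Ideal.absNorm (Ideal.span {(M : 𝓞 K)}) = M ^ mK K := by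
  rw [Ideal.absNorm_span_singleton]
  have h1 : (M : 𝓞 K) = algebraMap ℤ (𝓞 K) (M : ℤ) := by simp
  rw [h1, Algebra.norm_algebraMap, RingOfIntegers.rank, Int.natAbs_pow, Int.natAbs_natCast]
  rfl

private theorem bx_pi (I : Type) [Fintype I] (S : I → Set (𝓞 K)) (hS : ∀ t, (S t).Finite) :
    {A : I → 𝓞 K | ∀ t, A t ∈ S t}.Finite ∧
      Set.ncard {A : I → 𝓞 K | ∀ t, A t ∈ S t} = ∏ t, (S t).ncard := by
  classical
  have e : {A : I → 𝓞 K | ∀ t, A t ∈ S t} =
      ((Fintype.piFinset fun t => (hS t).toFinset : Finset (I → 𝓞 K)) : Set (I → 𝓞 K)) := by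
    ext A
    rw [Finset.mem_coe, Fintype.mem_piFinset]
    exact forall_congr' fun t => (Set.Finite.mem_toFinset (hS t)).symm
  refine ⟨by rw [e]; exact Finset.finite_toSet _, ?_⟩
  rw [e, Set.ncard_coe_finset, Fintype.card_piFinset]
  exact Finset.prod_congr rfl fun t _ => (Set.ncard_eq_toFinset_card _ (hS t)).symm

private theorem bx_cube (H : ℕ) :
    Set.ncard {a : 𝓞 K | ∀ j, |(crd a j : ℝ)| ≤ (H : ℝ)} = (2 * H + 1) ^ mK K := by
  classical
  have h1 := ncard_cube (K := K) (fun _ => 0) (H : ℝ)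
  simp only [sub_zero] at h1
  rw [h1]
  unfold cubeF
  rw [Fintype.card_piFinset]
  have h2 : (Finset.Icc ⌈(0 : ℝ) - H⌉ ⌊(0 : ℝ) + H⌋).card = 2 * H + 1 := by
    rw [zero_sub, zero_add, Int.ceil_neg, Int.floor_natCast, Int.card_Icc]
    omega
  simp only [h2, Finset.prod_const, Finset.card_univ, card_IK]

theorem box_fin (I : Type) [Fintype I] (c : I → IK K → ℝ) (R : ℝ) :
    {A : I → 𝓞 K | ∀ t l, |(crd (A t) l : ℝ) - c t l| ≤ R}.Finite :=
  (bx_pi I (fun t => {a : 𝓞 K | ∀ l, |(crd a l : ℝ) - c t l| ≤ R})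
    fun t => cube_finite (c t) R).1

theorem box_card (K : Type) [Field K] [NumberField K] (I : Type) [Fintype I] (H : ℕ) :
    Set.ncard {A : I → 𝓞 K | ∀ t l, |(crd (A t) l : ℝ)| ≤ (H : ℝ)} =
      (2 * H + 1) ^ (mK K * Fintype.card I) := by
  have hf : {a : 𝓞 K | ∀ j, |(crd a j : ℝ)| ≤ (H : ℝ)}.Finite := by
    have := cube_finite (K := K) (fun _ => 0) (H : ℝ)
    simp only [sub_zero] at this
    exact this
  have h1 := (bx_pi I (fun _ => {a : 𝓞 K | ∀ l, |(crd a l : ℝ)| ≤ (H : ℝ)}) fun _ => hf).2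
  simp only [bx_cube, Finset.prod_const, Finset.card_univ] at h1
  rw [pow_mul]
  exact h1

/-- one class -/
private theorem bx_one (I : Type) [Fintype I] (b : Ideal (𝓞 K)) (C H : ℝ)
    (hfin : ∀ r : 𝓞 K, {a : 𝓞 K | a - r ∈ b ∧ ∀ j, |(crd a j : ℝ) - 0| ≤ H}.Finite)
    (hcard : ∀ r : 𝓞 K,
      (Set.ncard {a : 𝓞 K | a - r ∈ b ∧ ∀ j, |(crd a j : ℝ) - 0| ≤ H} : ℝ) ≤ C)
    (s : I → 𝓞 K ⧸ b) :
    {A : I → 𝓞 K | (∀ t l, |(crd (A t) l : ℝ)| ≤ H) ∧
      (fun t => Ideal.Quotient.mk b (A t)) = s}.Finite ∧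
    (Set.ncard {A : I → 𝓞 K | (∀ t l, |(crd (A t) l : ℝ)| ≤ H) ∧
      (fun t => Ideal.Quotient.mk b (A t)) = s} : ℝ) ≤ C ^ Fintype.card I := by
  classical
  have hr : ∀ t, ∃ r : 𝓞 K, Ideal.Quotient.mk b r = s t := fun t =>
    Ideal.Quotient.mk_surjective (s t)
  choose r hr using hr
  have e : {A : I → 𝓞 K | (∀ t l, |(crd (A t) l : ℝ)| ≤ H) ∧
      (fun t => Ideal.Quotient.mk b (A t)) = s} =
      {A : I → 𝓞 K | ∀ t, A t ∈ {a : 𝓞 K | a - r t ∈ b ∧ ∀ j, |(crd a j : ℝ) - 0| ≤ H}} := by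
    ext A
    constructor
    · rintro ⟨h1, h2⟩ t
      refine ⟨?_, fun l => ?_⟩
      · rw [← Ideal.Quotient.eq, hr t]
        exact congrFun h2 t
      · rw [sub_zero]
        exact h1 t l
    · intro h
      refine ⟨fun t l => ?_, ?_⟩
      · have h1 := (h t).2 l
        rwa [sub_zero] at h1
      · funext t
        have h1 := (h t).1
        rw [← Ideal.Quotient.eq, hr t] at h1
        exact h1
  have hpi := bx_pi I (fun t => {a : 𝓞 K | a - r t ∈ b ∧ ∀ j, |(crd a j : ℝ) - 0| ≤ H})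
    fun t => hfin (r t)
  rw [e]
  refine ⟨hpi.1, ?_⟩
  rw [hpi.2]
  push_cast
  calc ∏ t, (Set.ncard {a : 𝓞 K | a - r t ∈ b ∧ ∀ j, |(crd a j : ℝ) - 0| ≤ H} : ℝ)
      ≤ ∏ _t : I, C := Finset.prod_le_prod (fun t _ => Nat.cast_nonneg _) fun t _ => hcard (r t)
    _ = C ^ Fintype.card I := by rw [Finset.prod_const, Finset.card_univ]

/-- at most twice the expected proportion of the box lies in a union of classes -/
theorem box_classes (I : Type) [Fintype I] (b : Ideal (𝓞 K)) (hb : b ≠ ⊥)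
    (S : Set (I → 𝓞 K ⧸ b)) :
    ∀ᶠ H : ℕ in atTop,
      (Set.ncard {A : I → 𝓞 K | (∀ t l, |(crd (A t) l : ℝ)| ≤ (H : ℝ)) ∧
        (fun t => Ideal.Quotient.mk b (A t)) ∈ S} : ℝ) ≤
        2 * (S.ncard : ℝ) / (Ideal.absNorm b : ℝ) ^ Fintype.card I *
          (2 * H + 1) ^ (mK K * Fintype.card I) := by
  classical
  have hfinq : Finite (𝓞 K ⧸ b) := Ideal.finiteQuotientOfFreeOfNeBot b hb
  have hS : S.Finite := Set.toFinite S
  have hlog : 0 < Real.log 2 := Real.log_pos (by norm_num)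
  set e : ℝ := Real.log 2 / ((Fintype.card I : ℝ) + 1) with he
  have he0 : 0 < e := by positivity
  have he1 : (1 + e) ^ Fintype.card I ≤ 2 := by
    have h1 : 1 + e ≤ Real.exp e := by
      have := Real.add_one_le_exp e
      linarith
    calc (1 + e) ^ Fintype.card I ≤ Real.exp e ^ Fintype.card I :=
          pow_le_pow_left₀ (by positivity) h1 _
      _ = Real.exp (Fintype.card I * e) := by rw [← Real.exp_nat_mul]
      _ ≤ Real.exp (Real.log 2) := by
          apply Real.exp_le_exp.mpr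
          rw [he, ← mul_div_assoc, div_le_iff₀ (by positivity)]
          nlinarith
      _ = 2 := Real.exp_log (by norm_num)
  obtain ⟨R0, hR0, hR⟩ := cube_count b hb e he0
  have hN : (0 : ℝ) < Ideal.absNorm b := by exact_mod_cast absNorm_pos hb
  filter_upwards [eventually_ge_atTop ⌈R0⌉₊] with H hH
  have hH' : R0 ≤ (H : ℝ) := (Nat.le_ceil R0).trans (by exact_mod_cast hH)
  set C : ℝ := (1 + e) * ((2 * (H : ℝ)) ^ mK K / Ideal.absNorm b) with hC
  have hone := fun s : I → 𝓞 K ⧸ b => bx_one I b C H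
    (fun r => (hR H hH' (fun _ => 0) r).1) (fun r => (hR H hH' (fun _ => 0) r).2.2) s
  have hsub : {A : I → 𝓞 K | (∀ t l, |(crd (A t) l : ℝ)| ≤ (H : ℝ)) ∧
      (fun t => Ideal.Quotient.mk b (A t)) ∈ S} ⊆
      ⋃ s ∈ hS.toFinset, {A : I → 𝓞 K | (∀ t l, |(crd (A t) l : ℝ)| ≤ (H : ℝ)) ∧
        (fun t => Ideal.Quotient.mk b (A t)) = s} := by
    rintro A ⟨h1, h2⟩
    rw [Set.mem_iUnion₂]
    exact ⟨_, hS.mem_toFinset.mpr h2, h1, rfl⟩
  have h1 : (Set.ncard {A : I → 𝓞 K | (∀ t l, |(crd (A t) l : ℝ)| ≤ (H : ℝ)) ∧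
      (fun t => Ideal.Quotient.mk b (A t)) ∈ S} : ℝ) ≤ ∑ s ∈ hS.toFinset,
        (Set.ncard {A : I → 𝓞 K | (∀ t l, |(crd (A t) l : ℝ)| ≤ (H : ℝ)) ∧
          (fun t => Ideal.Quotient.mk b (A t)) = s} : ℝ) := by
    have h2 := Set.ncard_le_ncard hsub
      (Set.Finite.biUnion hS.toFinset.finite_toSet fun s _ => (hone s).1)
    have h3 := Finset.set_ncard_biUnion_le hS.toFinset
      (fun s => {A : I → 𝓞 K | (∀ t l, |(crd (A t) l : ℝ)| ≤ (H : ℝ)) ∧
        (fun t => Ideal.Quotient.mk b (A t)) = s})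
    exact_mod_cast h2.trans h3
  refine h1.trans ((Finset.sum_le_sum fun s _ => (hone s).2).trans ?_)
  rw [Finset.sum_const, ← Set.ncard_eq_toFinset_card S hS, nsmul_eq_mul]
  have h4 : C ^ Fintype.card I ≤ 2 * ((2 * (H : ℝ) + 1) ^ (mK K * Fintype.card I) /
      (Ideal.absNorm b : ℝ) ^ Fintype.card I) := by
    rw [hC, mul_pow, div_pow, ← pow_mul]
    have h5 : (2 * (H : ℝ)) ^ (mK K * Fintype.card I) ≤
        (2 * (H : ℝ) + 1) ^ (mK K * Fintype.card I) :=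
      pow_le_pow_left₀ (by positivity) (by linarith) _
    gcongr
  calc (S.ncard : ℝ) * C ^ Fintype.card I ≤
        (S.ncard : ℝ) * (2 * ((2 * (H : ℝ) + 1) ^ (mK K * Fintype.card I) /
        (Ideal.absNorm b : ℝ) ^ Fintype.card I)) :=
        mul_le_mul_of_nonneg_left h4 (Nat.cast_nonneg _)
    _ = _ := by ring

/-- the number of members of a class of vectors -/
theorem class_cardK (I : Type) [Fintype I] (c : I → IK K → ℝ) (A0 : I → 𝓞 K) (Q : ℕ)
    (hQ : 0 < Q) (r eps : ℝ) (hr : 0 < r) (he : 0 < eps) :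
    ∀ᶠ H : ℝ in atTop,
      (1 - eps) * (2 * r * H / Q) ^ (mK K * Fintype.card I) ≤
        (Set.ncard {A : I → 𝓞 K | (∀ t l, |(crd (A t) l : ℝ) - H * c t l| ≤ r * H) ∧
          ∀ t, (Q : 𝓞 K) ∣ A t - A0 t} : ℝ) ∧
      (Set.ncard {A : I → 𝓞 K | (∀ t l, |(crd (A t) l : ℝ) - H * c t l| ≤ r * H) ∧
          ∀ t, (Q : 𝓞 K) ∣ A t - A0 t} : ℝ) ≤
        (1 + eps) * (2 * r * H / Q) ^ (mK K * Fintype.card I) := by
  classical
  obtain ⟨b, hbdef⟩ : ∃ b : Ideal (𝓞 K), b = Ideal.span {(Q : 𝓞 K)} := ⟨_, rfl⟩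
  have hb : b ≠ ⊥ := by
    rw [hbdef, Ne, Ideal.span_singleton_eq_bot]
    exact_mod_cast hQ.ne'
  have hQ0 : (0 : ℝ) < Q := by exact_mod_cast hQ
  have hN : (Ideal.absNorm b : ℝ) = (Q : ℝ) ^ mK K := by
    rw [hbdef, bx_absNorm_nat]
    push_cast
    rfl
  obtain ⟨e, he0, he1, he2, he3⟩ := bx_radius (Fintype.card I) eps he
  obtain ⟨R0, hR0, hR⟩ := cube_count b hb e he0
  filter_upwards [eventually_ge_atTop (R0 / r), eventually_gt_atTop 0] with H hH hH0
  have hRH : R0 ≤ r * H := by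
    rw [div_le_iff₀ hr] at hH
    linarith
  have hpt := fun t : I => hR (r * H) hRH (fun l => H * c t l) (A0 t)
  have heq : {A : I → 𝓞 K | (∀ t l, |(crd (A t) l : ℝ) - H * c t l| ≤ r * H) ∧
      ∀ t, (Q : 𝓞 K) ∣ A t - A0 t} = {A : I → 𝓞 K | ∀ t, A t ∈
        {a : 𝓞 K | a - A0 t ∈ b ∧ ∀ j, |(crd a j : ℝ) - H * c t j| ≤ r * H}} := by
    ext A
    constructor
    · rintro ⟨h1, h2⟩ t
      refine ⟨?_, h1 t⟩
      rw [hbdef, Ideal.mem_span_singleton]
      exact h2 t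
    · intro h
      refine ⟨fun t => (h t).2, fun t => ?_⟩
      have h1 := (h t).1
      rw [hbdef, Ideal.mem_span_singleton] at h1
      exact h1
  have hpi := (bx_pi I (fun t => {a : 𝓞 K | a - A0 t ∈ b ∧
    ∀ j, |(crd a j : ℝ) - H * c t j| ≤ r * H}) fun t => (hpt t).1).2
  rw [heq, hpi]
  push_cast
  have hX : (2 * (r * H)) ^ mK K / (Ideal.absNorm b : ℝ) = (2 * r * H / Q) ^ mK K := by
    rw [hN, ← div_pow, mul_assoc]
  have hX0 : 0 ≤ (2 * r * H / Q) ^ mK K := by positivity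
  have hcu : (univ : Finset I).card = Fintype.card I := rfl
  constructor
  · calc (1 - eps) * (2 * r * H / Q) ^ (mK K * Fintype.card I)
        ≤ (1 - e) ^ Fintype.card I * (2 * r * H / Q) ^ (mK K * Fintype.card I) :=
          mul_le_mul_of_nonneg_right he3 (by positivity)
      _ = ∏ _t : I, ((1 - e) * (2 * r * H / Q) ^ mK K) := by
          rw [Finset.prod_const, hcu, mul_pow, ← pow_mul]
      _ ≤ ∏ t, (Set.ncard {a : 𝓞 K | a - A0 t ∈ b ∧
            ∀ j, |(crd a j : ℝ) - H * c t j| ≤ r * H} : ℝ) := by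
          refine Finset.prod_le_prod (fun _ _ => mul_nonneg (by linarith) hX0) fun t _ => ?_
          have h1 := (hpt t).2.1
          rwa [hX] at h1
  · calc ∏ t, (Set.ncard {a : 𝓞 K | a - A0 t ∈ b ∧
            ∀ j, |(crd a j : ℝ) - H * c t j| ≤ r * H} : ℝ)
        ≤ ∏ _t : I, ((1 + e) * (2 * r * H / Q) ^ mK K) := by
          refine Finset.prod_le_prod (fun _ _ => Nat.cast_nonneg _) fun t _ => ?_
          have h1 := (hpt t).2.2
          rwa [hX] at h1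
      _ = (1 + e) ^ Fintype.card I * (2 * r * H / Q) ^ (mK K * Fintype.card I) := by
          rw [Finset.prod_const, hcu, mul_pow, ← pow_mul]
      _ ≤ (1 + eps) * (2 * r * H / Q) ^ (mK K * Fintype.card I) :=
          mul_le_mul_of_nonneg_right he2 (by positivity)

section multi
variable {ι : Type} [Fintype ι] [DecidableEq ι] {n : ι → ℕ} {r : ℕ} {d : Fin r → ι → ℕ}

/-- systems as vectors -/
private def bxE (R : Type) : ((x : Σ j : Fin r, MIdx n (d j)) → R) ≃ PSys n d R :=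
  Equiv.piCurry (fun (j : Fin r) (_ : MIdx n (d j)) => R)

theorem boxP_fin (c : PSys n d (IK K → ℝ)) (R : ℝ) :
    {A : PSys n d (𝓞 K) | ∀ j t l, |(crd (A j t) l : ℝ) - c j t l| ≤ R}.Finite := by
  have h1 := (box_fin (K := K) (Σ j : Fin r, MIdx n (d j)) (fun x => c x.1 x.2) R).image
    (bxE (𝓞 K))
  refine h1.subset ?_
  intro A hA
  exact ⟨(bxE (𝓞 K)).symm A, fun x l => hA x.1 x.2 l, (bxE (𝓞 K)).apply_symm_apply A⟩

theorem boxP_finite (H : ℝ) (P : PSys n d (𝓞 K) → Prop) : {A | A ∈ BoxP K n d H ∧ P A}.Finite := by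
  refine (boxP_fin (K := K) (n := n) (d := d) (fun _ _ _ => 0) H).subset ?_
  rintro A ⟨hA, -⟩ j t l
  rw [sub_zero]
  exact hA j t l

theorem boxP_card (K : Type) [Field K] [NumberField K] (n : ι → ℕ) (d : Fin r → ι → ℕ) (H : ℕ) :
    (BoxP K n d H).ncard = (2 * H + 1) ^ (mK K * NP n d) := by
  have h1 := box_card K (Σ j : Fin r, MIdx n (d j)) H
  rw [CIPHP.card_sigma_NP] at h1
  rw [← h1, ← Set.ncard_image_of_injective _ (bxE (n := n) (d := d) (𝓞 K)).injective]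
  congr 1
  ext A
  constructor
  · intro hA
    exact ⟨(bxE (𝓞 K)).symm A, fun x l => hA x.1 x.2 l, (bxE (𝓞 K)).apply_symm_apply A⟩
  · rintro ⟨f, hf, rfl⟩ j t l
    exact hf ⟨j, t⟩ l

/-- at most twice the expected proportion of the box lies in a union of classes -/
theorem boxP_classes (b : Ideal (𝓞 K)) (hb : b ≠ ⊥) (S : Set (PSys n d (𝓞 K ⧸ b))) :
    ∀ᶠ H : ℕ in atTop,
      (Set.ncard {A : PSys n d (𝓞 K) | A ∈ BoxP K n d H ∧
        (fun j t => Ideal.Quotient.mk b (A j t)) ∈ S} : ℝ) ≤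
        2 * (S.ncard : ℝ) / (Ideal.absNorm b : ℝ) ^ NP n d * (2 * H + 1) ^ (mK K * NP n d) := by
  have h1 := box_classes (K := K) (Σ j : Fin r, MIdx n (d j)) b hb
    ((bxE (n := n) (d := d) (𝓞 K ⧸ b)).symm '' S)
  rw [Set.ncard_image_of_injective _ (bxE (n := n) (d := d) (𝓞 K ⧸ b)).symm.injective,
    CIPHP.card_sigma_NP] at h1
  filter_upwards [h1] with H hH
  refine le_trans (le_of_eq ?_) hH
  rw [← Set.ncard_image_of_injective {A : (Σ j : Fin r, MIdx n (d j)) → 𝓞 K |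
    (∀ t l, |(crd (A t) l : ℝ)| ≤ (H : ℝ)) ∧ (fun t => Ideal.Quotient.mk b (A t)) ∈
      (bxE (n := n) (d := d) (𝓞 K ⧸ b)).symm '' S} (bxE (n := n) (d := d) (𝓞 K)).injective]
  congr 2
  ext A
  constructor
  · rintro ⟨hA, hS⟩
    refine ⟨(bxE (𝓞 K)).symm A, ⟨fun x l => hA x.1 x.2 l, ?_⟩, (bxE (𝓞 K)).apply_symm_apply A⟩
    exact ⟨_, hS, rfl⟩
  · rintro ⟨f, ⟨hf, s, hs, hfs⟩, rfl⟩
    refine ⟨fun j t l => hf ⟨j, t⟩ l, ?_⟩
    have h2 : (fun j t => Ideal.Quotient.mk b (bxE (n := n) (d := d) (𝓞 K) f j t)) = s := by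
      funext j t
      have h3 := congrFun hfs ⟨j, t⟩
      exact h3.symm
    rw [h2]
    exact hs

end multi

end NKPHP
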