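import Pool.Agent.Lib.MP_e426f4_ag.NKP.Basic
import Pool.Agent.Lib.MP_e426f4_ag.N.CardCl
import Pool.Agent.Lib.MP_e426f4_ag.P.Alg

/-! Module NKP-ClassCard: the number of systems over `𝓞 K` in a residue class and a cube. -/

set_option linter.unusedSectionVars false

namespace NKPHP

open NumberField GenHP NFHP NKHP Finset Filter Topology
open CIPHP (PSys NP PJac blk pev)

variable {K : Type} [Field K] [NumberField K]

theorem classK_finite {I : Type} [Finite I] (c : I → IK K → ℝ) (r H : ℝ) (P : (I → 𝓞 K) → Prop) :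
    {A : I → 𝓞 K | (∀ t j, |(crd (A t) j : ℝ) - H * c t j| ≤ r * H) ∧ P A}.Finite :=
  (Set.Finite.pi' fun t => cube_finite (fun j => H * c t j) (r * H)).subset fun _ hA => hA.1

/-- number of integer vectors of a residue class in a cube -/
theorem classK_card {I : Type} [Fintype I] (c : I → IK K → ℝ) (A0 : I → 𝓞 K) (Q : ℕ)
    (hQ : 0 < Q) (r eps : ℝ) (hr : 0 < r) (he : 0 < eps) :
    ∀ᶠ H : ℝ in atTop,
      (1 - eps) * (2 * r * H / Q) ^ (mK K * Fintype.card I) ≤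
        (Set.ncard {A : I → 𝓞 K | (∀ t j, |(crd (A t) j : ℝ) - H * c t j| ≤ r * H) ∧
          ∀ t, (Q : 𝓞 K) ∣ A t - A0 t} : ℝ) ∧
      (Set.ncard {A : I → 𝓞 K | (∀ t j, |(crd (A t) j : ℝ) - H * c t j| ≤ r * H) ∧
          ∀ t, (Q : 𝓞 K) ∣ A t - A0 t} : ℝ) ≤
        (1 + eps) * (2 * r * H / Q) ^ (mK K * Fintype.card I) := by
  classical
  have hQ' : (0 : ℝ) < Q := by exact_mod_cast hQ
  obtain ⟨e0, he0, he1, he2, he3⟩ := exists_radius (Fintype.card I) (min eps 1) (by positivity)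
    (min_le_right _ _)
  have hb : Ideal.span {(Q : 𝓞 K)} ≠ ⊥ := by
    rw [Ne, Ideal.span_singleton_eq_bot]
    exact_mod_cast hQ.ne'
  obtain ⟨R0, hR0, hcc⟩ := cube_count (Ideal.span {(Q : 𝓞 K)}) hb e0 he0
  filter_upwards [eventually_ge_atTop (R0 / r), eventually_gt_atTop 0] with H hH hH0
  have hrH : R0 ≤ r * H := by
    rw [div_le_iff₀ hr] at hH
    linarith
  set S : I → Set (𝓞 K) := fun t => {a : 𝓞 K | a - A0 t ∈ Ideal.span {(Q : 𝓞 K)} ∧
      ∀ j, |(crd a j : ℝ) - (fun j => H * c t j) j| ≤ r * H} with hS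
  have hfin : ∀ t, (S t).Finite := fun t => (hcc (r * H) hrH (fun j => H * c t j) (A0 t)).1
  obtain ⟨V, hV⟩ : ∃ V : ℝ, V = (2 * (r * H)) ^ mK K /
    Ideal.absNorm (Ideal.span {(Q : 𝓞 K)}) := ⟨_, rfl⟩
  have hlo : ∀ t, (1 - e0) * V ≤ ((S t).ncard : ℝ) := fun t => by
    rw [hV]; exact (hcc (r * H) hrH (fun j => H * c t j) (A0 t)).2.1
  have hup : ∀ t, ((S t).ncard : ℝ) ≤ (1 + e0) * V := fun t => by
    rw [hV]; exact (hcc (r * H) hrH (fun j => H * c t j) (A0 t)).2.2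
  have hVQ : V = (2 * r * H / Q) ^ mK K := by
    rw [hV, cu_absNorm, div_pow]
    push_cast
    congr 1
    ring
  have hV0 : 0 < V := by rw [hVQ]; positivity
  have hXR : (2 * r * H / Q) ^ (mK K * Fintype.card I) = V ^ Fintype.card I := by
    rw [hVQ, ← pow_mul]
  have hcl : {A : I → 𝓞 K | (∀ t j, |(crd (A t) j : ℝ) - H * c t j| ≤ r * H) ∧
      ∀ t, (Q : 𝓞 K) ∣ A t - A0 t} = ↑(Fintype.piFinset fun t => (hfin t).toFinset) := by
    ext A
    simp only [Finset.mem_coe, Fintype.mem_piFinset, Set.Finite.mem_toFinset]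
    show ((∀ t j, |(crd (A t) j : ℝ) - H * c t j| ≤ r * H) ∧ ∀ t, (Q : 𝓞 K) ∣ A t - A0 t) ↔
      ∀ t, A t - A0 t ∈ Ideal.span {(Q : 𝓞 K)} ∧ ∀ j, |(crd (A t) j : ℝ) - H * c t j| ≤ r * H
    simp only [Ideal.mem_span_singleton]
    exact ⟨fun h t => ⟨h.2 t, h.1 t⟩, fun h => ⟨fun t => (h t).2, fun t => (h t).1⟩⟩
  have hcard : (Set.ncard {A : I → 𝓞 K | (∀ t j, |(crd (A t) j : ℝ) - H * c t j| ≤ r * H) ∧
      ∀ t, (Q : 𝓞 K) ∣ A t - A0 t} : ℝ) = ∏ t, ((S t).ncard : ℝ) := by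
    rw [hcl, Set.ncard_coe_finset, Fintype.card_piFinset]
    push_cast
    refine Finset.prod_congr rfl fun m _ => ?_
    rw [Set.ncard_eq_toFinset_card _ (hfin m)]
  have h20 : (univ : Finset I).card = Fintype.card I := rfl
  have hXR0 : 0 ≤ V ^ Fintype.card I := by positivity
  rw [hcard, hXR]
  constructor
  · calc (1 - eps) * V ^ Fintype.card I ≤ (1 - e0) ^ Fintype.card I * V ^ Fintype.card I := by
          refine mul_le_mul_of_nonneg_right ?_ hXR0
          have := min_le_left eps 1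
          linarith
      _ = ∏ _t : I, ((1 - e0) * V) := by rw [Finset.prod_const, h20, mul_pow]
      _ ≤ ∏ t, ((S t).ncard : ℝ) :=
        Finset.prod_le_prod (fun _ _ => mul_nonneg (by linarith) hV0.le) fun t _ => hlo t
  · calc ∏ t, ((S t).ncard : ℝ) ≤ ∏ _t : I, ((1 + e0) * V) :=
          Finset.prod_le_prod (fun _ _ => by positivity) fun t _ => hup t
      _ = (1 + e0) ^ Fintype.card I * V ^ Fintype.card I := by
          rw [Finset.prod_const, h20, mul_pow]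
      _ ≤ (1 + eps) * V ^ Fintype.card I := by
          refine mul_le_mul_of_nonneg_right ?_ hXR0
          have := min_le_left eps 1
          linarith

section multi
variable {ι : Type} [Fintype ι] [DecidableEq ι]
variable {n : ι → ℕ} {r : ℕ} {d : Fin r → ι → ℕ}

theorem pclassK_finite (AC : PSys n d (IK K → ℝ)) (rho H : ℝ) (P : PSys n d (𝓞 K) → Prop) :
    {A : PSys n d (𝓞 K) | (∀ j t l, |(crd (A j t) l : ℝ) - H * AC j t l| ≤ rho * H) ∧
      P A}.Finite := by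
  have h1 : {A : PSys n d (𝓞 K) |
      ∀ j t l, |(crd (A j t) l : ℝ) - H * AC j t l| ≤ rho * H}.Finite := by
    have h2 := Set.Finite.pi' (fun j : Fin r => Set.Finite.pi' (fun t : MIdx n (d j) =>
      cube_finite (K := K) (fun l => H * AC j t l) (rho * H)))
    exact h2
  exact h1.subset fun A hA => hA.1

/-- number of systems of a residue class in a cube -/
theorem pclassK_card (AC : PSys n d (IK K → ℝ)) (A0 : PSys n d (𝓞 K)) (Q : ℕ)
    (hQ : 0 < Q) (rho eps : ℝ) (hr : 0 < rho) (he : 0 < eps) :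
    ∀ᶠ H : ℝ in atTop,
      (1 - eps) * (2 * rho * H / Q) ^ (mK K * NP n d) ≤
        (Set.ncard {A : PSys n d (𝓞 K) |
          (∀ j t l, |(crd (A j t) l : ℝ) - H * AC j t l| ≤ rho * H) ∧
          ∀ j t, (Q : 𝓞 K) ∣ A j t - A0 j t} : ℝ) ∧
      (Set.ncard {A : PSys n d (𝓞 K) |
          (∀ j t l, |(crd (A j t) l : ℝ) - H * AC j t l| ≤ rho * H) ∧
          ∀ j t, (Q : 𝓞 K) ∣ A j t - A0 j t} : ℝ) ≤
        (1 + eps) * (2 * rho * H / Q) ^ (mK K * NP n d) := by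
  set E : ((x : Σ j : Fin r, MIdx n (d j)) → 𝓞 K) ≃ PSys n d (𝓞 K) :=
    Equiv.piCurry (fun (j : Fin r) (_ : MIdx n (d j)) => 𝓞 K) with hE
  have h := classK_card (fun x : Σ j : Fin r, MIdx n (d j) => AC x.1 x.2)
    (fun x : Σ j : Fin r, MIdx n (d j) => A0 x.1 x.2) Q hQ rho eps hr he
  filter_upwards [h] with H h1
  rw [CIPHP.card_sigma_NP] at h1
  have h2 : {A : PSys n d (𝓞 K) |
      (∀ j t l, |(crd (A j t) l : ℝ) - H * AC j t l| ≤ rho * H) ∧
      ∀ j t, (Q : 𝓞 K) ∣ A j t - A0 j t} = E ''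
      {A : (x : Σ j : Fin r, MIdx n (d j)) → 𝓞 K |
        (∀ x l, |(crd (A x) l : ℝ) - H * AC x.1 x.2 l| ≤ rho * H) ∧
        ∀ x, (Q : 𝓞 K) ∣ A x - A0 x.1 x.2} := by
    ext A
    rw [Set.mem_image]
    constructor
    · rintro ⟨hA, hA'⟩
      exact ⟨E.symm A, ⟨fun x => hA x.1 x.2, fun x => hA' x.1 x.2⟩, E.apply_symm_apply A⟩
    · rintro ⟨f, ⟨hf, hf'⟩, rfl⟩
      exact ⟨fun j t => hf ⟨j, t⟩, fun j t => hf' ⟨j, t⟩⟩
  rw [h2, Set.ncard_image_of_injective _ E.injective]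
  exact h1

end multi

end NKPHP
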