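import Pool.Agent.Lib.MP_e426f4_ag.NKP.Fibre

/-!
NKP-Reduce: from a count for the evaluated systems to a count for all systems.

TEMPLATES: P/Reduce.lean (preduce), M/Reduce.lean (reduce).
PROOF. b j t = ∑ s, A j (t, s) * v j s. For A in the set of the conclusion b lies in the set of the hypothesis: crd (b j t) l - H ∑_s rmul (AC j (t, s)) (v j s) l =
∑_s rmul (crd (A j (t,s)) - H AC j (t,s)) (v j s) l (crd_mul, rmul_sub, rmul_smul, crd_sum), absolute value <= card (S j) * (cK^2 * (rho H) * (2 V j)) = rho * (lamb j * H) (sum_rmul_le),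
lamb j = 2 * card (S j) * cK^2 * V j; congruences; P1 by hP. The number of A with given b is <= ∏_{j,t} C_j (2 rho H / Q)^(m (card (S j) - 1)) / (V j)^m (fibre_card for every (j, t), C_j the constant for σ = card (S j)).
Total <= C1 ∏_j (2 rho (lamb j H) / Q)^(m card (T1 j)) ∏_j (C_j (2 rho H/Q)^(m (card (S j) - 1)) / (V j)^m)^(card (T1 j)) = C1 C2 (2 rho H / Q)^(m ∑_j card (T1 j) card (S j)),
C2 = ∏_j (C_j (2 card (S j) cK^2)^m)^(card (T1 j)). C2 depends on K and the cardinalities only (sg j, tg j).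
-/

set_option linter.unusedSectionVars false

namespace NKPHP

open NumberField GenHP NFHP NKHP Finset Filter Topology

/-- the scale of the evaluated forms -/
noncomputable def lamS (K : Type) [Field K] [NumberField K] (σ : ℕ) (V : ℝ) : ℝ :=
  2 * σ * cK K ^ 2 * V

/-- one factor -/
private theorem kred_fac (m σ τ : ℕ) (hσ : 0 < σ) {q c V C : ℝ} (hV : 0 < V) :
    (q * (2 * σ * c ^ 2 * V)) ^ (m * τ) * (C * q ^ (m * (σ - 1)) / V ^ m) ^ τ =
      (C * (2 * σ * c ^ 2) ^ m) ^ τ * q ^ (m * (τ * σ)) := by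
  obtain ⟨k, rfl⟩ : ∃ k, σ = k + 1 := ⟨σ - 1, by omega⟩
  have hVm : V ^ m ≠ 0 := by positivity
  have e1 : (q * (2 * ((k + 1 : ℕ) : ℝ) * c ^ 2 * V)) ^ m * (C * q ^ (m * (k + 1 - 1)) / V ^ m) =
      C * (2 * ((k + 1 : ℕ) : ℝ) * c ^ 2) ^ m * q ^ (m * (k + 1)) := by
    rw [Nat.add_sub_cancel, mul_pow q, mul_pow (2 * ((k + 1 : ℕ) : ℝ) * c ^ 2), Nat.mul_succ,
      pow_add q (m * k) m]
    field_simp
  rw [pow_mul (q * (2 * ((k + 1 : ℕ) : ℝ) * c ^ 2 * V)) m τ, ← mul_pow, e1, mul_pow _ (q ^ _),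
    ← pow_mul q]
  congr 2
  ring

theorem kreduce (K : Type) [Field K] [NumberField K] {r : ℕ} (sg1 tg1 : Fin r → ℕ) :
    ∃ C2 : ℝ, 0 < C2 ∧ ∀ (T1 S : Fin r → Type) [∀ j, Fintype (T1 j)] [∀ j, DecidableEq (T1 j)]
    [∀ j, Fintype (S j)] [∀ j, DecidableEq (S j)], (∀ j, Fintype.card (S j) = sg1 j) →
    (∀ j, Fintype.card (T1 j) = tg1 j) →
    ∀ (v : ∀ j, S j → 𝓞 K), (∀ j, ∃ c : S j → 𝓞 K, ∑ s, c s * v j s = 1) → ∀ V : Fin r → ℝ,
    (∀ j, 0 < V j) → (∀ j (w : InfinitePlace K), ∃ s, V j / 2 ≤ ‖sg w (v j s)‖) →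
    (∀ j s (w : InfinitePlace K), ‖sg w (v j s)‖ ≤ 2 * V j) → ∀ Q : ℕ, 1 ≤ Q →
    ∀ rho : ℝ, 0 < rho →
    ∀ (P1 : (∀ j, T1 j → 𝓞 K) → Prop) (P : (∀ j, T1 j × S j → 𝓞 K) → Prop),
    (∀ A : ∀ j, T1 j × S j → 𝓞 K, P A → P1 fun j t => ∑ s, A j (t, s) * v j s) →
    ∀ (AC : ∀ j, T1 j × S j → IK K → ℝ) (A0 : ∀ j, T1 j × S j → 𝓞 K) (C1 : ℝ), 0 < C1 →
    (∀ᶠ H : ℝ in atTop,
      (Set.ncard {b : ∀ j, T1 j → 𝓞 K |
        (∀ j t l, |(crd (b j t) l : ℝ) - lamS K (sg1 j) (V j) * H *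
          ((∑ s, rmul (AC j (t, s)) (v j s) l) / lamS K (sg1 j) (V j))| ≤
            rho * (lamS K (sg1 j) (V j) * H)) ∧
        (∀ j t, (Q : 𝓞 K) ∣ b j t - ∑ s, A0 j (t, s) * v j s) ∧ P1 b} : ℝ) ≤
        C1 * ∏ j, (2 * rho * (lamS K (sg1 j) (V j) * H) / Q) ^ (mK K * tg1 j)) →
    ∀ᶠ H : ℝ in atTop,
      (Set.ncard {A : ∀ j, T1 j × S j → 𝓞 K |
        (∀ j t l, |(crd (A j t) l : ℝ) - H * AC j t l| ≤ rho * H) ∧
        (∀ j t, (Q : 𝓞 K) ∣ A j t - A0 j t) ∧ P A} : ℝ) ≤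
        C2 * C1 * (2 * rho * H / Q) ^ (mK K * ∑ j, tg1 j * sg1 j) := by
  classical
  choose C hC hfib using fun j : Fin r => fibre_card K (sg1 j)
  have hcK := cK_pos (K := K)
  refine ⟨∏ j, (C j * (2 * ((sg1 j : ℝ) + 1) * cK K ^ 2) ^ mK K) ^ tg1 j,
    Finset.prod_pos fun j _ => by have := hC j; positivity, ?_⟩
  intro T1 S _ _ _ _ hS hT v hv V hV hVl hVu Q hQ rho hrho P1 P hP AC A0 C1 hC1 h
  have hQr : (0 : ℝ) < Q := by exact_mod_cast hQ
  have hSpos : ∀ j, 0 < sg1 j := by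
    intro j
    rw [← hS j, Fintype.card_pos_iff]
    by_contra hcon
    rw [not_nonempty_iff] at hcon
    obtain ⟨c, hc⟩ := hv j
    rw [Finset.univ_eq_empty, Finset.sum_empty] at hc
    exact zero_ne_one hc
  have hlam : ∀ j, 0 < lamS K (sg1 j) (V j) := by
    intro j
    have h1 := hV j
    have h2 : (0 : ℝ) < sg1 j := by exact_mod_cast hSpos j
    unfold lamS
    positivity
  have hf := fun j => hfib j (S j) (hS j) (v j) (hv j) (V j) (hV j) (hVl j) Q hQ rho hrho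
  filter_upwards [Filter.eventually_all.mpr hf, h, eventually_gt_atTop 0] with H hfH hH hH0
  set B : Set (∀ j, T1 j → 𝓞 K) := {b : ∀ j, T1 j → 𝓞 K |
        (∀ j t l, |(crd (b j t) l : ℝ) - lamS K (sg1 j) (V j) * H *
          ((∑ s, rmul (AC j (t, s)) (v j s) l) / lamS K (sg1 j) (V j))| ≤
            rho * (lamS K (sg1 j) (V j) * H)) ∧
        (∀ j t, (Q : 𝓞 K) ∣ b j t - ∑ s, A0 j (t, s) * v j s) ∧ P1 b} with hB
  have hBfin : B.Finite := by
    refine (Set.Finite.pi' fun j : Fin r => Set.Finite.pi' fun t : T1 j =>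
      cube_finite (K := K) (fun l => lamS K (sg1 j) (V j) * H *
          ((∑ s, rmul (AC j (t, s)) (v j s) l) / lamS K (sg1 j) (V j)))
            (rho * (lamS K (sg1 j) (V j) * H))).subset ?_
    intro b hb j t l
    exact hb.1 j t l
  set X : (∀ j, T1 j → 𝓞 K) → ∀ j, T1 j → Set (S j → 𝓞 K) := fun b j t => {a : S j → 𝓞 K |
    (∀ s l, |(crd (a s) l : ℝ) - H * AC j (t, s) l| ≤ rho * H) ∧
      (∀ s, (Q : 𝓞 K) ∣ a s - A0 j (t, s)) ∧ ∑ s, a s * v j s = b j t} with hX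
  have hXf : ∀ b j t, (X b j t).Finite ∧ ((X b j t).ncard : ℝ) ≤
      C j * (2 * rho * H / Q) ^ (mK K * (sg1 j - 1)) / V j ^ mK K := fun b j t =>
    hfH j (fun s l => H * AC j (t, s) l) (fun s => A0 j (t, s)) (b j t)
  set Big : Finset (∀ j, T1 j → S j → 𝓞 K) := hBfin.toFinset.biUnion fun b =>
    Fintype.piFinset fun j => Fintype.piFinset fun t => (hXf b j t).1.toFinset with hBig
  set W : Set (∀ j, T1 j × S j → 𝓞 K) := {A : ∀ j, T1 j × S j → 𝓞 K |
        (∀ j t l, |(crd (A j t) l : ℝ) - H * AC j t l| ≤ rho * H) ∧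
        (∀ j t, (Q : 𝓞 K) ∣ A j t - A0 j t) ∧ P A} with hW
  have hle : W.ncard ≤ Big.card := by
    rw [← Set.ncard_coe_finset]
    refine Set.ncard_le_ncard_of_injOn (fun A j t s => A j (t, s)) ?_ ?_ (Finset.finite_toSet _)
    · rintro A ⟨h1, h2, h3⟩
      rw [Finset.mem_coe, hBig, Finset.mem_biUnion]
      refine ⟨fun j t => ∑ s, A j (t, s) * v j s, ?_, ?_⟩
      · rw [Set.Finite.mem_toFinset]
        refine ⟨fun j t l => ?_, fun j t => ?_, hP A h3⟩
        · have hVj := hV j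
          have hlj := hlam j
          have h4 : (crd (∑ s, A j (t, s) * v j s) l : ℝ) - lamS K (sg1 j) (V j) * H *
              ((∑ s, rmul (AC j (t, s)) (v j s) l) / lamS K (sg1 j) (V j)) =
              ∑ s, rmul (fun i => (crd (A j (t, s)) i : ℝ) - H * AC j (t, s) i) (v j s) l := by
            have h5 : lamS K (sg1 j) (V j) * H *
                ((∑ s, rmul (AC j (t, s)) (v j s) l) / lamS K (sg1 j) (V j)) =
                H * ∑ s, rmul (AC j (t, s)) (v j s) l := by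
              field_simp
            rw [h5, Finset.mul_sum, crd_sum]
            push_cast
            rw [← Finset.sum_sub_distrib]
            refine Finset.sum_congr rfl fun s _ => ?_
            rw [rmul_sub, rmul_smul, ← crd_mul]
          rw [h4]
          refine (sum_rmul_le (fun s i => (crd (A j (t, s)) i : ℝ) - H * AC j (t, s) i)
            (v j) (rho * H) (2 * V j) (fun s i => h1 j (t, s) i) (hVu j) l).trans (le_of_eq ?_)
          rw [hS j]
          unfold lamS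
          ring
        · rw [← Finset.sum_sub_distrib]
          refine Finset.dvd_sum fun s _ => ?_
          rw [← sub_mul]
          exact (h2 j (t, s)).mul_right _
      · rw [Fintype.mem_piFinset]
        intro j
        rw [Fintype.mem_piFinset]
        intro t
        rw [Set.Finite.mem_toFinset]
        exact ⟨fun s l => h1 j (t, s) l, fun s => h2 j (t, s), rfl⟩
    · intro A _ A' _ hAA
      funext j ⟨t, s⟩
      exact congrFun (congrFun (congrFun hAA j) t) s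
  set q : ℝ := 2 * rho * H / Q with hq
  have hq0 : 0 < q := by positivity
  have hterm : ∀ j, 0 ≤ C j * q ^ (mK K * (sg1 j - 1)) / V j ^ mK K := fun j => by
    have h1 := hC j
    have h2 := hV j
    positivity
  have hpi : ∀ b, ((Fintype.piFinset fun j =>
      Fintype.piFinset fun t => (hXf b j t).1.toFinset).card : ℝ) ≤
      ∏ j, (C j * q ^ (mK K * (sg1 j - 1)) / V j ^ mK K) ^ tg1 j := by
    intro b
    rw [Fintype.card_piFinset]
    push_cast
    refine Finset.prod_le_prod (fun _ _ => by positivity) fun j _ => ?_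
    rw [Fintype.card_piFinset]
    push_cast
    rw [← hT j, ← Finset.card_univ, ← Finset.prod_const]
    refine Finset.prod_le_prod (fun _ _ => by positivity) fun t _ => ?_
    rw [← Set.ncard_eq_toFinset_card _ (hXf b j t).1]
    exact (hXf b j t).2
  have hBigc : (Big.card : ℝ) ≤ B.ncard *
      ∏ j, (C j * q ^ (mK K * (sg1 j - 1)) / V j ^ mK K) ^ tg1 j := by
    have h1 : (Big.card : ℝ) ≤ ∑ b ∈ hBfin.toFinset,
        ((Fintype.piFinset fun j =>
          Fintype.piFinset fun t => (hXf b j t).1.toFinset).card : ℝ) := by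
      exact_mod_cast Finset.card_biUnion_le
    refine h1.trans ((Finset.sum_le_card_nsmul _ _ _ fun b _ => hpi b).trans (le_of_eq ?_))
    rw [nsmul_eq_mul, Set.ncard_eq_toFinset_card B hBfin]
  have hmul : ∀ j : Fin r, (2 * rho * (lamS K (sg1 j) (V j) * H) / Q) ^ (mK K * tg1 j) *
      (C j * q ^ (mK K * (sg1 j - 1)) / V j ^ mK K) ^ tg1 j ≤
      (C j * (2 * ((sg1 j : ℝ) + 1) * cK K ^ 2) ^ mK K) ^ tg1 j *
        q ^ (mK K * (tg1 j * sg1 j)) := by
    intro j
    have e1 : 2 * rho * (lamS K (sg1 j) (V j) * H) / Q =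
        q * (2 * (sg1 j : ℝ) * cK K ^ 2 * V j) := by
      rw [hq]
      unfold lamS
      ring
    rw [e1, kred_fac (mK K) (sg1 j) (tg1 j) (hSpos j) (hV j)]
    have h1 := hC j
    gcongr
    linarith
  calc (W.ncard : ℝ) ≤ Big.card := by exact_mod_cast hle
    _ ≤ B.ncard * ∏ j, (C j * q ^ (mK K * (sg1 j - 1)) / V j ^ mK K) ^ tg1 j := hBigc
    _ ≤ (C1 * ∏ j, (2 * rho * (lamS K (sg1 j) (V j) * H) / Q) ^ (mK K * tg1 j)) *
        ∏ j, (C j * q ^ (mK K * (sg1 j - 1)) / V j ^ mK K) ^ tg1 j :=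
        mul_le_mul_of_nonneg_right hH (Finset.prod_nonneg fun j _ => pow_nonneg (hterm j) _)
    _ = C1 * ∏ j, ((2 * rho * (lamS K (sg1 j) (V j) * H) / Q) ^ (mK K * tg1 j) *
        (C j * q ^ (mK K * (sg1 j - 1)) / V j ^ mK K) ^ tg1 j) := by
        rw [Finset.prod_mul_distrib]
        ring
    _ ≤ C1 * ∏ j, ((C j * (2 * ((sg1 j : ℝ) + 1) * cK K ^ 2) ^ mK K) ^ tg1 j *
        q ^ (mK K * (tg1 j * sg1 j))) := by
        refine mul_le_mul_of_nonneg_left ?_ hC1.le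
        refine Finset.prod_le_prod (fun j _ => ?_) fun j _ => hmul j
        have h2 := hlam j
        exact mul_nonneg (by positivity) (pow_nonneg (hterm j) _)
    _ = (∏ j, (C j * (2 * ((sg1 j : ℝ) + 1) * cK K ^ 2) ^ mK K) ^ tg1 j) * C1 *
          q ^ (mK K * ∑ j, tg1 j * sg1 j) := by
        rw [Finset.prod_mul_distrib, Finset.prod_pow_eq_pow_sum, ← Finset.mul_sum]
        ring

end NKPHP
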