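import Pool.Agent.Lib.MP_e426f4_ag.NKP.WClass
import Pool.Agent.Lib.MP_e426f4_ag.NKP.Reduce
import Pool.Agent.Lib.MP_e426f4_ag.NKP.Approx
import Pool.Agent.Lib.MP_e426f4_ag.NKP.Basic
import Pool.Agent.Lib.MP_e426f4_ag.NKP.Box
import Pool.Agent.Lib.MP_e426f4_ag.P.ClsOfBlock
import Pool.Agent.Lib.MP_e426f4_ag.M.Eval
import Pool.Agent.Lib.MP_e426f4_ag.M.AlgReal

/-!
NKP-ClsOfBlock: the class theorem for several blocks from the class theorem for one block.
-/

set_option linter.unusedSectionVars false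

namespace NKPHP

open NumberField GenHP NFHP NKHP Finset Filter Topology
open CIPHP (PSys NP PJac blk pev jac_pev)
open CIHP (Sys NS Jac)

section multi
variable {ι : Type} [Fintype ι] [DecidableEq ι]
variable {K : Type} [Field K] [NumberField K] {n : ι → ℕ} {r : ℕ} {d : Fin r → ι → ℕ}

/-! ### Evaluation of the other blocks -/

private theorem cob_vy_prim {d : ι → ℕ} (i0 : ι) (z : MVar n → 𝓞 K)
    (hz : ∀ j, j ≠ i0 → NFHP.Prim fun a => z ⟨j, a⟩) :
    ∃ c : SIdx n d i0 → 𝓞 K, ∑ s, c s * vy i0 z s = 1 := by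
  choose c hc using fun j : {j // j ≠ i0} => hz j.1 j.2
  refine ⟨fun s => ∏ j : {j // j ≠ i0}, T (fun _ : Fin (d j) => c j) (s j), ?_⟩
  have h1 : ∀ s : SIdx n d i0, (∏ j : {j // j ≠ i0}, T (fun _ : Fin (d j) => c j) (s j)) *
      vy i0 z s = ∏ j : {j // j ≠ i0}, (T (fun _ : Fin (d j) => c j) (s j) *
        mon (fun a => z ⟨j, a⟩) (s j).1) := by
    intro s
    unfold vy
    rw [Finset.prod_mul_distrib]
  rw [Finset.sum_congr rfl (fun s _ => h1 s)]
  have h2 := Finset.prod_univ_sum (fun j : {j // j ≠ i0} => (univ : Finset (Idx (n j) (d j))))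
    (fun j t => T (fun _ : Fin (d j) => c j) t * mon (fun a => z ⟨j, a⟩) t.1)
  rw [Fintype.piFinset_univ] at h2
  rw [← h2]
  refine Finset.prod_eq_one fun j _ => ?_
  have h3 := F_T (fun _ : Fin (d j) => c j) (fun a => z ⟨j.1, a⟩)
  unfold F at h3
  rw [h3]
  exact Finset.prod_eq_one fun i _ => hc j

private theorem cob_mon_norm_le {m e : ℕ} (x : Fin (m + 1) → ℂ) (N : ℝ) (hx : ∀ a, ‖x a‖ ≤ N)
    (t : Idx m e) : ‖mon x t.1‖ ≤ N ^ e := by
  unfold mon
  rw [norm_prod]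
  calc ∏ a, ‖x a ^ t.1 a‖ ≤ ∏ a, N ^ t.1 a := by
        refine Finset.prod_le_prod (fun a _ => norm_nonneg _) fun a _ => ?_
        rw [norm_pow]
        exact pow_le_pow_left₀ (norm_nonneg _) (hx a) _
    _ = N ^ e := by rw [Finset.prod_pow_eq_pow_sum, t.2]

/-- `vy` at the place `w` -/
private theorem cob_sg_vy {d : ι → ℕ} (i0 : ι) (Y : MVar n → 𝓞 K) (w : InfinitePlace K)
    (s : SIdx n d i0) : sg w (vy i0 Y s) = vy i0 (fun v => sg w (Y v)) s := by
  simp only [vy, mon, map_prod, map_pow]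

/-- `vy` of a blockwise quotient -/
private theorem cob_vy_div {d : ι → ℕ} (i0 : ι) (Y : MVar n → 𝓞 K) (N : ι → ℕ)
    (w : InfinitePlace K) (s : SIdx n d i0) :
    vy i0 (fun v => sg w (Y v) / (N v.1 : ℂ)) s =
      sg w (vy i0 Y s) / ((∏ j : {j // j ≠ i0}, (N j : ℝ) ^ d j : ℝ) : ℂ) := by
  rw [cob_sg_vy]
  unfold vy mon
  push_cast
  rw [← Finset.prod_div_distrib]
  refine Finset.prod_congr rfl fun j _ => ?_
  simp only [div_pow]
  rw [Finset.prod_div_distrib, Finset.prod_pow_eq_pow_sum, (s j).2]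

private theorem cob_sol {i0 : ι} (A : PSys n d (𝓞 K)) (z : MVar n → 𝓞 K)
    (hz : ∀ j, j ≠ i0 → NFHP.Prim fun a => z ⟨j, a⟩) (h : SolubleS (pev i0 A z)) :
    PSolubleK A := by
  obtain ⟨x, hx0, hx⟩ := h
  set z' : MVar n → K := fun v => if h : v.1 = i0 then x (h ▸ v.2) else ((z v : 𝓞 K) : K) with hz'
  have e0 : ∀ a, z' ⟨i0, a⟩ = x a := by
    intro a
    rw [hz']
    dsimp only
    rw [dif_pos rfl]
  have e1 : ∀ (j : ι) (a : Fin (n j + 1)), j ≠ i0 → z' ⟨j, a⟩ = ((z ⟨j, a⟩ : 𝓞 K) : K) := by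
    intro j a hj
    rw [hz']
    dsimp only
    rw [dif_neg hj]
  refine ⟨z', ?_, fun j => ?_⟩
  · intro i
    by_cases hi : i = i0
    · subst hi
      obtain ⟨a, ha⟩ := Function.ne_iff.1 hx0
      exact ⟨a, by rw [e0]; exact ha⟩
    · obtain ⟨c, hc⟩ := hz i hi
      by_contra hcon
      push Not at hcon
      have h0 : ∀ a, z ⟨i, a⟩ = 0 := by
        intro a
        have := hcon a
        rw [e1 i a hi] at this
        exact_mod_cast this
      have : ∑ a, c a * z ⟨i, a⟩ = 0 := Finset.sum_eq_zero fun a _ => by rw [h0 a, mul_zero]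
      rw [this] at hc
      exact zero_ne_one hc
  · rw [MF_eq_F_ev i0]
    have e2 : (fun a => z' ⟨i0, a⟩) = x := funext e0
    rw [e2, ev_congr i0 _ z' (fun v => ((z v : 𝓞 K) : K)) (fun j a hj => e1 j a hj)]
    have e3 : ev i0 (fun t => ((A j t : 𝓞 K) : K)) (fun v => ((z v : 𝓞 K) : K)) =
        fun t => ((ev i0 (A j) z t : 𝓞 K) : K) :=
      funext fun t => ev_map (algebraMap (𝓞 K) K) i0 (A j) z t
    rw [e3]
    exact hx j

/-- local data at `P` for the evaluated system -/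
private theorem cob_local (i0 : ι) (P : Ideal (𝓞 K)) (v : ℕ)
    (A0 : PSys n d (𝓞 K)) (zp Y : MVar n → 𝓞 K) (hzu : BUnitK P zp)
    (hF : ∀ j, MF (A0 j) zp ∈ P ^ (2 * v)) (J : Fin r → Fin (n i0 + 1))
    (hD : (PJac A0 zp (blk i0 J)).det ∉ P ^ v)
    (hY : ∀ i b, Y ⟨i, b⟩ - zp ⟨i, b⟩ ∈ P ^ (2 * v)) :
    GoodPS P v (pev i0 A0 Y) := by
  classical
  set Zm : MVar n → 𝓞 K := fun v => if v.1 = i0 then zp v else Y v with hZm
  have hcong : ∀ u, Zm u - zp u ∈ P ^ (2 * v) := by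
    rintro ⟨j, b⟩
    by_cases hj : j = i0
    · simp [hZm, hj]
    · simpa [hZm, hj] using hY j b
  have hev : pev i0 A0 Y = pev i0 A0 Zm := by
    funext j
    refine ev_congr i0 (A0 j) Y Zm fun i b hi => ?_
    simp [hZm, hi]
  have hxZ : (fun b => zp ⟨i0, b⟩) = fun b => Zm ⟨i0, b⟩ := by
    funext b
    simp [hZm]
  set f : 𝓞 K →+* 𝓞 K ⧸ P ^ (2 * v) := Ideal.Quotient.mk (P ^ (2 * v)) with hf
  have hfz : (fun u => f (Zm u)) = fun u => f (zp u) := by
    funext u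
    exact Ideal.Quotient.eq.mpr (hcong u)
  refine ⟨fun b => zp ⟨i0, b⟩, hzu i0, fun j => ?_, J, ?_⟩
  · have h1 : F (pev i0 A0 Y j) (fun b => zp ⟨i0, b⟩) = MF (A0 j) Zm := by
      rw [hev, hxZ, MF_eq_F_ev i0 (A0 j) Zm]
      rfl
    rw [h1]
    have h2 : f (MF (A0 j) Zm) = f (MF (A0 j) zp) := by
      rw [← MF_mapK f, ← MF_mapK f, hfz]
    have h3 := Ideal.Quotient.eq.mp h2
    have h4 := Ideal.add_mem _ h3 (hF j)
    simpa using h4
  · intro h
    rw [hev, hxZ, jac_pev] at h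
    have h2 : f (PJac A0 Zm (blk i0 J)).det = f (PJac A0 zp (blk i0 J)).det := by
      rw [← CIPHP.PJac_map f, ← CIPHP.PJac_map f, hfz]
    have h3 := Ideal.Quotient.eq.mp h2
    have h4 : (PJac A0 Zm (blk i0 J)).det - (PJac A0 zp (blk i0 J)).det ∈ P ^ v :=
      Ideal.pow_le_pow_right (by omega) h3
    have h5 := Ideal.sub_mem _ h h4
    rw [sub_sub_cancel] at h5
    exact hD h5

/-! ### Perturbation of the points at the infinite places -/

private theorem cob_cont_MF {d : ι → ℕ} (A : MIdx n d → ℂ) :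
    Continuous fun z : MVar n → ℂ => MF A z := by
  unfold MF Fg mon
  fun_prop

private theorem cob_cont_MD {d : ι → ℕ} (A : MIdx n d → ℂ) (v : MVar n) :
    Continuous fun z : MVar n → ℂ => MD A z v := by
  unfold MD Dg dmon
  fun_prop

private theorem cob_inf (A : PSys n d ℂ) (z : MVar n → ℂ) (J : Fin r → MVar n) (f f' g g' : ℝ)
    (hf : f < f') (hg : g' < g) (hF : ∀ j, ‖MF (A j) z‖ ≤ f) (hD : g ≤ ‖(PJac A z J).det‖) :
    ∃ delta : ℝ, 0 < delta ∧ ∀ Z : MVar n → ℂ, (∀ v, ‖Z v - z v‖ ≤ delta) →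
      (∀ j, ‖MF (A j) Z‖ ≤ f') ∧ g' ≤ ‖(PJac A Z J).det‖ := by
  have hc1 : Continuous fun Z : MVar n → ℂ => ‖(PJac A Z J).det‖ := by
    refine Continuous.norm (Continuous.matrix_det ?_)
    refine continuous_matrix fun j l => cob_cont_MD (A j) (J l)
  have ho1 : {Z : MVar n → ℂ | g' < ‖(PJac A Z J).det‖} ∈ 𝓝 z :=
    (isOpen_lt continuous_const hc1).mem_nhds (lt_of_lt_of_le hg hD)
  have ho2 : {Z : MVar n → ℂ | ∀ j, ‖MF (A j) Z‖ < f'} ∈ 𝓝 z := by
    have : {Z : MVar n → ℂ | ∀ j, ‖MF (A j) Z‖ < f'} = ⋂ j, {Z | ‖MF (A j) Z‖ < f'} := by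
      ext Z
      simp
    rw [this]
    refine (isOpen_iInter_of_finite fun j =>
      isOpen_lt (cob_cont_MF (A j)).norm continuous_const).mem_nhds ?_
    exact Set.mem_iInter.mpr fun j => lt_of_le_of_lt (hF j) hf
  obtain ⟨eps, heps, hball⟩ := Metric.mem_nhds_iff.mp (Filter.inter_mem ho1 ho2)
  refine ⟨eps / 2, by positivity, fun Z hZ => ?_⟩
  have hZ' : Z ∈ Metric.ball z eps := by
    rw [Metric.mem_ball]
    refine lt_of_le_of_lt ((dist_pi_le_iff (by positivity : (0 : ℝ) ≤ eps / 2)).mpr fun v => ?_)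
      (half_lt_self heps)
    rw [dist_eq_norm]
    exact hZ v
  have h := hball hZ'
  exact ⟨fun j => (h.2 j).le, le_of_lt h.1⟩

/-- sizes of the values of the monomials of the other blocks -/
private theorem cob_size {d : ι → ℕ} (i0 : ι) (y : ∀ i, Fin (n i + 1) → 𝓞 K) (N : ι → ℕ)
    (hN : ∀ i, 0 < N i) (eta : MVar n → ℂ) (w : InfinitePlace K) (delta : ℝ) (hdel : 0 < delta)
    (he1 : ∀ v, ‖eta v‖ ≤ 1) (he2 : ∀ i, ∃ a, ‖eta ⟨i, a⟩‖ = 1)
    (hy : ∀ i a, ‖sg w (y i a) / (N i : ℂ) - eta ⟨i, a⟩‖ ≤ delta) (dd : ℕ)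
    (hdd : ∑ i, d i ≤ dd) (hd1 : delta * dd ≤ 1 / 4) (hd2 : delta ≤ 1) :
    (∀ s : SIdx n d i0, ‖sg w (vy i0 (fun v => y v.1 v.2) s)‖ ≤
      2 * ∏ j : {j // j ≠ i0}, (N j : ℝ) ^ d j) ∧
    ∃ s : SIdx n d i0, (∏ j : {j // j ≠ i0}, (N j : ℝ) ^ d j) / 2 ≤
      ‖sg w (vy i0 (fun v => y v.1 v.2) s)‖ := by
  have hNR : ∀ i, (0 : ℝ) < N i := fun i => by exact_mod_cast hN i
  have hsum : ∑ j : {j // j ≠ i0}, d j ≤ dd := by
    refine le_trans ?_ hdd
    have h1 : ∑ j ∈ univ.filter (fun j => j ≠ i0), d j = ∑ j : {j // j ≠ i0}, d j :=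
      Finset.sum_subtype _ (by simp) _
    rw [← h1]
    exact Finset.sum_le_sum_of_subset (Finset.filter_subset _ _)
  have hk : ∀ k : ℕ, k ≤ dd → (3 / 4 : ℝ) ≤ (1 - delta) ^ k ∧ (1 + delta) ^ k ≤ 2 := by
    intro k hk
    have hkd : delta * k ≤ 1 / 4 := by
      have : (k : ℝ) ≤ dd := by exact_mod_cast hk
      exact (mul_le_mul_of_nonneg_left this hdel.le).trans hd1
    have h1 := one_add_mul_le_pow (show (-2 : ℝ) ≤ -delta by linarith) k
    have h2 : (3 / 4 : ℝ) ≤ (1 - delta) ^ k := by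
      have e : (1 : ℝ) - delta = 1 + -delta := by ring
      rw [e]
      linarith
    refine ⟨h2, ?_⟩
    have h3 : (1 + delta) ^ k * (1 - delta) ^ k ≤ 1 := by
      rw [← mul_pow]
      refine pow_le_one₀ ?_ ?_
      · nlinarith
      · nlinarith
    have h4 : 0 < (1 + delta) ^ k := by positivity
    nlinarith
  have hprod : ∀ c : ℝ, ∏ j : {j // j ≠ i0}, ((N j : ℝ) * c) ^ d j =
      (∏ j : {j // j ≠ i0}, (N j : ℝ) ^ d j) * c ^ ∑ j : {j // j ≠ i0}, d j := by
    intro c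
    rw [← Finset.prod_pow_eq_pow_sum, ← Finset.prod_mul_distrib]
    exact Finset.prod_congr rfl fun j _ => mul_pow _ _ _
  have hV0 : 0 < ∏ j : {j // j ≠ i0}, (N j : ℝ) ^ d j :=
    Finset.prod_pos fun j _ => pow_pos (hNR j) _
  constructor
  · intro s
    rw [cob_sg_vy]
    unfold vy
    rw [norm_prod]
    calc ∏ j : {j // j ≠ i0}, ‖mon (fun a => sg w (y j a)) (s j).1‖
        ≤ ∏ j : {j // j ≠ i0}, ((N j : ℝ) * (1 + delta)) ^ d j := by
          refine Finset.prod_le_prod (fun j _ => norm_nonneg _) fun j _ => ?_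
          refine cob_mon_norm_le _ _ (fun a => ?_) (s j)
          have h1 := hy j a
          have h2 : ‖sg w (y j a) / (N j : ℂ)‖ ≤ 1 + delta := by
            calc ‖sg w (y j a) / (N j : ℂ)‖ = ‖eta ⟨j, a⟩ + (sg w (y j a) / (N j : ℂ) - eta ⟨j, a⟩)‖ := by
                  congr 1
                  ring
              _ ≤ ‖eta ⟨j, a⟩‖ + ‖sg w (y j a) / (N j : ℂ) - eta ⟨j, a⟩‖ := norm_add_le _ _
              _ ≤ 1 + delta := add_le_add (he1 _) h1
          rw [norm_div, Complex.norm_natCast, div_le_iff₀ (hNR j)] at h2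
          linarith
      _ = (∏ j : {j // j ≠ i0}, (N j : ℝ) ^ d j) * (1 + delta) ^ ∑ j : {j // j ≠ i0}, d j :=
          hprod _
      _ ≤ (∏ j : {j // j ≠ i0}, (N j : ℝ) ^ d j) * 2 :=
          mul_le_mul_of_nonneg_left (hk _ hsum).2 hV0.le
      _ = _ := mul_comm _ _
  · choose a ha using he2
    refine ⟨fun j => mk fun _ => a j, ?_⟩
    rw [cob_sg_vy]
    unfold vy
    rw [norm_prod]
    calc (∏ j : {j // j ≠ i0}, (N j : ℝ) ^ d j) / 2
        ≤ (∏ j : {j // j ≠ i0}, (N j : ℝ) ^ d j) * (1 - delta) ^ ∑ j : {j // j ≠ i0}, d j := by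
          have h1 := mul_le_mul_of_nonneg_left (hk _ hsum).1 hV0.le
          linarith
      _ = ∏ j : {j // j ≠ i0}, ((N j : ℝ) * (1 - delta)) ^ d j := (hprod _).symm
      _ ≤ _ := by
          refine Finset.prod_le_prod (fun j _ => ?_) fun j _ => ?_
          · exact pow_nonneg (mul_nonneg (hNR j).le (by linarith)) _
          · rw [mon_mk]
            simp only [Finset.prod_const, Finset.card_univ, Fintype.card_fin]
            rw [norm_pow]
            refine pow_le_pow_left₀ (mul_nonneg (hNR j).le (by linarith)) ?_ _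
            have h1 := hy j (a j)
            have h2 : 1 - delta ≤ ‖sg w (y j (a j)) / (N j : ℂ)‖ := by
              have h3 : ‖eta ⟨j, a j⟩‖ ≤ ‖sg w (y j (a j)) / (N j : ℂ)‖ +
                  ‖sg w (y j (a j)) / (N j : ℂ) - eta ⟨j, a j⟩‖ := by
                calc ‖eta ⟨j, a j⟩‖ = ‖sg w (y j (a j)) / (N j : ℂ) -
                      (sg w (y j (a j)) / (N j : ℂ) - eta ⟨j, a j⟩)‖ := by
                      congr 1
                      ring
                  _ ≤ _ := norm_sub_le _ _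
              rw [ha j] at h3
              linarith
            rw [norm_div, Complex.norm_natCast, le_div_iff₀ (hNR j)] at h2
            linarith

theorem cls_of_block (K : Type) [Field K] [NumberField K] (n : ι → ℕ) {r : ℕ} (d : Fin r → ι → ℕ)
    (hr : 1 ≤ r) (hn1 : ∀ i, 1 ≤ n i) (i0 : ι) (hn : r + 2 ≤ n i0) (h2 : ∀ j, 2 ≤ d j i0)
    (hs : ∑ j, d j i0 ≤ n i0) : PCLSK K n d i0 := by
  classical
  have hSne : ∀ j, Nonempty (SIdx n (d j) i0) := fun j => ⟨fun i => mk fun _ => 0⟩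
  set σ : Fin r → ℕ := fun j => Fintype.card (SIdx n (d j) i0) with hσd
  set τ : Fin r → ℕ := fun j => Fintype.card (Idx (n i0) (d j i0)) with hτd
  have hσ : ∀ j, 1 ≤ σ j := fun j => Fintype.card_pos
  have hσR : ∀ j, (1 : ℝ) ≤ (σ j : ℝ) := fun j => by exact_mod_cast hσ j
  have hcK1 := one_le_cK (K := K)
  have hcK0 := cK_pos (K := K)
  obtain ⟨C2, hC2, hred⟩ := kreduce K σ τ
  -- scale factors
  set lf : Fin r → ℝ := fun j => 2 * (σ j : ℝ) * cK K ^ 2 with hlf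
  have hlf1 : ∀ j, 1 ≤ lf j := by
    intro j
    have h1 : 1 ≤ cK K ^ 2 := one_le_pow₀ hcK1
    have h2 := hσR j
    rw [hlf]
    simp only
    nlinarith
  have hlf0 : ∀ j, 0 < lf j := fun j => lt_of_lt_of_le one_pos (hlf1 j)
  set PS : ℝ := ∏ j, lf j with hPS
  have hPS1 : 1 ≤ PS := by
    calc (1 : ℝ) = ∏ _j : Fin r, (1 : ℝ) := by simp
      _ ≤ _ := Finset.prod_le_prod (fun _ _ => zero_le_one) fun j _ => hlf1 j
  have hPS0 : 0 < PS := lt_of_lt_of_le one_pos hPS1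
  intro eps heps
  obtain ⟨w1, hw1⟩ := wclass_thm K (n i0) (fun j => d j i0) hr hn h2 hs (eps / C2)
    (by positivity)
  refine ⟨w1, fun w hww hw bet hb hb1 => ?_⟩
  obtain ⟨rho0', hr0, hr01, hclass⟩ := hw1 w hww hw (bet / (2 * PS)) (by positivity) (by
    rw [div_le_one (by positivity)]
    linarith)
  refine ⟨rho0' / 2, by positivity, by linarith, ?_⟩
  intro rho hrho hrho1 k hk A0 hA0 AC Ainf hAinf hACi hGI
  -- the points at the infinite places
  choose z hz hFz J hDz using hGI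
  have hpert0 : ∀ w' : InfinitePlace K, ∃ delta : ℝ, 0 < delta ∧ ∀ Z : MVar n → ℂ,
      (∀ v, ‖Z v - z w' v‖ ≤ delta) →
      (∀ j, ‖MF (sysPC Ainf w' j) Z‖ ≤ rho0') ∧
        bet / 2 ≤ ‖(PJac (sysPC Ainf w') Z (blk i0 (J w'))).det‖ := fun w' =>
    cob_inf (sysPC Ainf w') (z w') (blk i0 (J w')) (rho0' / 2) rho0' bet (bet / 2) (by linarith)
      (by linarith) (hFz w') (hDz w')
  choose delf hdelf hpert using hpert0
  obtain ⟨del0, hdel0, hdelm⟩ : ∃ del0 : ℝ, 0 < del0 ∧ ∀ w', del0 ≤ delf w' := by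
    obtain ⟨v, -, hv⟩ := Finset.exists_min_image (univ : Finset (InfinitePlace K)) delf
      ⟨Classical.arbitrary _, mem_univ _⟩
    exact ⟨delf v, hdelf v, fun w' => hv w' (mem_univ _)⟩
  set dd : ℕ := ∑ j, ∑ i, d j i with hdd
  set delta : ℝ := min del0 (1 / (4 * ((dd : ℝ) + 1))) with hdelta
  have hdel : 0 < delta := lt_min hdel0 (by positivity)
  have hdel1 : delta * dd ≤ 1 / 4 := by
    have h1 : delta ≤ 1 / (4 * ((dd : ℝ) + 1)) := min_le_right _ _
    have h2 : (0 : ℝ) ≤ dd := Nat.cast_nonneg _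
    calc delta * dd ≤ 1 / (4 * ((dd : ℝ) + 1)) * dd := mul_le_mul_of_nonneg_right h1 h2
      _ ≤ 1 / 4 := by
          rw [div_mul_eq_mul_div, one_mul, div_le_div_iff₀ (by positivity) (by norm_num)]
          linarith
  have hdel2 : delta ≤ 1 := by
    have h1 : delta ≤ 1 / (4 * ((dd : ℝ) + 1)) := min_le_right _ _
    refine h1.trans ?_
    rw [div_le_one (by positivity)]
    have h2 : (0 : ℝ) ≤ dd := Nat.cast_nonneg _
    linarith
  -- the local points at the primes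
  have hzp0 : ∀ P : Ideal (𝓞 K), ∃ zp : MVar n → 𝓞 K, P.IsMaximal → (primorial w : 𝓞 K) ∈ P →
      BUnitK P zp ∧ (∀ j, MF (A0 j) zp ∈ P ^ (2 * (k * vW (primorial w) P))) ∧
      ∃ J : Fin r → Fin (n i0 + 1),
        (PJac A0 zp (blk i0 J)).det ∉ P ^ (k * vW (primorial w) P) := by
    intro P
    by_cases hp : P.IsMaximal ∧ (primorial w : 𝓞 K) ∈ P
    · obtain ⟨zp, h⟩ := hA0 P hp.1 hp.2
      exact ⟨zp, fun _ _ => h⟩
    · exact ⟨0, fun h1 h2 => absurd ⟨h1, h2⟩ hp⟩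
  choose zp hzp using hzp0
  -- the integral point
  have hy0 : ∀ i : ι, ∃ (y : Fin (n i + 1) → 𝓞 K) (N : ℕ), 0 < N ∧ NFHP.Prim y ∧
      (∀ P : Ideal (𝓞 K), P.IsMaximal → (primorial w : 𝓞 K) ∈ P →
        ∀ a, y a - zp P ⟨i, a⟩ ∈ P ^ (2 * (k * vW (primorial w) P))) ∧
      ∀ w' a, ‖sg w' (y a) / N - z w' ⟨i, a⟩‖ ≤ delta := by
    intro i
    exact exists_prim_approx w k (n i) hw hk (hn1 i) (fun P a => zp P ⟨i, a⟩)
      (fun P hP hPw => (hzp P hP hPw).1 i) (fun w' a => z w' ⟨i, a⟩)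
      (fun w' => ⟨fun h a => (hz w').1 h _, fun a => (hz w').2.1 _, (hz w').2.2 i⟩) delta hdel
  choose y N hN hyP hyp hyd using hy0
  set Y : MVar n → 𝓞 K := fun v => y v.1 v.2 with hY
  set V : Fin r → ℝ := fun j => ∏ i : {i // i ≠ i0}, (N i : ℝ) ^ d j i with hV
  have hNR : ∀ i, (0 : ℝ) < N i := fun i => by exact_mod_cast hN i
  have hVR : ∀ j, (0 : ℝ) < V j := fun j => Finset.prod_pos fun i _ => pow_pos (hNR i) _
  set v : ∀ j, SIdx n (d j) i0 → 𝓞 K := fun j s => vy i0 Y s with hv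
  have hvprim : ∀ j, ∃ c : SIdx n (d j) i0 → 𝓞 K, ∑ s, c s * v j s = 1 := fun j =>
    cob_vy_prim i0 Y fun i _ => hyP i
  have hvsize := fun (j : Fin r) (w' : InfinitePlace K) =>
    cob_size (d := d j) i0 y N hN (z w') w' delta hdel (hz w').2.1 (hz w').2.2
      (fun i a => hyd i w' a) dd (Finset.single_le_sum (f := fun j => ∑ i, d j i)
        (fun _ _ => Nat.zero_le _) (Finset.mem_univ j)) hdel1 hdel2
  have hvV : ∀ j s (w' : InfinitePlace K), ‖sg w' (v j s)‖ ≤ 2 * V j := fun j s w' =>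
    (hvsize j w').1 s
  have hvL : ∀ j (w' : InfinitePlace K), ∃ s, V j / 2 ≤ ‖sg w' (v j s)‖ := fun j w' =>
    (hvsize j w').2
  -- class theorem for the evaluated forms
  set Q : ℕ := primorial w ^ (2 * k) with hQ
  have hQpos : 1 ≤ Q := Nat.one_le_pow _ _ (primorial_pos w)
  set AC2 : ∀ j, Idx (n i0) (d j i0) × SIdx n (d j) i0 → IK K → ℝ :=
    fun j q => AC j ((spl n (d j) i0).symm q) with hAC2
  set AI2 : ∀ j, Idx (n i0) (d j i0) × SIdx n (d j) i0 → IK K → ℝ :=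
    fun j q => Ainf j ((spl n (d j) i0).symm q) with hAI2
  set A02 : ∀ j, Idx (n i0) (d j i0) × SIdx n (d j) i0 → 𝓞 K :=
    fun j q => A0 j ((spl n (d j) i0).symm q) with hA02
  have hlam : ∀ j, lamS K (σ j) (V j) = lf j * V j := fun j => rfl
  have hlam0 : ∀ j, 0 < lamS K (σ j) (V j) := fun j => by
    rw [hlam]
    exact mul_pos (hlf0 j) (hVR j)
  set AC' : Sys (n i0) (fun j => d j i0) (IK K → ℝ) :=
    fun j t l => (∑ s, rmul (AC2 j (t, s)) (v j s) l) / lamS K (σ j) (V j) with hAC'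
  set AI' : Sys (n i0) (fun j => d j i0) (IK K → ℝ) :=
    fun j t l => (∑ s, rmul (AI2 j (t, s)) (v j s) l) / lamS K (σ j) (V j) with hAI'
  -- averages
  have havg : ∀ j (a : SIdx n (d j) i0 → IK K → ℝ) (C : ℝ), (∀ s l, |a s l| ≤ C) → ∀ l,
      |(∑ s, rmul (a s) (v j s) l) / lamS K (σ j) (V j)| ≤ C := by
    intro j a C ha l
    rw [abs_div, abs_of_pos (hlam0 j), div_le_iff₀ (hlam0 j)]
    refine (sum_rmul_le a (v j) C (2 * V j) ha (fun s w' => hvV j s w') l).trans (le_of_eq ?_)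
    rw [hlam, hlf]
    simp only [hσd]
    ring
  -- the points at the infinite places
  set Zr : InfinitePlace K → MVar n → ℂ := fun w' u =>
    if u.1 = i0 then z w' u else sg w' (Y u) / (N u.1 : ℂ) with hZr
  have hZrd : ∀ w' u, ‖Zr w' u - z w' u‖ ≤ delf w' := by
    rintro w' ⟨j, b⟩
    by_cases hj : j = i0
    · simp only [hZr, hj, if_true, sub_self, norm_zero]
      exact (hdelf w').le
    · simp only [hZr, hj, if_false]
      exact (hyd j w' b).trans ((min_le_left _ _).trans (hdelm w'))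
  have hxi : ∀ w', (fun b => z w' ⟨i0, b⟩) = fun b => Zr w' ⟨i0, b⟩ := by
    intro w'
    funext b
    simp [hZr]
  have hAI'ev : ∀ w', sysC AI' w' = fun j t => ((lf j)⁻¹ : ℂ) * pev i0 (sysPC Ainf w') (Zr w') j t := by
    intro w'
    funext j t
    have h1 : ev i0 (sysPC Ainf w' j) (Zr w') =
        ev i0 (sysPC Ainf w' j) (fun u => sg w' (Y u) / (N u.1 : ℂ)) := by
      refine ev_congr i0 (sysPC Ainf w' j) _ _ fun i b hi => ?_
      simp [hZr, hi]
    show lam (AI' j t) w' = ((lf j)⁻¹ : ℂ) * ev i0 (sysPC Ainf w' j) (Zr w') t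
    rw [h1]
    have h3 : lam (AI' j t) w' =
        ((lamS K (σ j) (V j))⁻¹ : ℂ) * ∑ s, lam (AI2 j (t, s)) w' * sg w' (v j s) := by
      have h4 : AI' j t = fun l => (lamS K (σ j) (V j))⁻¹ *
          ∑ s, rmul (AI2 j (t, s)) (v j s) l := by
        funext l
        rw [hAI']
        simp only
        rw [div_eq_inv_mul]
      rw [h4, lam_smul]
      push_cast
      congr 1
      have h5 : lam (fun l => ∑ s, rmul (AI2 j (t, s)) (v j s) l) w' =
          ∑ s, lam (rmul (AI2 j (t, s)) (v j s)) w' := by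
        unfold lam
        simp only [Complex.ofReal_sum, Finset.sum_mul]
        exact Finset.sum_comm
      rw [h5]
      exact Finset.sum_congr rfl fun s _ => lam_rmul _ _ _
    rw [h3]
    simp only [ev, cob_vy_div]
    rw [Finset.mul_sum, Finset.mul_sum]
    refine Finset.sum_congr rfl fun s _ => ?_
    have hVc : ((V j : ℝ) : ℂ) ≠ 0 := by exact_mod_cast (hVR j).ne'
    have hlc : ((lf j : ℝ) : ℂ) ≠ 0 := by exact_mod_cast (hlf0 j).ne'
    have h6 : ((lamS K (σ j) (V j) : ℝ) : ℂ) = (lf j : ℂ) * (V j : ℂ) := by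
      rw [hlam]
      push_cast
      rfl
    have h7 : sysPC Ainf w' j ((spl n (d j) i0).symm (t, s)) = lam (AI2 j (t, s)) w' := rfl
    rw [h6, h7]
    show _ = ((lf j : ℂ))⁻¹ * (lam (AI2 j (t, s)) w' * (sg w' (v j s) / ((V j : ℝ) : ℂ)))
    field_simp
  have hFAI' : ∀ w' j, F (sysC AI' w' j) (fun b => z w' ⟨i0, b⟩) =
      ((lf j)⁻¹ : ℂ) * MF (sysPC Ainf w' j) (Zr w') := by
    intro w' j
    rw [hAI'ev, F_smul, MF_eq_F_ev i0 (sysPC Ainf w' j) (Zr w'), hxi]
    rfl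
  have hDAI' : ∀ w', (Jac (sysC AI' w') (fun b => z w' ⟨i0, b⟩) (J w')).det =
      (∏ j, ((lf j)⁻¹ : ℂ)) * (PJac (sysPC Ainf w') (Zr w') (blk i0 (J w'))).det := by
    intro w'
    rw [hAI'ev, hxi, ← jac_pev, ← Matrix.det_mul_column]
    congr 1
    ext j l
    exact D_smul ((lf j)⁻¹ : ℂ) (pev i0 (sysPC Ainf w') (Zr w') j) (fun b => Zr w' ⟨i0, b⟩)
      (J w' l)
  have hclass1 := hclass rho hrho (by linarith) k hk (pev i0 A0 Y) ?_ AC' AI'
    (fun j t l => havg j _ 1 (fun s l => hAinf _ _ _) l) ?_ ?_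
    (fun j => lamS K (σ j) (V j)) hlam0
  rotate_left
  · -- local data
    intro P hP hPw
    obtain ⟨hzu, hF, J', hD⟩ := hzp P hP hPw
    exact cob_local i0 P _ A0 (zp P) Y hzu hF J' hD fun i b => hyp i P hP hPw b
  · intro j t l
    have h1 : AC' j t l - AI' j t l =
        (∑ s, rmul (fun l => AC2 j (t, s) l - AI2 j (t, s) l) (v j s) l) /
          lamS K (σ j) (V j) := by
      rw [hAC', hAI']
      simp only [rmul_sub, Finset.sum_sub_distrib, sub_div]
    rw [h1]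
    exact havg j _ rho (fun s l => hACi _ _ _) l
  · intro w'
    obtain ⟨hMFr, hMDr⟩ := hpert w' (Zr w') (hZrd w')
    have hnl : ∀ j, ‖((lf j)⁻¹ : ℂ)‖ = (lf j)⁻¹ := by
      intro j
      rw [norm_inv, Complex.norm_real, Real.norm_eq_abs, abs_of_pos (hlf0 j)]
    refine ⟨fun b => z w' ⟨i0, b⟩, ⟨fun h a => (hz w').1 h _, fun a => (hz w').2.1 _,
      (hz w').2.2 i0⟩, fun j => ?_, J w', ?_⟩
    · rw [hFAI', norm_mul, hnl]
      calc (lf j)⁻¹ * ‖MF (sysPC Ainf w' j) (Zr w')‖ ≤ 1 * rho0' :=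
            mul_le_mul (inv_le_one_of_one_le₀ (hlf1 j)) (hMFr j) (norm_nonneg _) zero_le_one
        _ = rho0' := one_mul _
    · rw [hDAI', norm_mul, norm_prod, Finset.prod_congr rfl fun j _ => hnl j,
        Finset.prod_inv_distrib]
      calc bet / (2 * PS) = PS⁻¹ * (bet / 2) := by
            rw [div_eq_mul_inv, mul_inv]
            ring
        _ ≤ _ := mul_le_mul_of_nonneg_left hMDr (by positivity)
  -- reduction
  have hred1 := hred (fun j => Idx (n i0) (d j i0)) (fun j => SIdx n (d j) i0) (fun j => rfl)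
    (fun j => rfl) v hvprim V hVR hvL hvV Q hQpos rho hrho
    (fun b => ¬ SolubleS (n := n i0) (e := fun j => d j i0) b)
    (fun A => ¬ PSolubleK (n := n) (d := d) fun j t => A j (spl n (d j) i0 t)) ?_ AC2 A02
    (eps / C2) (by positivity) ?_
  rotate_left
  · intro A hA hsol
    refine hA (cob_sol (i0 := i0) _ Y (fun j _ => hyP j) ?_)
    have : pev i0 (fun j t => A j (spl n (d j) i0 t)) Y = fun j t => ∑ s, A j (t, s) * v j s := by
      funext j t
      simp only [pev, ev, Equiv.apply_symm_apply]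
      rfl
    rw [this]
    exact hsol
  · refine hclass1.mono fun H hH => ?_
    refine le_trans (le_of_eq ?_) (hH.trans (le_of_eq ?_))
    · rfl
    · rw [hQ]
      push_cast
      rfl
  refine hred1.mono fun H hH => ?_
  have hcardM : NP n d = ∑ j, τ j * σ j := by
    refine Finset.sum_congr rfl fun j _ => ?_
    show Fintype.card (MIdx n (d j)) = _
    rw [Fintype.card_congr (spl n (d j) i0), Fintype.card_prod]
  rw [hcardM]
  have hQc : (primorial w : ℝ) ^ (2 * k) = Q := by rw [hQ]; push_cast; rfl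
  rw [hQc]
  have hC : C2 * (eps / C2) = eps := by field_simp
  rw [hC] at hH
  refine le_trans ?_ hH
  -- transport
  set Φ : PSys n d (𝓞 K) → (∀ j, Idx (n i0) (d j i0) × SIdx n (d j) i0 → 𝓞 K) :=
    fun A j q => A j ((spl n (d j) i0).symm q) with hΦ
  have hΦinj : Function.Injective Φ := by
    intro A A' h
    funext j t
    have := congrFun (congrFun h j) (spl n (d j) i0 t)
    simpa [hΦ] using this
  have hfin : {A : ∀ j, Idx (n i0) (d j i0) × SIdx n (d j) i0 → 𝓞 K |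
      (∀ j t l, |(crd (A j t) l : ℝ) - H * AC2 j t l| ≤ rho * H) ∧
      (∀ j t, (Q : 𝓞 K) ∣ A j t - A02 j t) ∧
      ¬ PSolubleK (n := n) (d := d) fun j t => A j (spl n (d j) i0 t)}.Finite := by
    refine (Set.Finite.pi' fun j => box_fin (K := K)
      (Idx (n i0) (d j i0) × SIdx n (d j) i0) (fun t l => H * AC2 j t l) (rho * H)).subset ?_
    intro A hA j
    exact hA.1 j
  have hsub : Φ '' {A : PSys n d (𝓞 K) |
      (∀ j t l, |(crd (A j t) l : ℝ) - H * AC j t l| ≤ rho * H) ∧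
      (∀ j t, (((primorial w) ^ (2 * k) : ℕ) : 𝓞 K) ∣ A j t - A0 j t) ∧ ¬ PSolubleK A} ⊆
      {A : ∀ j, Idx (n i0) (d j i0) × SIdx n (d j) i0 → 𝓞 K |
      (∀ j t l, |(crd (A j t) l : ℝ) - H * AC2 j t l| ≤ rho * H) ∧
      (∀ j t, (Q : 𝓞 K) ∣ A j t - A02 j t) ∧
      ¬ PSolubleK (n := n) (d := d) fun j t => A j (spl n (d j) i0 t)} := by
    rintro _ ⟨A, ⟨hA1, hA2, hA3⟩, rfl⟩
    refine ⟨fun j t l => hA1 _ _ _, fun j t => hA2 j ((spl n (d j) i0).symm t), ?_⟩
    have : (fun j t => Φ A j (spl n (d j) i0 t)) = A := by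
      funext j t
      simp [hΦ]
    rw [this]
    exact hA3
  have h1 := Set.ncard_le_ncard hsub hfin
  rw [Set.ncard_image_of_injective _ hΦinj] at h1
  exact_mod_cast h1

end multi

end NKPHP
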