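import Pool.Agent.Lib.MP_e426f4_ag.NKP.TriK
import Pool.Agent.Lib.MP_e426f4_ag.NKP.AlgC
import Pool.Agent.Lib.MP_e426f4_ag.M.Spec
import Pool.Agent.Lib.MP_e426f4_ag.M.CondAux
import Pool.Agent.Lib.MP_e426f4_ag.N.Lat

/-!
# Number of systems satisfying conditions at a point, at an infinite place
-/

set_option linter.unusedSectionVars false

namespace NKPHP

open NumberField GenHP NFHP NKHP Finset Filter Topology
open CIPHP (PSys NP PJac blk pev)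

section multi
variable {ι : Type} [Fintype ι] [DecidableEq ι]

section alg
variable {n d : ι → ℕ}

theorem crc_prod_ge (s : Finset ι) (e : ι → ℕ) (x : ι → ℂ) (hx : ∀ i, 1 / 2 ≤ ‖x i‖) :
    (1 / 2 : ℝ) ^ (∑ i ∈ s, e i) ≤ ‖∏ i ∈ s, x i ^ e i‖ := by
  rw [norm_prod, ← Finset.prod_pow_eq_pow_sum]
  refine Finset.prod_le_prod (fun i _ => by positivity) fun i _ => ?_
  rw [norm_pow]
  exact pow_le_pow_left₀ (by norm_num) (hx i) _

theorem crc_dmon_ge (hd : ∀ i, 1 ≤ d i) (τ : ∀ i, Fin (n i + 1)) (z : MVar n → ℂ)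
    (hz : ∀ i, 1 / 2 ≤ ‖z ⟨i, τ i⟩‖) (v : MVar n) (hv : v.2 ≠ τ v.1) :
    (1 / 2 : ℝ) ^ (∑ i, d i) ≤ ‖dmon z v (mex (ms1 τ v : MIdx n d))‖ := by
  rw [dmon_ms1 hd τ z v hv, norm_mul]
  have h1 := crc_prod_ge (univ.erase v.1) d (fun i => z ⟨i, τ i⟩) hz
  have h2 : (1 / 2 : ℝ) ^ (d v.1 - 1) ≤ ‖z ⟨v.1, τ v.1⟩ ^ (d v.1 - 1)‖ := by
    rw [norm_pow]
    exact pow_le_pow_left₀ (by norm_num) (hz v.1) _
  have h3 : (1 / 2 : ℝ) ^ (∑ i, d i) ≤ (1 / 2) ^ (d v.1 - 1) *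
      (1 / 2) ^ (∑ i ∈ univ.erase v.1, d i) := by
    rw [← pow_add]
    apply pow_le_pow_of_le_one (by norm_num) (by norm_num)
    rw [← Finset.add_sum_erase univ d (mem_univ v.1)]
    omega
  refine h3.trans (mul_le_mul h2 h1 (by positivity) (norm_nonneg _))

theorem crc_prod_ge' (τ : ∀ i, Fin (n i + 1)) (z : MVar n → ℂ)
    (hz : ∀ i, 1 / 2 ≤ ‖z ⟨i, τ i⟩‖) : (1 / 2 : ℝ) ^ (∑ i, d i) ≤ ‖∏ i, z ⟨i, τ i⟩ ^ d i‖ :=
  crc_prod_ge univ d (fun i => z ⟨i, τ i⟩) hz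

/-- a difference bound from a lower bound of the cofactor -/
theorem crc_diff_le (a m : ℂ) (L : ℝ) (k : ℕ) (hm : (1 / 2 : ℝ) ^ k ≤ ‖m‖) (h : ‖a * m‖ ≤ L) :
    ‖a‖ ≤ 2 ^ k * L := by
  rw [norm_mul] at h
  have h1 : ‖a‖ * (1 / 2) ^ k ≤ L := (mul_le_mul_of_nonneg_left hm (norm_nonneg _)).trans h
  have h2 : (2 : ℝ) ^ k * (1 / 2) ^ k = 1 := by rw [← mul_pow]; norm_num
  calc ‖a‖ = 2 ^ k * (‖a‖ * (1 / 2) ^ k) := by
        rw [← mul_assoc, mul_comm (2 ^ k) ‖a‖, mul_assoc, h2, mul_one]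
    _ ≤ 2 ^ k * L := mul_le_mul_of_nonneg_left h1 (by positivity)

end alg

section card
variable {K : Type} [Field K] [NumberField K]

open Classical in
/-- the sizes at the places -/
private noncomputable def ci_X (w : InfinitePlace K) (r s : ℝ) : InfinitePlace K → ℝ :=
  fun w' => if w' = w then r else s

private theorem ci_np (w : InfinitePlace K) (r s : ℝ) :
    np (ci_X w r s) = r ^ w.mult * s ^ (mK K - w.mult) := by
  classical
  unfold np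
  rw [← Finset.mul_prod_erase univ _ (mem_univ w)]
  have h1 : ci_X w r s w = r := by unfold ci_X; rw [if_pos rfl]
  have h2 : ∏ w' ∈ univ.erase w, ci_X w r s w' ^ w'.mult =
      ∏ w' ∈ univ.erase w, s ^ w'.mult := by
    refine Finset.prod_congr rfl fun w' hw' => ?_
    unfold ci_X
    rw [if_neg (Finset.ne_of_mem_erase hw')]
  rw [h1, h2, Finset.prod_pow_eq_pow_sum]
  have h3 : w.mult + ∑ w' ∈ univ.erase w, w'.mult = mK K := by
    rw [Finset.add_sum_erase univ (fun w' : InfinitePlace K => w'.mult) (mem_univ w)]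
    exact sum_mult
  congr 2
  omega

open Classical in
/-- number of integers in the box which are near to each other at the place `w` -/
theorem card_near_w (K : Type) [Field K] [NumberField K] (w : InfinitePlace K) :
    ∃ C : ℝ, 1 ≤ C ∧ ∀ H : ℝ, 0 < H → ∀ wd : ℝ, 0 < wd → ∀ Z : Finset (𝓞 K),
      (∀ a ∈ Z, ∀ j, |(crd a j : ℝ)| ≤ H) →
      (∀ a ∈ Z, ∀ a' ∈ Z, ‖sg w a - sg w a'‖ ≤ wd) →
      (Z.card : ℝ) ≤ C * (wd ^ w.mult * (cK K * H) ^ (mK K - w.mult) + 1) := by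
  obtain ⟨C, hC1, hC⟩ := lat_upper K
  refine ⟨C, hC1, fun H hH wd hwd Z hZ hZ2 => ?_⟩
  have hcK := cK_pos (K := K)
  rcases Z.eq_empty_or_nonempty with rfl | ⟨a0, ha0⟩
  · simp only [Finset.card_empty, Nat.cast_zero]
    positivity
  let v : InfinitePlace K → ℂ := fun w' => if w' = w then sg w a0 else 0
  have hX : ∀ w', 0 < ci_X w wd (cK K * H) w' := by
    intro w'
    unfold ci_X
    split_ifs
    · exact hwd
    · positivity
  obtain ⟨hfin, hcard⟩ := hC ⊤ (by simp) (ci_X w wd (cK K * H)) hX v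
  rw [ci_np, Ideal.absNorm_top, Nat.cast_one, div_one] at hcard
  have hsub : (Z : Set (𝓞 K)) ⊆
      {a : 𝓞 K | a ∈ (⊤ : Ideal (𝓞 K)) ∧ ∀ w', ‖sg w' a - v w'‖ ≤ ci_X w wd (cK K * H) w'} := by
    intro a ha
    refine ⟨Submodule.mem_top, fun w' => ?_⟩
    by_cases hw : w' = w
    · subst hw
      simp only [v, ci_X, if_true]
      exact hZ2 a ha a0 ha0
    · simp only [v, ci_X, if_neg hw, sub_zero]
      exact norm_sg_le_of_crd (hZ a ha) w'
  have h1 := Set.ncard_le_ncard hsub hfin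
  rw [Set.ncard_coe_finset] at h1
  refine le_trans ?_ hcard
  exact_mod_cast h1

end card

variable {K : Type} [Field K] [NumberField K]

theorem pcond_i (n : ι → ℕ) {r : ℕ} (d : Fin r → ι → ℕ) (hd : ∀ j i, 1 ≤ d j i)
    (w : InfinitePlace K) :
    ∃ C : ℝ, 0 < C ∧ ∀ g f : ℝ, 0 < g → 0 < f →
    ∀ᶠ H : ℕ in atTop, ∀ (τ : ∀ i, Fin (n i + 1)) (z : MVar n → ℂ),
      (∀ i, 1 / 2 ≤ ‖z ⟨i, τ i⟩‖) → ∀ (c : Fin r → ℂ) (j0 : Fin r), ‖c j0‖ = 1 →
      ∀ U : Finset (MVar n), (∀ v ∈ U, v.2 ≠ τ v.1) →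
      (Set.ncard {A : PSys n d (𝓞 K) | A ∈ BoxP K n d H ∧
        ((∀ j, ‖MF (sgP w A j) z‖ ≤ f * H) ∧
        ∀ v ∈ U, ‖∑ j, c j * MD (sgP w A j) z v‖ ≤ g * H)} : ℝ) ≤
        C * (g ^ w.mult) ^ U.card * (f ^ w.mult) ^ r * (2 * H + 1) ^ (mK K * NP n d) := by
  classical
  obtain ⟨C0, hC01, hC0⟩ := card_near_w K w
  have hcK1 := one_le_cK (K := K)
  have hcK : 0 < cK K := by linarith
  set dd := ∑ j, ∑ i, d j i with hdd
  have hdj : ∀ j, ∑ i, d j i ≤ dd := fun j =>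
    Finset.single_le_sum (f := fun j => ∑ i, d j i) (fun _ _ => Nat.zero_le _) (Finset.mem_univ j)
  have hhalf : ∀ j (m : ℝ), (1 / 2 : ℝ) ^ (∑ i, d j i) ≤ m → (1 / 2 : ℝ) ^ dd ≤ m :=
    fun j m hm => (pow_le_pow_of_le_one (by norm_num) (by norm_num) (hdj j)).trans hm
  obtain ⟨C1, hC1⟩ : ∃ C1 : ℝ, C1 = 2 * C0 * (2 ^ (dd + 1) * cK K) ^ mK K := ⟨_, rfl⟩
  have hC1one : 1 ≤ C1 := by
    rw [hC1]
    have h1 : (1 : ℝ) ≤ (2 ^ (dd + 1) * cK K) ^ mK K := by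
      apply one_le_pow₀
      have : (1 : ℝ) ≤ 2 ^ (dd + 1) := one_le_pow₀ (by norm_num)
      nlinarith
    nlinarith
  have hC1pos : 0 < C1 := by linarith
  refine ⟨C1 ^ (Fintype.card (MVar n) + r), by positivity, ?_⟩
  intro g f hg hf
  filter_upwards [eventually_ge_atTop ⌈1 / g⌉₊, eventually_ge_atTop ⌈1 / f⌉₊,
    eventually_ge_atTop 1] with H hHg hHf hH1
  intro τ z hz c j0 hc U hU
  have hHg' : 1 / g ≤ (H : ℝ) := (Nat.le_ceil _).trans (by exact_mod_cast hHg)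
  have hHf' : 1 / f ≤ (H : ℝ) := (Nat.le_ceil _).trans (by exact_mod_cast hHf)
  have hH0 : (1 : ℝ) ≤ H := by exact_mod_cast hH1
  have hHpos : (0 : ℝ) < H := by linarith
  have hmult : w.mult ≤ mK K := by
    rw [← sum_mult (K := K)]
    exact Finset.single_le_sum (f := fun w' : InfinitePlace K => w'.mult)
      (fun _ _ => Nat.zero_le _) (mem_univ w)
  -- the number of coefficients
  have hbd : ∀ q : ℝ, 0 < q → 1 / q ≤ (H : ℝ) → ∀ Z : Finset (𝓞 K),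
      (∀ a ∈ Z, ∀ k, |(crd a k : ℝ)| ≤ H) →
      (∀ a ∈ Z, ∀ b ∈ Z, ‖sg w a - sg w b‖ ≤ 2 ^ dd * (2 * (q * H))) →
      (Z.card : ℝ) ≤ C1 * q ^ w.mult * (2 * H + 1) ^ mK K := by
    intro q hq hqH Z hZ1 hZ2
    have h1 := hC0 H hHpos (2 ^ dd * (2 * (q * H))) (by positivity) Z hZ1 hZ2
    refine h1.trans ?_
    have h2 : 1 ≤ q * H := by
      rw [div_le_iff₀ hq] at hqH
      linarith
    have h3 : (1 : ℝ) ≤ 2 ^ dd := one_le_pow₀ (by norm_num)
    have h4 : 1 ≤ (2 : ℝ) ^ dd * (2 * (q * H)) := by nlinarith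
    have h5 : 1 ≤ cK K * H := by nlinarith
    have h6 : 1 ≤ ((2 : ℝ) ^ dd * (2 * (q * H))) ^ w.mult * (cK K * H) ^ (mK K - w.mult) :=
      one_le_mul_of_one_le_of_one_le (one_le_pow₀ h4) (one_le_pow₀ h5)
    have h7 : ((2 : ℝ) ^ dd * (2 * (q * H))) ^ w.mult * (cK K * H) ^ (mK K - w.mult) =
        ((2 ^ (dd + 1)) ^ w.mult * (cK K) ^ (mK K - w.mult)) * q ^ w.mult * (H : ℝ) ^ mK K := by
      have e1 : (2 : ℝ) ^ dd * (2 * (q * H)) = 2 ^ (dd + 1) * q * H := by ring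
      have e2 : (H : ℝ) ^ mK K = (H : ℝ) ^ w.mult * (H : ℝ) ^ (mK K - w.mult) := by
        rw [← pow_add, Nat.add_sub_cancel' hmult]
      rw [e1, e2, mul_pow, mul_pow, mul_pow]
      ring
    have h8 : (2 ^ (dd + 1) : ℝ) ^ w.mult * (cK K) ^ (mK K - w.mult) ≤
        (2 ^ (dd + 1) * cK K) ^ mK K := by
      have e1 : (2 ^ (dd + 1) : ℝ) ^ w.mult ≤ (2 ^ (dd + 1) * cK K) ^ w.mult := by
        refine pow_le_pow_left₀ (by positivity) ?_ _
        have : (0 : ℝ) < 2 ^ (dd + 1) := by positivity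
        nlinarith
      have e2 : (cK K) ^ (mK K - w.mult) ≤ (2 ^ (dd + 1) * cK K) ^ (mK K - w.mult) := by
        refine pow_le_pow_left₀ hcK.le ?_ _
        have : (1 : ℝ) ≤ 2 ^ (dd + 1) := one_le_pow₀ (by norm_num)
        nlinarith
      calc (2 ^ (dd + 1) : ℝ) ^ w.mult * (cK K) ^ (mK K - w.mult)
          ≤ (2 ^ (dd + 1) * cK K) ^ w.mult * (2 ^ (dd + 1) * cK K) ^ (mK K - w.mult) :=
            mul_le_mul e1 e2 (by positivity) (by positivity)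
        _ = (2 ^ (dd + 1) * cK K) ^ mK K := by rw [← pow_add, Nat.add_sub_cancel' hmult]
    have h9 : (H : ℝ) ^ mK K ≤ (2 * H + 1) ^ mK K :=
      pow_le_pow_left₀ hHpos.le (by linarith) _
    calc C0 * (((2 : ℝ) ^ dd * (2 * (q * H))) ^ w.mult * (cK K * H) ^ (mK K - w.mult) + 1)
        ≤ C0 * (2 * (((2 : ℝ) ^ dd * (2 * (q * H))) ^ w.mult * (cK K * H) ^ (mK K - w.mult))) := by
          refine mul_le_mul_of_nonneg_left ?_ (by linarith)
          linarith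
      _ = 2 * C0 * ((2 ^ (dd + 1)) ^ w.mult * (cK K) ^ (mK K - w.mult)) *
          (q ^ w.mult * (H : ℝ) ^ mK K) := by rw [h7]; ring
      _ ≤ 2 * C0 * (2 ^ (dd + 1) * cK K) ^ mK K * (q ^ w.mult * (2 * H + 1) ^ mK K) := by
          refine mul_le_mul (mul_le_mul_of_nonneg_left h8 (by positivity))
            (mul_le_mul_of_nonneg_left h9 (by positivity)) (by positivity) (by positivity)
      _ = C1 * q ^ w.mult * (2 * H + 1) ^ mK K := by rw [hC1]; ring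
  obtain ⟨N1, hN1⟩ : ∃ N1 : ℕ, N1 = ⌊C1 * g ^ w.mult * (2 * (H : ℝ) + 1) ^ mK K⌋₊ := ⟨_, rfl⟩
  obtain ⟨N2, hN2⟩ : ∃ N2 : ℕ, N2 = ⌊C1 * f ^ w.mult * (2 * (H : ℝ) + 1) ^ mK K⌋₊ := ⟨_, rfl⟩
  obtain ⟨hmain, hUN⟩ := pca_countK (K := K) hd τ U hU j0 H
    (fun A => (∀ j, ‖MF (sgP w A j) z‖ ≤ f * H) ∧
        ∀ v ∈ U, ‖∑ j, c j * MD (sgP w A j) z v‖ ≤ g * H)
    N1 N2
    (fun a b => ‖sg w a - sg w b‖ ≤ 2 ^ dd * (2 * (g * H)))
    (fun a b => ‖sg w a - sg w b‖ ≤ 2 ^ dd * (2 * (f * H)))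
    (fun Z h1 h2 => by
      rw [hN1]
      exact Nat.le_floor (hbd g hg hHg' Z h1 h2))
    (fun Z h1 h2 => by
      rw [hN2]
      exact Nat.le_floor (hbd f hf hHf' Z h1 h2)) (by
      intro v hv A A' hA hA' h h'
      have e1 := CIPHP.pca_MD_diff hd τ z U hU v hv c j0 (sgP w A)
        (sgP w A') (fun t ht ht' => by
          show sg w (A j0 t) = sg w (A' j0 t)
          rw [h t ht ht'])
        (fun j hj t ht => by
          show sg w (A j t) = sg w (A' j t)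
          rw [h' j hj t ht])
      refine crc_diff_le _ (c j0 * dmon z v (mex (ms1 τ v : MIdx n (d j0)))) _ dd ?_ ?_
      · rw [norm_mul, hc, one_mul]
        exact hhalf j0 _ (crc_dmon_ge (hd j0) τ z hz v (hU v hv))
      · have e2 : (sg w (A j0 (ms1 τ v)) - sg w (A' j0 (ms1 τ v))) *
            (c j0 * dmon z v (mex (ms1 τ v : MIdx n (d j0)))) =
            ∑ j, c j * MD (sgP w A j) z v - ∑ j, c j * MD (sgP w A' j) z v := e1.symm
        rw [e2]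
        have h1 := hA.2 v hv
        have h2 := hA'.2 v hv
        calc _ ≤ ‖∑ j, c j * MD (sgP w A j) z v‖ +
              ‖∑ j, c j * MD (sgP w A' j) z v‖ := norm_sub_le _ _
          _ ≤ 2 * (g * H) := by linarith) (by
      intro j A A' hA hA' h
      have e1 := cond_MF_diff τ z (sgP w A j) (sgP w A' j)
        (fun t ht => by
          show sg w (A j t) = sg w (A' j t)
          rw [h j t ht])
      refine crc_diff_le _ (∏ i, z ⟨i, τ i⟩ ^ d j i) _ dd (hhalf j _ (crc_prod_ge' τ z hz)) ?_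
      have e2 : (sg w (A j (ms0 τ)) - sg w (A' j (ms0 τ))) * (∏ i, z ⟨i, τ i⟩ ^ d j i) =
          MF (sgP w A j) z - MF (sgP w A' j) z := e1.symm
      rw [e2]
      have h1 := hA.1 j
      have h2 := hA'.1 j
      calc _ ≤ ‖MF (sgP w A j) z‖ + ‖MF (sgP w A' j) z‖ := norm_sub_le _ _
        _ ≤ 2 * (f * H) := by linarith)
  have hX : (0 : ℝ) < 2 * H + 1 := by positivity
  have hN1' : (N1 : ℝ) ≤ C1 * g ^ w.mult * (2 * (H : ℝ) + 1) ^ mK K := by
    rw [hN1]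
    exact Nat.floor_le (by positivity)
  have hN2' : (N2 : ℝ) ≤ C1 * f ^ w.mult * (2 * (H : ℝ) + 1) ^ mK K := by
    rw [hN2]
    exact Nat.floor_le (by positivity)
  have hS' : (Set.ncard {A : PSys n d (𝓞 K) | A ∈ BoxP K n d H ∧
        ((∀ j, ‖MF (sgP w A j) z‖ ≤ f * H) ∧
        ∀ v ∈ U, ‖∑ j, c j * MD (sgP w A j) z v‖ ≤ g * H)} : ℝ) ≤
      ((2 * H + 1) ^ mK K) ^ (NP n d - (U.card + r)) * ((N1 : ℝ) ^ U.card * (N2 : ℝ) ^ r) := by
    exact_mod_cast hmain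
  refine hS'.trans ?_
  obtain ⟨X, hXdef⟩ : ∃ X : ℝ, X = (2 * (H : ℝ) + 1) ^ mK K := ⟨_, rfl⟩
  have hXpos : 0 < X := by rw [hXdef]; positivity
  have hfin : (2 * (H : ℝ) + 1) ^ (mK K * NP n d) = X ^ NP n d := by rw [hXdef, pow_mul]
  rw [hfin]
  rw [← hXdef] at hN1' hN2' ⊢
  calc X ^ (NP n d - (U.card + r)) * ((N1 : ℝ) ^ U.card * (N2 : ℝ) ^ r)
      ≤ X ^ (NP n d - (U.card + r)) * ((C1 * g ^ w.mult * X) ^ U.card *
          (C1 * f ^ w.mult * X) ^ r) := by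
        refine mul_le_mul_of_nonneg_left ?_ (by positivity)
        exact mul_le_mul (pow_le_pow_left₀ (Nat.cast_nonneg _) hN1' _)
          (pow_le_pow_left₀ (Nat.cast_nonneg _) hN2' _) (by positivity) (by positivity)
    _ = C1 ^ (U.card + r) * ((g ^ w.mult) ^ U.card * (f ^ w.mult) ^ r *
        (X ^ (NP n d - (U.card + r)) * (X ^ U.card * X ^ r))) := by
        rw [mul_pow, mul_pow, mul_pow, mul_pow, pow_add C1]; ring
    _ = C1 ^ (U.card + r) * ((g ^ w.mult) ^ U.card * (f ^ w.mult) ^ r * X ^ NP n d) := by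
        congr 2
        rw [← pow_add, ← pow_add]
        congr 1
        omega
    _ ≤ C1 ^ (Fintype.card (MVar n) + r) *
        ((g ^ w.mult) ^ U.card * (f ^ w.mult) ^ r * X ^ NP n d) := by
        apply mul_le_mul_of_nonneg_right _ (by positivity)
        apply pow_le_pow_right₀ hC1one
        have := Finset.card_le_univ U
        omega
    _ = C1 ^ (Fintype.card (MVar n) + r) * (g ^ w.mult) ^ U.card * (f ^ w.mult) ^ r *
        X ^ NP n d := by ring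

end multi

end NKPHP
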