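import Pool.Agent.Lib.MP_e426f4_ag.NK.Defs
import Pool.Agent.Lib.MP_e426f4_ag.P.Defs

/-!
# Systems of multihomogeneous forms over the integers of a number field: definitions

Blocks are indexed by a finite type `ι`; block `i` has the `n i + 1` variables `z ⟨i, a⟩`.  A system
consists of `r` forms, the `j`-th of multidegree `(d j i)`, with coefficients in `𝓞 K`.
-/

namespace NKPHP

open NumberField GenHP NFHP NKHP Finset Filter Topology
open CIPHP (PSys NP PJac blk pev)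
open IsDedekindDomain

section multi
variable {ι : Type} [Fintype ι] [DecidableEq ι]

/-- The box of systems: all coordinates of all coefficients are in `[-H, H]`. -/
def BoxP (K : Type) [Field K] [NumberField K] (n : ι → ℕ) {r : ℕ} (d : Fin r → ι → ℕ) (H : ℝ) :
    Set (PSys n d (𝓞 K)) :=
  {A | ∀ j t k, |(crd (A j t) k : ℝ)| ≤ H}

/-- All absolute values of all coefficients are at most `H`. -/
def HouseP (K : Type) [Field K] [NumberField K] (n : ι → ℕ) {r : ℕ} (d : Fin r → ι → ℕ) (H : ℝ) :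
    Set (PSys n d (𝓞 K)) :=
  {A | ∀ j t w, ‖sg w (A j t)‖ ≤ H}

variable {K : Type} [Field K] [NumberField K] {n : ι → ℕ} {r : ℕ} {d : Fin r → ι → ℕ}

/-- The integral system at the place `w`. -/
noncomputable def sgP (w : InfinitePlace K) (A : PSys n d (𝓞 K)) : PSys n d ℂ :=
  fun j t => sg w (A j t)

/-- The system over `K ⊗ ℝ` with real coordinates `A`, at the place `w`. -/
noncomputable def sysPC (A : PSys n d (IK K → ℝ)) (w : InfinitePlace K) : PSys n d ℂ :=
  fun j t => lam (A j t) w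

/-- The system has a zero over `K` with nonzero blocks. -/
def PSolubleK (A : PSys n d (𝓞 K)) : Prop :=
  ∃ z : MVar n → K, BNZ z ∧ ∀ j, MF (fun t => ((A j t : 𝓞 K) : K)) z = 0

/-- The system is everywhere locally soluble. -/
def PELSK (A : PSys n d (𝓞 K)) : Prop :=
  (∀ v : HeightOneSpectrum (𝓞 K), ∃ z : MVar n → v.adicCompletion K, BNZ z ∧
      ∀ j, MF (fun t => algebraMap (𝓞 K) (v.adicCompletion K) (A j t)) z = 0) ∧
    ∀ w : InfinitePlace K, ∃ z : MVar n → w.Completion, BNZ z ∧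
      ∀ j, MF (fun t => algebraMap (𝓞 K) w.Completion (A j t)) z = 0

/-- The system defines a smooth complete intersection: the gradients are linearly independent at all
common zeros over the algebraic closure. -/
def PSmoothK (A : PSys n d (𝓞 K)) : Prop :=
  ∀ z : MVar n → AlgebraicClosure K, BNZ z →
    (∀ j, MF (fun t => algebraMap (𝓞 K) (AlgebraicClosure K) (A j t)) z = 0) →
    LinearIndependent (AlgebraicClosure K) fun j : Fin r => fun v : MVar n =>
      MD (fun t => algebraMap (𝓞 K) (AlgebraicClosure K) (A j t)) z v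

/-- Every block of `z` is nonzero modulo the prime ideal `P`. -/
def BUnitK (P : Ideal (𝓞 K)) (z : MVar n → 𝓞 K) : Prop := ∀ i, ∃ a, z ⟨i, a⟩ ∉ P

/-- A point at the infinite place `w`, every block normalised. -/
def BPtI (w : InfinitePlace K) (z : MVar n → ℂ) : Prop :=
  (w.IsReal → ∀ v, (z v).im = 0) ∧ (∀ v, ‖z v‖ ≤ 1) ∧ ∀ i, ∃ a, ‖z ⟨i, a⟩‖ = 1

/-- Every level of solubility at the prime `P`. -/
def PLocP (P : Ideal (𝓞 K)) (A : PSys n d (𝓞 K)) : Prop :=
  ∀ L : ℕ, ∃ z : MVar n → 𝓞 K, BUnitK P z ∧ ∀ j, MF (A j) z ∈ P ^ L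

/-- A good local point modulo `P ^ (2 a)` with respect to block `i0`. -/
def PGoodPK (i0 : ι) (P : Ideal (𝓞 K)) (a : ℕ) (A : PSys n d (𝓞 K)) : Prop :=
  ∃ z : MVar n → 𝓞 K, BUnitK P z ∧ (∀ j, MF (A j) z ∈ P ^ (2 * a)) ∧
    ∃ J : Fin r → Fin (n i0 + 1), (PJac A z (blk i0 J)).det ∉ P ^ a

/-- Solubility at the infinite place `w`. -/
def PLocI (w : InfinitePlace K) (A : PSys n d ℂ) : Prop :=
  ∃ z : MVar n → ℂ, BPtI w z ∧ ∀ j, MF (A j) z = 0

/-- A good local point at the infinite place `w` with respect to block `i0`. -/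
def PGoodIK (i0 : ι) (w : InfinitePlace K) (f g : ℝ) (A : PSys n d ℂ) : Prop :=
  ∃ z : MVar n → ℂ, BPtI w z ∧ (∀ j, ‖MF (A j) z‖ ≤ f) ∧
    ∃ J : Fin r → Fin (n i0 + 1), g ≤ ‖(PJac A z (blk i0 J)).det‖

/-- The system is everywhere locally soluble, elementary version. -/
def PELSeK (A : PSys n d (𝓞 K)) : Prop :=
  (∀ P : Ideal (𝓞 K), P.IsMaximal → PLocP P A) ∧ ∀ w : InfinitePlace K, PLocI w (sgP w A)

/-- The class theorem with respect to block `i0`: in every class of systems with good local points at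
all infinite places and at all primes dividing the product of the primes `≤ w`, all but a small
proportion are soluble. -/
def PCLSK (K : Type) [Field K] [NumberField K] (n : ι → ℕ) {r : ℕ} (d : Fin r → ι → ℕ) (i0 : ι) :
    Prop :=
  ∀ eps : ℝ, 0 < eps → ∃ w1 : ℕ, ∀ w : ℕ, w1 ≤ w → 2 ≤ w → ∀ bet : ℝ, 0 < bet → bet ≤ 1 →
    ∃ rho0 : ℝ, 0 < rho0 ∧ rho0 ≤ 1 ∧ ∀ rho : ℝ, 0 < rho → rho ≤ rho0 → ∀ k : ℕ, 1 ≤ k →
      ∀ A0 : PSys n d (𝓞 K),
      (∀ P : Ideal (𝓞 K), P.IsMaximal → (primorial w : 𝓞 K) ∈ P →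
        PGoodPK i0 P (k * vW (primorial w) P) A0) →
      ∀ AC Ainf : PSys n d (IK K → ℝ), (∀ j t l, |Ainf j t l| ≤ 1) →
      (∀ j t l, |AC j t l - Ainf j t l| ≤ rho) →
      (∀ w', PGoodIK i0 w' rho0 bet (sysPC Ainf w')) →
      ∀ᶠ H : ℝ in atTop,
        (Set.ncard {A : PSys n d (𝓞 K) |
          (∀ j t l, |(crd (A j t) l : ℝ) - H * AC j t l| ≤ rho * H) ∧
          (∀ j t, (((primorial w) ^ (2 * k) : ℕ) : 𝓞 K) ∣ A j t - A0 j t) ∧ ¬ PSolubleK A} : ℝ) ≤
          eps * (2 * rho * H / ((primorial w : ℝ)) ^ (2 * k)) ^ (mK K * NP n d)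

end multi

end NKPHP
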