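import Pool.Agent.Lib.MP_e426f4_ag.NKP.Defs

/-!
# Systems of multihomogeneous forms over the integers of a number field: more definitions
-/

namespace NKPHP

open NumberField GenHP NFHP NKHP Finset Filter Topology
open CIPHP (PSys NP PJac blk pev)

section basic
variable {K : Type} [Field K] [NumberField K] {ι : Type} [Fintype ι] [DecidableEq ι] {n : ι → ℕ}
  {r : ℕ} {d : Fin r → ι → ℕ}

/-- The real parts of the integral system at the infinite place `w` (used for real `w`). -/
noncomputable def reP (w : InfinitePlace K) (A : PSys n d (𝓞 K)) : PSys n d ℝ :=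
  fun j t => (sg w (A j t)).re

/-- real coordinates of the product of the element of `K ⊗ ℝ` with real coordinates `x` and `v` -/
noncomputable def rmul (x : IK K → ℝ) (v : 𝓞 K) : IK K → ℝ :=
  fun l => ∑ j, x j * (crd (RingOfIntegers.basis K j * v) l : ℝ)

end basic

/-! ### Finite local rings with principal maximal ideal -/

/-- `R` is a finite local ring with principal maximal ideal `(π)`, `q` elements in the residue field and
length `L`: the ring `𝓞 K ⧸ P ^ L`. -/
structure PR (R : Type) [CommRing R] (π : R) (q L : ℕ) : Prop where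
  fin : Finite R
  q_two : 2 ≤ q
  L_pos : 1 ≤ L
  unit : ∀ x : R, ¬ π ∣ x → IsUnit x
  not_unit : ¬ IsUnit π
  nil : π ^ L = 0
  card_dvd : ∀ s : ℕ, s ≤ L → Set.ncard {x : R | π ^ s ∣ x} = q ^ (L - s)
  ann : ∀ s : ℕ, s ≤ L → ∀ x : R, π ^ s * x = 0 → π ^ (L - s) ∣ x

end NKPHP
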