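import Pool.Agent.Lib.MP_e426f4_ag.NKP.Basic
import Pool.Agent.Lib.MP_e426f4_ag.NK.Lift
import Pool.Agent.Lib.MP_e426f4_ag.N.ApproxInf
import Pool.Agent.Lib.MP_e426f4_ag.M.Alg

/-! Module NKP-Els: everywhere locally soluble systems of multihomogeneous forms. -/

set_option linter.unusedSectionVars false

namespace NKPHP

open NumberField GenHP NFHP NKHP Finset Filter Topology
open CIPHP (PSys NP PJac blk pev)
open IsDedekindDomain

section multi
variable {ι : Type} [Fintype ι] [DecidableEq ι]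
variable {K : Type} [Field K] [NumberField K] {n : ι → ℕ} {r : ℕ} {d : Fin r → ι → ℕ}

private theorem pels_transfer {L : Type*} [Field L] [Algebra K L] [Algebra (𝓞 K) L]
    [IsScalarTower (𝓞 K) K L] (A : PSys n d (𝓞 K)) (h : PSolubleK A) :
    ∃ z : MVar n → L, BNZ z ∧ ∀ j, MF (fun t => algebraMap (𝓞 K) L (A j t)) z = 0 := by
  obtain ⟨x, hx, hF⟩ := h
  refine ⟨fun v => algebraMap K L (x v), fun i => ?_, fun j => ?_⟩
  · obtain ⟨a, ha⟩ := hx i
    exact ⟨a, fun h0 => ha ((map_eq_zero (algebraMap K L)).mp h0)⟩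
  · have h1 := MF_mapK (algebraMap K L) (fun t => ((A j t : 𝓞 K) : K)) x
    rw [hF j, map_zero] at h1
    rw [← h1]
    congr 1
    funext t
    exact IsScalarTower.algebraMap_apply (𝓞 K) K L (A j t)

theorem pels_of_solubleK (A : PSys n d (𝓞 K)) (h : PSolubleK A) : PELSK A :=
  ⟨fun _ => pels_transfer A h, fun _ => pels_transfer A h⟩

theorem plocP_of_completion (v : HeightOneSpectrum (𝓞 K)) (A : PSys n d (𝓞 K))
    (h : ∃ z : MVar n → v.adicCompletion K, BNZ z ∧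
      ∀ j, MF (fun t => algebraMap (𝓞 K) (v.adicCompletion K) (A j t)) z = 0) :
    PLocP v.asIdeal A := by
  obtain ⟨z, hz, hF⟩ := h
  have hN : ∀ i, ∃ a, z ⟨i, a⟩ ≠ 0 ∧
      ∀ l, Valued.v ((z ⟨i, a⟩)⁻¹ * z ⟨i, l⟩) ≤ (1 : WithZero (Multiplicative ℤ)) := fun i =>
    az_normal v (fun l => z ⟨i, l⟩) (hz i)
  choose a hza hle using hN
  intro L
  let y : MVar n → v.adicCompletionIntegers K := fun l => ⟨(z ⟨l.1, a l.1⟩)⁻¹ * z l, hle l.1 l.2⟩
  have hya : ∀ i, y ⟨i, a i⟩ = 1 := fun i => Subtype.ext (inv_mul_cancel₀ (hza i))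
  obtain ⟨c, J, hcJ, hJ⟩ := az_lift v (L + 1) y
  refine ⟨c, fun i => ⟨a i, ?_⟩, fun j => ?_⟩
  · intro hca
    have h1 := hcJ ⟨i, a i⟩
    rw [hya, ← map_one (azPhi v), ← map_sub] at h1
    have h3 : c ⟨i, a i⟩ - 1 ∈ v.asIdeal := Ideal.pow_le_self (by omega) (hJ _ h1)
    have h4 : (1 : 𝓞 K) ∈ v.asIdeal := by
      have := sub_mem hca h3
      simpa using this
    exact v.isPrime.ne_top ((Ideal.eq_top_iff_one _).mpr h4)
  · have hy : MF (fun t => azPhi v (A j t)) y = 0 := by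
      have h1 : (v.adicCompletionIntegers K).subtype (MF (fun t => azPhi v (A j t)) y) = 0 := by
        rw [← MF_mapK]
        have h2 : (fun l => (v.adicCompletionIntegers K).subtype (y l)) =
            fun l : MVar n => (fun i => (z ⟨i, a i⟩)⁻¹) l.1 * z l := rfl
        have h3 : (fun t => (v.adicCompletionIntegers K).subtype (azPhi v (A j t))) =
            fun t => algebraMap (𝓞 K) (v.adicCompletion K) (A j t) := rfl
        rw [h2, h3]
        exact (MF_scale (fun i => (z ⟨i, a i⟩)⁻¹) _ z).trans (by rw [hF j, mul_zero])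
      exact Subtype.ext h1
    have h1 : Ideal.Quotient.mk J (MF (fun t => azPhi v (A j t)) (fun l => azPhi v (c l))) = 0 := by
      rw [← MF_mapK]
      have h2 : (fun l => Ideal.Quotient.mk J (azPhi v (c l))) =
          fun l => Ideal.Quotient.mk J (y l) := by
        funext l
        exact (Ideal.Quotient.eq).mpr (hcJ l)
      rw [h2, MF_mapK, hy, map_zero]
    rw [MF_mapK, Ideal.Quotient.eq_zero_iff_mem] at h1
    exact Ideal.pow_le_pow_right (by omega) (hJ _ h1)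

theorem plocI_of_completion (w : InfinitePlace K) (A : PSys n d (𝓞 K))
    (h : ∃ z : MVar n → w.Completion, BNZ z ∧
      ∀ j, MF (fun t => algebraMap (𝓞 K) w.Completion (A j t)) z = 0) :
    PLocI w (sgP w A) := by
  obtain ⟨z, hz, hF⟩ := h
  set φ := InfinitePlace.Completion.extensionEmbedding w with hφ
  have hF' : ∀ j, MF (fun t => sg w (A j t)) (fun l => φ (z l)) = 0 := by
    intro j
    have h1 := MF_mapK φ (fun t => algebraMap (𝓞 K) w.Completion (A j t)) z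
    rw [hF j, map_zero] at h1
    rw [← h1]
    congr 1
    funext t
    exact (ext_algebraMap w (A j t)).symm
  have hM : ∀ i, ∃ a : Fin (n i + 1), ∀ b, ‖φ (z ⟨i, b⟩)‖ ≤ ‖φ (z ⟨i, a⟩)‖ := by
    intro i
    obtain ⟨a, -, ha⟩ := Finset.exists_max_image (univ : Finset (Fin (n i + 1)))
      (fun a => ‖φ (z ⟨i, a⟩)‖) ⟨0, mem_univ 0⟩
    exact ⟨a, fun b => ha b (mem_univ b)⟩
  choose a hmax using hM
  have hza : ∀ i, φ (z ⟨i, a i⟩) ≠ 0 := by
    intro i h0
    obtain ⟨b, hb⟩ := hz i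
    have h1 := hmax i b
    rw [h0, norm_zero] at h1
    exact hb ((map_eq_zero φ).mp (norm_le_zero_iff.mp h1))
  have hpos : ∀ i, 0 < ‖φ (z ⟨i, a i⟩)‖ := fun i => norm_pos_iff.mpr (hza i)
  refine ⟨fun l => (fun i => (φ (z ⟨i, a i⟩))⁻¹) l.1 * φ (z l), ⟨fun hw l => ?_, fun l => ?_,
    fun i => ⟨a i, ?_⟩⟩, fun j => ?_⟩
  · have h1 : ∀ x : w.Completion, ((InfinitePlace.Completion.extensionEmbeddingOfIsReal hw x : ℝ) : ℂ)
        = φ x := fun x => InfinitePlace.Completion.extensionEmbeddingOfIsReal_apply hw x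
    show ((φ (z ⟨l.1, a l.1⟩))⁻¹ * φ (z l)).im = 0
    rw [← h1, ← h1, ← Complex.ofReal_inv, ← Complex.ofReal_mul]
    exact Complex.ofReal_im _
  · show ‖(φ (z ⟨l.1, a l.1⟩))⁻¹ * φ (z l)‖ ≤ 1
    rw [norm_mul, norm_inv, inv_mul_le_iff₀ (hpos l.1), mul_one]
    exact hmax l.1 l.2
  · show ‖(φ (z ⟨i, a i⟩))⁻¹ * φ (z ⟨i, a i⟩)‖ = 1
    rw [inv_mul_cancel₀ (hza i), norm_one]
  · show MF (fun t => sg w (A j t)) (fun l => (fun i => (φ (z ⟨i, a i⟩))⁻¹) l.1 * φ (z l)) = 0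
    exact (MF_scale (fun i => (φ (z ⟨i, a i⟩))⁻¹) _ fun l => φ (z l)).trans
      (by rw [hF' j, mul_zero])

theorem PELSeK_of_PELSK (A : PSys n d (𝓞 K)) (h : PELSK A) : PELSeK A := by
  refine ⟨fun P hP => ?_, fun w => plocI_of_completion w A (h.2 w)⟩
  have hP0 : P ≠ ⊥ := Ring.ne_bot_of_isMaximal_of_not_isField hP (RingOfIntegers.not_isField K)
  exact plocP_of_completion ⟨P, hP.isPrime, hP0⟩ A (h.1 ⟨P, hP.isPrime, hP0⟩)

end multi

end NKPHP
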