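import Pool.Agent.Lib.MP_e426f4_ag.NKP.GridI
import Pool.Agent.Lib.MP_e426f4_ag.NK.LeftKernel

/-!
# Nets at an infinite place, normalisation of points, left kernels
-/

set_option linter.unusedSectionVars false

namespace NKPHP

open NumberField GenHP NFHP NKHP Finset Filter Topology
open CIPHP (PSys NP PJac blk pev)

section nets

private theorem ni_trunc (y : ℝ) : ∃ m : ℤ, |(m : ℝ)| ≤ |y| ∧ |y - m| ≤ 1 := by
  rcases le_or_gt 0 y with hy | hy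
  · refine ⟨⌊y⌋, ?_, ?_⟩
    · rw [abs_of_nonneg hy, abs_of_nonneg (by exact_mod_cast Int.floor_nonneg.2 hy)]
      exact Int.floor_le y
    · rw [abs_le]
      constructor <;> linarith [Int.floor_le y, Int.lt_floor_add_one y]
  · refine ⟨⌈y⌉, ?_, ?_⟩
    · rw [abs_of_neg hy]
      have h1 : ⌈y⌉ ≤ 0 := Int.ceil_le.2 (by simpa using hy.le)
      have h2 : (⌈y⌉ : ℝ) ≤ 0 := by exact_mod_cast h1
      rw [abs_of_nonpos h2]
      linarith [Int.le_ceil y]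
    · rw [abs_le]
      constructor <;> linarith [Int.le_ceil y, Int.ceil_lt_add_one y]

private theorem ni_near (bet : ℝ) (hb : 0 < bet) (y : ℝ) (hy : |y| ≤ 1) :
    ∃ m : ℤ, m ∈ Icc (-⌊1 / bet⌋) ⌊1 / bet⌋ ∧ |bet * m - y| ≤ bet := by
  obtain ⟨m, h1, h2⟩ := ni_trunc (y / bet)
  refine ⟨m, ?_, ?_⟩
  · have h3 : |y / bet| ≤ 1 / bet := by
      rw [abs_div, abs_of_pos hb]
      exact div_le_div_of_nonneg_right hy hb.le
    have h4 := abs_le.1 (h1.trans h3)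
    rw [Finset.mem_Icc]
    constructor
    · have : -m ≤ ⌊1 / bet⌋ := Int.le_floor.2 (by push_cast; linarith [h4.1])
      linarith
    · exact Int.le_floor.2 h4.2
  · have h3 : bet * (m : ℝ) - y = -(bet * (y / bet - m)) := by
      field_simp
      ring
    rw [h3, abs_neg, abs_mul, abs_of_pos hb]
    calc bet * |y / bet - m| ≤ bet * 1 := mul_le_mul_of_nonneg_left h2 hb.le
      _ = bet := mul_one _

private theorem ni_Icc_card (bet : ℝ) (hb : 0 < bet) (hb1 : bet ≤ 1) :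
    ((Icc (-⌊1 / bet⌋) ⌊1 / bet⌋).card : ℝ) ≤ 3 / bet := by
  set R : ℤ := ⌊1 / bet⌋ with hR
  have hRnn : 0 ≤ R := Int.floor_nonneg.2 (by positivity)
  have h0 : (Icc (-R) R).card = (2 * R + 1).toNat := by
    rw [Int.card_Icc]
    congr 1
    ring
  have h3 : (((2 * R + 1).toNat : ℕ) : ℤ) = 2 * R + 1 := Int.toNat_of_nonneg (by omega)
  have h4 : (((2 * R + 1).toNat : ℕ) : ℝ) = 2 * (R : ℝ) + 1 := by
    exact_mod_cast congrArg (fun n : ℤ => (n : ℝ)) h3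
  rw [h0, h4]
  have h5 : (R : ℝ) ≤ 1 / bet := Int.floor_le _
  have h6 : 1 ≤ 1 / bet := by rw [le_div_iff₀ hb]; linarith
  have h7 : 3 / bet = 3 * (1 / bet) := by ring
  rw [h7]
  linarith

/-- a net of the unit ball of the completion -/
theorem net_one {K : Type} [Field K] (w : InfinitePlace K) (bet : ℝ) (hb : 0 < bet)
    (hb1 : bet ≤ 1) :
    ∃ N : Finset ℂ, (N.card : ℝ) ≤ (3 / bet) ^ w.mult ∧
      ∀ z : ℂ, (w.IsReal → z.im = 0) → ‖z‖ ≤ 1 → ∃ y ∈ N, ‖y - z‖ ≤ 2 * bet := by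
  classical
  by_cases hw : w.IsReal
  · refine ⟨(Icc (-⌊1 / bet⌋) ⌊1 / bet⌋).image fun m : ℤ => ((bet * m : ℝ) : ℂ), ?_, ?_⟩
    · have hm : w.mult = 1 := InfinitePlace.mult_isReal ⟨w, hw⟩
      rw [hm, pow_one]
      refine le_trans ?_ (ni_Icc_card bet hb hb1)
      exact_mod_cast Finset.card_image_le
    · intro z hz hz1
      have hz0 := hz hw
      have h1 : |z.re| ≤ 1 := (Complex.abs_re_le_norm z).trans hz1
      obtain ⟨m, hm1, hm2⟩ := ni_near bet hb z.re h1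
      refine ⟨_, Finset.mem_image.mpr ⟨m, hm1, rfl⟩, ?_⟩
      have h2 : z = ((z.re : ℝ) : ℂ) := Complex.ext (by simp) (by simp [hz0])
      rw [h2, ← Complex.ofReal_sub, Complex.norm_real, Real.norm_eq_abs]
      linarith
  · refine ⟨((Icc (-⌊1 / bet⌋) ⌊1 / bet⌋) ×ˢ (Icc (-⌊1 / bet⌋) ⌊1 / bet⌋)).image
      fun m : ℤ × ℤ => (⟨bet * m.1, bet * m.2⟩ : ℂ), ?_, ?_⟩
    · have hm : w.mult = 2 := by
        rw [InfinitePlace.mult, if_neg hw]
      rw [hm]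
      have h1 : ((((Icc (-⌊1 / bet⌋) ⌊1 / bet⌋) ×ˢ (Icc (-⌊1 / bet⌋) ⌊1 / bet⌋)).image
          fun m : ℤ × ℤ => (⟨bet * m.1, bet * m.2⟩ : ℂ)).card : ℝ) ≤
          (((Icc (-⌊1 / bet⌋) ⌊1 / bet⌋) ×ˢ (Icc (-⌊1 / bet⌋) ⌊1 / bet⌋)).card : ℝ) := by
        exact_mod_cast Finset.card_image_le
      refine h1.trans ?_
      rw [Finset.card_product]
      push_cast
      rw [sq]
      have h2 := ni_Icc_card bet hb hb1
      exact mul_le_mul h2 h2 (by positivity) (by positivity)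
    · intro z _ hz1
      obtain ⟨m, hm1, hm2⟩ := ni_near bet hb z.re ((Complex.abs_re_le_norm z).trans hz1)
      obtain ⟨m', hm1', hm2'⟩ := ni_near bet hb z.im ((Complex.abs_im_le_norm z).trans hz1)
      refine ⟨_, Finset.mem_image.mpr ⟨(m, m'), Finset.mem_product.mpr ⟨hm1, hm1'⟩, rfl⟩, ?_⟩
      refine (Complex.norm_le_abs_re_add_abs_im _).trans ?_
      simp only [Complex.sub_re, Complex.sub_im]
      linarith

/-- a net of the vectors with prescribed coordinates `1` -/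
theorem net_pi {K : Type} [Field K] (w : InfinitePlace K) {V : Type*} [Fintype V] [DecidableEq V]
    (S : Finset V) (bet : ℝ) (hb : 0 < bet) (hb1 : bet ≤ 1) :
    ∃ N : Finset (V → ℂ), (N.card : ℝ) ≤ ((3 / bet) ^ w.mult) ^ (Sᶜ).card ∧
      (∀ y ∈ N, ∀ v ∈ S, y v = 1) ∧
      ∀ z : V → ℂ, (w.IsReal → ∀ v, (z v).im = 0) → (∀ v, ‖z v‖ ≤ 1) → (∀ v ∈ S, z v = 1) →
        ∃ y ∈ N, ∀ v, ‖y v - z v‖ ≤ 2 * bet := by
  classical
  obtain ⟨N1, hN1, hN1'⟩ := net_one w bet hb hb1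
  refine ⟨Fintype.piFinset fun v => if v ∈ S then {1} else N1, ?_, ?_, ?_⟩
  · rw [Fintype.card_piFinset, Nat.cast_prod]
    calc ∏ v : V, ((if v ∈ S then ({1} : Finset ℂ) else N1).card : ℝ)
        ≤ ∏ v : V, (if v ∈ Sᶜ then (3 / bet) ^ w.mult else 1) := by
          refine Finset.prod_le_prod (fun v _ => Nat.cast_nonneg _) fun v _ => ?_
          by_cases hv : v ∈ S
          · rw [if_pos hv, if_neg (by simpa using hv), Finset.card_singleton, Nat.cast_one]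
          · rw [if_neg hv, if_pos (by simpa using hv)]
            exact hN1
      _ = _ := by rw [Finset.prod_ite_mem, Finset.univ_inter, Finset.prod_const]
  · intro y hy v hv
    have := Fintype.mem_piFinset.1 hy v
    rwa [if_pos hv, Finset.mem_singleton] at this
  · intro z hzr hz1 hzS
    have h : ∀ v, ∃ y : ℂ, y ∈ (if v ∈ S then ({1} : Finset ℂ) else N1) ∧ ‖y - z v‖ ≤ 2 * bet := by
      intro v
      by_cases hv : v ∈ S
      · refine ⟨1, by rw [if_pos hv]; exact Finset.mem_singleton_self _, ?_⟩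
        rw [hzS v hv, sub_self, norm_zero]
        positivity
      · obtain ⟨y, hy1, hy2⟩ := hN1' (z v) (fun hw => hzr hw v) (hz1 v)
        exact ⟨y, by rw [if_neg hv]; exact hy1, hy2⟩
    choose y hy1 hy2 using h
    exact ⟨y, Fintype.mem_piFinset.2 hy1, hy2⟩

end nets

theorem lk_C {V : Type*} [Fintype V] {r : ℕ} (hr : 1 ≤ r) (L : Fin r → V → ℂ) (bet : ℝ)
    (hb : 0 < bet) (h : ∀ J : Fin r → V, ‖(Matrix.of fun i l => L i (J l)).det‖ < bet ^ r) :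
    ∃ c : Fin r → ℂ, (∀ i, ‖c i‖ ≤ 1) ∧ (∃ i, c i = 1) ∧ (∀ v, ‖∑ i, c i * L i v‖ ≤ bet) ∧
      ((∀ i v, (L i v).im = 0) → ∀ i, (c i).im = 0) := by
  classical
  set E := Fintype.equivFin V with hE
  obtain ⟨c, hc0, hc1, hc2, hc3⟩ := left_kernel_C hr
    (Matrix.of fun i (a : Fin (Fintype.card V)) => L i (E.symm a)) bet hb
    (fun J => h fun l => E.symm (J l))
  refine ⟨c, hc0, hc1, fun v => ?_, fun h0 => hc3 fun i j => h0 i _⟩
  have := hc2 (E v)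
  simpa using this

section multi
variable {ι : Type} [Fintype ι] [DecidableEq ι]
variable {K : Type} [Field K] [NumberField K] {n : ι → ℕ} {r : ℕ} {d : Fin r → ι → ℕ}

theorem im_MD_zero (A : PSys n d ℂ) (z : MVar n → ℂ) (hA : ∀ j t, (A j t).im = 0)
    (hz : ∀ v, (z v).im = 0) (j : Fin r) (v : MVar n) : (MD (A j) z v).im = 0 := by
  have h1 : z = fun v => (starRingEnd ℂ) (z v) := funext fun v =>
    (Complex.conj_eq_iff_im.2 (hz v)).symm
  have h2 : A j = fun t => (starRingEnd ℂ) (A j t) := funext fun t =>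
    (Complex.conj_eq_iff_im.2 (hA j t)).symm
  have h3 := MD_map (starRingEnd ℂ) (A j) z v
  rw [← h1, ← h2] at h3
  exact Complex.conj_eq_iff_im.1 h3.symm

theorem norm_sgP_le {A : PSys n d (𝓞 K)} {H : ℝ} (hA : A ∈ BoxP K n d H) (w : InfinitePlace K)
    (j : Fin r) (t : MIdx n (d j)) : ‖sgP w A j t‖ ≤ cK K * H := norm_sg_le_of_crd (hA j t) w

theorem im_sgP (A : PSys n d (𝓞 K)) (w : InfinitePlace K) (hw : w.IsReal)
    (j : Fin r) (t : MIdx n (d j)) : (sgP w A j t).im = 0 := RV_sg (A j t) w hw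

/-- normalising an approximate zero -/
theorem pgoodI_of_approx (n : ι → ℕ) {r : ℕ} (d : Fin r → ι → ℕ) (i0 : ι) (w : InfinitePlace K) :
    ∃ C : ℝ, 1 ≤ C ∧ ∀ (A : PSys n d ℂ) (z : MVar n → ℂ) (f g : ℝ), 0 ≤ f → 0 ≤ g →
      (w.IsReal → ∀ v, (z v).im = 0) →
      (∀ v, ‖z v‖ ≤ 2) → (∀ i, ∃ a, 1 / 2 ≤ ‖z ⟨i, a⟩‖) → (∀ j, ‖MF (A j) z‖ ≤ f) →
      ∀ J : Fin r → Fin (n i0 + 1), (C * g) ^ r ≤ ‖(PJac A z (blk i0 J)).det‖ →
      PGoodIK i0 w (C * f) (g ^ r) A := by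
  set DD : ℕ := ∑ j, ∑ i, d j i with hDD
  refine ⟨2 ^ (DD + 1), one_le_pow₀ (by norm_num), ?_⟩
  intro A z f g hf hg hzr hz hz2 hF J hJ
  have hmax : ∀ i, ∃ a : Fin (n i + 1), ∀ b, ‖z ⟨i, b⟩‖ ≤ ‖z ⟨i, a⟩‖ := fun i =>
    Finite.exists_max fun a : Fin (n i + 1) => ‖z ⟨i, a⟩‖
  choose τ hτ using hmax
  have hlow : ∀ i, 1 / 2 ≤ ‖z ⟨i, τ i⟩‖ := by
    intro i
    obtain ⟨b, hb⟩ := hz2 i
    exact hb.trans (hτ i b)
  have hpos : ∀ i, 0 < ‖z ⟨i, τ i⟩‖ := fun i => lt_of_lt_of_le (by norm_num) (hlow i)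
  obtain ⟨c, hc⟩ : ∃ c : ι → ℝ, c = fun i => ‖z ⟨i, τ i⟩‖⁻¹ := ⟨_, rfl⟩
  have hcpos : ∀ i, 0 < c i := fun i => by rw [hc]; exact inv_pos.mpr (hpos i)
  have hc2 : ∀ i, c i ≤ 2 := fun i => by
    have h := inv_anti₀ (by norm_num : (0 : ℝ) < 1 / 2) (hlow i)
    have h' : ((1 : ℝ) / 2)⁻¹ = 2 := by norm_num
    rw [h'] at h
    rw [hc]
    exact h
  have hc1 : ∀ i, 1 / 2 ≤ c i := fun i => by
    have h := inv_anti₀ (hpos i) (hz ⟨i, τ i⟩)
    have h' : (2 : ℝ)⁻¹ = 1 / 2 := by norm_num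
    rw [h'] at h
    rw [hc]
    exact h
  have hcn : ∀ i, ‖((c i : ℝ) : ℂ)‖ = c i := fun i => by
    rw [Complex.norm_real, Real.norm_eq_abs, abs_of_pos (hcpos i)]
  have hP0 : ∀ j, 0 < ∏ i, c i ^ d j i := fun j => Finset.prod_pos fun i _ => pow_pos (hcpos i) _
  have hPn : ∀ j, ‖∏ i, ((c i : ℝ) : ℂ) ^ d j i‖ = ∏ i, c i ^ d j i := fun j => by
    rw [norm_prod]
    exact Finset.prod_congr rfl fun i _ => by rw [norm_pow, hcn]
  have hP2 : ∀ j, ∏ i, c i ^ d j i ≤ 2 ^ (∑ i, d j i) := by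
    intro j
    rw [← Finset.prod_pow_eq_pow_sum]
    exact Finset.prod_le_prod (fun i _ => (pow_pos (hcpos i) _).le)
      fun i _ => pow_le_pow_left₀ (hcpos i).le (hc2 i) _
  have hP1 : ∀ j, (1 / 2 : ℝ) ^ (∑ i, d j i) ≤ ∏ i, c i ^ d j i := by
    intro j
    rw [← Finset.prod_pow_eq_pow_sum]
    exact Finset.prod_le_prod (fun i _ => by positivity)
      fun i _ => pow_le_pow_left₀ (by norm_num) (hc1 i) _
  have hjD : ∀ j, ∑ i, d j i ≤ DD := fun j =>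
    Finset.single_le_sum (f := fun j => ∑ i, d j i) (fun _ _ => Nat.zero_le _) (Finset.mem_univ j)
  refine ⟨fun v => ((c v.1 : ℝ) : ℂ) * z v, ⟨?_, ?_, ?_⟩, fun j => ?_, J, ?_⟩
  · intro hw v
    rw [Complex.im_ofReal_mul, hzr hw v, mul_zero]
  · rintro ⟨i, b⟩
    rw [norm_mul, hcn, hc]
    calc ‖z ⟨i, τ i⟩‖⁻¹ * ‖z ⟨i, b⟩‖ ≤ ‖z ⟨i, τ i⟩‖⁻¹ * ‖z ⟨i, τ i⟩‖ :=
          mul_le_mul_of_nonneg_left (hτ i b) (inv_nonneg.mpr (norm_nonneg _))
      _ = 1 := inv_mul_cancel₀ (hpos i).ne'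
  · intro i
    refine ⟨τ i, ?_⟩
    rw [norm_mul, hcn, hc]
    exact inv_mul_cancel₀ (hpos i).ne'
  · rw [MF_scale (fun i => ((c i : ℝ) : ℂ)) (A j) z, norm_mul, hPn]
    refine mul_le_mul ((hP2 j).trans ?_) (hF j) (norm_nonneg _) (by positivity)
    exact pow_le_pow_right₀ (by norm_num) ((hjD j).trans (Nat.le_succ _))
  · have h := congrArg norm (CIPHP.PJac_scale (fun i => ((c i : ℝ) : ℂ)) A z (blk i0 J))
    have hPP : 0 < ∏ j, ∏ i, c i ^ d j i := Finset.prod_pos fun j _ => hP0 j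
    have hPPn : ‖∏ j, ∏ i, ((c i : ℝ) : ℂ) ^ d j i‖ = ∏ j, ∏ i, c i ^ d j i := by
      rw [norm_prod]
      exact Finset.prod_congr rfl fun j _ => hPn j
    have hPP1 : (1 / 2 : ℝ) ^ DD ≤ ∏ j, ∏ i, c i ^ d j i := by
      rw [hDD, ← Finset.prod_pow_eq_pow_sum]
      exact Finset.prod_le_prod (fun j _ => by positivity) fun j _ => hP1 j
    have hl : ‖∏ l : Fin r, ((c (blk i0 J l).1 : ℝ) : ℂ)‖ = c i0 ^ r := by
      rw [norm_prod]
      have : ∀ l : Fin r, ‖((c (blk i0 J l).1 : ℝ) : ℂ)‖ = c i0 := fun l => hcn i0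
      rw [Finset.prod_congr rfl fun l _ => this l, Finset.prod_const, Finset.card_univ,
        Fintype.card_fin]
    rw [norm_mul, norm_mul, hPPn, hl] at h
    obtain ⟨X, hX⟩ : ∃ X : ℝ, X = ‖(PJac A (fun v => ((c v.1 : ℝ) : ℂ) * z v) (blk i0 J)).det‖ :=
      ⟨_, rfl⟩
    rw [← hX] at h ⊢
    have hX0 : 0 ≤ X := by rw [hX]; exact norm_nonneg _
    have h1 : (1 / 2 : ℝ) ^ DD * ((2 ^ (DD + 1) * g) ^ r) ≤ c i0 ^ r * X := by
      rw [h]
      exact mul_le_mul hPP1 hJ (by positivity) hPP.le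
    have h2 : c i0 ^ r * X ≤ 2 ^ r * X :=
      mul_le_mul_of_nonneg_right (pow_le_pow_left₀ (hcpos i0).le (hc2 i0) r) hX0
    have h3 : (2 : ℝ) ^ r * g ^ r ≤ (1 / 2 : ℝ) ^ DD * ((2 ^ (DD + 1) * g) ^ r) := by
      rw [mul_pow, ← pow_mul, ← mul_assoc]
      refine mul_le_mul_of_nonneg_right ?_ (by positivity)
      have h4 : DD + r ≤ (DD + 1) * r := by
        rcases Nat.eq_zero_or_pos r with hr | hr
        · subst hr
          simp [hDD]
        · nlinarith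
      have h5 : (2 : ℝ) ^ (DD + r) ≤ 2 ^ ((DD + 1) * r) := pow_le_pow_right₀ (by norm_num) h4
      have h6 : (1 / 2 : ℝ) ^ DD * 2 ^ DD = 1 := by
        rw [← mul_pow]
        norm_num
      calc (2 : ℝ) ^ r = (1 / 2 : ℝ) ^ DD * 2 ^ DD * 2 ^ r := by rw [h6, one_mul]
        _ = (1 / 2 : ℝ) ^ DD * 2 ^ (DD + r) := by rw [mul_assoc, ← pow_add]
        _ ≤ _ := mul_le_mul_of_nonneg_left h5 (by positivity)
    have h7 := h3.trans (h1.trans h2)
    exact le_of_mul_le_mul_left h7 (by positivity)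

theorem pgoodI_mono (i0 : ι) (w : InfinitePlace K) (f f' g : ℝ) (hf : f ≤ f') (A : PSys n d ℂ)
    (h : PGoodIK i0 w f g A) : PGoodIK i0 w f' g A := by
  obtain ⟨z, hz, hF, J, hJ⟩ := h
  exact ⟨z, hz, fun j => (hF j).trans hf, J, hJ⟩

end multi

end NKPHP
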