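import Pool.Agent.Lib.MP_e426f4_ag.NKP.CondI
import Pool.Agent.Lib.MP_e426f4_ag.NKP.NetI

/-!
# Systems with an almost singular zero at an infinite place are few
-/

set_option linter.unusedSectionVars false

namespace NKPHP

open NumberField GenHP NFHP NKHP Finset Filter Topology
open CIPHP (PSys NP PJac blk pev)

theorem ei_cover {α β : Type*} (S : Set α) (T : Finset β) (f : β → Set α)
    (hsub : ∀ a ∈ S, ∃ t ∈ T, a ∈ f t) (hfin : ∀ t ∈ T, (f t).Finite) (K : ℝ)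
    (hcard : ∀ t ∈ T, ((f t).ncard : ℝ) ≤ K) : (S.ncard : ℝ) ≤ T.card * K := by
  have h1 : S ⊆ ⋃ t ∈ T, f t := by
    intro a ha
    obtain ⟨t, ht, hat⟩ := hsub a ha
    simp only [Set.mem_iUnion]
    exact ⟨t, ht, hat⟩
  have h2 : (⋃ t ∈ T, f t).Finite := T.finite_toSet.biUnion fun t ht => hfin t ht
  have h3 : (S.ncard : ℝ) ≤ ((∑ t ∈ T, (f t).ncard : ℕ) : ℝ) := by
    exact_mod_cast (Set.ncard_le_ncard h1 h2).trans (Finset.set_ncard_biUnion_le T f)
  refine h3.trans ?_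
  push_cast
  calc ∑ t ∈ T, ((f t).ncard : ℝ) ≤ ∑ _t ∈ T, K := Finset.sum_le_sum hcard
    _ = T.card * K := by rw [Finset.sum_const, nsmul_eq_mul]

section multi
variable {ι : Type} [Fintype ι] [DecidableEq ι]
variable {K : Type} [Field K] [NumberField K]

/-- normalising a point so that one coordinate of each block is `1` -/
theorem norm_one_pt {n : ι → ℕ} {r : ℕ} {d : Fin r → ι → ℕ} (w : InfinitePlace K)
    (A : PSys n d ℂ) (z : MVar n → ℂ) (hz : BPtI w z) (hF : ∀ j, MF (A j) z = 0) :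
    ∃ (τ : ∀ i, Fin (n i + 1)) (z' : MVar n → ℂ), (w.IsReal → ∀ v, (z' v).im = 0) ∧
      (∀ v, ‖z' v‖ ≤ 1) ∧ (∀ i, z' ⟨i, τ i⟩ = 1) ∧ (∀ j, MF (A j) z' = 0) ∧
      ∀ J : Fin r → MVar n, ‖(PJac A z' J).det‖ = ‖(PJac A z J).det‖ := by
  obtain ⟨hzr, hz1, hz2⟩ := hz
  choose τ hτ using hz2
  obtain ⟨c, hc⟩ : ∃ c : ι → ℂ, c = fun i => (z ⟨i, τ i⟩)⁻¹ := ⟨_, rfl⟩
  have hcn : ∀ i, ‖c i‖ = 1 := fun i => by rw [hc, norm_inv, hτ, inv_one]
  have h0 : ∀ i, z ⟨i, τ i⟩ ≠ 0 := by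
    intro i h
    have := hτ i
    rw [h, norm_zero] at this
    exact zero_ne_one this
  refine ⟨τ, fun v => c v.1 * z v, ?_, ?_, ?_, ?_, ?_⟩
  · intro hw v
    have h1 : ∀ v, ((z v).re : ℂ) = z v := fun v => Complex.ext (by simp) (by simp [hzr hw v])
    rw [hc]
    show ((z ⟨v.1, τ v.1⟩)⁻¹ * z v).im = 0
    rw [← h1 ⟨v.1, τ v.1⟩, ← h1 v, ← Complex.ofReal_inv, ← Complex.ofReal_mul]
    exact Complex.ofReal_im _
  · intro v
    rw [norm_mul, hcn, one_mul]
    exact hz1 v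
  · intro i
    rw [hc]
    exact inv_mul_cancel₀ (h0 i)
  · intro j
    rw [MF_scale c (A j) z, hF j, mul_zero]
  · intro J
    have h := congrArg norm (CIPHP.PJac_scale c A z J)
    rw [norm_mul, norm_mul] at h
    have e1 : ‖∏ l, c (J l).1‖ = 1 := by
      rw [norm_prod]
      exact Finset.prod_eq_one fun l _ => hcn _
    have e2 : ‖∏ j, ∏ i, c i ^ d j i‖ = 1 := by
      rw [norm_prod]
      refine Finset.prod_eq_one fun j _ => ?_
      rw [norm_prod]
      exact Finset.prod_eq_one fun i _ => by rw [norm_pow, hcn, one_pow]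
    rwa [e1, e2, one_mul, one_mul] at h

theorem exc_i1 (n : ι → ℕ) {r : ℕ} (d : Fin r → ι → ℕ) (hr : 1 ≤ r)
    (hd : ∀ j i, 1 ≤ d j i) (w : InfinitePlace K) :
    ∃ C : ℝ, 0 < C ∧ ∀ bet : ℝ, 0 < bet → bet ≤ 1 →
    ∀ᶠ H : ℕ in atTop,
      (Set.ncard {A : PSys n d (𝓞 K) | A ∈ BoxP K n d H ∧ ∃ z : MVar n → ℂ, BPtI w z ∧
        (∀ j, MF (sgP w A j) z = 0) ∧
        ∀ J : Fin r → MVar n, ‖(PJac (sgP w A) z J).det‖ < (bet * H) ^ r} : ℝ) ≤
        C * bet * (2 * H + 1) ^ (mK K * NP n d) := by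
  classical
  obtain ⟨Cr, hCr, hcr⟩ := pcond_i n d hd w
  have hcK1 := one_le_cK (K := K)
  have hcK : 0 < cK K := by linarith
  have hkM := kM_one n d
  obtain ⟨Q, hQ⟩ : ∃ Q, Q = kM n d * cK K := ⟨_, rfl⟩
  have hQ1 : 1 ≤ Q := by rw [hQ]; nlinarith
  have hr' : (1 : ℝ) ≤ r := by exact_mod_cast hr
  obtain ⟨C1, hC1⟩ : ∃ C1 : ℝ, C1 = 1 + 8 * r * Q := ⟨_, rfl⟩
  have hC1pos : 1 ≤ C1 := by
    rw [hC1]
    have : 0 ≤ 8 * (r : ℝ) * Q := by positivity
    linarith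
  have hC1Q : 2 * Q ≤ C1 := by
    rw [hC1]
    nlinarith
  obtain ⟨m, hm⟩ : ∃ m, m = w.mult := ⟨_, rfl⟩
  obtain ⟨VV, hVV⟩ : ∃ VV : ℕ, VV = Fintype.card (MVar n) := ⟨_, rfl⟩
  obtain ⟨TT, hTT⟩ : ∃ TT : ℕ, TT = Fintype.card (∀ i, Fin (n i + 1)) := ⟨_, rfl⟩
  obtain ⟨C2, hC2⟩ : ∃ C2 : ℝ, C2 = (TT : ℝ) * r *
    (((3 * C1) ^ m) ^ VV * (3 ^ m) ^ (r - 1) * Cr * (C1 ^ m) ^ r) := ⟨_, rfl⟩
  have hTTpos : (0 : ℝ) < TT := by
    have : 0 < TT := by rw [hTT]; exact Fintype.card_pos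
    exact_mod_cast this
  have hC2pos : 0 < C2 := by rw [hC2]; positivity
  refine ⟨C2, hC2pos, ?_⟩
  intro bet hb hb1
  filter_upwards [hcr (C1 * bet) (C1 * bet) (by positivity) (by positivity),
    eventually_ge_atTop 1] with H hH hH1
  have hHpos : (0 : ℝ) < H := by exact_mod_cast hH1
  rw [← hm] at hH
  obtain ⟨S0, hS0⟩ : ∃ S0 : (∀ i, Fin (n i + 1)) → Finset (MVar n),
    S0 = fun τ => univ.filter fun v : MVar n => v.2 = τ v.1 := ⟨_, rfl⟩
  choose N hNc hN1 hN2 using fun τ : (∀ i, Fin (n i + 1)) => net_pi w (S0 τ) bet hb hb1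
  choose Nr hNrc hNr1 hNr2 using fun i : Fin r => net_pi w ({i} : Finset (Fin r)) bet hb hb1
  rw [← hm] at hNc hNrc
  have hNrc' : ∀ i, ((Nr i).card : ℝ) ≤ ((3 / bet) ^ m) ^ (r - 1) := by
    intro i
    have h1 := hNrc i
    have h2 : (({i} : Finset (Fin r))ᶜ).card = r - 1 := by
      rw [Finset.card_compl, Fintype.card_fin, Finset.card_singleton]
    rwa [h2] at h1
  let T : Finset ((Σ _τ : (∀ i, Fin (n i + 1)), (MVar n → ℂ)) × (Σ _i : Fin r, (Fin r → ℂ))) :=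
    ((univ : Finset (∀ i, Fin (n i + 1))).sigma fun τ => N τ) ×ˢ
      ((univ : Finset (Fin r)).sigma fun i => Nr i)
  let ff : ((Σ _τ : (∀ i, Fin (n i + 1)), (MVar n → ℂ)) × (Σ _i : Fin r, (Fin r → ℂ))) →
      Set (PSys n d (𝓞 K)) := fun t => {A : PSys n d (𝓞 K) | A ∈ BoxP K n d H ∧
        ((∀ j, ‖MF (sgP w A j) t.1.2‖ ≤ (C1 * bet) * H) ∧
        ∀ v ∈ (S0 t.1.1)ᶜ, ‖∑ j, t.2.2 j * MD (sgP w A j) t.1.2 v‖ ≤ (C1 * bet) * H)}
  -- one summand
  obtain ⟨X, hX⟩ : ∃ X : ℝ, X = (2 * (H : ℝ) + 1) ^ (mK K * NP n d) := ⟨_, rfl⟩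
  have hXpos : 0 < X := by rw [hX]; positivity
  have hsum : (Set.ncard {A : PSys n d (𝓞 K) | A ∈ BoxP K n d H ∧ ∃ z : MVar n → ℂ, BPtI w z ∧
        (∀ j, MF (sgP w A j) z = 0) ∧
        ∀ J : Fin r → MVar n, ‖(PJac (sgP w A) z J).det‖ < (bet * H) ^ r} : ℝ) ≤
        ∑ t ∈ T, ((ff t).ncard : ℝ) := by
    have h1 : {A : PSys n d (𝓞 K) | A ∈ BoxP K n d H ∧ ∃ z : MVar n → ℂ, BPtI w z ∧
        (∀ j, MF (sgP w A j) z = 0) ∧
        ∀ J : Fin r → MVar n, ‖(PJac (sgP w A) z J).det‖ < (bet * H) ^ r} ⊆ ⋃ t ∈ T, ff t := by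
      rintro A ⟨hA, z0, hz0, hF0, hJ0⟩
      obtain ⟨τ, z, hzr, hz1, hzτ, hF, hJe⟩ := norm_one_pt w (sgP w A) z0 hz0 hF0
      have hJ : ∀ J : Fin r → MVar n, ‖(PJac (sgP w A) z J).det‖ < (bet * H) ^ r := fun J => by
        rw [hJe]
        exact hJ0 J
      have hAn : ∀ j t, ‖sgP w A j t‖ ≤ cK K * H := norm_sgP_le hA w
      have hz2 : ∀ v, ‖z v‖ ≤ 2 := fun v => (hz1 v).trans (by norm_num)
      obtain ⟨c, hc1, ⟨i', hci⟩, hcD, hcr'⟩ := lk_C hr (fun j v => MD (sgP w A j) z v) (bet * H)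
        (by positivity) (fun J => hJ J)
      have hcr : w.IsReal → ∀ k, (c k).im = 0 := fun hw => hcr' fun j v =>
        im_MD_zero (sgP w A) z (im_sgP A w hw) (hzr hw) j v
      obtain ⟨y, hyN, hyz⟩ := hN2 τ z hzr hz1 (fun v hv => by
        rw [hS0, Finset.mem_filter] at hv
        obtain ⟨i, a⟩ := v
        have h2 : a = τ i := hv.2
        rw [h2]
        exact hzτ i)
      obtain ⟨l, hlN, hlc⟩ := hNr2 i' c hcr hc1 (fun v hv => by
        rw [Finset.mem_singleton] at hv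
        rw [hv]
        exact hci)
      rw [Set.mem_iUnion₂]
      refine ⟨(⟨τ, y⟩, ⟨i', l⟩), ?_, hA, ?_, ?_⟩
      · simp only [T, Finset.mem_product, Finset.mem_sigma, Finset.mem_univ, true_and]
        exact ⟨hyN, hlN⟩
      · intro j
        show ‖MF (sgP w A j) y‖ ≤ (C1 * bet) * H
        have h1 := kM_lip (sgP w A) z y (cK K * H) (2 * bet) hAn hz2 (by linarith) hyz
          (by positivity) j
        rw [hF j, sub_zero] at h1
        refine h1.trans ?_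
        calc kM n d * (cK K * H) * (2 * bet) = (2 * Q) * (bet * H) := by rw [hQ]; ring
          _ ≤ C1 * (bet * H) := mul_le_mul_of_nonneg_right hC1Q (by positivity)
          _ = _ := by ring
      · intro v _
        show ‖∑ j, l j * MD (sgP w A j) y v‖ ≤ (C1 * bet) * H
        have hDz : ∀ j, ‖MD (sgP w A j) z v‖ ≤ Q * H := by
          intro j
          refine (kM_MD (sgP w A) z (cK K * H) hAn hz2 j v).trans (le_of_eq ?_)
          rw [hQ]; ring
        have hDT : ∀ j, ‖MD (sgP w A j) y v - MD (sgP w A j) z v‖ ≤ Q * H * (2 * bet) := by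
          intro j
          refine (kM_MDT (sgP w A) z y (cK K * H) (2 * bet) hAn hz2 (by linarith) hyz
            (by positivity) j v).trans (le_of_eq ?_)
          rw [hQ]; ring
        have h2 : ∑ j, l j * MD (sgP w A j) y v = ∑ j, c j * MD (sgP w A j) z v +
            ∑ j, ((l j - c j) * MD (sgP w A j) z v +
              l j * (MD (sgP w A j) y v - MD (sgP w A j) z v)) := by
          rw [← Finset.sum_add_distrib]
          refine Finset.sum_congr rfl fun j _ => ?_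
          ring
        rw [h2]
        refine (norm_add_le _ _).trans ?_
        have h3 : ‖∑ j, ((l j - c j) * MD (sgP w A j) z v +
            l j * (MD (sgP w A j) y v - MD (sgP w A j) z v))‖ ≤ r * (8 * Q * (bet * H)) := by
          refine (norm_sum_le _ _).trans ?_
          calc ∑ j, ‖(l j - c j) * MD (sgP w A j) z v +
                l j * (MD (sgP w A j) y v - MD (sgP w A j) z v)‖
              ≤ ∑ _j : Fin r, 8 * Q * (bet * H) := by
                refine Finset.sum_le_sum fun j _ => ?_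
                refine (norm_add_le _ _).trans ?_
                rw [norm_mul, norm_mul]
                have h4 : ‖l j‖ ≤ 3 := by
                  have h5 : l j = (l j - c j) + c j := by ring
                  rw [h5]
                  refine (norm_add_le _ _).trans ?_
                  linarith [hlc j, hc1 j]
                have h6 := mul_le_mul (hlc j) (hDz j) (norm_nonneg _) (by positivity)
                have h7 := mul_le_mul h4 (hDT j) (norm_nonneg _) (by norm_num)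
                linarith
            _ = r * (8 * Q * (bet * H)) := by
                rw [Finset.sum_const, Finset.card_univ, Fintype.card_fin, nsmul_eq_mul]
        have h8 : C1 * bet * H = bet * H + r * (8 * Q * (bet * H)) := by rw [hC1]; ring
        rw [h8]
        exact add_le_add (hcD v) h3
    have h2 : (⋃ t ∈ T, ff t).Finite := T.finite_toSet.biUnion fun t _ =>
      (BoxP_finite (H : ℝ)).subset fun A hA => hA.1
    have h3 := (Set.ncard_le_ncard h1 h2).trans (Finset.set_ncard_biUnion_le T ff)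
    exact_mod_cast h3
  refine hsum.trans ?_
  rw [Finset.sum_product, Finset.sum_sigma]
  have hone : ∀ τ, ∀ y ∈ N τ, ∀ i, ∀ l ∈ Nr i, ((ff (⟨τ, y⟩, ⟨i, l⟩)).ncard : ℝ) ≤
      Cr * ((C1 * bet) ^ m) ^ ((S0 τ)ᶜ).card * ((C1 * bet) ^ m) ^ r * X := by
    intro τ y hy i l hl
    rw [hX]
    refine hH τ y (fun k => ?_) l i ?_ (S0 τ)ᶜ ?_
    · have h1 := hN1 τ y hy ⟨k, τ k⟩ (by
        rw [hS0, Finset.mem_filter]
        exact ⟨mem_univ _, rfl⟩)
      rw [h1, norm_one]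
      norm_num
    · rw [hNr1 i l hl i (Finset.mem_singleton_self i), norm_one]
    · intro v hv
      rw [Finset.mem_compl, hS0, Finset.mem_filter] at hv
      intro h
      exact hv ⟨mem_univ _, h⟩
  have hτ : ∀ τ, ∑ y ∈ N τ, ∑ t ∈ (univ : Finset (Fin r)).sigma fun i => Nr i,
      ((ff (⟨τ, y⟩, t)).ncard : ℝ) ≤ (r : ℝ) *
        (((3 * C1) ^ m) ^ VV * (3 ^ m) ^ (r - 1) * Cr * (C1 ^ m) ^ r) * bet * X := by
    intro τ
    obtain ⟨D0, hD0⟩ : ∃ D0, D0 = ((S0 τ)ᶜ).card := ⟨_, rfl⟩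
    have hD0V : D0 ≤ VV := by rw [hD0, hVV]; exact Finset.card_le_univ _
    obtain ⟨Y, hY⟩ : ∃ Y : ℝ, Y = Cr * ((C1 * bet) ^ m) ^ D0 * ((C1 * bet) ^ m) ^ r * X :=
      ⟨_, rfl⟩
    have hYpos : 0 ≤ Y := by rw [hY]; positivity
    have h1 : ∀ y ∈ N τ, ∑ t ∈ (univ : Finset (Fin r)).sigma fun i => Nr i,
        ((ff (⟨τ, y⟩, t)).ncard : ℝ) ≤ (r : ℝ) * (((3 / bet) ^ m) ^ (r - 1) * Y) := by
      intro y hy
      rw [Finset.sum_sigma]
      calc ∑ i : Fin r, ∑ l ∈ Nr i, ((ff (⟨τ, y⟩, ⟨i, l⟩)).ncard : ℝ)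
          ≤ ∑ _i : Fin r, ((3 / bet) ^ m) ^ (r - 1) * Y := by
            refine Finset.sum_le_sum fun i _ => ?_
            calc ∑ l ∈ Nr i, ((ff (⟨τ, y⟩, ⟨i, l⟩)).ncard : ℝ) ≤ ∑ _l ∈ Nr i, Y := by
                  refine Finset.sum_le_sum fun l hl => ?_
                  rw [hY, hD0]
                  exact hone τ y hy i l hl
              _ = (Nr i).card * Y := by rw [Finset.sum_const, nsmul_eq_mul]
              _ ≤ _ := mul_le_mul_of_nonneg_right (hNrc' i) hYpos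
        _ = _ := by rw [Finset.sum_const, Finset.card_univ, Fintype.card_fin, nsmul_eq_mul]
    calc ∑ y ∈ N τ, ∑ t ∈ (univ : Finset (Fin r)).sigma fun i => Nr i,
        ((ff (⟨τ, y⟩, t)).ncard : ℝ)
        ≤ ∑ _y ∈ N τ, (r : ℝ) * (((3 / bet) ^ m) ^ (r - 1) * Y) := Finset.sum_le_sum h1
      _ = (N τ).card * ((r : ℝ) * (((3 / bet) ^ m) ^ (r - 1) * Y)) := by
          rw [Finset.sum_const, nsmul_eq_mul]
      _ ≤ ((3 / bet) ^ m) ^ D0 * ((r : ℝ) * (((3 / bet) ^ m) ^ (r - 1) * Y)) := by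
          refine mul_le_mul_of_nonneg_right ?_ (by positivity)
          rw [hD0]
          exact hNc τ
      _ = (r : ℝ) * (((3 * C1) ^ m) ^ D0 * (3 ^ m) ^ (r - 1) * Cr * (C1 ^ m) ^ r) * bet ^ m *
          X := by
          have e1 : ((3 / bet) ^ m) ^ D0 * ((C1 * bet) ^ m) ^ D0 = ((3 * C1) ^ m) ^ D0 := by
            rw [← mul_pow, ← mul_pow]
            congr 2
            field_simp
          have e2 : ((3 / bet) ^ m) ^ (r - 1) * ((C1 * bet) ^ m) ^ r =
              (3 ^ m) ^ (r - 1) * (C1 ^ m) ^ r * bet ^ m := by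
            have h3 : ((C1 * bet) ^ m) ^ r = (C1 ^ m) ^ r * ((bet ^ m) ^ (r - 1) * bet ^ m) := by
              rw [mul_pow, mul_pow, ← pow_succ]
              congr 2
              omega
            rw [h3, div_pow, div_pow]
            have : (bet ^ m) ^ (r - 1) ≠ 0 := by positivity
            field_simp
          calc ((3 / bet) ^ m) ^ D0 * ((r : ℝ) * (((3 / bet) ^ m) ^ (r - 1) * Y))
              = (r : ℝ) * Cr * (((3 / bet) ^ m) ^ D0 * ((C1 * bet) ^ m) ^ D0) *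
                (((3 / bet) ^ m) ^ (r - 1) * ((C1 * bet) ^ m) ^ r) * X := by rw [hY]; ring
            _ = _ := by rw [e1, e2]; ring
      _ ≤ (r : ℝ) * (((3 * C1) ^ m) ^ VV * (3 ^ m) ^ (r - 1) * Cr * (C1 ^ m) ^ r) * bet * X := by
          have h5 : ((3 * C1) ^ m) ^ D0 ≤ ((3 * C1) ^ m) ^ VV :=
            pow_le_pow_right₀ (one_le_pow₀ (by linarith)) hD0V
          have h6 : bet ^ m ≤ bet := by
            rw [hm]
            exact pow_le_of_le_one hb.le hb1 InfinitePlace.mult_pos.ne'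
          refine mul_le_mul_of_nonneg_right ?_ hXpos.le
          refine mul_le_mul ?_ h6 (by positivity) (by positivity)
          refine mul_le_mul_of_nonneg_left ?_ (by positivity)
          refine mul_le_mul_of_nonneg_right ?_ (by positivity)
          refine mul_le_mul_of_nonneg_right ?_ (by positivity)
          exact mul_le_mul_of_nonneg_right h5 (by positivity)
  calc ∑ τ : (∀ i, Fin (n i + 1)), ∑ y ∈ N τ, ∑ t ∈ (univ : Finset (Fin r)).sigma fun i => Nr i,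
      ((ff (⟨τ, y⟩, t)).ncard : ℝ)
      ≤ ∑ _τ : (∀ i, Fin (n i + 1)), (r : ℝ) *
        (((3 * C1) ^ m) ^ VV * (3 ^ m) ^ (r - 1) * Cr * (C1 ^ m) ^ r) * bet * X :=
        Finset.sum_le_sum fun τ _ => hτ τ
    _ = C2 * bet * (2 * (H : ℝ) + 1) ^ (mK K * NP n d) := by
        rw [Finset.sum_const, Finset.card_univ, nsmul_eq_mul, ← hTT, hC2, hX]
        ring

end multi

end NKPHP
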