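import Pool.Agent.Lib.MP_e426f4_ag.NKP.ExcI1

/-!
# Systems with a nonsingular zero at an infinite place, but without a good one, are few
-/

set_option linter.unusedSectionVars false

namespace NKPHP

open NumberField GenHP NFHP NKHP Finset Filter Topology
open CIPHP (PSys NP PJac blk pev)

section multi
variable {ι : Type} [Fintype ι] [DecidableEq ι]
variable {K : Type} [Field K] [NumberField K]

open Classical in
/-- `grid_i` for integral systems -/
theorem grid_iA (n : ι → ℕ) {r : ℕ} (d : Fin r → ι → ℕ) (hr : 1 ≤ r) (w : InfinitePlace K)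
    (bet : ℝ) (hb : 0 < bet) :
    ∃ c th1 : ℝ, 0 < c ∧ 0 < th1 ∧ ∀ th : ℝ, 0 < th → th ≤ th1 → ∃ R0 : ℕ, ∀ R : ℕ, R0 ≤ R →
      ∀ H : ℕ, 1 ≤ H → ∀ A : PSys n d (𝓞 K), A ∈ BoxP K n d H →
      ∀ z0 : MVar n → ℂ, BPtI w z0 → (∀ j, MF (sgP w A j) z0 = 0) → ∀ J : Fin r → MVar n,
      (bet * H) ^ r ≤ ‖(PJac (sgP w A) z0 J).det‖ →
      c * (th ^ w.mult) ^ r * ((R : ℝ) ^ w.mult) ^ Fintype.card (MVar n) ≤
        (((Fintype.piFinset fun _ : MVar n => gset w R).filter fun u =>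
          (∀ v, ‖u v - z0 v‖ ≤ 1 / 2) ∧ ∀ j, ‖MF (sgP w A j) u‖ ≤ th * H).card : ℝ) := by
  have hcK1 := one_le_cK (K := K)
  have hcK : 0 < cK K := by linarith
  obtain ⟨c, th1, hc, hth1, hgrid⟩ := grid_i n d hr w ((bet / cK K) ^ r) (by positivity)
  refine ⟨c * ((1 / cK K) ^ w.mult) ^ r, th1 * cK K, by positivity, by positivity,
    fun th hth hth' => ?_⟩
  obtain ⟨R0, hR0⟩ := hgrid (th / cK K) (by positivity) (by rwa [div_le_iff₀ hcK])
  refine ⟨R0, fun R hR H hH A hA z0 hz0 hF0 J hD => ?_⟩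
  have hHpos : (0 : ℝ) < H := by exact_mod_cast hH
  obtain ⟨s, hs⟩ : ∃ s : ℝ, s = cK K * H := ⟨_, rfl⟩
  have hspos : 0 < s := by rw [hs]; positivity
  have hsn : ‖((s⁻¹ : ℝ) : ℂ)‖ = s⁻¹ := by
    rw [Complex.norm_real, Real.norm_eq_abs, abs_of_pos (inv_pos.2 hspos)]
  let B : PSys n d ℂ := fun j t => ((s⁻¹ : ℝ) : ℂ) * sgP w A j t
  have hB : ∀ j t, ‖B j t‖ ≤ 1 := by
    intro j t
    show ‖((s⁻¹ : ℝ) : ℂ) * sgP w A j t‖ ≤ 1
    rw [norm_mul, hsn, inv_mul_le_iff₀ hspos, mul_one, hs]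
    exact norm_sgP_le hA w j t
  have hBr : w.IsReal → ∀ j t, (B j t).im = 0 := by
    intro hw j t
    show (((s⁻¹ : ℝ) : ℂ) * sgP w A j t).im = 0
    rw [Complex.im_ofReal_mul, im_sgP A w hw, mul_zero]
  have hMF : ∀ j z, MF (B j) z = ((s⁻¹ : ℝ) : ℂ) * MF (sgP w A j) z := fun j z =>
    MF_smul ((s⁻¹ : ℝ) : ℂ) (sgP w A j) z
  have h1 := hR0 R hR B hB hBr z0 hz0 (fun j => by rw [hMF, hF0 j, mul_zero]) J (by
    have e1 : (PJac B z0 J).det = ((s⁻¹ : ℝ) : ℂ) ^ r * (PJac (sgP w A) z0 J).det :=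
      CIPHP.PJac_smul ((s⁻¹ : ℝ) : ℂ) (sgP w A) z0 J
    rw [e1, norm_mul, norm_pow, hsn]
    calc (bet / cK K) ^ r = (s⁻¹) ^ r * (bet * H) ^ r := by
          rw [← mul_pow]
          congr 1
          rw [hs]
          field_simp
      _ ≤ _ := mul_le_mul_of_nonneg_left hD (by positivity))
  have h2 : c * ((1 / cK K) ^ w.mult) ^ r * (th ^ w.mult) ^ r *
      ((R : ℝ) ^ w.mult) ^ Fintype.card (MVar n) = c * ((th / cK K) ^ w.mult) ^ r *
      ((R : ℝ) ^ w.mult) ^ Fintype.card (MVar n) := by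
    have : th / cK K = 1 / cK K * th := by ring
    rw [this, mul_pow (1 / cK K), mul_pow ((1 / cK K) ^ w.mult)]
    ring
  rw [h2]
  refine h1.trans ?_
  refine Nat.cast_le.2 (Finset.card_le_card fun u hu => ?_)
  rw [Finset.mem_filter] at hu ⊢
  refine ⟨hu.1, hu.2.1, fun j => ?_⟩
  have h3 := hu.2.2 j
  rw [hMF, norm_mul, hsn, inv_mul_le_iff₀ hspos, hs] at h3
  refine h3.trans (le_of_eq ?_)
  field_simp

theorem exc_i2 {n : ι → ℕ} {r : ℕ} {d : Fin r → ι → ℕ} (hr : 1 ≤ r) (hd : ∀ j i, 1 ≤ d j i)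
    (w : InfinitePlace K) (i0 : ι) (hn0 : r ≤ n i0) (bet1 : ℝ)
    (hb : 0 < bet1) (eps : ℝ) (he : 0 < eps) : ∃ bet : ℝ, 0 < bet ∧ bet ≤ 1 ∧
    ∀ th : ℝ, 0 < th → ∀ᶠ H : ℕ in atTop,
      (Set.ncard {A : PSys n d (𝓞 K) | A ∈ BoxP K n d H ∧ (∃ z : MVar n → ℂ, BPtI w z ∧
        (∀ j, MF (sgP w A j) z = 0) ∧ ∃ J : Fin r → MVar n,
          (bet1 * H) ^ r ≤ ‖(PJac (sgP w A) z J).det‖) ∧
        ¬ PGoodIK i0 w (th * H) ((bet * H) ^ r) (sgP w A)} : ℝ) ≤
        eps * (2 * H + 1) ^ (mK K * NP n d) := by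
  classical
  obtain ⟨c, th1, hc, hth1, hgrid⟩ := grid_iA n d hr w bet1 hb
  obtain ⟨C, hC, hcond⟩ := pcond_i n d hd w
  obtain ⟨C0, hC0, hgood⟩ := pgoodI_of_approx (K := K) n d i0 w
  have hC0pos : 0 < C0 := by linarith
  have hcK1 := one_le_cK (K := K)
  have hcK : 0 < cK K := by linarith
  have hkM := kM_one n d
  obtain ⟨Q, hQ⟩ : ∃ Q, Q = kM n d * cK K := ⟨_, rfl⟩
  have hQ1 : 1 ≤ Q := by rw [hQ]; nlinarith
  obtain ⟨V, hV⟩ : ∃ V, V = Fintype.card (MVar n) := ⟨_, rfl⟩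
  obtain ⟨m, hm⟩ : ∃ m, m = w.mult := ⟨_, rfl⟩
  rw [← hV, ← hm] at hgrid
  rw [← hm] at hcond
  have hr' : (1 : ℝ) ≤ r := by exact_mod_cast hr
  obtain ⟨C1, hC1⟩ : ∃ C1 : ℝ, C1 = C0 + 2 * r * Q := ⟨_, rfl⟩
  have hC1pos : 0 < C1 := by rw [hC1]; positivity
  obtain ⟨K2, hK2⟩ : ∃ K2 : ℝ, K2 = r * ((3 ^ m) ^ (r - 1) * (C * (C1 ^ m) ^ n i0)) := ⟨_, rfl⟩
  have hK2pos : 0 < K2 := by rw [hK2]; positivity
  obtain ⟨bet, hbet⟩ : ∃ bet : ℝ, bet = min 1 (eps * c / ((5 ^ m) ^ V * K2)) := ⟨_, rfl⟩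
  have hbe0 : 0 < bet := by rw [hbet]; exact lt_min one_pos (by positivity)
  have hbe1 : bet ≤ 1 := by rw [hbet]; exact min_le_left _ _
  have hbe2 : bet ≤ eps * c / ((5 ^ m) ^ V * K2) := by rw [hbet]; exact min_le_right _ _
  refine ⟨bet, hbe0, hbe1, ?_⟩
  intro th hth
  obtain ⟨th', hth'⟩ : ∃ th' : ℝ, th' = min (th / C0) th1 := ⟨_, rfl⟩
  have hth'0 : 0 < th' := by rw [hth']; exact lt_min (by positivity) hth1
  have hth'1 : C0 * th' ≤ th := by
    have : th' ≤ th / C0 := by rw [hth']; exact min_le_left _ _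
    rw [le_div_iff₀ hC0pos] at this
    linarith
  obtain ⟨R0, hR0⟩ := hgrid th' hth'0 (by rw [hth']; exact min_le_right _ _)
  obtain ⟨R, hR⟩ : ∃ R, R = max R0 1 := ⟨_, rfl⟩
  have hR1 : 1 ≤ R := by rw [hR]; exact le_max_right _ _
  have hRpos : (0 : ℝ) < R := by exact_mod_cast hR1
  have hgr := hR0 R (by rw [hR]; exact le_max_left _ _)
  filter_upwards [hcond (C1 * bet) th' (by positivity) hth'0, eventually_ge_atTop 1] with H hH hH1
  have hHpos : (0 : ℝ) < H := by exact_mod_cast hH1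
  set Bs : Set (PSys n d (𝓞 K)) := {A : PSys n d (𝓞 K) | A ∈ BoxP K n d H ∧
      (∃ z : MVar n → ℂ, BPtI w z ∧
        (∀ j, MF (sgP w A j) z = 0) ∧ ∃ J : Fin r → MVar n,
          (bet1 * H) ^ r ≤ ‖(PJac (sgP w A) z J).det‖) ∧
        ¬ PGoodIK i0 w (th * H) ((bet * H) ^ r) (sgP w A)} with hBs
  have hBfin : Bs.Finite := (BoxP_finite (H : ℝ)).subset fun A hA => hA.1
  set B : Finset (PSys n d (𝓞 K)) := hBfin.toFinset with hB
  have hBcard : Bs.ncard = B.card := Set.ncard_eq_toFinset_card _ hBfin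
  rw [hBcard]
  obtain ⟨X, hX⟩ : ∃ X : ℝ, X = (2 * (H : ℝ) + 1) ^ (mK K * NP n d) := ⟨_, rfl⟩
  have hXpos : 0 < X := by rw [hX]; positivity
  obtain ⟨G, hG⟩ : ∃ G : Finset (MVar n → ℂ), G = Fintype.piFinset fun _ : MVar n => gset w R :=
    ⟨_, rfl⟩
  have hGcard : (G.card : ℝ) ≤ (5 ^ m) ^ V * ((R : ℝ) ^ m) ^ V := by
    rw [hG, Fintype.card_piFinset, Finset.prod_const, Finset.card_univ, ← hV]
    push_cast
    have h1 := gset_card w R hR1
    rw [← hm, mul_pow] at h1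
    calc ((gset w R).card : ℝ) ^ V ≤ (5 ^ m * (R : ℝ) ^ m) ^ V :=
          pow_le_pow_left₀ (Nat.cast_nonneg _) h1 _
      _ = _ := mul_pow _ _ _
  choose Nr hNrc hNr1 hNr2 using fun i : Fin r => net_pi w ({i} : Finset (Fin r)) bet hbe0 hbe1
  rw [← hm] at hNrc
  have hNrc' : ∀ i, ((Nr i).card : ℝ) ≤ ((3 / bet) ^ m) ^ (r - 1) := by
    intro i
    have h1 := hNrc i
    have h2 : (({i} : Finset (Fin r))ᶜ).card = r - 1 := by
      rw [Finset.card_compl, Fintype.card_fin, Finset.card_singleton]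
    rwa [h2] at h1
  let T2 : Finset (Σ _i : Fin r, (Fin r → ℂ)) := (univ : Finset (Fin r)).sigma fun i => Nr i
  have hT2 : (T2.card : ℝ) ≤ r * ((3 / bet) ^ m) ^ (r - 1) := by
    simp only [T2, Finset.card_sigma]
    push_cast
    calc ∑ i : Fin r, ((Nr i).card : ℝ) ≤ ∑ _i : Fin r, ((3 / bet) ^ m) ^ (r - 1) :=
          Finset.sum_le_sum fun i _ => hNrc' i
      _ = r * ((3 / bet) ^ m) ^ (r - 1) := by
          rw [Finset.sum_const, nsmul_eq_mul, Finset.card_univ, Fintype.card_fin]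
  let P : (PSys n d (𝓞 K)) → (MVar n → ℂ) → Prop := fun A u =>
    (∀ i, ∃ a, 1 / 2 ≤ ‖u ⟨i, a⟩‖) ∧
    (∀ j, ‖MF (sgP w A j) u‖ ≤ th' * H) ∧
    ∃ t ∈ T2, ∀ a, ‖∑ j, t.2 j * MD (sgP w A j) u ⟨i0, a⟩‖ ≤ (C1 * bet) * H
  -- many grid points for every bad system
  have hlow : ∀ A ∈ B, c * (th' ^ m) ^ r * ((R : ℝ) ^ m) ^ V ≤
      ((G.filter fun u => P A u).card : ℝ) := by
    intro A hA
    have hA' : A ∈ Bs := by simpa [hB] using hA
    obtain ⟨hAb, ⟨z0, hz0, hF0, J0, hJ0⟩, hng⟩ := hA'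
    refine (hgr H hH1 A hAb z0 hz0 hF0 J0 hJ0).trans ?_
    have hAn : ∀ j t, ‖sgP w A j t‖ ≤ cK K * H := norm_sgP_le hAb w
    refine Nat.cast_le.2 (Finset.card_le_card fun u hu => ?_)
    rw [Finset.mem_filter, ← hG] at hu
    obtain ⟨huG, hu1, hu2⟩ := hu
    have hur : w.IsReal → ∀ v, (u v).im = 0 := by
      intro hw v
      rw [hG, Fintype.mem_piFinset] at huG
      exact gset_real w R hw _ (huG v)
    have hz22 : ∀ v, ‖u v‖ ≤ 2 := by
      intro v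
      have h3 : u v = (u v - z0 v) + z0 v := by ring
      rw [h3]
      refine (norm_add_le _ _).trans ?_
      linarith [hu1 v, hz0.2.1 v]
    have hz2 : ∀ i, ∃ a, 1 / 2 ≤ ‖u ⟨i, a⟩‖ := by
      intro i
      obtain ⟨a, ha⟩ := hz0.2.2 i
      refine ⟨a, ?_⟩
      have h1 := hu1 ⟨i, a⟩
      have h3 : z0 ⟨i, a⟩ = u ⟨i, a⟩ - (u ⟨i, a⟩ - z0 ⟨i, a⟩) := by ring
      have h4 : ‖z0 ⟨i, a⟩‖ ≤ ‖u ⟨i, a⟩‖ + ‖u ⟨i, a⟩ - z0 ⟨i, a⟩‖ := by
        conv_lhs => rw [h3]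
        exact norm_sub_le _ _
      rw [ha] at h4
      linarith
    rw [Finset.mem_filter]
    refine ⟨huG, hz2, hu2, ?_⟩
    -- all minors of block `i0` are small
    have hmin : ∀ J : Fin r → Fin (n i0 + 1), ‖(Matrix.of fun (i : Fin r) (l : Fin r) =>
        (fun (j : Fin r) (a : Fin (n i0 + 1)) => MD (sgP w A j) u ⟨i0, a⟩) i (J l)).det‖ <
        (C0 * (bet * H)) ^ r := by
      intro J
      by_contra hcon
      push Not at hcon
      apply hng
      refine pgoodI_mono i0 w (C0 * (th' * H)) _ _ ?_ _ ?_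
      · rw [← mul_assoc]
        exact mul_le_mul_of_nonneg_right hth'1 hHpos.le
      · exact hgood (sgP w A) u (th' * H) (bet * H) (by positivity) (by positivity) hur hz22 hz2
          hu2 J hcon
    obtain ⟨cc, hcc1, ⟨j0, hcj⟩, hcc, hccr⟩ := lk_C hr
      (fun (j : Fin r) (a : Fin (n i0 + 1)) => MD (sgP w A j) u ⟨i0, a⟩) (C0 * (bet * H))
      (by positivity) hmin
    have hccr' : w.IsReal → ∀ k, (cc k).im = 0 := fun hw => hccr fun j a =>
      im_MD_zero (sgP w A) u (im_sgP A w hw) (hur hw) j ⟨i0, a⟩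
    obtain ⟨l, hlN, hlc⟩ := hNr2 j0 cc hccr' hcc1 (fun v hv => by
      rw [Finset.mem_singleton] at hv
      rw [hv]
      exact hcj)
    refine ⟨⟨j0, l⟩, ?_, ?_⟩
    · simp only [T2, Finset.mem_sigma, Finset.mem_univ, true_and]
      exact hlN
    · intro a
      show ‖∑ j, l j * MD (sgP w A j) u ⟨i0, a⟩‖ ≤ (C1 * bet) * H
      have hDb : ∀ j, ‖MD (sgP w A j) u ⟨i0, a⟩‖ ≤ Q * H := by
        intro j
        refine (kM_MD (sgP w A) u (cK K * H) hAn hz22 j ⟨i0, a⟩).trans (le_of_eq ?_)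
        rw [hQ]; ring
      have h2 : ∑ j, l j * MD (sgP w A j) u ⟨i0, a⟩ = ∑ j, cc j * MD (sgP w A j) u ⟨i0, a⟩ +
          ∑ j, (l j - cc j) * MD (sgP w A j) u ⟨i0, a⟩ := by
        rw [← Finset.sum_add_distrib]
        refine Finset.sum_congr rfl fun j _ => ?_
        ring
      rw [h2]
      refine (norm_add_le _ _).trans ?_
      have h3 : ‖∑ j, (l j - cc j) * MD (sgP w A j) u ⟨i0, a⟩‖ ≤ r * (2 * bet * (Q * H)) := by
        refine (norm_sum_le _ _).trans ?_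
        calc ∑ j, ‖(l j - cc j) * MD (sgP w A j) u ⟨i0, a⟩‖ ≤ ∑ _j : Fin r, 2 * bet * (Q * H) := by
              refine Finset.sum_le_sum fun j _ => ?_
              rw [norm_mul]
              exact mul_le_mul (hlc j) (hDb j) (norm_nonneg _) (by positivity)
          _ = _ := by rw [Finset.sum_const, Finset.card_univ, Fintype.card_fin, nsmul_eq_mul]
      have h8 : C1 * bet * H = C0 * (bet * H) + r * (2 * bet * (Q * H)) := by rw [hC1]; ring
      rw [h8]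
      exact add_le_add (hcc a) h3
  -- few systems for every grid point
  have hup : ∀ u ∈ G, ((B.filter fun A => P A u).card : ℝ) ≤ K2 * bet * (th' ^ m) ^ r * X := by
    intro u _
    by_cases hu : ∀ i, ∃ a, 1 / 2 ≤ ‖u ⟨i, a⟩‖
    · choose τ hτ using hu
      set UU : Finset (MVar n) :=
        ((univ.filter fun a : Fin (n i0 + 1) => a ≠ τ i0).image fun a => (⟨i0, a⟩ : MVar n))
        with hUU
      have hUUc : UU.card = n i0 := by
        rw [hUU, Finset.card_image_of_injective _ (fun a b h => by simpa using h)]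
        rw [Finset.filter_ne']
        simp
      have hUm : ∀ v ∈ UU, v.2 ≠ τ v.1 := by
        intro v hv
        rw [hUU, Finset.mem_image] at hv
        obtain ⟨a, ha, rfl⟩ := hv
        exact (Finset.mem_filter.mp ha).2
      have hcov := ei_cover ((B.filter fun A => P A u : Finset (PSys n d (𝓞 K))) :
        Set (PSys n d (𝓞 K))) T2 (fun t => {A : PSys n d (𝓞 K) | A ∈ BoxP K n d H ∧
          ((∀ j, ‖MF (sgP w A j) u‖ ≤ th' * H) ∧
          ∀ v ∈ UU, ‖∑ j, t.2 j * MD (sgP w A j) u v‖ ≤ (C1 * bet) * H)}) (by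
          intro A hA
          rw [Finset.coe_filter] at hA
          obtain ⟨hAB, -, hA2, t, ht, hA3⟩ := hA
          have hA' : A ∈ Bs := by simpa [hB] using hAB
          refine ⟨t, ht, hA'.1, hA2, ?_⟩
          intro v hv
          rw [hUU, Finset.mem_image] at hv
          obtain ⟨a, ha, rfl⟩ := hv
          exact hA3 a) (fun t _ => (BoxP_finite (H : ℝ)).subset fun A hA => hA.1)
        (C * ((C1 * bet) ^ m) ^ n i0 * (th' ^ m) ^ r * X) (by
          rintro ⟨j0, l⟩ ht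
          simp only [T2, Finset.mem_sigma, Finset.mem_univ, true_and] at ht
          have h1 := hH τ u hτ l j0 (by
            rw [hNr1 j0 l ht j0 (Finset.mem_singleton_self j0), norm_one]) UU hUm
          rw [hUUc, ← hX] at h1
          exact h1)
      rw [Set.ncard_coe_finset] at hcov
      refine hcov.trans ?_
      have hX0 : 0 ≤ C * ((C1 * bet) ^ m) ^ n i0 * (th' ^ m) ^ r * X := by positivity
      refine (mul_le_mul_of_nonneg_right hT2 hX0).trans ?_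
      have e1 : ((3 / bet) ^ m) ^ (r - 1) * ((C1 * bet) ^ m) ^ n i0 ≤
          (3 ^ m) ^ (r - 1) * (C1 ^ m) ^ n i0 * bet := by
        have e3 : (bet ^ m) ^ (n i0) = (bet ^ m) ^ (r - 1) * (bet ^ m) ^ (n i0 - (r - 1)) := by
          rw [← pow_add]
          congr 1
          omega
        have hbm : bet ^ m ≤ 1 := pow_le_one₀ hbe0.le hbe1
        have hbm' : bet ^ m ≤ bet := by
          rw [hm]
          exact pow_le_of_le_one hbe0.le hbe1 InfinitePlace.mult_pos.ne'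
        have e4 : (bet ^ m) ^ (n i0 - (r - 1)) ≤ bet := by
          calc (bet ^ m) ^ (n i0 - (r - 1)) ≤ (bet ^ m) ^ 1 :=
                pow_le_pow_of_le_one (by positivity) hbm (by omega)
            _ = bet ^ m := pow_one _
            _ ≤ bet := hbm'
        have e5 : ((3 / bet) ^ m) ^ (r - 1) * ((C1 * bet) ^ m) ^ n i0 =
            (3 ^ m) ^ (r - 1) * (C1 ^ m) ^ n i0 * (bet ^ m) ^ (n i0 - (r - 1)) := by
          rw [mul_pow C1, mul_pow (C1 ^ m), e3, div_pow, div_pow]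
          have : (bet ^ m) ^ (r - 1) ≠ 0 := by positivity
          field_simp
        rw [e5]
        exact mul_le_mul_of_nonneg_left e4 (by positivity)
      calc (r : ℝ) * ((3 / bet) ^ m) ^ (r - 1) *
            (C * ((C1 * bet) ^ m) ^ n i0 * (th' ^ m) ^ r * X)
          = r * C * (((3 / bet) ^ m) ^ (r - 1) * ((C1 * bet) ^ m) ^ n i0) *
            ((th' ^ m) ^ r * X) := by ring
        _ ≤ r * C * ((3 ^ m) ^ (r - 1) * (C1 ^ m) ^ n i0 * bet) * ((th' ^ m) ^ r * X) := by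
            refine mul_le_mul_of_nonneg_right ?_ (by positivity)
            exact mul_le_mul_of_nonneg_left e1 (by positivity)
        _ = K2 * bet * (th' ^ m) ^ r * X := by rw [hK2]; ring
    · have h0 : (B.filter fun A => P A u) = ∅ := by
        rw [Finset.filter_eq_empty_iff]
        intro A _ hPA
        exact hu hPA.1
      rw [h0]
      simp only [Finset.card_empty, Nat.cast_zero]
      positivity
  -- double counting
  have hdc : ∑ A ∈ B, ((G.filter fun u => P A u).card : ℝ) =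
      ∑ u ∈ G, ((B.filter fun A => P A u).card : ℝ) := by
    have := Finset.sum_card_bipartiteAbove_eq_sum_card_bipartiteBelow (s := B) (t := G) P
    unfold Finset.bipartiteAbove Finset.bipartiteBelow at this
    exact_mod_cast this
  obtain ⟨Y, hY⟩ : ∃ Y : ℝ, Y = (th' ^ m) ^ r * ((R : ℝ) ^ m) ^ V := ⟨_, rfl⟩
  have hYpos : 0 < Y := by rw [hY]; positivity
  have h1 : (B.card : ℝ) * (c * Y) ≤ ∑ A ∈ B, ((G.filter fun u => P A u).card : ℝ) := by
    have h0 : ∀ A ∈ B, c * Y ≤ ((G.filter fun u => P A u).card : ℝ) := fun A hA => by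
      refine le_trans (le_of_eq ?_) (hlow A hA)
      rw [hY]; ring
    have := Finset.card_nsmul_le_sum B (fun A => ((G.filter fun u => P A u).card : ℝ)) _ h0
    rwa [nsmul_eq_mul] at this
  have h2 : ∑ u ∈ G, ((B.filter fun A => P A u).card : ℝ) ≤
      (G.card : ℝ) * (K2 * bet * (th' ^ m) ^ r * X) := by
    have := Finset.sum_le_card_nsmul G (fun u => ((B.filter fun A => P A u).card : ℝ)) _ hup
    rwa [nsmul_eq_mul] at this
  have h3 : (B.card : ℝ) * (c * Y) ≤ (5 ^ m) ^ V * K2 * bet * X * Y := by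
    rw [hdc] at h1
    refine h1.trans (h2.trans ((mul_le_mul_of_nonneg_right hGcard (by positivity)).trans
      (le_of_eq ?_)))
    rw [hY]; ring
  have h4 : (5 ^ m) ^ V * K2 * bet ≤ eps * c := by
    have := hbe2
    rw [le_div_iff₀ (by positivity)] at this
    linarith
  have h5 : (B.card : ℝ) * c ≤ (5 ^ m) ^ V * K2 * bet * X := by
    refine le_of_mul_le_mul_right ?_ hYpos
    calc (B.card : ℝ) * c * Y = (B.card : ℝ) * (c * Y) := by ring
      _ ≤ _ := h3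
  have h6 : (B.card : ℝ) * c ≤ (eps * X) * c := by
    refine h5.trans ((mul_le_mul_of_nonneg_right h4 hXpos.le).trans (le_of_eq ?_))
    ring
  rw [← hX]
  exact le_of_mul_le_mul_right h6 hc

/-- Systems with a zero at the infinite place `w`, but without a good local point at `w` with respect
to block `i0`, are few. -/
theorem inf_excP {n : ι → ℕ} {r : ℕ} {d : Fin r → ι → ℕ} (w : InfinitePlace K) (hr : 1 ≤ r)
    (hd : ∀ j i, 1 ≤ d j i) (i0 : ι) (hn0 : r ≤ n i0) (eps : ℝ) (heps : 0 < eps) :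
    ∃ bet : ℝ, 0 < bet ∧ bet ≤ 1 ∧ ∀ th : ℝ, 0 < th → ∀ᶠ H : ℕ in atTop,
      (Set.ncard {A : PSys n d (𝓞 K) | A ∈ BoxP K n d H ∧ PLocI w (sgP w A) ∧
        ¬ PGoodIK i0 w (th * H) ((bet * H) ^ r) (sgP w A)} : ℝ) ≤
        eps * (2 * H + 1) ^ (mK K * NP n d) := by
  obtain ⟨C, hC, hC1⟩ := exc_i1 n d hr hd w
  obtain ⟨bet1, hbet1⟩ : ∃ bet1 : ℝ, bet1 = min 1 (eps / (2 * C)) := ⟨_, rfl⟩
  have hb0 : 0 < bet1 := by rw [hbet1]; exact lt_min one_pos (by positivity)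
  have hb1 : bet1 ≤ 1 := by rw [hbet1]; exact min_le_left _ _
  have hb2 : C * bet1 ≤ eps / 2 := by
    have h2 : bet1 ≤ eps / (2 * C) := by rw [hbet1]; exact min_le_right _ _
    calc C * bet1 ≤ C * (eps / (2 * C)) := mul_le_mul_of_nonneg_left h2 hC.le
      _ = eps / 2 := by field_simp
  obtain ⟨bet, hbet0, hbet2, hbet⟩ := exc_i2 (n := n) (d := d) hr hd w i0 hn0 bet1 hb0
    (eps / 2) (by positivity)
  refine ⟨bet, hbet0, hbet2, fun th hth => ?_⟩
  filter_upwards [hC1 bet1 hb0 hb1, hbet th hth] with H h1 h2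
  set S1 : Set (PSys n d (𝓞 K)) := {A : PSys n d (𝓞 K) | A ∈ BoxP K n d H ∧ ∃ z : MVar n → ℂ,
    BPtI w z ∧ (∀ j, MF (sgP w A j) z = 0) ∧
        ∀ J : Fin r → MVar n, ‖(PJac (sgP w A) z J).det‖ < (bet1 * H) ^ r} with hS1
  set S2 : Set (PSys n d (𝓞 K)) := {A : PSys n d (𝓞 K) | A ∈ BoxP K n d H ∧
    (∃ z : MVar n → ℂ, BPtI w z ∧ (∀ j, MF (sgP w A j) z = 0) ∧ ∃ J : Fin r → MVar n,
          (bet1 * H) ^ r ≤ ‖(PJac (sgP w A) z J).det‖) ∧
        ¬ PGoodIK i0 w (th * H) ((bet * H) ^ r) (sgP w A)} with hS2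
  have hsub : {A : PSys n d (𝓞 K) | A ∈ BoxP K n d H ∧ PLocI w (sgP w A) ∧
        ¬ PGoodIK i0 w (th * H) ((bet * H) ^ r) (sgP w A)} ⊆ S1 ∪ S2 := by
    rintro A ⟨hA, ⟨z, hz, hF⟩, hng⟩
    by_cases hv : ∃ J : Fin r → MVar n, (bet1 * H) ^ r ≤ ‖(PJac (sgP w A) z J).det‖
    · exact Or.inr ⟨hA, ⟨z, hz, hF, hv⟩, hng⟩
    · push Not at hv
      exact Or.inl ⟨hA, z, hz, hF, hv⟩
  have hf1 : S1.Finite := (BoxP_finite (H : ℝ)).subset fun A hA => hA.1
  have hf2 : S2.Finite := (BoxP_finite (H : ℝ)).subset fun A hA => hA.1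
  have h3 := (Set.ncard_le_ncard hsub (hf1.union hf2)).trans (Set.ncard_union_le S1 S2)
  have h4 : (Set.ncard {A : PSys n d (𝓞 K) | A ∈ BoxP K n d H ∧ PLocI w (sgP w A) ∧
        ¬ PGoodIK i0 w (th * H) ((bet * H) ^ r) (sgP w A)} : ℝ) ≤ S1.ncard + S2.ncard := by
    exact_mod_cast h3
  have hX : (0 : ℝ) ≤ (2 * H + 1) ^ (mK K * NP n d) := by positivity
  have h5 : C * bet1 * (2 * H + 1) ^ (mK K * NP n d) ≤
      eps / 2 * (2 * H + 1) ^ (mK K * NP n d) := mul_le_mul_of_nonneg_right hb2 hX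
  linarith

end multi

end NKPHP
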