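import Pool.Agent.Lib.MP_e426f4_ag.NKP.Rmul
import Pool.Agent.Lib.MP_e426f4_ag.N.Lat
import Pool.Agent.Lib.MP_e426f4_ag.N.CubeCount
import Pool.Agent.Lib.MP_e426f4_ag.CI.Basic

/-!
NKP-Fibre: number of lattice vectors in a cube with given scalar product with a unimodular vector.

PROOF. Let ∑ c0 s * v s = 1. c1 = the constant of lat_lower K. X0 = rho H V / (4 cK).
D = {c : 𝓞 K | c ∈ span {Q}, ‖sg w c‖ <= X0 for all w}: ncard D >= c1 X0^m / Q^m (lat_lower, absNorm (span {Q}) = Q^m: private absNorm_nat in N/PadicCount; D finite: crd_le_of_norm_sg, cube_finite).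
For c = Q c' ∈ D there is dl c : S -> 𝓞 K with ∑ dl c s * v s = c, Q ∣ dl c s, |crd (dl c s) l| <= rho H (H large, uniformly in c): for every place w choose s_w with
‖sg w (v s_w)‖ >= V/2; t s w = sg w c' / sg w (v s_w) if s = s_w, else 0 (RV: real at real places); round: ‖sg w (dl' s) - t s w‖ <= cK (exists_round);
e = c' - ∑ dl' s v s has ‖sg w e‖ <= cK ∑ ‖sg w (v s)‖ (independent of H and c); dl'' s = e * c0 s (bounded independently of H and c); dl = Q (dl' + dl'').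
‖sg w (dl s)‖ <= Q ‖t s w‖ + Q (cK + const) <= 2 X0 / V + const' <= rho H / cK for H large. crd_le_of_norm_sg.
The map (a, c) ↦ a + dl c from (the set) x D to {a | |crd (a s) l - cen s l| <= 2 rho H, Q ∣ a s - a0 s} is injective (scalar product with v: b + c determines c).
The target has at most (2 (4 rho H)^m / Q^m)^σ elements for H large (cube_count, eps = 1, R = 2 rho H, uniform in the centre; product over s).
So f c1 (rho H V / (4 cK Q))^m <= 2^σ (4 rho H / Q)^(m σ), i.e. f <= C (2 rho H / Q)^(m (σ - 1)) / V^m with C = C(K, σ). (σ >= 1 since v is unimodular.)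
-/

set_option linter.unusedSectionVars false

namespace NKPHP

open NumberField GenHP NFHP NKHP Finset Filter Topology

section aux
variable {K : Type} [Field K] [NumberField K]

private theorem fib_absNorm (M : ℕ) : Ideal.absNorm (Ideal.span {(M : 𝓞 K)}) = M ^ mK K := by
  rw [Ideal.absNorm_span_singleton]
  have h1 : (M : 𝓞 K) = algebraMap ℤ (𝓞 K) (M : ℤ) := by simp
  rw [h1, Algebra.norm_algebraMap, RingOfIntegers.rank, Int.natAbs_pow, Int.natAbs_natCast]
  rfl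

/-- every small multiple of `Q` is a value of a small vector -/
private theorem fib_key {S : Type} [Fintype S] [DecidableEq S] (v c0 : S → 𝓞 K)
    (h0 : ∑ s, c0 s * v s = 1) (V : ℝ) (hV : 0 < V)
    (hv : ∀ w : InfinitePlace K, ∃ s, V / 2 ≤ ‖sg w (v s)‖) (Q : ℕ) :
    ∃ T : ℝ, 0 ≤ T ∧ ∀ (X0 : ℝ) (c : 𝓞 K), c ∈ Ideal.span {(Q : 𝓞 K)} →
      (∀ w : InfinitePlace K, ‖sg w c‖ ≤ X0) →
      ∃ dl : S → 𝓞 K, ∑ s, dl s * v s = c ∧ (∀ s, (Q : 𝓞 K) ∣ dl s) ∧
        ∀ s (w : InfinitePlace K), ‖sg w (dl s)‖ ≤ 2 * X0 / V + T := by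
  choose sw hsw using hv
  obtain ⟨M1, hM1⟩ : ∃ M1 : ℝ, M1 = ∑ s, ∑ w : InfinitePlace K, ‖sg w (v s)‖ := ⟨_, rfl⟩
  obtain ⟨M2, hM2⟩ : ∃ M2 : ℝ, M2 = ∑ s, ∑ w : InfinitePlace K, ‖sg w (c0 s)‖ := ⟨_, rfl⟩
  have hM1n : 0 ≤ M1 := by rw [hM1]; positivity
  have hM2n : 0 ≤ M2 := by rw [hM2]; positivity
  have hcK := cK_pos (K := K)
  refine ⟨Q * (cK K + cK K * M1 * M2), by positivity, fun X0 c hc hX => ?_⟩
  obtain ⟨c', rfl⟩ := Ideal.mem_span_singleton'.mp hc
  have hX0 : 0 ≤ X0 := (norm_nonneg _).trans (hX (Classical.arbitrary _))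
  obtain ⟨t, ht⟩ : ∃ t : S → InfinitePlace K → ℂ, t = fun s w =>
    if s = sw w then sg w c' / sg w (v s) else 0 := ⟨_, rfl⟩
  have hRV : ∀ s, RV (t s) := by
    intro s w hw
    rw [ht]
    by_cases h : s = sw w
    · simp only [if_pos h]
      exact RV_div (RV_sg c') (RV_sg (v s)) w hw
    · simp only [if_neg h]
      exact Complex.zero_im
  choose dl' hdl' using fun s => exists_round (hRV s)
  have hvne : ∀ w, sg w (v (sw w)) ≠ 0 := by
    intro w h
    have := hsw w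
    rw [h, norm_zero] at this
    linarith
  have hsum : ∀ w, ∑ s, t s w * sg w (v s) = sg w c' := by
    intro w
    rw [Finset.sum_eq_single (sw w)]
    · rw [ht]
      simp only [if_true]
      exact div_mul_cancel₀ _ (hvne w)
    · intro s _ hs
      rw [ht]
      simp only [if_neg hs, zero_mul]
    · intro h
      exact absurd (Finset.mem_univ _) h
  obtain ⟨e, he⟩ : ∃ e : 𝓞 K, e = c' - ∑ s, dl' s * v s := ⟨_, rfl⟩
  have hen : ∀ w : InfinitePlace K, ‖sg w e‖ ≤ cK K * M1 := by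
    intro w
    have h1 : sg w e = ∑ s, (t s w - sg w (dl' s)) * sg w (v s) := by
      rw [he, map_sub, map_sum, ← hsum w, ← Finset.sum_sub_distrib]
      refine Finset.sum_congr rfl fun s _ => ?_
      rw [map_mul, sub_mul]
    rw [h1]
    calc ‖∑ s, (t s w - sg w (dl' s)) * sg w (v s)‖ ≤
        ∑ s, ‖(t s w - sg w (dl' s)) * sg w (v s)‖ := norm_sum_le _ _
      _ ≤ ∑ s, cK K * ∑ w : InfinitePlace K, ‖sg w (v s)‖ := by
          refine Finset.sum_le_sum fun s _ => ?_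
          rw [norm_mul]
          refine mul_le_mul ?_ ?_ (norm_nonneg _) hcK.le
          · rw [norm_sub_rev]
            exact hdl' s w
          · exact Finset.single_le_sum (f := fun w : InfinitePlace K => ‖sg w (v s)‖)
              (fun _ _ => norm_nonneg _) (Finset.mem_univ w)
      _ = cK K * M1 := by rw [← Finset.mul_sum, hM1]
  refine ⟨fun s => (Q : 𝓞 K) * (dl' s + e * c0 s), ?_, fun s => dvd_mul_right _ _, ?_⟩
  · have h1 : ∑ s, (Q : 𝓞 K) * (dl' s + e * c0 s) * v s =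
        (Q : 𝓞 K) * (∑ s, dl' s * v s + e * ∑ s, c0 s * v s) := by
      rw [Finset.mul_sum, ← Finset.sum_add_distrib, Finset.mul_sum]
      exact Finset.sum_congr rfl fun s _ => by ring
    rw [h1, h0, mul_one, he]
    ring
  · intro s w
    have hQn : ‖sg w (Q : 𝓞 K)‖ = Q := by
      rw [sg_natCast, Complex.norm_natCast]
    have h1 : ‖t s w‖ * Q ≤ 2 * X0 / V := by
      rw [ht]
      by_cases h : s = sw w
      · simp only [if_pos h]
        rw [norm_div, div_mul_eq_mul_div]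
        have h2 : ‖sg w c'‖ * Q ≤ X0 := by
          have := hX w
          rwa [map_mul, norm_mul, hQn] at this
        have h3 : V / 2 ≤ ‖sg w (v s)‖ := by
          rw [h]
          exact hsw w
        calc ‖sg w c'‖ * Q / ‖sg w (v s)‖ ≤ X0 / (V / 2) :=
              div_le_div₀ hX0 h2 (by positivity) h3
          _ = 2 * X0 / V := by field_simp
      · simp only [if_neg h, norm_zero, zero_mul]
        positivity
    have h2 : ‖sg w (dl' s)‖ ≤ ‖t s w‖ + cK K := by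
      have h3 := hdl' s w
      have h4 : sg w (dl' s) = t s w + (sg w (dl' s) - t s w) := by ring
      rw [h4]
      exact (norm_add_le _ _).trans (add_le_add le_rfl h3)
    have h3 : ‖sg w (e * c0 s)‖ ≤ cK K * M1 * M2 := by
      rw [map_mul, norm_mul]
      refine mul_le_mul (hen w) ?_ (norm_nonneg _) (by positivity)
      rw [hM2]
      refine le_trans ?_ (Finset.single_le_sum (f := fun s => ∑ w : InfinitePlace K,
        ‖sg w (c0 s)‖) (fun _ _ => Finset.sum_nonneg fun _ _ => norm_nonneg _)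
        (Finset.mem_univ s))
      exact Finset.single_le_sum (f := fun w : InfinitePlace K => ‖sg w (c0 s)‖)
        (fun _ _ => norm_nonneg _) (Finset.mem_univ w)
    have h4 : ‖sg w ((Q : 𝓞 K) * (dl' s + e * c0 s))‖ ≤
        Q * (‖t s w‖ + cK K + cK K * M1 * M2) := by
      rw [map_mul, norm_mul, hQn, map_add]
      refine mul_le_mul_of_nonneg_left ?_ (Nat.cast_nonneg _)
      exact (norm_add_le _ _).trans (add_le_add h2 h3)
    refine h4.trans ?_
    have h5 : (Q : ℝ) * (‖t s w‖ + cK K + cK K * M1 * M2) =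
        ‖t s w‖ * Q + Q * (cK K + cK K * M1 * M2) := by ring
    rw [h5]
    exact add_le_add h1 le_rfl

/-- the final computation -/
private theorem fib_arith (m σ : ℕ) (hσ : 1 ≤ σ) (c1 ck rho H V Q f : ℝ) (hc1 : 0 < c1)
    (hck : 0 < ck) (hrho : 0 < rho) (hH : 0 < H) (hV : 0 < V) (hQ : 0 < Q)
    (h : f * (c1 * ((rho * H * V / (4 * ck)) ^ m / Q ^ m)) ≤
      (2 * ((2 * (2 * rho * H)) ^ m / Q ^ m)) ^ σ) :
    f ≤ 2 ^ σ * 2 ^ (m * σ) * (8 * ck) ^ m / c1 * (2 * rho * H / Q) ^ (m * (σ - 1)) / V ^ m := by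
  obtain ⟨x, hx⟩ : ∃ x : ℝ, x = 2 * rho * H / Q := ⟨_, rfl⟩
  have hx0 : 0 < x := by rw [hx]; positivity
  have e1 : (rho * H * V / (4 * ck)) ^ m / Q ^ m = (x * V / (8 * ck)) ^ m := by
    rw [← div_pow, hx]
    congr 1
    field_simp
    ring
  have e2 : (2 * ((2 * (2 * rho * H)) ^ m / Q ^ m)) ^ σ = 2 ^ σ * 2 ^ (m * σ) * x ^ (m * σ) := by
    rw [← div_pow, mul_pow, ← pow_mul]
    have : 2 * (2 * rho * H) / Q = 2 * x := by rw [hx]; ring
    rw [this, mul_pow]
    ring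
  rw [e1, e2] at h
  have e3 : m * σ = m * (σ - 1) + m := by
    obtain ⟨k, rfl⟩ : ∃ k, σ = k + 1 := ⟨σ - 1, by omega⟩
    rw [Nat.add_sub_cancel]
    ring
  have hp : 0 < c1 * (x * V / (8 * ck)) ^ m := by positivity
  rw [← hx]
  rw [← le_div_iff₀ hp] at h
  refine h.trans (le_of_eq ?_)
  rw [e3, pow_add x, div_pow, mul_pow x V]
  field_simp

end aux

theorem fibre_card (K : Type) [Field K] [NumberField K] (σ : ℕ) : ∃ C : ℝ, 0 < C ∧
    ∀ (S : Type) [Fintype S] [DecidableEq S], Fintype.card S = σ → ∀ v : S → 𝓞 K,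
    (∃ c : S → 𝓞 K, ∑ s, c s * v s = 1) → ∀ V : ℝ, 0 < V →
    (∀ w : InfinitePlace K, ∃ s, V / 2 ≤ ‖sg w (v s)‖) → ∀ Q : ℕ, 1 ≤ Q → ∀ rho : ℝ, 0 < rho →
    ∀ᶠ H : ℝ in atTop, ∀ (cen : S → IK K → ℝ) (a0 : S → 𝓞 K) (b : 𝓞 K),
      {a : S → 𝓞 K | (∀ s l, |(crd (a s) l : ℝ) - cen s l| ≤ rho * H) ∧
        (∀ s, (Q : 𝓞 K) ∣ a s - a0 s) ∧ ∑ s, a s * v s = b}.Finite ∧
      (Set.ncard {a : S → 𝓞 K | (∀ s l, |(crd (a s) l : ℝ) - cen s l| ≤ rho * H) ∧
        (∀ s, (Q : 𝓞 K) ∣ a s - a0 s) ∧ ∑ s, a s * v s = b} : ℝ) ≤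
        C * (2 * rho * H / Q) ^ (mK K * (σ - 1)) / V ^ mK K := by
  classical
  obtain ⟨c1, hc1, hlow⟩ := lat_lower K
  have hcK := cK_pos (K := K)
  refine ⟨2 ^ σ * 2 ^ (mK K * σ) * (8 * cK K) ^ mK K / c1, by positivity, ?_⟩
  intro S _ _ hS v hv V hV hvw Q hQ rho hrho
  obtain ⟨c0, h0⟩ := hv
  obtain ⟨T, hT0, hT⟩ := fib_key v c0 h0 V hV hvw Q
  have hQ0 : (0 : ℝ) < Q := by exact_mod_cast hQ
  have hσ : 1 ≤ σ := by
    rcases Nat.eq_zero_or_pos σ with h | h
    · exfalso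
      rw [h] at hS
      have := Fintype.card_eq_zero_iff.mp hS
      rw [Finset.univ_eq_empty, Finset.sum_empty] at h0
      exact zero_ne_one h0
    · exact h
  have hb : Ideal.span {(Q : 𝓞 K)} ≠ ⊥ := by
    rw [Ne, Ideal.span_singleton_eq_bot]
    exact_mod_cast (by omega : Q ≠ 0)
  obtain ⟨R0, hR0, hcc⟩ := cube_count (K := K) (Ideal.span {(Q : 𝓞 K)}) hb 1 one_pos
  filter_upwards [eventually_gt_atTop 0, eventually_ge_atTop (2 * cK K * T / rho),
    eventually_ge_atTop (R0 / (2 * rho))] with H hH0 hH1 hH2 cen a0 b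
  obtain ⟨X0, hX0⟩ : ∃ X0 : ℝ, X0 = rho * H * V / (4 * cK K) := ⟨_, rfl⟩
  have hX0p : 0 < X0 := by rw [hX0]; positivity
  have hbd : 2 * X0 / V + T ≤ rho * H / cK K := by
    have e1 : 2 * X0 / V = rho * H / (2 * cK K) := by
      rw [hX0]
      field_simp
      ring
    have e2 : T ≤ rho * H / (2 * cK K) := by
      rw [le_div_iff₀ (by positivity)]
      rw [div_le_iff₀ hrho] at hH1
      linarith
    have e3 : rho * H / cK K = rho * H / (2 * cK K) + rho * H / (2 * cK K) := by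
      field_simp
      ring
    rw [e1, e3]
    linarith
  obtain ⟨A, hA⟩ : ∃ A : Set (S → 𝓞 K), A = {a : S → 𝓞 K |
      (∀ s l, |(crd (a s) l : ℝ) - cen s l| ≤ rho * H) ∧
        (∀ s, (Q : 𝓞 K) ∣ a s - a0 s) ∧ ∑ s, a s * v s = b} := ⟨_, rfl⟩
  have hAfin : A.Finite := by
    refine (Set.Finite.pi' fun s : S => cube_finite (K := K) (cen s) (rho * H)).subset ?_
    intro a ha s l
    rw [hA] at ha
    exact ha.1 s l
  rw [← hA]
  refine ⟨hAfin, ?_⟩
  obtain ⟨D, hD⟩ : ∃ D : Set (𝓞 K), D = {c : 𝓞 K | c ∈ Ideal.span {(Q : 𝓞 K)} ∧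
      ∀ w : InfinitePlace K, ‖sg w c‖ ≤ X0} := ⟨_, rfl⟩
  have hDfin : D.Finite := by
    refine (cube_finite (K := K) (fun _ => 0) (cK K * X0)).subset ?_
    intro c hc j
    rw [hD] at hc
    rw [sub_zero]
    exact crd_le_of_norm_sg hc.2 j
  have hDcard : c1 * (X0 ^ mK K / (Q : ℝ) ^ mK K) ≤ (D.ncard : ℝ) := by
    have h1 := hlow (Ideal.span {(Q : 𝓞 K)}) hb (fun _ => X0) (fun _ => hX0p)
    rw [np_const, fib_absNorm] at h1
    rw [hD]
    push_cast at h1
    exact h1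
  obtain ⟨Tg, hTg⟩ : ∃ Tg : Set (S → 𝓞 K), Tg = {a : S → 𝓞 K | ∀ s, a s ∈
      {x : 𝓞 K | x - a0 s ∈ Ideal.span {(Q : 𝓞 K)} ∧
        ∀ j, |(crd x j : ℝ) - cen s j| ≤ 2 * rho * H}} := ⟨_, rfl⟩
  have hR : R0 ≤ 2 * rho * H := by
    rw [div_le_iff₀ (by positivity)] at hH2
    linarith
  have hTfin : Tg.Finite := by
    rw [hTg]
    exact Set.Finite.pi' fun s : S => (hcc (2 * rho * H) hR (cen s) (a0 s)).1
  have hTcard : (Tg.ncard : ℝ) ≤ (2 * ((2 * (2 * rho * H)) ^ mK K / (Q : ℝ) ^ mK K)) ^ σ := by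
    rw [hTg, CIHP.ncard_pi (fun s : S => {x : 𝓞 K | x - a0 s ∈ Ideal.span {(Q : 𝓞 K)} ∧
        ∀ j, |(crd x j : ℝ) - cen s j| ≤ 2 * rho * H})
      (fun s => (hcc (2 * rho * H) hR (cen s) (a0 s)).1), ← hS, ← Finset.card_univ]
    push_cast
    rw [← Finset.prod_const]
    refine Finset.prod_le_prod (fun _ _ => Nat.cast_nonneg _) fun s _ => ?_
    have h1 := (hcc (2 * rho * H) hR (cen s) (a0 s)).2.2
    rw [fib_absNorm] at h1
    push_cast at h1
    refine h1.trans (le_of_eq ?_)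
    norm_num
  -- the map
  have hdl : ∀ c : 𝓞 K, ∃ dl : S → 𝓞 K, c ∈ D → (∑ s, dl s * v s = c ∧
      (∀ s, (Q : 𝓞 K) ∣ dl s) ∧ ∀ s (w : InfinitePlace K), ‖sg w (dl s)‖ ≤ 2 * X0 / V + T) := by
    intro c
    by_cases hc : c ∈ D
    · have hc' := hc
      rw [hD] at hc'
      obtain ⟨dl, h1⟩ := hT X0 c hc'.1 hc'.2
      exact ⟨dl, fun _ => h1⟩
    · exact ⟨0, fun h => absurd h hc⟩
  choose dl hdl using hdl
  have hinj : (A ×ˢ D).ncard ≤ Tg.ncard := by
    refine Set.ncard_le_ncard_of_injOn (fun q : (S → 𝓞 K) × 𝓞 K => fun s => q.1 s + dl q.2 s)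
      ?_ ?_ hTfin
    · rintro ⟨a, c⟩ ⟨ha, hc⟩
      have ha' : a ∈ A := ha
      have hc' : c ∈ D := hc
      rw [hA] at ha'
      obtain ⟨h1, h2, h3⟩ := hdl c hc'
      rw [hTg]
      intro s
      refine ⟨?_, fun j => ?_⟩
      · rw [Ideal.mem_span_singleton]
        have e1 : a s + dl c s - a0 s = (a s - a0 s) + dl c s := by ring
        show (Q : 𝓞 K) ∣ a s + dl c s - a0 s
        rw [e1]
        exact dvd_add (ha'.2.1 s) (h2 s)
      · have e1 : |(crd (dl c s) j : ℝ)| ≤ rho * H := by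
          refine (crd_le_of_norm_sg (fun w => (h3 s w).trans hbd) j).trans (le_of_eq ?_)
          field_simp
        show |(crd (a s + dl c s) j : ℝ) - cen s j| ≤ 2 * rho * H
        rw [crd_add]
        push_cast
        have e2 : (crd (a s) j : ℝ) + crd (dl c s) j - cen s j =
            ((crd (a s) j : ℝ) - cen s j) + crd (dl c s) j := by ring
        rw [e2]
        refine (abs_add_le _ _).trans ?_
        have e3 := ha'.1 s j
        linarith
    · rintro ⟨a, c⟩ ⟨ha, hc⟩ ⟨a', c'⟩ ⟨ha', hc'⟩ haa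
      have h1 : a ∈ A := ha
      have h2 : c ∈ D := hc
      have h3 : a' ∈ A := ha'
      have h4 : c' ∈ D := hc'
      rw [hA] at h1 h3
      have haa' : ∀ s, a s + dl c s = a' s + dl c' s := fun s => congrFun haa s
      have e1 : ∑ s, (a s + dl c s) * v s = b + c := by
        simp only [add_mul, Finset.sum_add_distrib]
        rw [h1.2.2, (hdl c h2).1]
      have e2 : ∑ s, (a' s + dl c' s) * v s = b + c' := by
        simp only [add_mul, Finset.sum_add_distrib]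
        rw [h3.2.2, (hdl c' h4).1]
      have e3 : b + c = b + c' := by
        rw [← e1, ← e2]
        exact Finset.sum_congr rfl fun s _ => by rw [haa' s]
      have e4 : c = c' := add_left_cancel e3
      subst e4
      have e5 : a = a' := by
        funext s
        exact add_right_cancel (haa' s)
      rw [e5]
  rw [Set.ncard_prod] at hinj
  have hfin : (A.ncard : ℝ) * (c1 * ((rho * H * V / (4 * cK K)) ^ mK K / (Q : ℝ) ^ mK K)) ≤
      (2 * ((2 * (2 * rho * H)) ^ mK K / (Q : ℝ) ^ mK K)) ^ σ := by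
    rw [← hX0]
    calc (A.ncard : ℝ) * (c1 * (X0 ^ mK K / (Q : ℝ) ^ mK K)) ≤ (A.ncard : ℝ) * (D.ncard : ℝ) :=
          mul_le_mul_of_nonneg_left hDcard (Nat.cast_nonneg _)
      _ ≤ (Tg.ncard : ℝ) := by exact_mod_cast hinj
      _ ≤ _ := hTcard
  exact fib_arith (mK K) σ hσ c1 (cK K) rho H V Q _ hc1 hcK hrho hH0 hV hQ0 hfin


end NKPHP
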