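import Pool.Agent.Lib.MP_e426f4_ag.NKP.ExcI2

/-!
NKP-InfExc: exceptional systems at the infinite places.
-/

set_option linter.unusedSectionVars false

namespace NKPHP

open NumberField GenHP NFHP NKHP Finset Filter Topology
open CIPHP (PSys NP PJac blk pev PGoodR)

section multi
variable {K : Type} [Field K] [NumberField K] {ι : Type} [Fintype ι] [DecidableEq ι] {n : ι → ℕ}
  {r : ℕ} {d : Fin r → ι → ℕ}

theorem inf_exc (hr : 1 ≤ r) (hd : ∀ j i, 1 ≤ d j i) (i0 : ι) (hn0 : r ≤ n i0)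
    (w : InfinitePlace K) (eps : ℝ) (he : 0 < eps) :
    ∃ bet : ℝ, 0 < bet ∧ bet ≤ 1 ∧ ∀ th : ℝ, 0 < th → ∀ᶠ H : ℕ in atTop,
      (Set.ncard {A : PSys n d (𝓞 K) | A ∈ BoxP K n d H ∧ PLocI w (sgP w A) ∧
        ¬ PGoodIK i0 w (th * H) ((bet * H) ^ r) (sgP w A)} : ℝ) ≤
        eps * (2 * H + 1) ^ (mK K * NP n d) := inf_excP w hr hd i0 hn0 eps he

end multi

end NKPHP
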