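import Pool.Agent.Lib.MP_e426f4_ag.NKP.Ring
import Pool.Agent.Lib.MP_e426f4_ag.CI.LeftKernel

/-!
NKP-RKernel: matrices over the finite ring whose maximal minors are divisible by a high power of `π` have a vector in
the left kernel modulo `π ^ k`.

TEMPLATE: CI/LeftKernel.lean (left_kernel_padic; lk_combination, lk_injective, lk_full are stated over every commutative ring),
P/Alg.lean (lk_padic: arbitrary finite column type V). Divisions by powers of π: PR.exists_pow_mul_unit, PR.dvd_of_pow_mul_dvd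
(all exponents are at most r * k <= L).

PROOF of left_kernel_ring (r >= 1). Let s be minimal such that all (s+1) x (s+1) minors are divisible by π^((s+1) k)
(s < r exists by hypothesis, s + 1 = r; use lk_full for minors with arbitrary rows). If s = 0: c = e_i, all entries divisible by π^k. Otherwise some s x s minor is not
divisible by π^(s k); among all s x s minors L.submatrix I J (rows I, columns J) choose one of minimal valuation v < s k, i.e. all minors are divisible by π^v and this one is π^v * unit. lk_combination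
with these I0, J: c i1 = this minor, all c i are 0 or ± s x s minors, so c i = π^v * c' i with c' i1 a unit, and
∑ c i L i j = (s+1)-minor, divisible by π^((s+1)k). So π^v * (∑ c' i L i j) is divisible by π^((s+1) k), v + k <= (s+1) k <= L, so
π^k ∣ ∑ c' i L i j (PR.dvd_of_pow_mul_dvd).
ring_norm: multiply c by the inverse of c j0 and replace b j by representatives in T (of exists_reps, 1 ∈ T) modulo π^k.
-/

set_option linter.unusedSectionVars false

namespace NKPHP

open Finset

section ring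
variable {R : Type} [CommRing R] {π : R} {q L : ℕ}

private theorem left_kernel_aux (hR : PR R π q L) {m : ℕ} {r : ℕ} (hr : 1 ≤ r)
    (M : Matrix (Fin r) (Fin m) R) (k : ℕ) (hk : r * k ≤ L)
    (h : ∀ J : Fin r → Fin m, π ^ (r * k) ∣ (M.submatrix id J).det) :
    ∃ c : Fin r → R, (∃ i, IsUnit (c i)) ∧ ∀ j, π ^ k ∣ ∑ i, c i * M i j := by
  classical
  have h1P : ¬ π ^ (0 + 1) ∣ (1 : R) := by
    intro h1
    rw [zero_add, pow_one] at h1
    exact hR.not_unit (isUnit_of_dvd_one h1)
  have hfull : ∀ (I : Fin r → Fin r) (J : Fin r → Fin m),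
      π ^ (r * k) ∣ (M.submatrix I J).det := by
    intro I J
    rcases CIHP.lk_full M I J with h1 | ⟨a, h1⟩
    · rw [h1]
      exact dvd_zero _
    · rw [h1]
      exact Dvd.dvd.mul_left (h J) _
  have hPs : ∃ s : ℕ, ∀ (I : Fin (s + 1) → Fin r) (J : Fin (s + 1) → Fin m),
      π ^ ((s + 1) * k) ∣ (M.submatrix I J).det := by
    obtain ⟨s, rfl⟩ : ∃ s, r = s + 1 := ⟨r - 1, by omega⟩
    exact ⟨s, hfull⟩
  have hsr : Nat.find hPs < r := by
    obtain ⟨s, rfl⟩ : ∃ s, r = s + 1 := ⟨r - 1, by omega⟩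
    have : Nat.find hPs ≤ s := Nat.find_min' hPs hfull
    omega
  have hs := Nat.find_spec hPs
  have hmin : ∀ t, t < Nat.find hPs → ¬ ∀ (I : Fin (t + 1) → Fin r) (J : Fin (t + 1) → Fin m),
      π ^ ((t + 1) * k) ∣ (M.submatrix I J).det := fun t ht => Nat.find_min hPs ht
  generalize Nat.find hPs = s at hs hsr hmin
  have hW' : ∃ w : ℕ, w ≤ s * k ∧ ∃ (I : Fin s → Fin r) (J : Fin s → Fin m),
      ¬ π ^ (w + 1) ∣ (M.submatrix I J).det := by
    rcases Nat.eq_zero_or_pos s with rfl | hspos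
    · refine ⟨0, Nat.zero_le _, fun a => a.elim0, fun a => a.elim0, ?_⟩
      rw [Matrix.det_isEmpty]
      exact h1P
    · obtain ⟨t, rfl⟩ : ∃ t, s = t + 1 := ⟨s - 1, by omega⟩
      have h1 := hmin t (by omega)
      push Not at h1
      obtain ⟨I, J, hIJ⟩ := h1
      exact ⟨(t + 1) * k, le_rfl, I, J, fun h2 => hIJ ((pow_dvd_pow _ (by omega)).trans h2)⟩
  have hW : ∃ w : ℕ, ∃ (I : Fin s → Fin r) (J : Fin s → Fin m),
      ¬ π ^ (w + 1) ∣ (M.submatrix I J).det := by
    obtain ⟨w, -, h1⟩ := hW'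
    exact ⟨w, h1⟩
  have hwle : Nat.find hW ≤ s * k := by
    obtain ⟨w, hw1, hw2⟩ := hW'
    exact (Nat.find_min' hW hw2).trans hw1
  have hw := Nat.find_spec hW
  have hwmin : ∀ t, t < Nat.find hW → ¬ ∃ (I : Fin s → Fin r) (J : Fin s → Fin m),
      ¬ π ^ (t + 1) ∣ (M.submatrix I J).det := fun t ht => Nat.find_min hW ht
  generalize Nat.find hW = w at hw hwle hwmin
  obtain ⟨I0, J0, hIJ⟩ := hw
  have hall : ∀ (I : Fin s → Fin r) (J : Fin s → Fin m), π ^ w ∣ (M.submatrix I J).det := by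
    intro I J
    rcases Nat.eq_zero_or_pos w with rfl | hwpos
    · rw [pow_zero]
      exact one_dvd _
    · have h1 := hwmin (w - 1) (by omega)
      push Not at h1
      have h2 := h1 I J
      rwa [Nat.sub_add_cancel hwpos] at h2
  have hne : (M.submatrix I0 J0).det ≠ 0 := fun h0 => hIJ (by rw [h0]; exact dvd_zero _)
  obtain ⟨c, i1, hc1, hc2, hc3⟩ :=
    CIHP.lk_combination M hsr I0 (CIHP.lk_injective M I0 J0 hne) J0
  have hcd : ∀ i, π ^ w ∣ c i := by
    intro i
    rcases hc2 i with h1 | ⟨a, I, h1⟩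
    · rw [h1]
      exact dvd_zero _
    · rw [h1]
      exact Dvd.dvd.mul_left (hall I J0) _
  choose c' hc' using hcd
  have hwk : w + k ≤ (s + 1) * k := by
    rw [add_mul, one_mul]
    omega
  have hskL : (s + 1) * k ≤ L := (Nat.mul_le_mul_right k hsr).trans hk
  refine ⟨c', ⟨i1, hR.unit _ fun h1 => hIJ ?_⟩, fun j => ?_⟩
  · rw [← hc1, hc', pow_succ]
    exact mul_dvd_mul_left _ h1
  · obtain ⟨I, J, h1⟩ := hc3 j
    have h2 : ∑ i, c i * M i j = π ^ w * ∑ i, c' i * M i j := by
      rw [Finset.mul_sum]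
      refine Finset.sum_congr rfl fun i _ => ?_
      rw [hc' i, mul_assoc]
    refine hR.dvd_of_pow_mul_dvd (hwk.trans hskL) ?_
    rw [← h2, h1]
    exact (pow_dvd_pow _ hwk).trans (hs I J)

theorem left_kernel_ring (hR : PR R π q L) {V : Type} [Fintype V] {r : ℕ} (hr : 1 ≤ r)
    (M : Fin r → V → R) (k : ℕ) (hk : r * k ≤ L)
    (h : ∀ J : Fin r → V, π ^ (r * k) ∣ (Matrix.of fun i l => M i (J l)).det) :
    ∃ c : Fin r → R, (∃ i, IsUnit (c i)) ∧ ∀ v, π ^ k ∣ ∑ i, c i * M i v := by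
  classical
  obtain ⟨E, -⟩ : ∃ E : V ≃ Fin (Fintype.card V), True := ⟨Fintype.equivFin V, trivial⟩
  obtain ⟨c, hc1, hc2⟩ := left_kernel_aux hR hr
    (Matrix.of fun i (a : Fin (Fintype.card V)) => M i (E.symm a)) k hk
    (fun J => h fun l => E.symm (J l))
  refine ⟨c, hc1, fun v => ?_⟩
  have := hc2 (E v)
  simpa using this

/-- normalisation of the coefficients of a relation -/
theorem ring_norm (hR : PR R π q L) {V : Type} {r : ℕ} (M : Fin r → V → R) (k : ℕ) (hk : k ≤ L)
    (T : Finset R) (hT : ∀ x : R, ∃ y ∈ T, π ^ k ∣ x - y) (c : Fin r → R) (j0 : Fin r)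
    (hc : IsUnit (c j0)) (h : ∀ v, π ^ k ∣ ∑ i, c i * M i v) :
    ∃ b : Fin r → R, b j0 = 1 ∧ (∀ j, j ≠ j0 → b j ∈ T) ∧ ∀ v, π ^ k ∣ ∑ i, b i * M i v := by
  classical
  have _ := hR
  have _ := hk
  obtain ⟨u, hu⟩ := hc.exists_left_inv
  choose y hy1 hy2 using fun j => hT (u * c j)
  obtain ⟨b, hb⟩ : ∃ b : Fin r → R, b = fun j => if j = j0 then 1 else y j := ⟨_, rfl⟩
  have hb0 : b j0 = 1 := by
    rw [hb]
    exact if_pos rfl
  have hb1 : ∀ j, j ≠ j0 → b j = y j := fun j hj => by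
    rw [hb]
    exact if_neg hj
  have hb2 : ∀ j, π ^ k ∣ u * c j - b j := by
    intro j
    by_cases hj : j = j0
    · rw [hj, hb0, hu, sub_self]
      exact dvd_zero _
    · rw [hb1 j hj]
      exact hy2 j
  refine ⟨b, hb0, fun j hj => ?_, fun v => ?_⟩
  · rw [hb1 j hj]
    exact hy1 j
  · have h1 : ∑ i, b i * M i v = u * (∑ i, c i * M i v) - ∑ i, (u * c i - b i) * M i v := by
      rw [Finset.mul_sum, ← Finset.sum_sub_distrib]
      refine Finset.sum_congr rfl fun i _ => ?_
      ring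
    rw [h1]
    exact dvd_sub (Dvd.dvd.mul_left (h v) _)
      (Finset.dvd_sum fun i _ => Dvd.dvd.mul_right (hb2 i) _)

end ring

end NKPHP
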