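import Pool.Agent.Lib.MP_e426f4_ag.NKP.RCond
import Pool.Agent.Lib.MP_e426f4_ag.NKP.RKernel

/-!
NKP-RExc1: systems over the finite ring with a singular zero.

TEMPLATE: P/PadicExc1.lean (p_padic_exc1, pp_norm, px_card). Number of systems over R, L = r * k, with a unimodular zero
modulo π^k at which all maximal minors of the Jacobian are 0 (= divisible by π^(r k)).

PROOF. Let A be such a system with the point z. left_kernel_ring (V = MVar n, M j v = MD (A j) z v) gives c with c j0 a unit and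
π^k ∣ ∑ c_j MD (A j) z v for all v. Choose τ with z_{i, τ i} units, scale each block by the inverse of z_{i, τ i} (MF_scale, MD_scale: the relation for the scaled point
has coefficients c_j / ∏ z^{d j i}, as in pp_norm), replace z by representatives w in T (exists_reps for π^k; 1 ∈ T, so w_{i, τ i} = 1): MF, MD change
only modulo π^k. ring_norm: b j0 = 1, b j ∈ T. So A lies in one of the sets of ring_cond (m = k, U = {v | v.2 ≠ τ v.1}), and the number of
(τ, j0, w, b) is at most r * (∏ (n i + 1)) * (q^k)^(card U) * (q^k)^(r - 1), card U = card (MVar n) - card ι. By ring_cond each set has at most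
(q^L)^NP / q^(k r + k card U) elements: total <= r ∏ (n i + 1) (q^L)^NP / q^k.
Constant: C = r * Fintype.card (∀ i, Fin (n i + 1)).
-/

set_option linter.unusedSectionVars false

namespace NKPHP

open GenHP NKHP Finset Filter Topology
open CIPHP (PSys NP PJac blk pev)

section ring
variable {R : Type} [CommRing R]

private theorem rx_zero (t x : R) :
    Ideal.Quotient.mk (Ideal.span ({t} : Set R)) x = 0 ↔ t ∣ x :=
  Ideal.Quotient.eq_zero_iff_dvd t x

end ring

section multi
variable {ι : Type} [Fintype ι] [DecidableEq ι] {n : ι → ℕ} {r : ℕ} {d : Fin r → ι → ℕ}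

private theorem rx_MF_congr {R : Type} [CommRing R] {e : ι → ℕ} (t : R) (A : MIdx n e → R)
    (z z' : MVar n → R) (h : ∀ v, t ∣ z v - z' v) : t ∣ MF A z - MF A z' := by
  rw [← rx_zero, map_sub, ← MF_map, ← MF_map, sub_eq_zero]
  congr 1
  funext v
  rw [← sub_eq_zero, ← map_sub, rx_zero]
  exact h v

private theorem rx_MD_congr {R : Type} [CommRing R] {e : ι → ℕ} (t : R) (A : MIdx n e → R)
    (z z' : MVar n → R) (v : MVar n) (h : ∀ v, t ∣ z v - z' v) :
    t ∣ MD A z v - MD A z' v := by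
  rw [← rx_zero, map_sub, ← MD_map, ← MD_map, sub_eq_zero]
  congr 1
  funext v
  rw [← sub_eq_zero, ← map_sub, rx_zero]
  exact h v

/-- normalisation of a point and of a linear combination of the gradients -/
private theorem rx_norm {R : Type} [CommRing R] {π : R} {q L : ℕ} (hR : PR R π q L) (k : ℕ)
    (hk : k ≤ L) (T : Finset R) (hT : ∀ x : R, ∃ y ∈ T, π ^ k ∣ x - y)
    (A : PSys n d R) (z : MVar n → R) (τ : ∀ i, Fin (n i + 1)) (hτ : ∀ i, IsUnit (z ⟨i, τ i⟩))
    (c : Fin r → R) (j0 : Fin r) (hc : IsUnit (c j0))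
    (hF : ∀ j, π ^ k ∣ MF (A j) z) (hD : ∀ v, π ^ k ∣ ∑ j, c j * MD (A j) z v) :
    ∃ (w : MVar n → R) (b : Fin r → R), (∀ i, w ⟨i, τ i⟩ = 1) ∧ b j0 = 1 ∧
      (∀ v : MVar n, v.2 ≠ τ v.1 → w v ∈ T) ∧ (∀ j, j ≠ j0 → b j ∈ T) ∧
      (∀ j, π ^ k ∣ MF (A j) w) ∧ ∀ v, π ^ k ∣ ∑ j, b j * MD (A j) w v := by
  classical
  choose u hu using fun i => (hτ i).exists_left_inv
  have huu : ∀ i, IsUnit (u i) := fun i => IsUnit.of_mul_eq_one _ (hu i)
  set x : MVar n → R := fun v => u v.1 * z v with hx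
  have hFx : ∀ j, π ^ k ∣ MF (A j) x := by
    intro j
    rw [hx, MF_scale]
    exact (hF j).mul_left _
  set c' : Fin r → R := fun j => c j * ∏ i, z ⟨i, τ i⟩ ^ d j i with hc'
  have hc'0 : IsUnit (c' j0) := by
    rw [hc']
    refine hc.mul ?_
    have h1 : IsUnit ((∏ i, z ⟨i, τ i⟩ ^ d j0 i)) := by
      refine Finset.prod_induction _ IsUnit (fun a b ha hb => ha.mul hb) isUnit_one ?_
      intro i _
      exact (hτ i).pow _
    exact h1
  have hpow : ∀ j, (∏ i, z ⟨i, τ i⟩ ^ d j i) * (∏ i, u i ^ d j i) = 1 := by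
    intro j
    rw [← Finset.prod_mul_distrib]
    refine Finset.prod_eq_one fun i _ => ?_
    rw [← mul_pow, mul_comm, hu i, one_pow]
  have hDx : ∀ v, π ^ k ∣ ∑ j, c' j * MD (A j) x v := by
    intro v
    have h1 : π ^ k ∣ u v.1 * ∑ j, c' j * MD (A j) x v := by
      have h2 : u v.1 * ∑ j, c' j * MD (A j) x v = ∑ j, c j * MD (A j) z v := by
        rw [Finset.mul_sum]
        refine Finset.sum_congr rfl fun j _ => ?_
        have h3 := MD_scale u (A j) z v
        have h4 := hpow j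
        rw [hc']
        simp only
        linear_combination (c j * ∏ i, z ⟨i, τ i⟩ ^ d j i) * h3 + (c j * MD (A j) z v) * h4
      rw [h2]
      exact hD v
    exact ((huu v.1).dvd_mul_left).mp h1
  choose g hg1 hg2 using hT
  set w : MVar n → R := fun v => if v.2 = τ v.1 then 1 else g (x v) with hw
  have hdvd : ∀ v, π ^ k ∣ w v - x v := by
    intro v
    rw [hw]
    simp only
    split_ifs with h1
    · have h2 : v = ⟨v.1, τ v.1⟩ := by rw [← h1]
      have h3 : x v = 1 := by
        rw [h2, hx]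
        exact hu _
      rw [h3, sub_self]
      exact dvd_zero _
    · rw [← neg_sub]
      exact (hg2 (x v)).neg_right
  have hFw : ∀ j, π ^ k ∣ MF (A j) w := by
    intro j
    have h1 := rx_MF_congr (π ^ k) (A j) w x hdvd
    have h2 := dvd_add h1 (hFx j)
    simpa using h2
  have hDw : ∀ v, π ^ k ∣ ∑ j, c' j * MD (A j) w v := by
    intro v
    have h1 : ∑ j, c' j * MD (A j) w v = (∑ j, c' j * MD (A j) x v) +
        ∑ j, c' j * (MD (A j) w v - MD (A j) x v) := by
      rw [← Finset.sum_add_distrib]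
      exact Finset.sum_congr rfl fun j _ => by ring
    rw [h1]
    exact dvd_add (hDx v) (Finset.dvd_sum fun j _ =>
      (rx_MD_congr (π ^ k) (A j) w x v hdvd).mul_left _)
  obtain ⟨b, hb1, hb2, hb3⟩ := ring_norm hR (fun j v => MD (A j) w v) k hk T
    (fun x => ⟨g x, hg1 x, hg2 x⟩) c' j0 hc'0 hDw
  refine ⟨w, b, fun i => ?_, hb1, fun v hv => ?_, hb2, hFw, hb3⟩
  · rw [hw]
    simp
  · rw [hw]
    simp only [if_neg hv]
    exact hg1 _

private theorem rx_card {R : Type} {α : Type} [Fintype α] [DecidableEq α] (T : Finset R) (o : R)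
    (P : α → Prop) [DecidablePred P] :
    (Fintype.piFinset fun v : α => if P v then T else {o}).card = T.card ^ (univ.filter P).card := by
  rw [Fintype.card_piFinset]
  have h1 : ∀ v : α, (if P v then T else {o}).card = if P v then T.card else 1 := by
    intro v
    split_ifs <;> simp
  rw [Finset.prod_congr rfl fun v _ => h1 v, Finset.prod_ite, Finset.prod_const_one, mul_one,
    Finset.prod_const]

private theorem rx_card_ne {r : ℕ} (j0 : Fin r) :
    (univ.filter fun j : Fin r => j ≠ j0).card = r - 1 := by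
  rw [Finset.filter_ne', Finset.card_erase_of_mem (Finset.mem_univ _), Finset.card_univ,
    Fintype.card_fin]

theorem ring_exc1 (hr : 1 ≤ r) (hd : ∀ j i, 1 ≤ d j i) {R : Type} [CommRing R] {π : R} {q k : ℕ}
    (hk : 1 ≤ k) (hR : PR R π q (r * k)) :
    Set.ncard {A : PSys n d R | ∃ z : MVar n → R, (∀ i, ∃ a, IsUnit (z ⟨i, a⟩)) ∧
      (∀ j, π ^ k ∣ MF (A j) z) ∧ ∀ J : Fin r → MVar n, (PJac A z J).det = 0} * q ^ k ≤
      (r * Fintype.card (∀ i, Fin (n i + 1))) * (q ^ (r * k)) ^ NP n d := by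
  classical
  have _hk1 := hk
  have hkL : k ≤ r * k := Nat.le_mul_of_pos_left _ hr
  have hq0 : 0 < q := lt_of_lt_of_le two_pos hR.q_two
  obtain ⟨hfinS, -⟩ := card_PSys_ring (n := n) (d := d) hR
  obtain ⟨T, hTcard, hT1, -, hT1'⟩ := hR.exists_reps k hkL
  set U : (∀ i, Fin (n i + 1)) → Finset (MVar n) := fun τ => univ.filter fun v => v.2 ≠ τ v.1
    with hU
  set X : (∀ i, Fin (n i + 1)) → Finset (MVar n → R) := fun τ =>
    Fintype.piFinset fun v => if v.2 ≠ τ v.1 then T else {1} with hX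
  set Y : Fin r → Finset (Fin r → R) := fun j0 =>
    Fintype.piFinset fun j => if j ≠ j0 then T else {1} with hY
  have hXcard : ∀ τ, (X τ).card = (q ^ k) ^ (U τ).card := fun τ => by
    rw [hX, hU, ← hTcard]
    exact rx_card (α := MVar n) T 1 (fun v => v.2 ≠ τ v.1)
  have hYcard : ∀ j0, (Y j0).card = (q ^ k) ^ (r - 1) := fun j0 => by
    rw [← rx_card_ne j0, hY, ← hTcard]
    exact rx_card (α := Fin r) T 1 (fun j => j ≠ j0)
  set E : (∀ i, Fin (n i + 1)) → (MVar n → R) × (Fin r → R) → Set (PSys n d R) := fun τ z =>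
    {A : PSys n d R | (∀ j, π ^ k ∣ MF (A j) z.1) ∧
        ∀ v ∈ U τ, π ^ k ∣ ∑ j, z.2 j * MD (A j) z.1 v} with hE
  have hfin : ∀ τ z, (E τ z).Finite := fun τ z => Set.toFinite _
  set Z : Finset (Σ _ : (∀ i, Fin (n i + 1)) × Fin r, (MVar n → R) × (Fin r → R)) :=
    univ.sigma fun q => X q.1 ×ˢ Y q.2 with hZ
  have hsub : {A : PSys n d R | ∃ z : MVar n → R, (∀ i, ∃ a, IsUnit (z ⟨i, a⟩)) ∧
      (∀ j, π ^ k ∣ MF (A j) z) ∧ ∀ J : Fin r → MVar n, (PJac A z J).det = 0} ⊆
      ⋃ x ∈ Z, E x.1.1 x.2 := by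
    rintro A ⟨z, hz, hF, hJ⟩
    choose τ hτ using hz
    obtain ⟨c, ⟨j0, hj0⟩, hc⟩ := left_kernel_ring hR (V := MVar n) hr (fun j v => MD (A j) z v) k
      le_rfl (fun J => by
        have h1 := hJ J
        have h2 : (Matrix.of fun i l => MD (A i) z (J l)).det = 0 := h1
        rw [h2]
        exact dvd_zero _)
    obtain ⟨w, b, hw1, hb1, hw2, hb2, hw3, hw4⟩ := rx_norm hR k hkL T hT1 A z τ hτ c j0 hj0 hF hc
    refine Set.mem_iUnion₂.mpr ⟨⟨(τ, j0), (w, b)⟩, ?_, hw3, fun v _ => hw4 v⟩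
    rw [hZ, Finset.mem_sigma]
    refine ⟨Finset.mem_univ _, ?_⟩
    rw [Finset.mem_product, hX, hY]
    simp only
    rw [Fintype.mem_piFinset, Fintype.mem_piFinset]
    constructor
    · intro v
      split_ifs with h1
      · exact hw2 v h1
      · rw [Finset.mem_singleton]
        push Not at h1
        have h2 : v = ⟨v.1, τ v.1⟩ := by rw [← h1]
        rw [h2]
        exact hw1 v.1
    · intro j
      split_ifs with h1
      · exact hb2 j h1
      · rw [Finset.mem_singleton]
        push Not at h1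
        rw [h1]
        exact hb1
  have h1 : Set.ncard {A : PSys n d R | ∃ z : MVar n → R, (∀ i, ∃ a, IsUnit (z ⟨i, a⟩)) ∧
      (∀ j, π ^ k ∣ MF (A j) z) ∧ ∀ J : Fin r → MVar n, (PJac A z J).det = 0} ≤
      ∑ x ∈ Z, Set.ncard (E x.1.1 x.2) := by
    have h2 := Set.ncard_le_ncard hsub
      (Set.Finite.biUnion Z.finite_toSet fun x _ => hfin x.1.1 x.2)
    have h3 := Finset.set_ncard_biUnion_le Z fun x => E x.1.1 x.2
    exact h2.trans h3
  refine (Nat.mul_le_mul_right _ h1).trans ?_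
  rw [hZ, Finset.sum_sigma, Finset.sum_mul]
  have h2 : ∀ x : (∀ i, Fin (n i + 1)) × Fin r,
      (∑ z ∈ X x.1 ×ˢ Y x.2, Set.ncard (E x.1 z)) * q ^ k ≤ (q ^ (r * k)) ^ NP n d := by
    rintro ⟨τ, j0⟩
    have h3 : ∀ z ∈ X τ ×ˢ Y j0, Set.ncard (E τ z) * q ^ (k * r + k * (U τ).card) ≤
        (q ^ (r * k)) ^ NP n d := by
      intro z hz
      rw [Finset.mem_product, hX, hY] at hz
      simp only at hz
      rw [Fintype.mem_piFinset, Fintype.mem_piFinset] at hz
      refine ring_cond hR hd τ z.1 (fun i => ?_) z.2 j0 ?_ k k hkL hkL (U τ) (fun v hv => ?_)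
      · have h4 := hz.1 ⟨i, τ i⟩
        simp only [ne_eq, not_true_eq_false, if_false, Finset.mem_singleton] at h4
        rw [h4]
        exact isUnit_one
      · have h4 := hz.2 j0
        simp only [ne_eq, not_true_eq_false, if_false, Finset.mem_singleton] at h4
        rw [h4]
        exact isUnit_one
      · rw [hU, Finset.mem_filter] at hv
        exact hv.2
    have h4 : (∑ z ∈ X τ ×ˢ Y j0, Set.ncard (E τ z)) * q ^ (k * r + k * (U τ).card) ≤
        ((q ^ k) ^ (U τ).card * (q ^ k) ^ (r - 1)) * (q ^ (r * k)) ^ NP n d := by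
      rw [Finset.sum_mul]
      refine (Finset.sum_le_sum h3).trans ?_
      rw [Finset.sum_const, smul_eq_mul, Finset.card_product, hXcard, hYcard]
    have h5 : q ^ (k * r + k * (U τ).card) =
        q ^ k * ((q ^ k) ^ (U τ).card * (q ^ k) ^ (r - 1)) := by
      rw [← pow_mul, ← pow_mul, ← pow_add, ← pow_add]
      congr 1
      obtain ⟨r', rfl⟩ : ∃ r', r = r' + 1 := ⟨r - 1, by omega⟩
      rw [Nat.add_sub_cancel]
      ring
    rw [h5, ← mul_assoc, mul_comm _ ((q ^ (r * k)) ^ NP n d)] at h4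
    exact Nat.le_of_mul_le_mul_right h4 (by positivity)
  calc ∑ x ∈ (univ : Finset ((∀ i, Fin (n i + 1)) × Fin r)),
        (∑ z ∈ X x.1 ×ˢ Y x.2, Set.ncard (E x.1 z)) * q ^ k
      ≤ ∑ x ∈ (univ : Finset ((∀ i, Fin (n i + 1)) × Fin r)), (q ^ (r * k)) ^ NP n d :=
        Finset.sum_le_sum fun x _ => h2 x
    _ = (r * Fintype.card (∀ i, Fin (n i + 1))) * (q ^ (r * k)) ^ NP n d := by
        rw [Finset.sum_const, smul_eq_mul, Finset.card_univ, Fintype.card_prod, Fintype.card_fin]
        ring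

end multi

end NKPHP
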