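import Pool.Agent.Lib.MP_e426f4_ag.NKP.Ring
import Pool.Agent.Lib.MP_e426f4_ag.P.Hens

/-!
NKP-RHens: Hensel's lemma for systems over the finite ring, and over `𝓞 K`.

TEMPLATE: P/Hens.lean (hs_step, hs_lift, hens_sys, hens_zeros_sys over ℤ with the prime p): word for word with (p : ℤ) ^ m ∣ x replaced by
π ^ m ∣ x in R, all exponents at most L (beyond L the divisibility says x = 0, π ^ L = 0), `u0` not divisible by π is a unit
(exact inverse, so the term (1 - u' u0) vanishes). Congruences: Fg_map, Dg_map (G/Alg) with f = Ideal.Quotient.mk (span {π^m}) and RingHom.map_det.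

hens_ring: c + 1 <= m, i.e. 2 c + 1 <= m, conclusion for all levels m <= m' <= L.
hens_zeros_ring (L = 2 k): z v = z0 v + x v + t v for v off J, x v in {x : R | π ^ (2 k1) ∣ x} (q ^ (2 k - 2 k1) elements by card_dvd)
arbitrary, t v = 0 off J; different x give different z; at least (q ^ (2k - 2k1)) ^ (card V - r) zeros.
hens_K: apply hens_ring to R = 𝓞 K ⧸ P ^ (m + N) (exists_PR) and lift t.
-/

set_option linter.unusedSectionVars false

namespace NKPHP

open NumberField GenHP NFHP NKHP Finset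


/-- determinants of congruent matrices are congruent -/
private theorem det_congr_R {R : Type} [CommRing R] {m : Type*} [Fintype m] [DecidableEq m] (N : R)
    (M M' : Matrix m m R) (h : ∀ i j, N ∣ M i j - M' i j) : N ∣ M.det - M'.det := by
  set f : R →+* R ⧸ Ideal.span {N} := Ideal.Quotient.mk (Ideal.span {N}) with hf
  have h1 : f.mapMatrix M = f.mapMatrix M' := by
    ext i j
    rw [RingHom.mapMatrix_apply, RingHom.mapMatrix_apply, Matrix.map_apply, Matrix.map_apply, hf,
      Ideal.Quotient.eq, Ideal.mem_span_singleton]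
    exact h i j
  have h2 : f M.det = f M'.det := by
    rw [RingHom.map_det, RingHom.map_det, h1]
  rw [hf, Ideal.Quotient.eq, Ideal.mem_span_singleton] at h2
  exact h2

private theorem Fg_congr_R {R : Type} [CommRing R] {I ι : Type} [Fintype I] [Fintype ι]
    (e : I → ι → ℕ) (N : R) (A : I → R) (x x' : ι → R) (hx : ∀ i, N ∣ x i - x' i) :
    N ∣ Fg e A x - Fg e A x' := by
  set f : R →+* R ⧸ Ideal.span {N} := Ideal.Quotient.mk (Ideal.span {N}) with hf
  have h1 : (fun i => f (x i)) = fun i => f (x' i) := by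
    funext i
    rw [hf, Ideal.Quotient.eq, Ideal.mem_span_singleton]
    exact hx i
  have h2 : f (Fg e A x) = f (Fg e A x') := by
    rw [← Fg_map, ← Fg_map, h1]
  rw [hf, Ideal.Quotient.eq, Ideal.mem_span_singleton] at h2
  exact h2

private theorem Dg_congr_R {R : Type} [CommRing R] {I ι : Type} [Fintype I] [Fintype ι]
    [DecidableEq ι] (e : I → ι → ℕ) (N : R) (A : I → R) (x x' : ι → R) (j : ι)
    (hx : ∀ i, N ∣ x i - x' i) : N ∣ Dg e A x j - Dg e A x' j := by
  set f : R →+* R ⧸ Ideal.span {N} := Ideal.Quotient.mk (Ideal.span {N}) with hf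
  have h1 : (fun i => f (x i)) = fun i => f (x' i) := by
    funext i
    rw [hf, Ideal.Quotient.eq, Ideal.mem_span_singleton]
    exact hx i
  have h2 : f (Dg e A x j) = f (Dg e A x' j) := by
    rw [← Dg_map, ← Dg_map, h1]
  rw [hf, Ideal.Quotient.eq, Ideal.mem_span_singleton] at h2
  exact h2

section ring
variable {R : Type} [CommRing R] {π : R} {q L : ℕ}
variable {V : Type} [Fintype V] [DecidableEq V] {r : ℕ} {I : Fin r → Type} [∀ j, Fintype (I j)]

/-- one Newton step -/
private theorem hs_step_R (hR : PR R π q L) (e : ∀ j, I j → V → ℕ) (A : ∀ j, I j → R) (c m : ℕ)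
    (hm : 2 * c + 1 ≤ m) (z : V → R) (J : Fin r → V)
    (hF : ∀ j, π ^ m ∣ Fg (e j) (A j) z)
    (hD : π ^ c ∣ (Matrix.of fun j l => Dg (e j) (A j) z (J l)).det)
    (hD' : ¬ π ^ (c + 1) ∣ (Matrix.of fun j l => Dg (e j) (A j) z (J l)).det) :
    ∃ t : V → R, (∀ v, (∀ l, J l ≠ v) → t v = 0) ∧ (∀ v, π ^ (m - c) ∣ t v) ∧
      ∀ j, π ^ (m + 1) ∣ Fg (e j) (A j) (fun v => z v + t v) := by
  set M : Matrix (Fin r) (Fin r) R := Matrix.of fun j l => Dg (e j) (A j) z (J l) with hM
  have hJ : Function.Injective J := by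
    intro a b hab
    by_contra hne
    apply hD'
    have : M.det = 0 := Matrix.det_zero_of_column_eq hne fun i => by
      rw [hM]
      simp only [Matrix.of_apply, hab]
    rw [this]
    exact dvd_zero _
  obtain ⟨u0, hu0⟩ := hD
  have hu0p : ¬ π ∣ u0 := by
    intro h
    apply hD'
    rw [hu0, pow_succ]
    exact mul_dvd_mul_left _ h
  obtain ⟨u', huq⟩ := (hR.unit u0 hu0p).exists_right_inv
  choose f hf using hF
  set s : Fin r → R := fun l => -u' * ∑ j, M.adjugate l j * f j with hs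
  have hMs : ∀ j, ∑ l, M j l * s l = -u' * (π ^ c * u0) * f j := by
    intro j
    have h1 : ∑ l, M j l * s l = -u' * (M.mulVec (M.adjugate.mulVec f)) j := by
      simp only [Matrix.mulVec, dotProduct, hs, Finset.mul_sum]
      refine Finset.sum_congr rfl fun l _ => ?_
      refine Finset.sum_congr rfl fun i _ => ?_
      ring
    rw [h1, Matrix.mulVec_mulVec, Matrix.mul_adjugate, Matrix.smul_mulVec, Matrix.one_mulVec,
      Pi.smul_apply, smul_eq_mul, hu0]
    ring
  have hmc : m - c + c = m := by omega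
  refine ⟨fun v => π ^ (m - c) * Function.extend J s 0 v, ?_, fun v => dvd_mul_right _ _, ?_⟩
  · intro v hv
    have : ¬ ∃ l, J l = v := fun ⟨l, hl⟩ => hv l hl
    show π ^ (m - c) * Function.extend J s 0 v = 0
    rw [Function.extend_apply' _ _ _ this]
    simp
  · intro j
    obtain ⟨R', hR'⟩ := Fg_add_smul (e j) (A j) z (Function.extend J s 0) (π ^ (m - c))
    have hsum : ∑ v, Dg (e j) (A j) z v * Function.extend J s 0 v = ∑ l, M j l * s l := by
      symm
      refine Fintype.sum_of_injective J hJ _ _ ?_ ?_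
      · intro v hv
        have hv' : ¬ ∃ l, J l = v := fun ⟨l, hl⟩ => hv ⟨l, hl⟩
        rw [Function.extend_apply' _ _ _ hv']
        simp
      · intro l
        rw [hJ.extend_apply]
        rfl
    rw [hsum, hMs] at hR'
    rw [hR', hf]
    have h1 : π ^ m * f j + π ^ (m - c) * (-u' * (π ^ c * u0) * f j) +
        (π ^ (m - c)) ^ 2 * R' = (π ^ (m - c)) ^ 2 * R' := by
      have h2 : π ^ m = π ^ (m - c) * π ^ c := by rw [← pow_add, hmc]
      rw [h2]
      linear_combination (-(π ^ (m - c) * π ^ c * f j)) * huq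
    rw [h1, ← pow_mul]
    exact (pow_dvd_pow _ (by omega)).mul_right _

/-- Hensel's lemma, exact valuation -/
private theorem hs_lift_R (hR : PR R π q L) (e : ∀ j, I j → V → ℕ) (A : ∀ j, I j → R) (c m : ℕ)
    (hm : 2 * c + 1 ≤ m) (z : V → R) (J : Fin r → V)
    (hF : ∀ j, π ^ m ∣ Fg (e j) (A j) z)
    (hD : π ^ c ∣ (Matrix.of fun j l => Dg (e j) (A j) z (J l)).det)
    (hD' : ¬ π ^ (c + 1) ∣ (Matrix.of fun j l => Dg (e j) (A j) z (J l)).det) (N : ℕ) :
    ∃ t : V → R, (∀ v, (∀ l, J l ≠ v) → t v = 0) ∧ (∀ v, π ^ (m - c) ∣ t v) ∧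
      ∀ j, π ^ (m + N) ∣ Fg (e j) (A j) (fun v => z v + t v) := by
  induction N with
  | zero => exact ⟨0, fun v _ => rfl, fun v => dvd_zero _, fun j => by simpa using hF j⟩
  | succ N ih =>
    obtain ⟨t, ht0, ht1, ht2⟩ := ih
    have hcong : π ^ (m - c) ∣
        (Matrix.of fun j l => Dg (e j) (A j) (fun v => z v + t v) (J l)).det -
        (Matrix.of fun j l => Dg (e j) (A j) z (J l)).det := by
      refine det_congr_R _ _ _ fun j l => ?_
      refine Dg_congr_R (e j) _ (A j) _ _ (J l) fun v => ?_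
      simpa using ht1 v
    have hc1 : π ^ (c + 1) ∣
        (Matrix.of fun j l => Dg (e j) (A j) (fun v => z v + t v) (J l)).det -
        (Matrix.of fun j l => Dg (e j) (A j) z (J l)).det :=
      (pow_dvd_pow _ (by omega)).trans hcong
    have hE : π ^ c ∣
        (Matrix.of fun j l => Dg (e j) (A j) (fun v => z v + t v) (J l)).det := by
      have h1 := dvd_add ((pow_dvd_pow π (Nat.le_succ c)).trans hc1) hD
      simpa using h1
    have hE' : ¬ π ^ (c + 1) ∣
        (Matrix.of fun j l => Dg (e j) (A j) (fun v => z v + t v) (J l)).det := by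
      intro h
      apply hD'
      have h1 := dvd_sub h hc1
      simpa using h1
    obtain ⟨t', ht'0, ht'1, ht'2⟩ := hs_step_R hR e A c (m + N) (by omega) (fun v => z v + t v) J
      ht2 hE hE'
    refine ⟨fun v => t v + t' v, fun v hv => ?_, fun v => ?_, fun j => ?_⟩
    · show t v + t' v = 0
      rw [ht0 v hv, ht'0 v hv, add_zero]
    · exact dvd_add (ht1 v) ((pow_dvd_pow _ (by omega)).trans (ht'1 v))
    · have h1 := ht'2 j
      have h2 : (fun v => z v + (t v + t' v)) = fun v => z v + t v + t' v := by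
        funext v
        ring
      show π ^ (m + (N + 1)) ∣ Fg (e j) (A j) (fun v => z v + (t v + t' v))
      rw [h2]
      exact h1

theorem hens_ring (hR : PR R π q L) (e : ∀ j, I j → V → ℕ) (A : ∀ j, I j → R) (c m m' : ℕ)
    (hm : 2 * c + 1 ≤ m) (hm' : m ≤ m') (hL : m' ≤ L) (z : V → R) (J : Fin r → V)
    (hF : ∀ j, π ^ m ∣ Fg (e j) (A j) z)
    (hD : ¬ π ^ (c + 1) ∣ (Matrix.of fun j l => Dg (e j) (A j) z (J l)).det) :
    ∃ t : V → R, (∀ v, (∀ l, J l ≠ v) → t v = 0) ∧ (∀ v, π ^ (m - c) ∣ t v) ∧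
      ∀ j, π ^ m' ∣ Fg (e j) (A j) (fun v => z v + t v) := by
  classical
  have hex : ∃ c', ¬ π ^ (c' + 1) ∣ (Matrix.of fun j l => Dg (e j) (A j) z (J l)).det :=
    ⟨c, hD⟩
  set c' := Nat.find hex with hc'
  have h1 := Nat.find_spec hex
  have h2 : c' ≤ c := Nat.find_min' hex hD
  have h3 : π ^ c' ∣ (Matrix.of fun j l => Dg (e j) (A j) z (J l)).det := by
    rcases Nat.eq_zero_or_pos c' with h | h
    · rw [h, pow_zero]
      exact one_dvd _
    · have := Nat.find_min hex (m := c' - 1) (by omega)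
      rw [not_not] at this
      rwa [show c' - 1 + 1 = c' by omega] at this
  obtain ⟨t, ht0, ht1, ht2⟩ := hs_lift_R hR e A c' m (by omega) z J hF h3 h1 (m' - m)
  rw [show m + (m' - m) = m' by omega] at ht2
  exact ⟨t, ht0, fun v => (pow_dvd_pow _ (by omega)).trans (ht1 v), ht2⟩

theorem hens_zeros_ring {k : ℕ} (hR : PR R π q (2 * k)) (e : ∀ j, I j → V → ℕ)
    (A : ∀ j, I j → R) (k1 : ℕ) (hk1 : 1 ≤ k1) (hk : k1 ≤ k) (z0 : V → R) (J : Fin r → V)
    (h0 : ∀ j, π ^ (2 * k1) ∣ Fg (e j) (A j) z0)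
    (h1 : ¬ π ^ k1 ∣ (Matrix.of fun j l => Dg (e j) (A j) z0 (J l)).det) :
    (q ^ (2 * k - 2 * k1)) ^ (Fintype.card V - r) ≤
      Set.ncard {z : V → R | (∀ v, π ∣ z v - z0 v) ∧ ∀ j, Fg (e j) (A j) z = 0} := by
  classical
  haveI : Finite R := hR.fin
  have hJ : Function.Injective J := by
    intro a b hab
    by_contra hne
    apply h1
    have : (Matrix.of fun j l => Dg (e j) (A j) z0 (J l)).det = 0 :=
      Matrix.det_zero_of_column_eq hne fun i => by simp only [Matrix.of_apply, hab]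
    rw [this]
    exact dvd_zero _
  set K := {v : V // ∀ l, J l ≠ v} with hK
  have hcardK : Fintype.card K = Fintype.card V - r := by
    have h2 : Fintype.card {v : V // ¬ ∃ l, J l = v} = Fintype.card V - Fintype.card {v : V // ∃ l, J l = v} :=
      Fintype.card_subtype_compl _
    have h3 : Fintype.card {v : V // ∃ l, J l = v} = r := by
      have e1 : {v : V // ∃ l, J l = v} ≃ Fin r :=
        (Equiv.ofInjective J hJ).symm
      rw [Fintype.card_congr e1, Fintype.card_fin]
    rw [h3] at h2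
    rw [← h2]
    exact Fintype.card_congr (Equiv.subtypeEquivRight fun v => by push Not; rfl)
  set X := {x : R // π ^ (2 * k1) ∣ x} with hX
  have hcardX : Nat.card X = q ^ (2 * k - 2 * k1) := by
    have := hR.card_dvd (2 * k1) (by omega)
    rw [← this]
    rfl
  have hlift : ∀ h : K → X, ∃ z : V → R, (∀ v, π ∣ z v - z0 v) ∧
      (∀ j, Fg (e j) (A j) z = 0) ∧ ∀ v : K, z v = z0 v + (h v : R) := by
    intro h
    set u : V → R := fun v => z0 v + (if hv : ∀ l, J l ≠ v then ((h ⟨v, hv⟩ : X) : R) else 0) with hu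
    have hu0 : ∀ v, π ^ (2 * k1) ∣ u v - z0 v := by
      intro v
      rw [hu]
      simp only [add_sub_cancel_left]
      split_ifs with hv
      · exact (h ⟨v, hv⟩).2
      · exact dvd_zero _
    have hFu : ∀ j, π ^ (2 * k1) ∣ Fg (e j) (A j) u := by
      intro j
      have h2 := Fg_congr_R (e j) (π ^ (2 * k1)) (A j) u z0 hu0
      have h3 := dvd_add h2 (h0 j)
      simpa using h3
    have hDu : ¬ π ^ (k1 - 1 + 1) ∣
        (Matrix.of fun j l => Dg (e j) (A j) u (J l)).det := by
      rw [show k1 - 1 + 1 = k1 by omega]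
      intro h2
      apply h1
      have h3 : π ^ (2 * k1) ∣ (Matrix.of fun j l => Dg (e j) (A j) u (J l)).det -
          (Matrix.of fun j l => Dg (e j) (A j) z0 (J l)).det :=
        det_congr_R _ _ _ fun j l => Dg_congr_R (e j) _ (A j) _ _ (J l) hu0
      have h4 := dvd_sub h2 ((pow_dvd_pow π (by omega : k1 ≤ 2 * k1)).trans h3)
      simpa using h4
    obtain ⟨t, ht0, ht1, ht2⟩ := hens_ring hR e A (k1 - 1) (2 * k1) (2 * k) (by omega) (by omega)
      le_rfl u J hFu hDu
    refine ⟨fun v => u v + t v, fun v => ?_, fun j => ?_, fun v => ?_⟩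
    · have h2 : π ∣ t v := (dvd_pow_self π (by omega)).trans (ht1 v)
      have h3 : π ∣ u v - z0 v := (dvd_pow_self π (by omega)).trans (hu0 v)
      have h4 := dvd_add h3 h2
      have h5 : u v - z0 v + t v = u v + t v - z0 v := by ring
      rw [h5] at h4
      exact h4
    · have h2 := ht2 j
      rw [hR.nil, zero_dvd_iff] at h2
      exact h2
    · have h3 : t v = 0 := ht0 v v.2
      show u v + t v = z0 v + (h v : R)
      rw [h3, add_zero, hu]
      simp only [dif_pos v.2]
      rfl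
  choose zz hz1 hz2 hz3 using hlift
  have hinj : Function.Injective zz := by
    intro h h' hh
    funext v
    have h2 := hz3 h v
    have h3 := hz3 h' v
    rw [← hh, h2] at h3
    exact Subtype.ext (add_left_cancel h3)
  have hcard : Nat.card (K → X) = (q ^ (2 * k - 2 * k1)) ^ (Fintype.card V - r) := by
    rw [Nat.card_fun, hcardX, Nat.card_eq_fintype_card, hcardK]
  rw [← hcard, ← Set.ncard_univ, ← Set.ncard_image_of_injective _ hinj]
  refine Set.ncard_le_ncard ?_ (Set.toFinite _)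
  rintro _ ⟨h, -, rfl⟩
  exact ⟨hz1 h, hz2 h⟩

end ring

section global
variable {K : Type} [Field K] [NumberField K]
variable {V : Type} [Fintype V] [DecidableEq V] {r : ℕ} {I : Fin r → Type} [∀ j, Fintype (I j)]

theorem hens_K (P : Ideal (𝓞 K)) (hP : P.IsMaximal) (e : ∀ j, I j → V → ℕ)
    (A : ∀ j, I j → 𝓞 K) (c m N : ℕ) (hm : 2 * c + 1 ≤ m) (z : V → 𝓞 K) (J : Fin r → V)
    (hF : ∀ j, Fg (e j) (A j) z ∈ P ^ m)
    (hD : (Matrix.of fun j l => Dg (e j) (A j) z (J l)).det ∉ P ^ (c + 1)) :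
    ∃ t : V → 𝓞 K, (∀ v, t v ∈ P ^ (m - c)) ∧
      ∀ j, Fg (e j) (A j) (fun v => z v + t v) ∈ P ^ (m + N) := by
  obtain ⟨π, hPR, hiff⟩ := exists_PR P hP (m + N) (by omega)
  set f : 𝓞 K →+* 𝓞 K ⧸ P ^ (m + N) := Ideal.Quotient.mk (P ^ (m + N)) with hf
  have h1 : ∀ j, π ^ m ∣ Fg (e j) (fun t => f (A j t)) (fun v => f (z v)) := by
    intro j
    rw [Fg_map]
    exact (hiff m (by omega) _).mpr (hF j)
  have h2 : ¬ π ^ (c + 1) ∣ (Matrix.of fun j l => Dg (e j) (fun t => f (A j t))
      (fun v => f (z v)) (J l)).det := by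
    intro h
    apply hD
    rw [← hiff (c + 1) (by omega)]
    have h3 : (Matrix.of fun j l => Dg (e j) (fun t => f (A j t))
        (fun v => f (z v)) (J l)) = f.mapMatrix (Matrix.of fun j l => Dg (e j) (A j) z (J l)) := by
      ext j l
      rw [RingHom.mapMatrix_apply, Matrix.map_apply, Matrix.of_apply, Matrix.of_apply, Dg_map]
    rw [h3, ← RingHom.map_det] at h
    exact h
  obtain ⟨t', -, ht1, ht2⟩ := hens_ring hPR e (fun j t => f (A j t)) c m (m + N) hm (by omega)
    le_rfl (fun v => f (z v)) J h1 h2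
  have h4 : ∀ v, ∃ y : 𝓞 K, f y = t' v := fun v => Ideal.Quotient.mk_surjective (t' v)
  choose t ht using h4
  refine ⟨t, fun v => ?_, fun j => ?_⟩
  · rw [← hiff (m - c) (by omega), ht]
    exact ht1 v
  · rw [← hiff (m + N) le_rfl, ← Fg_map]
    have h5 := ht2 j
    simp only [← ht, ← map_add] at h5
    exact h5

end global

end NKPHP
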