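import Pool.Agent.Lib.MP_e426f4_ag.NKP.RCond
import Pool.Agent.Lib.MP_e426f4_ag.NKP.RKernel
import Pool.Agent.Lib.MP_e426f4_ag.NKP.RHens

/-!
NKP-RExc2: systems over the finite ring with a nonsingular zero, but without a zero which is nonsingular with respect to block `i0`.

TEMPLATE: P/PadicExc2.lean (p_padic_exc2), word for word: (p : ℤ)^m ∣ . over ℤ is replaced by π^m ∣ . in R (L = 2 k), Z = all z : MVar n -> R
with every block having a unit, hens_zeros_sys by hens_zeros_ring, pcond_p by ring_cond (m = 2 k, level k'), lk_padic by left_kernel_ring (r * k' <= k <= L),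
pc_norm by ring_norm with representatives T modulo π^k' (exists_reps). No box and no H: the double counting is over PSys n d R (finite), and the bound is
B.card * (q^(2k-2k1))^(V-r) <= (q^(2k))^V * (r (q^k')^(r-1)) * (q^(2k))^NP / q^(2 k r + k' n_{i0}).
-/

set_option linter.unusedSectionVars false

namespace NKPHP

open GenHP NKHP Finset Filter Topology
open CIPHP (PSys NP PJac blk pev)

section multi
variable {ι : Type} [Fintype ι] [DecidableEq ι] {n : ι → ℕ} {r : ℕ} {d : Fin r → ι → ℕ}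

private theorem ry_card {R : Type} {α : Type} [Fintype α] [DecidableEq α] (T : Finset R) (o : R)
    (P : α → Prop) [DecidablePred P] :
    (Fintype.piFinset fun v : α => if P v then T else {o}).card = T.card ^ (univ.filter P).card := by
  rw [Fintype.card_piFinset]
  have h1 : ∀ v : α, (if P v then T else {o}).card = if P v then T.card else 1 := by
    intro v
    split_ifs <;> simp
  rw [Finset.prod_congr rfl fun v _ => h1 v, Finset.prod_ite, Finset.prod_const_one, mul_one,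
    Finset.prod_const]

private theorem ry_card_ne {r : ℕ} (j0 : Fin r) :
    (univ.filter fun j : Fin r => j ≠ j0).card = r - 1 := by
  rw [Finset.filter_ne', Finset.card_erase_of_mem (Finset.mem_univ _), Finset.card_univ,
    Fintype.card_fin]

theorem ring_exc2 (hr : 1 ≤ r) (hd : ∀ j i, 1 ≤ d j i) (i0 : ι) (hn0 : r ≤ n i0) (q k1 : ℕ)
    (hq : 2 ≤ q) (hk1 : 1 ≤ k1) (eps : ℝ) (he : 0 < eps) :
    ∃ k0 : ℕ, 1 ≤ k0 ∧ ∀ k : ℕ, k0 ≤ k → ∀ (R : Type) [CommRing R] (π : R), PR R π q (2 * k) →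
      (Set.ncard {A : PSys n d R |
        (∃ z : MVar n → R, (∀ i, ∃ a, IsUnit (z ⟨i, a⟩)) ∧ (∀ j, π ^ (2 * k1) ∣ MF (A j) z) ∧
          ∃ J : Fin r → MVar n, ¬ π ^ k1 ∣ (PJac A z J).det) ∧
        ¬ ∃ z : MVar n → R, (∀ i, ∃ a, IsUnit (z ⟨i, a⟩)) ∧ (∀ j, MF (A j) z = 0) ∧
          ∃ J : Fin r → Fin (n i0 + 1), ¬ π ^ k ∣ (PJac A z (blk i0 J)).det} : ℝ) ≤
        eps * ((q : ℝ) ^ (2 * k)) ^ NP n d := by
  classical
  have hqR : (0 : ℝ) < q := by exact_mod_cast (lt_of_lt_of_le two_pos hq)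
  have hqR1 : (1 : ℝ) < q := by exact_mod_cast (lt_of_lt_of_le one_lt_two hq)
  have hrR : (0 : ℝ) < r := by exact_mod_cast hr
  set V := Fintype.card (MVar n) with hV
  have hV1 : r ≤ V := by
    have h1 : Fintype.card (Fin (n i0 + 1)) ≤ Fintype.card (MVar n) :=
      Fintype.card_le_of_injective (fun a => (⟨i0, a⟩ : MVar n)) fun a b hab => by simpa using hab
    rw [Fintype.card_fin] at h1
    omega
  set D := 2 * k1 * (V - r) with hD
  -- the choice of `k0`
  obtain ⟨k2, hk2⟩ : ∃ k2 : ℕ, ∀ k : ℕ, k2 ≤ k → r * (q : ℝ) ^ D ≤ eps * (q : ℝ) ^ k := by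
    have h1 : Tendsto (fun k : ℕ => eps * (q : ℝ) ^ k) atTop atTop :=
      (tendsto_pow_atTop_atTop_of_one_lt hqR1).const_mul_atTop he
    have h2 := h1.eventually_ge_atTop (r * (q : ℝ) ^ D)
    exact Filter.eventually_atTop.mp h2
  refine ⟨max k1 (r * (k2 + 1)), hk1.trans (le_max_left _ _), fun k hk R _ π hR => ?_⟩
  have hkk1 : k1 ≤ k := (le_max_left _ _).trans hk
  have hkk2 : r * (k2 + 1) ≤ k := (le_max_right _ _).trans hk
  obtain ⟨k', hk'1, hk'2⟩ : ∃ k' : ℕ, k2 + 1 ≤ k' ∧ r * k' ≤ k :=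
    ⟨k / r, (Nat.le_div_iff_mul_le hr).mpr (by rw [mul_comm]; exact hkk2), Nat.mul_div_le k r⟩
  have hk'k : k' ≤ 2 * k := by
    have : k' ≤ r * k' := Nat.le_mul_of_pos_left _ hr
    omega
  have : Finite R := hR.fin
  have : Fintype R := Fintype.ofFinite R
  obtain ⟨hfinS, -⟩ := card_PSys_ring (n := n) (d := d) hR
  have hcardR : Fintype.card R = q ^ (2 * k) := by
    rw [← Nat.card_eq_fintype_card]
    exact hR.card_eq
  obtain ⟨T, hTcard, hT1, -, hT1'⟩ := hR.exists_reps k' hk'k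
  set S : Set (PSys n d R) := {A : PSys n d R |
        (∃ z : MVar n → R, (∀ i, ∃ a, IsUnit (z ⟨i, a⟩)) ∧ (∀ j, π ^ (2 * k1) ∣ MF (A j) z) ∧
          ∃ J : Fin r → MVar n, ¬ π ^ k1 ∣ (PJac A z J).det) ∧
        ¬ ∃ z : MVar n → R, (∀ i, ∃ a, IsUnit (z ⟨i, a⟩)) ∧ (∀ j, MF (A j) z = 0) ∧
          ∃ J : Fin r → Fin (n i0 + 1), ¬ π ^ k ∣ (PJac A z (blk i0 J)).det} with hS
  set B : Finset (PSys n d R) := (Set.toFinite S).toFinset with hB
  have hset : S = (B : Set (PSys n d R)) := by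
    rw [hB, Set.Finite.coe_toFinset]
  have hBmem : ∀ A, A ∈ B ↔ A ∈ S := by
    intro A
    rw [← Finset.mem_coe, ← hset]
  rw [hset, Set.ncard_coe_finset]
  set Z : Finset (MVar n → R) := (Finset.univ : Finset (MVar n → R)).filter
    fun z => ∀ i, ∃ a, IsUnit (z ⟨i, a⟩) with hZ
  have hZcard : (Z.card : ℝ) ≤ ((q : ℝ) ^ (2 * k)) ^ V := by
    have h1 : Z.card ≤ (q ^ (2 * k)) ^ V := by
      refine (Finset.card_filter_le _ _).trans ?_
      rw [Finset.card_univ, Fintype.card_fun, hcardR]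
    exact_mod_cast h1
  set rel : PSys n d R → (MVar n → R) → Prop := fun A z => ∀ j, MF (A j) z = 0
    with hrel
  -- many zeros for each bad system
  have habove : ∀ A ∈ B, (q ^ (2 * k - 2 * k1)) ^ (V - r) ≤ (Z.bipartiteAbove rel A).card := by
    intro A hA
    rw [hBmem] at hA
    obtain ⟨⟨z0, hz0, hF0, J, hJ⟩, -⟩ := hA
    have h1 := hens_zeros_ring (V := MVar n) (I := fun j => MIdx n (d j)) hR (fun j => mex) A k1
      hk1 hkk1 z0 J hF0 hJ
    refine h1.trans ?_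
    rw [← Set.ncard_coe_finset]
    refine Set.ncard_le_ncard ?_ (Finset.finite_toSet _)
    rintro z ⟨hz2, hz3⟩
    rw [Finset.mem_coe, Finset.mem_bipartiteAbove, hZ, Finset.mem_filter]
    refine ⟨⟨Finset.mem_univ _, fun i => ?_⟩, hz3⟩
    obtain ⟨a, ha⟩ := hz0 i
    refine ⟨a, ?_⟩
    rw [hR.isUnit_iff]
    intro h2
    refine hR.not_dvd_of_isUnit ha ?_
    have h3 := dvd_sub h2 (hz2 ⟨i, a⟩)
    simpa using h3
  set Y : Fin r → Finset (Fin r → R) := fun j0 =>
    Fintype.piFinset fun j => if j ≠ j0 then T else {1} with hY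
  have hYcard : ∀ j0, (Y j0).card = (q ^ k') ^ (r - 1) := fun j0 => by
    rw [← ry_card_ne j0, hY, ← hTcard]
    exact ry_card (α := Fin r) T 1 (fun j => j ≠ j0)
  set W : Finset (Σ _ : Fin r, (Fin r → R)) := univ.sigma fun j0 => Y j0 with hW
  have hWcard : W.card = r * (q ^ k') ^ (r - 1) := by
    rw [hW, Finset.card_sigma, Finset.sum_congr rfl fun j _ => hYcard j, Finset.sum_const,
      Finset.card_univ, Fintype.card_fin, smul_eq_mul]
  -- few systems for each point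
  have hbelow : ∀ z ∈ Z, ((B.bipartiteBelow rel z).card : ℝ) ≤
      r * ((q : ℝ) ^ k') ^ (r - 1) *
        (((q : ℝ) ^ (2 * k)) ^ NP n d / (q : ℝ) ^ (2 * k * r + k' * n i0)) := by
    intro z hz
    rw [hZ, Finset.mem_filter] at hz
    have hz2 := hz.2
    choose τ hτ using hz2
    set U : Finset (MVar n) := (univ.erase (τ i0)).image fun a => (⟨i0, a⟩ : MVar n) with hU
    have hUcard : U.card = n i0 := by
      rw [hU, Finset.card_image_of_injective _ (fun a b hab => by simpa using hab),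
        Finset.card_erase_of_mem (Finset.mem_univ _), Finset.card_univ, Fintype.card_fin]
      omega
    set E : (Σ _ : Fin r, (Fin r → R)) → Set (PSys n d R) := fun x =>
      {A | (∀ j, π ^ (2 * k) ∣ MF (A j) z) ∧ ∀ v ∈ U, π ^ k' ∣ ∑ j, x.2 j * MD (A j) z v} with hE
    have hEfin : ∀ x, (E x).Finite := fun x => Set.toFinite _
    have hEcard : ∀ x ∈ W, (Set.ncard (E x) : ℝ) ≤
        ((q : ℝ) ^ (2 * k)) ^ NP n d / (q : ℝ) ^ (2 * k * r + k' * n i0) := by
      rintro ⟨j0, b⟩ hx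
      rw [hW, Finset.mem_sigma] at hx
      have hb := hx.2
      rw [hY] at hb
      simp only at hb
      rw [Fintype.mem_piFinset] at hb
      have hb1 := hb j0
      simp only [ne_eq, not_true_eq_false, if_false, Finset.mem_singleton] at hb1
      have h1 := ring_cond hR hd τ z hτ b j0 (by rw [hb1]; exact isUnit_one) (2 * k) k' le_rfl hk'k
        U (by
        intro v hv
        rw [hU, Finset.mem_image] at hv
        obtain ⟨a, ha, rfl⟩ := hv
        exact (Finset.mem_erase.mp ha).1)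
      rw [hUcard] at h1
      rw [le_div_iff₀ (by positivity)]
      exact_mod_cast h1
    have hcov : ((B.bipartiteBelow rel z : Finset (PSys n d R)) : Set (PSys n d R)) ⊆
        ⋃ x ∈ W, E x := by
      intro A hA
      rw [Finset.mem_coe, Finset.mem_bipartiteBelow, hBmem] at hA
      obtain ⟨⟨-, hA2⟩, hA3⟩ := hA
      have hdet : ∀ J : Fin r → Fin (n i0 + 1), π ^ (r * k') ∣
          (Matrix.of fun (j : Fin r) l => MD (A j) z ⟨i0, J l⟩).det := by
        intro J
        refine (pow_dvd_pow _ hk'2).trans ?_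
        by_contra h3
        exact hA2 ⟨z, hz.2, hA3, J, h3⟩
      obtain ⟨c, ⟨j0, hj0⟩, hc⟩ := left_kernel_ring hR (V := Fin (n i0 + 1)) hr
        (fun j a => MD (A j) z ⟨i0, a⟩) k' (by omega) hdet
      obtain ⟨b, hb1, hb2, hb3⟩ := ring_norm hR _ k' hk'k T hT1 c j0 hj0 hc
      refine Set.mem_iUnion₂.mpr ⟨⟨j0, b⟩, ?_, fun j => ?_, fun v hv => ?_⟩
      · rw [hW, Finset.mem_sigma]
        refine ⟨Finset.mem_univ _, ?_⟩
        rw [hY]
        simp only
        rw [Fintype.mem_piFinset]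
        intro j
        split_ifs with h1
        · exact hb2 j h1
        · rw [Finset.mem_singleton]
          push Not at h1
          rw [h1]
          exact hb1
      · rw [hA3 j]
        exact dvd_zero _
      · rw [hU, Finset.mem_image] at hv
        obtain ⟨a, -, rfl⟩ := hv
        exact hb3 a
    have h2 : ((B.bipartiteBelow rel z).card : ℝ) ≤ ∑ x ∈ W, (Set.ncard (E x) : ℝ) := by
      have h3 := Set.ncard_le_ncard hcov
        (Set.Finite.biUnion W.finite_toSet fun x _ => hEfin x)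
      rw [Set.ncard_coe_finset] at h3
      have h4 := Finset.set_ncard_biUnion_le W fun x => E x
      exact_mod_cast h3.trans h4
    refine h2.trans ((Finset.sum_le_sum hEcard).trans ?_)
    rw [Finset.sum_const, nsmul_eq_mul, hWcard]
    push_cast
    exact le_rfl
  have hdc := Finset.sum_card_bipartiteAbove_eq_sum_card_bipartiteBelow (s := B) (t := Z) rel
  set N : ℝ := ((q : ℝ) ^ (2 * k)) ^ NP n d with hN
  have hN0 : 0 < N := by rw [hN]; positivity
  have h1 : (B.card : ℝ) * ((q : ℝ) ^ (2 * k - 2 * k1)) ^ (V - r) ≤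
      ((q : ℝ) ^ (2 * k)) ^ V * (r * ((q : ℝ) ^ k') ^ (r - 1) *
        (N / (q : ℝ) ^ (2 * k * r + k' * n i0))) := by
    calc (B.card : ℝ) * ((q : ℝ) ^ (2 * k - 2 * k1)) ^ (V - r)
        = ∑ A ∈ B, ((q : ℝ) ^ (2 * k - 2 * k1)) ^ (V - r) := by
          rw [Finset.sum_const, nsmul_eq_mul]
      _ ≤ ∑ A ∈ B, ((Z.bipartiteAbove rel A).card : ℝ) := by
          refine Finset.sum_le_sum fun A hA => ?_
          exact_mod_cast habove A hA
      _ = ∑ z ∈ Z, ((B.bipartiteBelow rel z).card : ℝ) := by exact_mod_cast hdc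
      _ ≤ ∑ z ∈ Z, (r * ((q : ℝ) ^ k') ^ (r - 1) *
            (N / (q : ℝ) ^ (2 * k * r + k' * n i0))) :=
          Finset.sum_le_sum hbelow
      _ = Z.card * (r * ((q : ℝ) ^ k') ^ (r - 1) *
            (N / (q : ℝ) ^ (2 * k * r + k' * n i0))) := by
          rw [Finset.sum_const, nsmul_eq_mul]
      _ ≤ _ := by gcongr
  have h2 : ((q : ℝ) ^ (2 * k)) ^ V =
      ((q : ℝ) ^ (2 * k - 2 * k1)) ^ (V - r) * (q : ℝ) ^ D * (q : ℝ) ^ (2 * k * r) := by
    rw [← pow_mul, ← pow_mul, ← pow_add, ← pow_add]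
    congr 1
    rw [hD]
    obtain ⟨W', hW'⟩ : ∃ W', V = W' + r := ⟨V - r, by omega⟩
    obtain ⟨j, hj⟩ : ∃ j, k = k1 + j := ⟨k - k1, by omega⟩
    rw [hW', hj]
    have : 2 * (k1 + j) - 2 * k1 = 2 * j := by omega
    rw [this, Nat.add_sub_cancel]
    ring
  have h3 : (q : ℝ) ^ (2 * k * r + k' * n i0) = (q : ℝ) ^ (k' * n i0) * (q : ℝ) ^ (2 * k * r) := by
    rw [← pow_add]; congr 1; ring
  have hq1 : (0 : ℝ) < ((q : ℝ) ^ (2 * k - 2 * k1)) ^ (V - r) := by positivity
  have hq2 : (0 : ℝ) < (q : ℝ) ^ (2 * k * r) := by positivity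
  have hq3 : (0 : ℝ) < (q : ℝ) ^ (k' * n i0) := by positivity
  have h4 : ((q : ℝ) ^ (2 * k)) ^ V * (r * ((q : ℝ) ^ k') ^ (r - 1) *
        (N / (q : ℝ) ^ (2 * k * r + k' * n i0))) =
      (r * (q : ℝ) ^ D * ((q : ℝ) ^ k') ^ (r - 1) / (q : ℝ) ^ (k' * n i0) *
        N) * ((q : ℝ) ^ (2 * k - 2 * k1)) ^ (V - r) := by
    rw [h2, h3]
    field_simp
  rw [h4] at h1
  have h5 := le_of_mul_le_mul_right h1 hq1
  refine h5.trans ?_
  have h6 : r * (q : ℝ) ^ D * ((q : ℝ) ^ k') ^ (r - 1) / (q : ℝ) ^ (k' * n i0) ≤ eps := by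
    rw [div_le_iff₀ hq3]
    have h7 : (q : ℝ) ^ k' * ((q : ℝ) ^ k') ^ (r - 1) ≤ (q : ℝ) ^ (k' * n i0) := by
      rw [← pow_succ', ← pow_mul]
      refine pow_le_pow_right₀ hqR1.le (Nat.mul_le_mul_left _ (by omega))
    calc r * (q : ℝ) ^ D * ((q : ℝ) ^ k') ^ (r - 1)
        ≤ (eps * (q : ℝ) ^ k') * ((q : ℝ) ^ k') ^ (r - 1) := by
          have := hk2 k' (by omega)
          gcongr
      _ = eps * ((q : ℝ) ^ k' * ((q : ℝ) ^ k') ^ (r - 1)) := by ring
      _ ≤ eps * (q : ℝ) ^ (k' * n i0) := by gcongr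
  gcongr

end multi

end NKPHP
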