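import Pool.Agent.Lib.MP_e426f4_ag.NKP.Box
import Pool.Agent.Lib.MP_e426f4_ag.NKP.RExc1
import Pool.Agent.Lib.MP_e426f4_ag.NKP.RExc2

/-!
NKP-PadicExc: systems without a good point at a prime are few.

TEMPLATES: P/PadicExc.lean (combination of the two parts) and the end of N/PadicExc.lean (transfer to the ring by box_classes).

PROOF. q = absNorm P. Choose k' with r ∏ (n i + 1) * 2 / q^k' <= eps / 2 (ring_exc1), k1 = r * k' (>= 1), then k0 from ring_exc2 (q, k1, eps / 4), k0 := max.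
Let A ∈ box with PLocP P A and not PGoodPK i0 P k A. If there is z with BUnitK P z, MF (A j) z ∈ P^(r k') (j), and all minors
det ∈ P^(r k'): A mod P^(r k') lies in the set of ring_exc1 (level r k'; MF ∈ P^(rk') ⊂ P^k'). Otherwise take z from PLocP with L = 2 k1 >= r k': some minor
det ∉ P^(k1) , MF ∈ P^(2 k1), so A mod P^(2k) lies in the set of ring_exc2 (k >= k1; not PGoodPK says that no z over 𝓞 K, hence none over the quotient
(lift), has MF = 0 in R and det ∉ π^k). Dictionary: exists_PR (x ∈ P^m <-> π^m ∣ mk x), MF_map, PJac_map (P/Alg), z ∉ P <-> mk z unit (PR.isUnit_iff, m = 1).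
boxP_classes for b = P^(r k') and b = P^(2 k): absNorm (P^L) = q^L (map_pow).
-/

set_option linter.unusedSectionVars false

namespace NKPHP

open NumberField GenHP NFHP NKHP Finset Filter Topology
open CIPHP (PSys NP PJac blk pev)

section multi
variable {K : Type} [Field K] [NumberField K] {ι : Type} [Fintype ι] [DecidableEq ι] {n : ι → ℕ}
  {r : ℕ} {d : Fin r → ι → ℕ}

private theorem py_unit {P : Ideal (𝓞 K)} {L q : ℕ} (hL : 1 ≤ L) {π : 𝓞 K ⧸ P ^ L}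
    (hR : PR (𝓞 K ⧸ P ^ L) π q L)
    (hdic : ∀ m : ℕ, m ≤ L → ∀ x : 𝓞 K, π ^ m ∣ Ideal.Quotient.mk (P ^ L) x ↔ x ∈ P ^ m)
    (x : 𝓞 K) : IsUnit (Ideal.Quotient.mk (P ^ L) x) ↔ x ∉ P := by
  have h := hdic 1 hL x
  rw [pow_one, pow_one] at h
  rw [hR.isUnit_iff, h]

theorem padic_exc (hr : 1 ≤ r) (hd : ∀ j i, 1 ≤ d j i) (i0 : ι) (hn0 : r ≤ n i0)
    (P : Ideal (𝓞 K)) (hP : P.IsMaximal) (eps : ℝ) (he : 0 < eps) :
    ∃ k0 : ℕ, ∀ k : ℕ, k0 ≤ k → ∀ᶠ H : ℕ in atTop,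
      (Set.ncard {A : PSys n d (𝓞 K) | A ∈ BoxP K n d H ∧ PLocP P A ∧ ¬ PGoodPK i0 P k A} : ℝ) ≤
        eps * (2 * H + 1) ^ (mK K * NP n d) := by
  classical
  have hP0 : P ≠ ⊥ := Ring.ne_bot_of_isMaximal_of_not_isField hP (RingOfIntegers.not_isField K)
  have hbne : ∀ a : ℕ, P ^ a ≠ ⊥ := by
    intro a
    rw [← Ideal.zero_eq_bot] at hP0 ⊢
    exact pow_ne_zero _ hP0
  obtain ⟨q, hqdef⟩ : ∃ q : ℕ, q = Ideal.absNorm P := ⟨_, rfl⟩
  have hq2 : 2 ≤ q := by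
    obtain ⟨π, hR, -⟩ := exists_PR P hP 1 le_rfl
    rw [hqdef]
    exact hR.q_two
  have hqR1 : (1 : ℝ) < q := by exact_mod_cast (lt_of_lt_of_le one_lt_two hq2)
  have hqR : (0 : ℝ) < q := zero_lt_one.trans hqR1
  obtain ⟨C, hC⟩ : ∃ C : ℕ, C = r * Fintype.card (∀ i, Fin (n i + 1)) := ⟨_, rfl⟩
  -- the choice of `ka`
  obtain ⟨ka, hka, hka'⟩ : ∃ ka : ℕ, 1 ≤ ka ∧ 2 * (C : ℝ) ≤ eps / 2 * (q : ℝ) ^ ka := by
    have h1 : Tendsto (fun k : ℕ => eps / 2 * (q : ℝ) ^ k) atTop atTop :=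
      (tendsto_pow_atTop_atTop_of_one_lt hqR1).const_mul_atTop (by positivity)
    obtain ⟨k, hk1, hk2⟩ :=
      ((h1.eventually_ge_atTop (2 * (C : ℝ))).and (eventually_ge_atTop 1)).exists
    exact ⟨k, hk2, hk1⟩
  obtain ⟨k1, hk1⟩ : ∃ k1 : ℕ, k1 = r * ka := ⟨_, rfl⟩
  have hk1' : 1 ≤ k1 := by
    rw [hk1]
    exact Nat.mul_pos hr hka
  have hkak1 : ka ≤ k1 := by
    rw [hk1]
    exact Nat.le_mul_of_pos_left _ hr
  obtain ⟨k2, hk2, hk2'⟩ := ring_exc2 (n := n) (d := d) hr hd i0 hn0 q k1 hq2 hk1' (eps / 4)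
    (by positivity)
  refine ⟨max k1 k2, fun k hk => ?_⟩
  have hkk1 : k1 ≤ k := (le_max_left _ _).trans hk
  have hkk2 : k2 ≤ k := (le_max_right _ _).trans hk
  obtain ⟨π1, hR1, hdic1⟩ := exists_PR P hP (r * ka) (by omega)
  obtain ⟨π2, hR2, hdic2⟩ := exists_PR P hP (2 * k) (by omega)
  rw [← hqdef] at hR1 hR2
  have hc1 := ring_exc1 (n := n) (d := d) hr hd hka hR1
  have hc2 := hk2' k hkk2 (𝓞 K ⧸ P ^ (2 * k)) π2 hR2
  set S1 : Set (PSys n d (𝓞 K ⧸ P ^ (r * ka))) := {A | ∃ z : MVar n → 𝓞 K ⧸ P ^ (r * ka),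
    (∀ i, ∃ a, IsUnit (z ⟨i, a⟩)) ∧ (∀ j, π1 ^ ka ∣ MF (A j) z) ∧
      ∀ J : Fin r → MVar n, (PJac A z J).det = 0} with hS1
  set S2 : Set (PSys n d (𝓞 K ⧸ P ^ (2 * k))) := {A |
        (∃ z : MVar n → 𝓞 K ⧸ P ^ (2 * k), (∀ i, ∃ a, IsUnit (z ⟨i, a⟩)) ∧
          (∀ j, π2 ^ (2 * k1) ∣ MF (A j) z) ∧
          ∃ J : Fin r → MVar n, ¬ π2 ^ k1 ∣ (PJac A z J).det) ∧
        ¬ ∃ z : MVar n → 𝓞 K ⧸ P ^ (2 * k), (∀ i, ∃ a, IsUnit (z ⟨i, a⟩)) ∧
          (∀ j, MF (A j) z = 0) ∧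
          ∃ J : Fin r → Fin (n i0 + 1), ¬ π2 ^ k ∣ (PJac A z (blk i0 J)).det} with hS2
  filter_upwards [boxP_classes (P ^ (r * ka)) (hbne _) S1, boxP_classes (P ^ (2 * k)) (hbne _) S2]
    with H h1 h2
  set X1 : Set (PSys n d (𝓞 K)) := {A | A ∈ BoxP K n d H ∧
    (fun j t => Ideal.Quotient.mk (P ^ (r * ka)) (A j t)) ∈ S1} with hX1
  set X2 : Set (PSys n d (𝓞 K)) := {A | A ∈ BoxP K n d H ∧
    (fun j t => Ideal.Quotient.mk (P ^ (2 * k)) (A j t)) ∈ S2} with hX2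
  have hsub : {A : PSys n d (𝓞 K) | A ∈ BoxP K n d H ∧ PLocP P A ∧ ¬ PGoodPK i0 P k A} ⊆
      X1 ∪ X2 := by
    rintro A ⟨hA, hloc, hgood⟩
    obtain ⟨z, hz, hF⟩ := hloc (2 * k)
    by_cases hD : ∀ J : Fin r → MVar n, (PJac A z J).det ∈ P ^ (r * ka)
    · refine Or.inl ⟨hA, fun v => Ideal.Quotient.mk (P ^ (r * ka)) (z v), fun i => ?_,
        fun j => ?_, fun J => ?_⟩
      · obtain ⟨a, ha⟩ := hz i
        exact ⟨a, (py_unit (by omega) hR1 hdic1 _).mpr ha⟩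
      · rw [MF_map, hdic1 ka (by omega)]
        exact Ideal.pow_le_pow_right (by omega) (hF j)
      · rw [CIPHP.PJac_map, Ideal.Quotient.eq_zero_iff_mem]
        exact hD J
    · push Not at hD
      obtain ⟨J, hJ⟩ := hD
      refine Or.inr ⟨hA, ⟨fun v => Ideal.Quotient.mk (P ^ (2 * k)) (z v), fun i => ?_,
        fun j => ?_, J, ?_⟩, ?_⟩
      · obtain ⟨a, ha⟩ := hz i
        exact ⟨a, (py_unit (by omega) hR2 hdic2 _).mpr ha⟩
      · rw [MF_map, hdic2 (2 * k1) (by omega)]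
        exact Ideal.pow_le_pow_right (by omega) (hF j)
      · rw [CIPHP.PJac_map, hdic2 k1 (by omega), hk1]
        exact hJ
      · rintro ⟨w, hw1, hw2, J', hJ'⟩
        choose z' hz' using fun v => Ideal.Quotient.mk_surjective (w v)
        have hw : w = fun v => Ideal.Quotient.mk (P ^ (2 * k)) (z' v) :=
          funext fun v => (hz' v).symm
        apply hgood
        refine ⟨z', fun i => ?_, fun j => ?_, J', ?_⟩
        · obtain ⟨a, ha⟩ := hw1 i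
          refine ⟨a, (py_unit (by omega) hR2 hdic2 _).mp ?_⟩
          rw [hz']
          exact ha
        · have h3 := hw2 j
          rw [hw, MF_map, Ideal.Quotient.eq_zero_iff_mem] at h3
          exact h3
        · rw [hw, CIPHP.PJac_map, hdic2 k (by omega)] at hJ'
          exact hJ'
  have hf1 : X1.Finite := boxP_finite H fun A =>
    (fun j t => Ideal.Quotient.mk (P ^ (r * ka)) (A j t)) ∈ S1
  have hf2 : X2.Finite := boxP_finite H fun A =>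
    (fun j t => Ideal.Quotient.mk (P ^ (2 * k)) (A j t)) ∈ S2
  have h3 := (Set.ncard_le_ncard hsub (hf1.union hf2)).trans (Set.ncard_union_le X1 X2)
  have h4 : (Set.ncard {A : PSys n d (𝓞 K) | A ∈ BoxP K n d H ∧ PLocP P A ∧
      ¬ PGoodPK i0 P k A} : ℝ) ≤ (X1.ncard : ℝ) + X2.ncard := by exact_mod_cast h3
  refine h4.trans ((add_le_add h1 h2).trans ?_)
  rw [← add_mul]
  refine mul_le_mul_of_nonneg_right ?_ (by positivity)
  rw [map_pow, map_pow, ← hqdef]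
  have e1 : 2 * (S1.ncard : ℝ) / ((q ^ (r * ka) : ℕ) : ℝ) ^ NP n d ≤ eps / 2 := by
    rw [div_le_iff₀ (by positivity)]
    have h5 : (S1.ncard : ℝ) * (q : ℝ) ^ ka ≤ C * ((q : ℝ) ^ (r * ka)) ^ NP n d := by
      rw [hC]
      exact_mod_cast hc1
    push_cast
    have h6 : (0 : ℝ) < (q : ℝ) ^ ka := by positivity
    have h7 : 2 * (S1.ncard : ℝ) * (q : ℝ) ^ ka ≤
        eps / 2 * ((q : ℝ) ^ (r * ka)) ^ NP n d * (q : ℝ) ^ ka := by
      calc 2 * (S1.ncard : ℝ) * (q : ℝ) ^ ka = 2 * ((S1.ncard : ℝ) * (q : ℝ) ^ ka) := by ring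
        _ ≤ 2 * (C * ((q : ℝ) ^ (r * ka)) ^ NP n d) := by gcongr
        _ = (2 * (C : ℝ)) * ((q : ℝ) ^ (r * ka)) ^ NP n d := by ring
        _ ≤ (eps / 2 * (q : ℝ) ^ ka) * ((q : ℝ) ^ (r * ka)) ^ NP n d := by gcongr
        _ = _ := by ring
    exact le_of_mul_le_mul_right h7 h6
  have e2 : 2 * (S2.ncard : ℝ) / ((q ^ (2 * k) : ℕ) : ℝ) ^ NP n d ≤ eps / 2 := by
    rw [div_le_iff₀ (by positivity)]
    push_cast
    linarith
  linarith

end multi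

end NKPHP
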