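import Pool.Agent.Lib.MP_e426f4_ag.NKP.Basic
import Pool.Agent.Lib.MP_e426f4_ag.NKP.PadicExc
import Pool.Agent.Lib.MP_e426f4_ag.NKP.InfExc
import Pool.Agent.Lib.MP_e426f4_ag.N.Ideals
import Pool.Agent.Lib.MP_e426f4_ag.N.Sg
import Pool.Agent.Lib.MP_e426f4_ag.P.Alg

/-!
NKP-Global: from classes to all systems.
-/

namespace NKPHP

open NumberField GenHP NFHP NKHP Finset Filter Topology
open CIPHP (PSys NP PJac blk pev PJac_smul)

variable {K : Type} [Field K] [NumberField K] {ι : Type} [Fintype ι] [DecidableEq ι] {n : ι → ℕ}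
  {r : ℕ} {d : Fin r → ι → ℕ}

/-- the centre of the cell `a` -/
private noncomputable def glC (R : ℕ) (a : ∀ i : Fin r, MIdx n (d i) → IK K → Fin R) :
    PSys n d (IK K → ℝ) :=
  fun i t j => -1 + (2 * (a i t j : ℝ) + 1) / R

/-- the nonsoluble systems of a class -/
private def glS (R Q : ℕ) (a : ∀ i : Fin r, MIdx n (d i) → IK K → Fin R)
    (b : ∀ i : Fin r, MIdx n (d i) → IK K → Fin Q) (H : ℕ) : Set (PSys n d (𝓞 K)) :=
  {A | (∀ i t j, |(crd (A i t) j : ℝ) - H * glC R a i t j| ≤ 1 / R * H) ∧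
    (∀ i t j, (Q : ℤ) ∣ crd (A i t) j - ((b i t j : ℕ) : ℤ)) ∧ ¬ PSolubleK A}

/-- the class has a witness -/
private def glW (i0 : ι) (w k R Q : ℕ) (th bet : ℝ) (a : ∀ i : Fin r, MIdx n (d i) → IK K → Fin R)
    (b : ∀ i : Fin r, MIdx n (d i) → IK K → Fin Q) : Prop :=
  ∃ (H : ℕ) (A : PSys n d (𝓞 K)), 1 ≤ H ∧ A ∈ BoxP K n d H ∧
    (∀ i t j, |(crd (A i t) j : ℝ) - H * glC R a i t j| ≤ 1 / R * H) ∧
    (∀ i t j, (Q : ℤ) ∣ crd (A i t) j - ((b i t j : ℕ) : ℤ)) ∧
    (∀ w', PGoodIK i0 w' (th * H) ((bet * H) ^ r) (sgP w' A)) ∧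
    (∀ P : Ideal (𝓞 K), P.IsMaximal → (primorial w : 𝓞 K) ∈ P →
        PGoodPK i0 P (k * vW (primorial w) P) A)

private theorem gl_cell (H R : ℕ) (hH : 1 ≤ H) (hR : 1 ≤ R) (z : ℝ) (hz : |z| ≤ H) :
    ∃ a : Fin R, |z - H * (-1 + (2 * (a : ℝ) + 1) / R)| ≤ 1 / R * H := by
  have hH0 : (0 : ℝ) < H := by exact_mod_cast hH
  have hR0 : (0 : ℝ) < R := by exact_mod_cast hR
  rw [abs_le] at hz
  set t : ℝ := (z / H + 1) * R / 2 with ht
  have ht0 : 0 ≤ t := by
    have : -1 ≤ z / H := by rw [le_div_iff₀ hH0]; linarith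
    rw [ht]
    have : 0 ≤ z / H + 1 := by linarith
    positivity
  have ht1 : t ≤ R := by
    have h1 : z / H ≤ 1 := by rw [div_le_iff₀ hH0]; linarith
    rw [ht]
    nlinarith
  have hkey : ∀ a : ℝ, |t - (a + 1 / 2)| ≤ 1 / 2 → |z - H * (-1 + (2 * a + 1) / R)| ≤ 1 / R * H := by
    intro a ha
    have e : z - H * (-1 + (2 * a + 1) / R) = (2 * H / R) * (t - (a + 1 / 2)) := by
      rw [ht]
      field_simp
      ring
    rw [e, abs_mul, abs_of_pos (by positivity : 0 < 2 * (H : ℝ) / R)]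
    calc 2 * (H : ℝ) / R * |t - (a + 1 / 2)| ≤ 2 * (H : ℝ) / R * (1 / 2) :=
          mul_le_mul_of_nonneg_left ha (by positivity)
      _ = 1 / R * H := by ring
  rcases lt_or_ge t R with hlt | hge
  · refine ⟨⟨⌊t⌋₊, (Nat.floor_lt ht0).mpr hlt⟩, hkey _ ?_⟩
    have h1 := Nat.floor_le ht0
    have h2 := Nat.lt_floor_add_one t
    simp only
    rw [abs_le]
    constructor <;> linarith
  · have htR : t = R := le_antisymm ht1 hge
    refine ⟨⟨R - 1, by omega⟩, hkey _ ?_⟩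
    simp only
    rw [Nat.cast_sub hR, htR, abs_le]
    push_cast
    constructor <;> linarith

private theorem gl_S_finite (R Q : ℕ) (a : ∀ i : Fin r, MIdx n (d i) → IK K → Fin R)
    (b : ∀ i : Fin r, MIdx n (d i) → IK K → Fin Q) (H : ℕ) : (glS R Q a b H).Finite := by
  refine (BoxP_finite (K := K) (n := n) (d := d)
    (∑ i, ∑ t, ∑ j, |(H : ℝ) * glC R a i t j| + 1 / R * H)).subset ?_
  intro A hA i t j
  have h1 := hA.1 i t j
  have h2 : |(H : ℝ) * glC R a i t j| ≤ ∑ i, ∑ t, ∑ j, |(H : ℝ) * glC R a i t j| := by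
    refine le_trans ?_ (Finset.single_le_sum
      (f := fun i => ∑ t, ∑ m, |(H : ℝ) * glC R a i t m|)
      (fun _ _ => Finset.sum_nonneg fun _ _ => Finset.sum_nonneg fun _ _ => abs_nonneg _)
      (Finset.mem_univ i))
    refine le_trans ?_ (Finset.single_le_sum (f := fun t => ∑ m, |(H : ℝ) * glC R a i t m|)
      (fun _ _ => Finset.sum_nonneg fun _ _ => abs_nonneg _) (Finset.mem_univ t))
    exact Finset.single_le_sum (f := fun m => |(H : ℝ) * glC R a i t m|) (fun _ _ => abs_nonneg _)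
      (Finset.mem_univ j)
  calc |(crd (A i t) j : ℝ)| =
      |H * glC R a i t j + ((crd (A i t) j : ℝ) - H * glC R a i t j)| := by
        ring_nf
    _ ≤ |(H : ℝ) * glC R a i t j| + |(crd (A i t) j : ℝ) - H * glC R a i t j| := abs_add_le _ _
    _ ≤ _ := add_le_add h2 h1

private theorem gl_class (i0 : ι) (w k R : ℕ) (hk : 1 ≤ k) (hR : 1 ≤ R) (eps bet : ℝ) (rho0 : ℝ)
    (hrho0 : 0 ≤ rho0)
    (hcl : ∀ rho : ℝ, 0 < rho → rho ≤ rho0 → ∀ k : ℕ, 1 ≤ k →
      ∀ A0 : PSys n d (𝓞 K),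
      (∀ P : Ideal (𝓞 K), P.IsMaximal → (primorial w : 𝓞 K) ∈ P →
        PGoodPK i0 P (k * vW (primorial w) P) A0) →
      ∀ (AC Ainf : PSys n d (IK K → ℝ)), (∀ i t j, |Ainf i t j| ≤ 1) →
      (∀ i t j, |AC i t j - Ainf i t j| ≤ rho) →
      (∀ w', PGoodIK i0 w' rho0 (bet ^ r) (sysPC Ainf w')) →
      ∀ᶠ H : ℝ in atTop,
        (Set.ncard {A : PSys n d (𝓞 K) | (∀ i t j, |(crd (A i t) j : ℝ) - H * AC i t j| ≤ rho * H) ∧
          (∀ i t, (((primorial w) ^ (2 * k) : ℕ) : 𝓞 K) ∣ A i t - A0 i t) ∧ ¬ PSolubleK A} : ℝ) ≤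
          eps * (2 * rho * H / ((primorial w : ℝ)) ^ (2 * k)) ^ (mK K * NP n d))
    (hrho : (1 : ℝ) / R ≤ rho0) (a : ∀ i : Fin r, MIdx n (d i) → IK K → Fin R)
    (b : ∀ i : Fin r, MIdx n (d i) → IK K → Fin (primorial w ^ (2 * k)))
    (hW : glW i0 w k R (primorial w ^ (2 * k)) rho0 bet a b) :
    ∀ᶠ H : ℕ in atTop, ((glS R (primorial w ^ (2 * k)) a b H).ncard : ℝ) ≤
      eps * (2 * (1 / R) * H / (primorial w : ℝ) ^ (2 * k)) ^ (mK K * NP n d) := by
  obtain ⟨H0, A, hH0, hbox, hcell, hres, hgI, hp⟩ := hW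
  have hR0 : (0 : ℝ) < R := by exact_mod_cast hR
  have hH0' : (0 : ℝ) < H0 := by exact_mod_cast hH0
  have h := hcl (1 / R) (by positivity) hrho k hk A hp (glC R a)
    (fun i t j => (H0 : ℝ)⁻¹ * (crd (A i t) j : ℝ)) ?_ ?_ ?_
  · refine (tendsto_natCast_atTop_atTop.eventually h).mono fun H hH => ?_
    refine le_trans ?_ hH
    have heq : glS R (primorial w ^ (2 * k)) a b H =
        {A' : PSys n d (𝓞 K) | (∀ i t j, |(crd (A' i t) j : ℝ) - (H : ℝ) * glC R a i t j| ≤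
          1 / R * (H : ℝ)) ∧
          (∀ i t, (((primorial w) ^ (2 * k) : ℕ) : 𝓞 K) ∣ A' i t - A i t) ∧ ¬ PSolubleK A'} := by
      ext A'
      unfold glS
      refine and_congr_right fun _ => and_congr_left fun _ => forall_congr' fun i =>
        forall_congr' fun t => ?_
      rw [natCast_dvd_iff]
      refine forall_congr' fun j => ?_
      have h1 := hres i t j
      rw [crd_sub]
      constructor
      · intro h2
        have := dvd_sub h2 h1
        simpa using this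
      · intro h2
        have := dvd_add h2 h1
        simpa using this
    rw [heq]
  · intro i t j
    have h2 : |(crd (A i t) j : ℝ)| ≤ H0 := hbox i t j
    rw [abs_mul, abs_inv, abs_of_pos hH0', inv_mul_le_iff₀ hH0', mul_one]
    exact h2
  · intro i t j
    have h1 := hcell i t j
    have e1 : glC R a i t j - (H0 : ℝ)⁻¹ * (crd (A i t) j : ℝ) =
        -((H0 : ℝ)⁻¹ * ((crd (A i t) j : ℝ) - H0 * glC R a i t j)) := by
      field_simp
      ring
    rw [e1, abs_neg, abs_mul, abs_inv, abs_of_pos hH0', inv_mul_le_iff₀ hH0']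
    linarith
  · intro w'
    obtain ⟨z, hz, hF, J, hD⟩ := hgI w'
    have hlam : sysPC (fun i t j => (H0 : ℝ)⁻¹ * (crd (A i t) j : ℝ)) w' =
        fun i t => ((H0 : ℂ))⁻¹ * sgP w' A i t := by
      funext i t
      show lam (fun j => (H0 : ℝ)⁻¹ * (crd (A i t) j : ℝ)) w' = ((H0 : ℂ))⁻¹ * sg w' (A i t)
      rw [lam_smul, lam_crd]
      push_cast
      rfl
    have hnorm : ‖((H0 : ℂ))⁻¹‖ = (H0 : ℝ)⁻¹ := by
      rw [norm_inv, Complex.norm_natCast]
    rw [hlam]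
    refine ⟨z, hz, fun i => ?_, J, ?_⟩
    · rw [MF_smul, norm_mul, hnorm, inv_mul_le_iff₀ hH0']
      have h1 := hF i
      linarith
    · rw [PJac_smul, norm_mul, norm_pow, hnorm, inv_pow, le_inv_mul_iff₀ (by positivity)]
      rw [mul_pow] at hD
      linarith

theorem exceptional_small (hr : 1 ≤ r) (hd : ∀ j i, 1 ≤ d j i) (i0 : ι) (hn0 : r ≤ n i0)
    (hcls : PCLSK K n d i0) (eps : ℝ) (heps : 0 < eps) :
    ∀ᶠ H : ℕ in atTop,
      (Set.ncard {A : PSys n d (𝓞 K) | A ∈ BoxP K n d H ∧ PELSeK A ∧ ¬ PSolubleK A} : ℝ) ≤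
        eps * (2 * H + 1) ^ (mK K * NP n d) := by
  classical
  set M : ℝ := (Fintype.card (InfinitePlace K) : ℝ) with hM
  have hM0 : 0 ≤ M := Nat.cast_nonneg _
  have he4 : 0 < eps / 4 := by positivity
  -- w
  obtain ⟨w1, hw1⟩ := hcls (eps / 4) he4
  set w : ℕ := max 2 w1 with hw
  have hw2 : 2 ≤ w := le_max_left _ _
  have hww : w1 ≤ w := le_max_right _ _
  -- bet
  have hinf : ∀ w' : InfinitePlace K, ∃ bet : ℝ, 0 < bet ∧ bet ≤ 1 ∧ ∀ th : ℝ, 0 < th →
      ∀ᶠ H : ℕ in atTop,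
      (Set.ncard {A : PSys n d (𝓞 K) | A ∈ BoxP K n d H ∧ PLocI w' (sgP w' A) ∧
        ¬ PGoodIK i0 w' (th * H) ((bet * H) ^ r) (sgP w' A)} : ℝ) ≤
        (eps / (4 * (M + 1))) * (2 * H + 1) ^ (mK K * NP n d) := fun w' =>
    inf_exc hr hd i0 hn0 w' _ (by positivity)
  choose betf hbf0 hbf1 hbf using hinf
  obtain ⟨bet, hb, hb1, hbm⟩ : ∃ bet : ℝ, 0 < bet ∧ bet ≤ 1 ∧ ∀ w', bet ≤ betf w' := by
    obtain ⟨v, -, hv⟩ := Finset.exists_min_image (univ : Finset (InfinitePlace K)) betf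
      ⟨Classical.arbitrary _, mem_univ _⟩
    exact ⟨betf v, hbf0 v, hbf1 v, fun w' => hv w' (mem_univ _)⟩
  obtain ⟨rho0, hrho0, hrho01, hcl⟩ := hw1 w hww hw2 (bet ^ r) (by positivity)
    (pow_le_one₀ hb.le hb1)
  -- R
  obtain ⟨R, hR, hRrho⟩ : ∃ R : ℕ, 1 ≤ R ∧ (1 : ℝ) / R ≤ rho0 := by
    obtain ⟨m, hm⟩ := exists_nat_one_div_lt hrho0
    refine ⟨m + 1, by omega, ?_⟩
    push_cast
    exact hm.le
  have hR0 : (0 : ℝ) < R := by exact_mod_cast hR
  -- the primes dividing `primorial w`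
  have hprim0 : (primorial w : 𝓞 K) ≠ 0 := by
    exact_mod_cast (primorial_pos w).ne'
  have hspan0 : Ideal.span {(primorial w : 𝓞 K)} ≠ ⊥ := by
    rw [Ne, Ideal.span_singleton_eq_bot]
    exact hprim0
  have hPfin : {P : Ideal (𝓞 K) | P.IsMaximal ∧ (primorial w : 𝓞 K) ∈ P}.Finite := by
    refine (finite_ideals (K := K) (Ideal.absNorm (Ideal.span {(primorial w : 𝓞 K)}))).subset ?_
    rintro P ⟨-, hPw⟩
    have hle : Ideal.span {(primorial w : 𝓞 K)} ≤ P := (Ideal.span_singleton_le_iff_mem P).2 hPw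
    refine ⟨?_, ?_⟩
    · rintro rfl
      exact hspan0 (le_bot_iff.1 hle)
    · exact Nat.le_of_dvd (absNorm_pos hspan0) (Ideal.absNorm_dvd_absNorm_of_le hle)
  set Pr : Finset (Ideal (𝓞 K)) := hPfin.toFinset with hPr
  have hPrm : ∀ P, P ∈ Pr ↔ P.IsMaximal ∧ (primorial w : 𝓞 K) ∈ P := fun P =>
    Set.Finite.mem_toFinset _
  set M' : ℝ := (Pr.card : ℝ) with hM'
  have hM'0 : 0 ≤ M' := Nat.cast_nonneg _
  have hpad : ∀ P : Ideal (𝓞 K), ∃ k0 : ℕ, P.IsMaximal → ∀ a : ℕ, k0 ≤ a →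
      ∀ᶠ H : ℕ in atTop,
      (Set.ncard {A : PSys n d (𝓞 K) | A ∈ BoxP K n d H ∧ PLocP P A ∧
        ¬ PGoodPK i0 P a A} : ℝ) ≤
        eps / (4 * (M' + 1)) * (2 * H + 1) ^ (mK K * NP n d) := by
    intro P
    by_cases hP : P.IsMaximal
    · obtain ⟨k0, h⟩ := padic_exc (n := n) (d := d) hr hd i0 hn0 P hP (eps / (4 * (M' + 1)))
        (by positivity)
      exact ⟨k0, fun _ => h⟩
    · exact ⟨0, fun h => absurd h hP⟩
  choose kf hkf using hpad
  -- k
  set kc : ℕ := 1 + ∑ P ∈ Pr, kf P with hkc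
  have hkc1 : 1 ≤ kc := by omega
  have hkck : ∀ P ∈ Pr, kf P ≤ kc := by
    intro P hP
    have h1 := Finset.single_le_sum (f := kf) (fun _ _ => Nat.zero_le _) hP
    omega
  set Q : ℕ := primorial w ^ (2 * kc) with hQ
  have hQpos : 0 < Q := pow_pos (primorial_pos w) _
  have hQ0 : (0 : ℝ) < Q := by exact_mod_cast hQpos
  have hQcast : (primorial w : ℝ) ^ (2 * kc) = Q := by rw [hQ]; push_cast; rfl
  have hv1 : ∀ P ∈ Pr, 1 ≤ vW (primorial w) P := by
    intro P hP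
    unfold vW
    apply multiplicity_pos_of_dvd
    rw [Ideal.dvd_span_singleton]
    exact ((hPrm P).1 hP).2
  have hkv : ∀ P ∈ Pr, kf P ≤ kc * vW (primorial w) P := fun P hP =>
    (hkck P hP).trans (Nat.le_mul_of_pos_right kc (hv1 P hP))
  haveI iR : Fintype (∀ i : Fin r, MIdx n (d i) → IK K → Fin R) := inferInstance
  haveI iQ : Fintype (∀ i : Fin r, MIdx n (d i) → IK K → Fin Q) := inferInstance
  -- eventual bounds
  have h1 : ∀ᶠ H : ℕ in atTop, ∀ ab : (∀ i : Fin r, MIdx n (d i) → IK K → Fin R) ×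
      (∀ i : Fin r, MIdx n (d i) → IK K → Fin Q),
      glW i0 w kc R Q rho0 bet ab.1 ab.2 →
      ((glS R Q ab.1 ab.2 H).ncard : ℝ) ≤ eps / 4 * (2 * (1 / R) * H / Q) ^ (mK K * NP n d) := by
    rw [Filter.eventually_all]
    intro ab
    by_cases hW : glW i0 w kc R Q rho0 bet ab.1 ab.2
    · have := gl_class i0 w kc R hkc1 hR (eps / 4) bet rho0 hrho0.le hcl hRrho ab.1 ab.2 hW
      rw [hQcast] at this
      exact this.mono fun H hH _ => hH
    · exact Filter.Eventually.of_forall fun H h => absurd h hW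
  have h2 : ∀ᶠ H : ℕ in atTop, ∀ w' : InfinitePlace K,
      (Set.ncard {A : PSys n d (𝓞 K) | A ∈ BoxP K n d H ∧ PLocI w' (sgP w' A) ∧
        ¬ PGoodIK i0 w' (rho0 * H) ((betf w' * H) ^ r) (sgP w' A)} : ℝ) ≤
        (eps / (4 * (M + 1))) * (2 * H + 1) ^ (mK K * NP n d) := by
    rw [Filter.eventually_all]
    exact fun w' => hbf w' rho0 hrho0
  have h3 : ∀ᶠ H : ℕ in atTop, ∀ P ∈ Pr,
      (Set.ncard {A : PSys n d (𝓞 K) | A ∈ BoxP K n d H ∧ PLocP P A ∧
        ¬ PGoodPK i0 P (kc * vW (primorial w) P) A} : ℝ) ≤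
        eps / (4 * (M' + 1)) * (2 * H + 1) ^ (mK K * NP n d) := by
    rw [Filter.eventually_all_finset]
    intro P hP
    exact hkf P ((hPrm P).1 hP).1 _ (hkv P hP)
  filter_upwards [h1, h2, h3, Filter.eventually_ge_atTop 1] with H h1 h2 h3 hH
  have hbfin : (BoxP K n d H).Finite := BoxP_finite (H : ℝ)
  have hbm' : ∀ A, A ∈ hbfin.toFinset ↔ A ∈ BoxP K n d H := fun A => Set.Finite.mem_toFinset _
  -- the finsets
  set E : Finset (PSys n d (𝓞 K)) := hbfin.toFinset.filter (fun A => PELSeK A ∧ ¬ PSolubleK A)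
    with hE
  set EI : InfinitePlace K → Finset (PSys n d (𝓞 K)) := fun w' => hbfin.toFinset.filter (fun A =>
      PLocI w' (sgP w' A) ∧ ¬ PGoodIK i0 w' (rho0 * H) ((betf w' * H) ^ r) (sgP w' A)) with hEI
  set EP : Ideal (𝓞 K) → Finset (PSys n d (𝓞 K)) := fun P => hbfin.toFinset.filter (fun A =>
      PLocP P A ∧ ¬ PGoodPK i0 P (kc * vW (primorial w) P) A) with hEP
  set GW : Finset ((∀ i : Fin r, MIdx n (d i) → IK K → Fin R) ×
      (∀ i : Fin r, MIdx n (d i) → IK K → Fin Q)) :=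
    Finset.univ.filter (fun ab => glW i0 w kc R Q rho0 bet ab.1 ab.2) with hGW
  have hfin : ∀ ab : (∀ i : Fin r, MIdx n (d i) → IK K → Fin R) ×
      (∀ i : Fin r, MIdx n (d i) → IK K → Fin Q),
    (glS R Q ab.1 ab.2 H).Finite := fun ab => gl_S_finite R Q ab.1 ab.2 H
  have hsub : E ⊆ (GW.biUnion fun ab => (hfin ab).toFinset) ∪
      ((univ : Finset (InfinitePlace K)).biUnion EI) ∪ (Pr.biUnion EP) := by
    intro A hA
    rw [hE, Finset.mem_filter, hbm'] at hA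
    obtain ⟨hAbox, ⟨hpad0, hinf0⟩, hns⟩ := hA
    by_cases hr' : ∃ w', A ∈ EI w'
    · obtain ⟨w', hw'⟩ := hr'
      exact Finset.mem_union_left _ (Finset.mem_union_right _
        (Finset.mem_biUnion.mpr ⟨w', mem_univ _, hw'⟩))
    by_cases hpp : ∃ P ∈ Pr, A ∈ EP P
    · exact Finset.mem_union_right _ (Finset.mem_biUnion.mpr hpp)
    refine Finset.mem_union_left _ (Finset.mem_union_left _ ?_)
    -- the cell
    choose a ha using fun i t j => gl_cell H R hH hR (crd (A i t) j : ℝ) (hAbox i t j)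
    have hbex : ∀ i t j, ∃ b : Fin Q, (Q : ℤ) ∣ crd (A i t) j - ((b : ℕ) : ℤ) := by
      intro i t j
      have hQz : (0 : ℤ) < Q := by exact_mod_cast hQpos
      have h0 : 0 ≤ crd (A i t) j % Q := Int.emod_nonneg _ hQz.ne'
      have h1 : crd (A i t) j % Q < Q := Int.emod_lt_of_pos _ hQz
      refine ⟨⟨(crd (A i t) j % Q).toNat, by omega⟩, ?_⟩
      simp only
      rw [Int.toNat_of_nonneg h0]
      exact Int.dvd_self_sub_emod
    choose b hb' using hbex
    refine Finset.mem_biUnion.mpr ⟨(a, b), ?_, ?_⟩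
    · rw [hGW, Finset.mem_filter]
      refine ⟨Finset.mem_univ _, H, A, hH, hAbox, ha, hb', ?_, ?_⟩
      · intro w'
        have h4 : PGoodIK i0 w' (rho0 * H) ((betf w' * H) ^ r) (sgP w' A) := by
          by_contra hcon
          exact hr' ⟨w', Finset.mem_filter.mpr ⟨(hbm' A).2 hAbox, hinf0 w', hcon⟩⟩
        obtain ⟨z, hz, hF, J, hJ⟩ := h4
        refine ⟨z, hz, hF, J, le_trans ?_ hJ⟩
        exact pow_le_pow_left₀ (by positivity)
          (mul_le_mul_of_nonneg_right (hbm w') (Nat.cast_nonneg _)) _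
      · intro P hP hPw
        by_contra hcon
        exact hpp ⟨P, (hPrm P).2 ⟨hP, hPw⟩, Finset.mem_filter.mpr ⟨(hbm' A).2 hAbox,
          hpad0 P hP, hcon⟩⟩
    · rw [Set.Finite.mem_toFinset]
      exact ⟨ha, hb', hns⟩
  have hcardE : Set.ncard {A : PSys n d (𝓞 K) | A ∈ BoxP K n d H ∧ PELSeK A ∧ ¬ PSolubleK A} =
      E.card := by
    rw [← Set.ncard_coe_finset]
    congr 1
    ext A
    rw [Finset.mem_coe, hE, Finset.mem_filter, hbm']
    rfl
  have hpos : 0 ≤ (2 * (H : ℝ) + 1) ^ (mK K * NP n d) := by positivity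
  have hcardI : ∀ w', ((EI w').card : ℝ) ≤
      (eps / (4 * (M + 1))) * (2 * H + 1) ^ (mK K * NP n d) := by
    intro w'
    refine le_trans (le_of_eq ?_) (h2 w')
    rw [← Set.ncard_coe_finset]
    congr 2
    ext A
    rw [Finset.mem_coe, hEI]
    simp only [Finset.mem_filter, hbm']
    rfl
  have hcardP : ∀ P ∈ Pr, ((EP P).card : ℝ) ≤ eps / (4 * (M' + 1)) *
      (2 * H + 1) ^ (mK K * NP n d) := by
    intro P hP
    refine le_trans (le_of_eq ?_) (h3 P hP)
    rw [← Set.ncard_coe_finset]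
    congr 2
    ext A
    rw [Finset.mem_coe, hEP]
    simp only [Finset.mem_filter, hbm']
    rfl
  have hcardS : ∀ ab ∈ GW, (((hfin ab).toFinset).card : ℝ) ≤
      eps / 4 * (2 * (1 / R) * H / Q) ^ (mK K * NP n d) := by
    intro ab hab
    rw [← Set.ncard_eq_toFinset_card _ (hfin ab)]
    exact h1 ab (Finset.mem_filter.mp hab).2
  rw [hcardE]
  have hcS : ∀ M : ℕ, Fintype.card (∀ i : Fin r, MIdx n (d i) → IK K → Fin M) =
      M ^ (mK K * NP n d) := by
    intro M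
    rw [Fintype.card_pi]
    unfold NP NM
    rw [Finset.mul_sum, ← Finset.prod_pow_eq_pow_sum]
    refine Finset.prod_congr rfl fun i _ => ?_
    rw [Fintype.card_fun, Fintype.card_fun, Fintype.card_fin, card_IK, ← pow_mul]
  have hcR : ∀ (M : ℕ) (i : Fintype (∀ i : Fin r, MIdx n (d i) → IK K → Fin M)),
      @Fintype.card _ i = M ^ (mK K * NP n d) := by
    intro M i
    rw [← hcS M]
    exact congrArg (fun i => @Fintype.card _ i) (Subsingleton.elim _ _)
  have hGWcard : (GW.card : ℝ) ≤ (R : ℝ) ^ (mK K * NP n d) * (Q : ℝ) ^ (mK K * NP n d) := by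
    have h6 : GW.card ≤ R ^ (mK K * NP n d) * Q ^ (mK K * NP n d) := by
      refine (Finset.card_le_univ _).trans (le_of_eq ?_)
      rw [Fintype.card_prod]
      exact congrArg₂ (· * ·) (hcR R iR) (hcR Q iQ)
    exact_mod_cast h6
  have hsumS : ((GW.biUnion fun ab => (hfin ab).toFinset).card : ℝ) ≤
      eps / 4 * (2 * H + 1) ^ (mK K * NP n d) := by
    calc ((GW.biUnion fun ab => (hfin ab).toFinset).card : ℝ)
        ≤ ∑ ab ∈ GW, (((hfin ab).toFinset).card : ℝ) := by exact_mod_cast Finset.card_biUnion_le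
      _ ≤ ∑ ab ∈ GW, (eps / 4 * (2 * (1 / R) * H / Q) ^ (mK K * NP n d) : ℝ) :=
          Finset.sum_le_sum hcardS
      _ = (GW.card : ℝ) * (eps / 4 * (2 * (1 / R) * H / Q) ^ (mK K * NP n d)) := by
          rw [Finset.sum_const, nsmul_eq_mul]
      _ ≤ ((R : ℝ) ^ (mK K * NP n d) * (Q : ℝ) ^ (mK K * NP n d)) *
            (eps / 4 * (2 * (1 / R) * H / Q) ^ (mK K * NP n d)) :=
          mul_le_mul_of_nonneg_right hGWcard (by positivity)
      _ = eps / 4 * (2 * H) ^ (mK K * NP n d) := by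
          have h7 : (2 * (H : ℝ)) = R * Q * (2 * (1 / R) * H / Q) := by
            field_simp
          rw [h7, mul_pow, mul_pow]
          ring
      _ ≤ eps / 4 * (2 * H + 1) ^ (mK K * NP n d) := by
          refine mul_le_mul_of_nonneg_left ?_ (by positivity)
          exact pow_le_pow_left₀ (by positivity) (by linarith) _
  have hsumI : (((univ : Finset (InfinitePlace K)).biUnion EI).card : ℝ) ≤
      eps / 4 * (2 * H + 1) ^ (mK K * NP n d) := by
    calc (((univ : Finset (InfinitePlace K)).biUnion EI).card : ℝ) ≤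
        ∑ w' : InfinitePlace K, ((EI w').card : ℝ) := by
          exact_mod_cast Finset.card_biUnion_le
      _ ≤ ∑ _w' : InfinitePlace K, (eps / (4 * (M + 1))) * (2 * H + 1) ^ (mK K * NP n d) :=
          Finset.sum_le_sum fun w' _ => hcardI w'
      _ = M * ((eps / (4 * (M + 1))) * (2 * H + 1) ^ (mK K * NP n d)) := by
          rw [Finset.sum_const, Finset.card_univ, nsmul_eq_mul]
      _ = (M * (eps / (4 * (M + 1)))) * (2 * H + 1) ^ (mK K * NP n d) := by ring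
      _ ≤ eps / 4 * (2 * H + 1) ^ (mK K * NP n d) := by
          apply mul_le_mul_of_nonneg_right _ hpos
          rw [mul_div_assoc', div_le_div_iff₀ (by positivity) (by positivity)]
          nlinarith
  have hsumP : ((Pr.biUnion EP).card : ℝ) ≤ eps / 4 * (2 * H + 1) ^ (mK K * NP n d) := by
    calc ((Pr.biUnion EP).card : ℝ) ≤ ∑ P ∈ Pr, ((EP P).card : ℝ) := by
          exact_mod_cast Finset.card_biUnion_le
      _ ≤ ∑ _P ∈ Pr, (eps / (4 * (M' + 1)) * (2 * H + 1) ^ (mK K * NP n d) : ℝ) :=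
          Finset.sum_le_sum hcardP
      _ = M' * (eps / (4 * (M' + 1)) * (2 * H + 1) ^ (mK K * NP n d)) := by
          rw [Finset.sum_const, nsmul_eq_mul]
      _ = (M' * (eps / (4 * (M' + 1)))) * (2 * H + 1) ^ (mK K * NP n d) := by ring
      _ ≤ eps / 4 * (2 * H + 1) ^ (mK K * NP n d) := by
          apply mul_le_mul_of_nonneg_right _ hpos
          rw [mul_div_assoc', div_le_div_iff₀ (by positivity) (by positivity)]
          nlinarith
  have hfinal : (E.card : ℝ) ≤ ((GW.biUnion fun ab => (hfin ab).toFinset).card : ℝ) +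
      (((univ : Finset (InfinitePlace K)).biUnion EI).card : ℝ) +
      ((Pr.biUnion EP).card : ℝ) := by
    have h7 : E.card ≤ (GW.biUnion fun ab => (hfin ab).toFinset).card +
        ((univ : Finset (InfinitePlace K)).biUnion EI).card + (Pr.biUnion EP).card := by
      refine (Finset.card_le_card hsub).trans ((Finset.card_union_le _ _).trans ?_)
      exact Nat.add_le_add_right (Finset.card_union_le _ _) _
    exact_mod_cast h7
  have hX : 0 ≤ eps * (2 * (H : ℝ) + 1) ^ (mK K * NP n d) := mul_nonneg heps.le hpos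
  linarith

end NKPHP
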