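import Pool.Agent.Lib.MP_e426f4_ag.NKP.FinalOf
import Pool.Agent.Lib.MP_e426f4_ag.NKP.ClsOfBlock
import Pool.Agent.Lib.MP_e426f4_ag.NKP.Global
import Pool.Agent.Lib.MP_e426f4_ag.CK.ClsOfConic

/-! Module NKP-Final: the final theorem over a number field. -/

set_option linter.unusedSectionVars false

namespace NKPHP

open NumberField GenHP NFHP NKHP Finset Filter Topology
open CIPHP (PSys NP PJac blk pev)

theorem pfinal (K : Type) [Field K] [NumberField K] {ι : Type} [Fintype ι] [DecidableEq ι]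
    (n : ι → ℕ) {r : ℕ} (d : Fin r → ι → ℕ)
    (hr : 1 ≤ r) (hn : ∀ i, 1 ≤ n i) (hd : ∀ j i, 1 ≤ d j i) (i0 : ι)
    (hs : ∑ j, d j i0 ≤ n i0) (h2 : 2 ≤ r → ∀ j, 2 ≤ d j i0)
    (h1 : ¬ (r = 1 ∧ n i0 = 2 ∧ (∀ j, d j i0 = 2) ∧ ∀ i, i = i0)) : PFinal K n d := by
  refine pfinal_of K n d hr hn hd i0 hs h2
    (fun ha hb hc => cls_of_block K n d hr hn i0 ha hb hc) (fun ha hb hc => ?_)
    (fun ha hcls eps heps => exceptional_small hr hd i0 ha hcls eps heps)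
  obtain ⟨i1, hi1⟩ : ∃ i1, i1 ≠ i0 := by
    by_contra hcon
    push Not at hcon
    exact h1 ⟨ha, hb, hc, hcon⟩
  subst ha
  exact NKCHP.cls_of_conicK K n d hd hn i0 i1 hi1 hb (hc 0)

end NKPHP
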