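import Pool.Agent.Lib.MP_e426f4_ag.NKP.Basic
import Pool.Agent.Lib.MP_e426f4_ag.M.Alg

/-! Module NKP-Linear: one form which is linear in a block always has a zero. -/

set_option linter.unusedSectionVars false

namespace NKPHP

open NumberField GenHP NFHP NKHP Finset Filter Topology
open CIPHP (PSys NP PJac blk pev)

section multi
variable {ι : Type} [Fintype ι] [DecidableEq ι] {n d : ι → ℕ}

/-- in a block of degree one the derivatives do not depend on the block -/
private lemma lin_dmon {R : Type*} [CommRing R] (i0 : ι) (h1 : d i0 = 1) (z z' : MVar n → R)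
    (h : ∀ v : MVar n, v.1 ≠ i0 → z v = z' v) (a : Fin (n i0 + 1)) (t : MIdx n d) :
    dmon z ⟨i0, a⟩ (mex t) = dmon z' ⟨i0, a⟩ (mex t) := by
  unfold dmon
  by_cases h0 : mex t (⟨i0, a⟩ : MVar n) = 0
  · rw [h0]
    simp
  · congr 1
    refine Finset.prod_congr rfl (fun v _ => ?_)
    by_cases hv : v.1 = i0
    · obtain ⟨i, b⟩ := v
      simp only at hv
      subst hv
      have hsum : ∑ c, (t i).1 c = 1 := by rw [(t i).2, h1]
      have ha : 1 ≤ (t i).1 a := Nat.one_le_iff_ne_zero.2 h0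
      by_cases hb : b = a
      · subst hb
        have h2 : (t i).1 b ≤ 1 :=
          (Finset.single_le_sum (f := fun c => (t i).1 c) (fun _ _ => Nat.zero_le _)
            (Finset.mem_univ b)).trans (le_of_eq hsum)
        have h3 : mex t (⟨i, b⟩ : MVar n) = 1 := le_antisymm h2 ha
        rw [if_pos rfl, h3]
        simp
      · have h2 : (t i).1 b = 0 := by
          have h4 : (t i).1 a + (t i).1 b ≤ ∑ c, (t i).1 c := by
            rw [← Finset.sum_pair (f := fun c => (t i).1 c) (Ne.symm hb)]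
            exact Finset.sum_le_sum_of_subset (Finset.subset_univ _)
          omega
        have h3 : mex t (⟨i, b⟩ : MVar n) = 0 := h2
        have hne : (⟨i, b⟩ : MVar n) ≠ ⟨i, a⟩ := by
          intro hcon
          apply hb
          simpa using hcon
        rw [if_neg hne, h3]
        simp
    · rw [h v hv]

private lemma lin_MD {R : Type*} [CommRing R] (i0 : ι) (h1 : d i0 = 1) (A : MIdx n d → R)
    (z z' : MVar n → R) (h : ∀ v : MVar n, v.1 ≠ i0 → z v = z' v) (a : Fin (n i0 + 1)) :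
    MD A z ⟨i0, a⟩ = MD A z' ⟨i0, a⟩ := by
  unfold MD Dg
  refine Finset.sum_congr rfl (fun t _ => ?_)
  rw [lin_dmon i0 h1 z z' h a t]

/-- a form of degree one in a block has a zero with nonzero blocks over every field -/
theorem exists_zero_of_linear {L : Type*} [Field L] (i0 : ι) (hn0 : 1 ≤ n i0) (h1 : d i0 = 1)
    (B : MIdx n d → L) : ∃ z : MVar n → L, BNZ z ∧ MF B z = 0 := by
  let zz : L → L → MVar n → L := fun x0 x1 v =>
    if v.1 = i0 then (if v.2.val = 0 then x0 else if v.2.val = 1 then x1 else 0)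
      else (if v.2.val = 0 then 1 else 0)
  set L0 : L := MD B (zz 1 0) ⟨i0, 0⟩ with hL0
  have hlt : 1 < n i0 + 1 := by omega
  set L1 : L := MD B (zz 1 0) ⟨i0, ⟨1, hlt⟩⟩ with hL1
  have hval : ∀ x0 x1, MF B (zz x0 x1) = x0 * L0 + x1 * L1 := by
    intro x0 x1
    have he := m_euler B (zz x0 x1) i0
    rw [h1, Nat.cast_one, one_mul] at he
    rw [← he, Finset.sum_eq_add (0 : Fin (n i0 + 1)) ⟨1, hlt⟩]
    · have hoff : ∀ v : MVar n, v.1 ≠ i0 → zz x0 x1 v = zz 1 0 v := by
        intro v hv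
        simp only [zz, if_neg hv]
      rw [lin_MD i0 h1 B (zz x0 x1) (zz 1 0) hoff, lin_MD i0 h1 B (zz x0 x1) (zz 1 0) hoff]
      simp [zz, hL0, hL1]
    · intro h
      have := congrArg Fin.val h
      simp at this
    · intro c _ hc
      have h2 : c.val ≠ 0 := fun h => hc.1 (Fin.ext h)
      have h3 : c.val ≠ 1 := fun h => hc.2 (Fin.ext h)
      have h4 : zz x0 x1 ⟨i0, c⟩ = 0 := by
        show (if i0 = i0 then (if c.val = 0 then x0 else if c.val = 1 then x1 else 0)
          else (if c.val = 0 then 1 else 0)) = 0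
        rw [if_pos rfl, if_neg h2, if_neg h3]
      rw [h4, zero_mul]
    · intro h; exact absurd (Finset.mem_univ _) h
    · intro h; exact absurd (Finset.mem_univ _) h
  have hBNZ : ∀ x0 x1, (x0 ≠ 0 ∨ x1 ≠ 0) → BNZ (zz x0 x1) := by
    intro x0 x1 h i
    by_cases hi : i = i0
    · subst hi
      rcases h with h | h
      · exact ⟨0, by simpa [zz] using h⟩
      · exact ⟨⟨1, hlt⟩, by simpa [zz] using h⟩
    · exact ⟨0, by simp [zz, hi]⟩
  by_cases h : L0 = 0 ∧ L1 = 0
  · refine ⟨zz 1 0, hBNZ 1 0 (Or.inl one_ne_zero), ?_⟩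
    rw [hval, h.1, h.2]
    ring
  · refine ⟨zz L1 (-L0), hBNZ _ _ ?_, ?_⟩
    · by_cases h2 : L1 = 0
      · right
        intro h3
        exact h ⟨neg_eq_zero.1 h3, h2⟩
      · exact Or.inl h2
    · rw [hval]
      ring

end multi

section multi
variable {ι : Type} [Fintype ι] [DecidableEq ι]
variable {K : Type} [Field K] [NumberField K] {n : ι → ℕ} {d : Fin 1 → ι → ℕ}

theorem psolubleK_of_linear (i0 : ι) (hn0 : 1 ≤ n i0) (h1 : d 0 i0 = 1) (A : PSys n d (𝓞 K)) :
    PSolubleK A := by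
  obtain ⟨z, hz, h⟩ := exists_zero_of_linear i0 hn0 h1 (fun t => ((A 0 t : 𝓞 K) : K))
  refine ⟨z, hz, fun j => ?_⟩
  have hj : j = 0 := Subsingleton.elim _ _
  subst hj
  exact h

end multi

end NKPHP
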