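import Pool.Agent.Lib.MP_e426f4_ag.NKP.House
import Pool.Agent.Lib.MP_e426f4_ag.NKP.Linear

/-! Module NKP-FinalOf: the case distinction of the final theorem over a number field. -/

set_option linter.unusedSectionVars false

namespace NKPHP

open NumberField GenHP NFHP NKHP Finset Filter Topology
open CIPHP (PSys NP PJac blk pev)

section multi
variable {ι : Type} [Fintype ι] [DecidableEq ι]
variable {K : Type} [Field K] [NumberField K] {n : ι → ℕ} {r : ℕ} {d : Fin r → ι → ℕ}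

/-- the three statements of the final theorem -/
def PFinal (K : Type) [Field K] [NumberField K] (n : ι → ℕ) {r : ℕ} (d : Fin r → ι → ℕ) : Prop :=
  (∃ c : ℝ, 0 < c ∧ ∀ᶠ H : ℕ in atTop, c * ((HouseP K n d H).ncard : ℝ) ≤
      (Set.ncard {A : PSys n d (𝓞 K) | A ∈ HouseP K n d H ∧ PSmoothK A ∧ PSolubleK A} : ℝ)) ∧
    (∀ eps : ℝ, 0 < eps → ∀ᶠ H : ℕ in atTop,
      (Set.ncard {A : PSys n d (𝓞 K) | A ∈ HouseP K n d H ∧ PELSK A ∧ ¬ PSolubleK A} : ℝ) ≤
        eps * ((HouseP K n d H).ncard : ℝ)) ∧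
    ∀ eps : ℝ, 0 < eps → ∀ᶠ H : ℕ in atTop,
      (Set.ncard {A : PSys n d (𝓞 K) | A ∈ HouseP K n d H ∧ ¬ PSmoothK A} : ℝ) ≤
        eps * ((HouseP K n d H).ncard : ℝ)

theorem pfinal_of_linear {d : Fin 1 → ι → ℕ} (hd : ∀ j i, 1 ≤ d j i) (i0 : ι) (hn0 : 1 ≤ n i0)
    (h1 : d 0 i0 = 1) : PFinal K n d := by
  have hs : ∀ A : PSys n d (𝓞 K), PSolubleK A := psolubleK_of_linear i0 hn0 h1
  refine house_finalP_of le_rfl hd ⟨1, one_pos, Filter.Eventually.of_forall fun H => ?_⟩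
    fun eps heps => Filter.Eventually.of_forall fun H => ?_
  · have h2 : {A : PSys n d (𝓞 K) | A ∈ BoxP K n d H ∧ PSolubleK A} = BoxP K n d H := by
      ext A
      exact ⟨fun h => h.1, fun h => ⟨h, hs A⟩⟩
    rw [h2, card_BoxP]
    push_cast
    linarith
  · have h2 : {A : PSys n d (𝓞 K) | A ∈ BoxP K n d H ∧ PELSeK A ∧ ¬ PSolubleK A} = ∅ := by
      ext A
      exact ⟨fun h => h.2.2 (hs A), fun h => h.elim⟩
    rw [h2, Set.ncard_empty, Nat.cast_zero]
    positivity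

/-- NKP-FinalOf: `hblock` is the class theorem for a block which is not a conic, `hconic` the one for a
conic block (`K = ℚ` or module CK), `hglob` the estimate of the exceptional set. -/
theorem pfinal_of (K : Type) [Field K] [NumberField K] (n : ι → ℕ) {r : ℕ} (d : Fin r → ι → ℕ)
    (hr : 1 ≤ r) (hn : ∀ i, 1 ≤ n i) (hd : ∀ j i, 1 ≤ d j i) (i0 : ι)
    (hs : ∑ j, d j i0 ≤ n i0) (h2 : 2 ≤ r → ∀ j, 2 ≤ d j i0)
    (hblock : r + 2 ≤ n i0 → (∀ j, 2 ≤ d j i0) → ∑ j, d j i0 ≤ n i0 → PCLSK K n d i0)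
    (hconic : r = 1 → n i0 = 2 → (∀ j, d j i0 = 2) → PCLSK K n d i0)
    (hglob : r ≤ n i0 → PCLSK K n d i0 → ∀ eps : ℝ, 0 < eps → ∀ᶠ H : ℕ in atTop,
      (Set.ncard {A : PSys n d (𝓞 K) | A ∈ BoxP K n d H ∧ PELSeK A ∧ ¬ PSolubleK A} : ℝ) ≤
        eps * (2 * H + 1) ^ (mK K * NP n d)) : PFinal K n d := by
  have hrn : r ≤ n i0 := by
    have h3 : ∑ j : Fin r, 1 ≤ ∑ j, d j i0 := Finset.sum_le_sum fun j _ => hd j i0
    simp only [Finset.sum_const, Finset.card_univ, Fintype.card_fin, smul_eq_mul, mul_one] at h3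
    exact h3.trans hs
  have key : PCLSK K n d i0 → PFinal K n d := fun hcls =>
    house_finalP hr hd i0 hrn hcls (hglob hrn hcls)
  rcases Nat.lt_or_ge r 2 with hr2 | hr2
  · have hr1 : r = 1 := by omega
    subst hr1
    have hs' : d 0 i0 ≤ n i0 := by simpa using hs
    have hall : ∀ {p : Fin 1 → Prop}, p 0 → ∀ j, p j := fun h j => by
      have hj : j = 0 := Subsingleton.elim _ _
      rw [hj]
      exact h
    rcases Nat.lt_or_ge 1 (d 0 i0) with h3 | h3
    · have h3' : ∀ j, 2 ≤ d j i0 := hall (p := fun j => 2 ≤ d j i0) h3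
      rcases Nat.lt_or_ge 2 (n i0) with h4 | h4
      · exact key (hblock (by omega) h3' hs)
      · exact key (hconic rfl (by omega) (hall (p := fun j => d j i0 = 2) (by omega)))
    · have := hd 0 i0
      exact pfinal_of_linear hd i0 (hn i0) (by omega)
  · have h3 : ∑ j : Fin r, 2 ≤ ∑ j, d j i0 := Finset.sum_le_sum fun j _ => h2 hr2 j
    simp only [Finset.sum_const, Finset.card_univ, Fintype.card_fin, smul_eq_mul] at h3
    exact key (hblock (by omega) (h2 hr2) hs)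

end multi

end NKPHP
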