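import Pool.Agent.Lib.MP_e426f4_ag.NKP.ZeroI
import Pool.Agent.Lib.MP_e426f4_ag.NKP.Basic

/-!
# Grid points near a nonsingular zero at an infinite place
-/

set_option linter.unusedSectionVars false

namespace NKPHP

open NumberField GenHP NFHP NKHP Finset Filter Topology
open CIPHP (PSys NP PJac blk pev)

section grid
variable {K : Type} [Field K]

open Classical in
/-- grid points of the completion with denominator `R` -/
noncomputable def gset (w : InfinitePlace K) (R : ℕ) : Finset ℂ :=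
  if w.IsReal then (Icc (-(2 * R : ℤ)) (2 * R)).image fun m : ℤ => (((m : ℝ) / R : ℝ) : ℂ)
  else ((Icc (-(2 * R : ℤ)) (2 * R)) ×ˢ (Icc (-(2 * R : ℤ)) (2 * R))).image
    fun p : ℤ × ℤ => (⟨(p.1 : ℝ) / R, (p.2 : ℝ) / R⟩ : ℂ)

private theorem gi_Icc (R : ℕ) : (Icc (-(2 * R : ℤ)) (2 * R)).card = 4 * R + 1 := by
  rw [Int.card_Icc]
  omega

theorem gset_card (w : InfinitePlace K) (R : ℕ) (hR : 1 ≤ R) :
    ((gset w R).card : ℝ) ≤ (5 * (R : ℝ)) ^ w.mult := by
  classical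
  have hR1 : (1 : ℝ) ≤ R := by exact_mod_cast hR
  have h1 : ((Icc (-(2 * R : ℤ)) (2 * R)).card : ℝ) ≤ 5 * R := by
    rw [gi_Icc]
    push_cast
    linarith
  by_cases hw : w.IsReal
  · have hm : w.mult = 1 := InfinitePlace.mult_isReal ⟨w, hw⟩
    rw [hm, pow_one, gset, if_pos hw]
    refine le_trans ?_ h1
    exact_mod_cast Finset.card_image_le
  · have hm : w.mult = 2 := by rw [InfinitePlace.mult, if_neg hw]
    rw [hm, gset, if_neg hw]
    have h2 : ((((Icc (-(2 * R : ℤ)) (2 * R)) ×ˢ (Icc (-(2 * R : ℤ)) (2 * R))).image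
        fun p : ℤ × ℤ => (⟨(p.1 : ℝ) / R, (p.2 : ℝ) / R⟩ : ℂ)).card : ℝ) ≤
        (((Icc (-(2 * R : ℤ)) (2 * R)) ×ˢ (Icc (-(2 * R : ℤ)) (2 * R))).card : ℝ) := by
      exact_mod_cast Finset.card_image_le
    refine h2.trans ?_
    rw [Finset.card_product]
    push_cast
    rw [sq]
    exact mul_le_mul h1 h1 (by positivity) (by positivity)

theorem gset_real (w : InfinitePlace K) (R : ℕ) (hw : w.IsReal) : ∀ z ∈ gset w R, z.im = 0 := by
  classical
  intro z hz
  rw [gset, if_pos hw, Finset.mem_image] at hz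
  obtain ⟨m, -, rfl⟩ := hz
  exact Complex.ofReal_im _

/-- number of integers in an interval -/
private theorem gi_card_Icc (a b : ℝ) : b - a - 1 ≤ ((Icc ⌈a⌉ ⌊b⌋).card : ℝ) := by
  rw [Int.card_Icc]
  have h1 := Int.ceil_lt_add_one a
  have h2 := Int.lt_floor_add_one b
  have h3 : ((⌊b⌋ + 1 - ⌈a⌉ : ℤ) : ℝ) ≤ ((⌊b⌋ + 1 - ⌈a⌉).toNat : ℝ) := by
    exact_mod_cast Int.self_le_toNat _
  push_cast at h3
  linarith

private theorem gi_mem (R : ℕ) (hR : (0 : ℝ) < R) (a rho : ℝ) (ha : |a| ≤ 3 / 2) (hr : rho ≤ 1 / 2)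
    (m : ℤ) (hm : m ∈ Icc ⌈R * (a - rho)⌉ ⌊R * (a + rho)⌋) :
    m ∈ Icc (-(2 * R : ℤ)) (2 * R) ∧ |(m : ℝ) / R - a| ≤ rho := by
  rw [mem_Icc, Int.ceil_le, Int.le_floor] at hm
  have h1 : |(m : ℝ) / R - a| ≤ rho := by
    rw [abs_le]
    have e : (m : ℝ) / R - a = ((m : ℝ) - R * a) / R := by field_simp
    rw [e, le_div_iff₀ hR, div_le_iff₀ hR]
    constructor <;> nlinarith [hm.1, hm.2]
  refine ⟨?_, h1⟩
  have h2 := abs_le.1 h1
  have h3 := abs_le.1 ha
  have h4 : (m : ℝ) / R ≤ 2 := by linarith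
  have h5 : -2 ≤ (m : ℝ) / R := by linarith
  rw [div_le_iff₀ hR] at h4
  rw [le_div_iff₀ hR] at h5
  rw [mem_Icc]
  constructor
  · have : (-(2 * (R : ℝ))) ≤ m := by linarith
    exact_mod_cast this
  · exact_mod_cast h4

theorem gset_near (w : InfinitePlace K) (R : ℕ) (a : ℂ) (ha : w.IsReal → a.im = 0)
    (ha2 : ‖a‖ ≤ 3 / 2) (rho : ℝ) (hrho : 0 < rho) (hrho1 : rho ≤ 1 / 2) (hR : 4 ≤ rho * R) :
    (rho * R / 4) ^ w.mult ≤ (((gset w R).filter fun z => ‖z - a‖ ≤ rho).card : ℝ) := by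
  classical
  have hRpos : (0 : ℝ) < R := by
    by_contra h
    push Not at h
    nlinarith
  by_cases hw : w.IsReal
  · have hm : w.mult = 1 := InfinitePlace.mult_isReal ⟨w, hw⟩
    rw [hm, pow_one, gset, if_pos hw]
    have ha0 := ha hw
    have hare : |a.re| ≤ 3 / 2 := (Complex.abs_re_le_norm a).trans ha2
    have hinj : Function.Injective fun m : ℤ => (((m : ℝ) / R : ℝ) : ℂ) := by
      intro m m' h
      have h1 : (m : ℝ) / R = m' / R := Complex.ofReal_injective h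
      have h2 : (m : ℝ) = m' := by
        field_simp at h1
        exact h1
      exact_mod_cast h2
    have hsub : (Icc ⌈R * (a.re - rho)⌉ ⌊R * (a.re + rho)⌋).image
        (fun m : ℤ => (((m : ℝ) / R : ℝ) : ℂ)) ⊆
        ((Icc (-(2 * R : ℤ)) (2 * R)).image fun m : ℤ => (((m : ℝ) / R : ℝ) : ℂ)).filter
          fun z => ‖z - a‖ ≤ rho := by
      intro z hz
      obtain ⟨m, hm, rfl⟩ := Finset.mem_image.1 hz
      obtain ⟨h1, h2⟩ := gi_mem R hRpos a.re rho hare hrho1 m hm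
      refine Finset.mem_filter.2 ⟨Finset.mem_image.2 ⟨m, h1, rfl⟩, ?_⟩
      have h3 : a = ((a.re : ℝ) : ℂ) := Complex.ext (by simp) (by simp [ha0])
      rw [h3, ← Complex.ofReal_sub, Complex.norm_real, Real.norm_eq_abs]
      exact h2
    have h1 := Finset.card_le_card hsub
    rw [Finset.card_image_of_injective _ hinj] at h1
    refine le_trans ?_ (Nat.cast_le.2 h1)
    refine le_trans ?_ (gi_card_Icc _ _)
    nlinarith
  · have hm : w.mult = 2 := by rw [InfinitePlace.mult, if_neg hw]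
    rw [hm, gset, if_neg hw]
    have hare : |a.re| ≤ 3 / 2 := (Complex.abs_re_le_norm a).trans ha2
    have haim : |a.im| ≤ 3 / 2 := (Complex.abs_im_le_norm a).trans ha2
    have hinj : Function.Injective fun p : ℤ × ℤ => (⟨(p.1 : ℝ) / R, (p.2 : ℝ) / R⟩ : ℂ) := by
      rintro ⟨m, k⟩ ⟨m', k'⟩ h
      have h1 : (m : ℝ) / R = m' / R := congrArg Complex.re h
      have h2 : (k : ℝ) / R = k' / R := congrArg Complex.im h
      have h3 : (m : ℝ) = m' := by
        field_simp at h1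
        exact h1
      have h4 : (k : ℝ) = k' := by
        field_simp at h2
        exact h2
      have h5 : m = m' := by exact_mod_cast h3
      have h6 : k = k' := by exact_mod_cast h4
      rw [h5, h6]
    have hsub : ((Icc ⌈R * (a.re - rho / 2)⌉ ⌊R * (a.re + rho / 2)⌋) ×ˢ
        (Icc ⌈R * (a.im - rho / 2)⌉ ⌊R * (a.im + rho / 2)⌋)).image
        (fun p : ℤ × ℤ => (⟨(p.1 : ℝ) / R, (p.2 : ℝ) / R⟩ : ℂ)) ⊆
        (((Icc (-(2 * R : ℤ)) (2 * R)) ×ˢ (Icc (-(2 * R : ℤ)) (2 * R))).image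
          fun p : ℤ × ℤ => (⟨(p.1 : ℝ) / R, (p.2 : ℝ) / R⟩ : ℂ)).filter
          fun z => ‖z - a‖ ≤ rho := by
      intro z hz
      obtain ⟨⟨m, k⟩, hm, rfl⟩ := Finset.mem_image.1 hz
      rw [Finset.mem_product] at hm
      obtain ⟨h1, h2⟩ := gi_mem R hRpos a.re (rho / 2) hare (by linarith) m hm.1
      obtain ⟨h3, h4⟩ := gi_mem R hRpos a.im (rho / 2) haim (by linarith) k hm.2
      refine Finset.mem_filter.2 ⟨Finset.mem_image.2 ⟨(m, k), Finset.mem_product.2 ⟨h1, h3⟩, rfl⟩,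
        ?_⟩
      refine (Complex.norm_le_abs_re_add_abs_im _).trans ?_
      simp only [Complex.sub_re, Complex.sub_im]
      linarith
    have h1 := Finset.card_le_card hsub
    rw [Finset.card_image_of_injective _ hinj, Finset.card_product] at h1
    refine le_trans ?_ (Nat.cast_le.2 h1)
    rw [sq]
    push_cast
    refine mul_le_mul (le_trans ?_ (gi_card_Icc _ _)) (le_trans ?_ (gi_card_Icc _ _))
      (by positivity) (Nat.cast_nonneg _)
    · nlinarith
    · nlinarith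

end grid

section multi
variable {ι : Type} [Fintype ι] [DecidableEq ι]
variable {K : Type} [Field K] [NumberField K]

open Classical in
private theorem gi_prod {V : Type*} [Fintype V] (S : Finset V) (f : V → ℕ) (a : ℝ) (ha : 0 ≤ a)
    (h1 : ∀ v ∈ S, a ≤ f v) (h2 : ∀ v, v ∉ S → 1 ≤ f v) :
    a ^ S.card ≤ ((∏ v, f v : ℕ) : ℝ) := by
  rw [Nat.cast_prod]
  calc a ^ S.card = ∏ v : V, (if v ∈ S then a else 1) := by
        rw [Finset.prod_ite_mem, Finset.univ_inter, Finset.prod_const]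
    _ ≤ _ := by
        refine Finset.prod_le_prod (fun v _ => by split_ifs <;> positivity) fun v _ => ?_
        split_ifs with hv
        · exact h1 v hv
        · exact_mod_cast h2 v hv

open Classical in
theorem grid_i (n : ι → ℕ) {r : ℕ} (d : Fin r → ι → ℕ) (hr : 1 ≤ r) (w : InfinitePlace K)
    (bet : ℝ) (hb : 0 < bet) :
    ∃ c th1 : ℝ, 0 < c ∧ 0 < th1 ∧ ∀ th : ℝ, 0 < th → th ≤ th1 → ∃ R0 : ℕ, ∀ R : ℕ, R0 ≤ R →
      ∀ B : PSys n d ℂ, (∀ j t, ‖B j t‖ ≤ 1) → (w.IsReal → ∀ j t, (B j t).im = 0) →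
      ∀ z0 : MVar n → ℂ, BPtI w z0 → (∀ j, MF (B j) z0 = 0) → ∀ J : Fin r → MVar n,
      bet ≤ ‖(PJac B z0 J).det‖ →
      c * (th ^ w.mult) ^ r * ((R : ℝ) ^ w.mult) ^ Fintype.card (MVar n) ≤
        (((Fintype.piFinset fun _ : MVar n => gset w R).filter fun u =>
          (∀ v, ‖u v - z0 v‖ ≤ 1 / 2) ∧ ∀ j, ‖MF (B j) u‖ ≤ th).card : ℝ) := by
  obtain ⟨kap, hkpos, hk1, hzero⟩ := zero_near n d hr bet hb
  have hK := kM_one n d
  obtain ⟨Q, hQ⟩ : ∃ Q, Q = kM n d := ⟨_, rfl⟩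
  rw [← hQ] at hK
  have hQpos : 0 < Q := by linarith
  obtain ⟨V, hV⟩ : ∃ V, V = Fintype.card (MVar n) := ⟨_, rfl⟩
  refine ⟨((kap ^ 2 / 4) ^ w.mult) ^ (V - r) * ((1 / (4 * Q)) ^ w.mult) ^ r, 1 / 4,
    by positivity, by norm_num, fun th hth hth1 => ?_⟩
  obtain ⟨rho, hrho⟩ : ∃ rho : ℝ, rho = th / Q := ⟨_, rfl⟩
  have hrpos : 0 < rho := by rw [hrho]; positivity
  have hr4 : rho ≤ 1 / 4 := by
    rw [hrho, div_le_iff₀ hQpos]
    nlinarith
  obtain ⟨R0, hR0⟩ := exists_nat_ge (4 / kap ^ 2 + 4 / rho)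
  refine ⟨R0, fun R hR B hB hBr z0 hz0 hF J hD => ?_⟩
  have hR1 : 4 / kap ^ 2 + 4 / rho ≤ (R : ℝ) := hR0.trans (by exact_mod_cast hR)
  have hRk : 4 ≤ kap ^ 2 * R := by
    have h1 : 4 / kap ^ 2 ≤ (R : ℝ) := by
      have : 0 < 4 / rho := by positivity
      linarith
    rw [div_le_iff₀ (by positivity)] at h1
    linarith
  have hRr : 4 ≤ rho * R := by
    have h1 : 4 / rho ≤ (R : ℝ) := by
      have : 0 < 4 / kap ^ 2 := by positivity
      linarith
    rw [div_le_iff₀ (by positivity)] at h1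
    linarith
  have hRpos : (0 : ℝ) < R := by
    by_contra h
    push Not at h
    nlinarith
  obtain ⟨hzr, hz1, -⟩ := hz0
  have hdet0 : (PJac B z0 J).det ≠ 0 := by
    intro h
    rw [h, norm_zero] at hD
    linarith
  have hJ : Function.Injective J := CIPHP.PJac_injective B z0 J hdet0
  have hkap2 : kap ^ 2 ≤ 1 / 2 := by nlinarith
  -- the neighbourhoods
  obtain ⟨N, hN⟩ : ∃ N : ℂ → ℝ → Finset ℂ, N = fun a q => (gset w R).filter fun z => ‖z - a‖ ≤ q :=
    ⟨_, rfl⟩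
  have hNm : ∀ a q z, z ∈ N a q ↔ z ∈ gset w R ∧ ‖z - a‖ ≤ q := by
    intro a q z
    rw [hN]
    exact Finset.mem_filter
  have hNc : ∀ (a : ℂ) (q : ℝ), (w.IsReal → a.im = 0) → ‖a‖ ≤ 3 / 2 → 0 < q → q ≤ 1 / 2 → 4 ≤ q * R →
      (q * R / 4) ^ w.mult ≤ ((N a q).card : ℝ) := by
    intro a q h1 h2 h3 h4 h5
    rw [hN]
    exact gset_near w R a h1 h2 q h3 h4 h5
  obtain ⟨RJ, hRJ⟩ : ∃ RJ : Finset (MVar n), RJ = univ.image J := ⟨_, rfl⟩
  have hRJm : ∀ v, v ∈ RJ ↔ ∃ l, J l = v := by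
    intro v
    rw [hRJ, Finset.mem_image]
    simp
  have hRJc : RJ.card = r := by
    rw [hRJ, Finset.card_image_of_injective _ hJ, Finset.card_univ, Fintype.card_fin]
  have hrV : r ≤ V := by
    rw [← hRJc, hV]
    exact Finset.card_le_univ _
  -- the values off `J`
  obtain ⟨PY, hPY⟩ : ∃ PY : Finset (MVar n → ℂ), PY = Fintype.piFinset fun v =>
    if v ∈ RJ then {0} else N (z0 v) (kap ^ 2) := ⟨_, rfl⟩
  have hPYm : ∀ y ∈ PY, ∀ v, v ∉ RJ → y v ∈ N (z0 v) (kap ^ 2) := by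
    intro y hy v hv
    rw [hPY, Fintype.mem_piFinset] at hy
    have := hy v
    rwa [if_neg hv] at this
  have hPYm0 : ∀ y ∈ PY, ∀ v, v ∈ RJ → y v = 0 := by
    intro y hy v hv
    rw [hPY, Fintype.mem_piFinset] at hy
    have := hy v
    rwa [if_pos hv, Finset.mem_singleton] at this
  have hPYc : ((kap ^ 2 * R / 4) ^ w.mult) ^ (V - r) ≤ (PY.card : ℝ) := by
    have h1 : (RJᶜ).card = V - r := by rw [Finset.card_compl, hRJc, hV]
    rw [hPY, Fintype.card_piFinset, ← h1]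
    refine gi_prod RJᶜ _ _ (by positivity) (fun v hv => ?_) (fun v hv => ?_)
    · rw [Finset.mem_compl] at hv
      rw [if_neg hv]
      exact hNc (z0 v) (kap ^ 2) (fun hw => hzr hw v) ((hz1 v).trans (by norm_num))
        (by positivity) hkap2 hRk
    · rw [Finset.mem_compl, not_not] at hv
      rw [if_pos hv, Finset.card_singleton]
  -- the zeros
  have hex : ∀ y ∈ PY, ∃ t : Fin r → ℂ, (∀ l, ‖t l - z0 (J l)‖ ≤ kap) ∧
      (∀ j, MF (B j) (Function.extend J t y) = 0) ∧ (w.IsReal → ∀ l, (t l).im = 0) := by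
    intro y hy
    obtain ⟨t, ⟨ht1, ht2⟩, ht3⟩ := hzero B hB z0 y J hJ hz1 hF hD (fun v hv =>
      ((hNm _ _ _).1 (hPYm y hy v (fun h => by
        obtain ⟨l, hl⟩ := (hRJm v).1 h
        exact hv l hl))).2)
    refine ⟨t, ht1, ht2, fun hw l => ?_⟩
    have hyr : ∀ v, (y v).im = 0 := by
      intro v
      by_cases hv : v ∈ RJ
      · rw [hPYm0 y hy v hv]
        simp
      · exact gset_real w R hw _ ((hNm _ _ _).1 (hPYm y hy v hv)).1
    have h1 : (fun l => (starRingEnd ℂ) (t l)) = t := by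
      refine ht3 _ (fun l => ?_) (fun j => ?_)
      · have h2 : (starRingEnd ℂ) (t l) - z0 (J l) = (starRingEnd ℂ) (t l - z0 (J l)) := by
          rw [map_sub, Complex.conj_eq_iff_im.2 (hzr hw (J l))]
        rw [h2, RCLike.norm_conj]
        exact ht1 l
      · have h2 : (Function.extend J (fun l => (starRingEnd ℂ) (t l)) y) =
            fun v => (starRingEnd ℂ) (Function.extend J t y v) := by
          funext v
          by_cases hv : ∃ l, J l = v
          · obtain ⟨l, rfl⟩ := hv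
            rw [hJ.extend_apply, hJ.extend_apply]
          · rw [Function.extend_apply' _ _ _ hv, Function.extend_apply' _ _ _ hv,
              Complex.conj_eq_iff_im.2 (hyr v)]
        have h3 : B j = fun s => (starRingEnd ℂ) (B j s) := by
          funext s
          rw [Complex.conj_eq_iff_im.2 (hBr hw j s)]
        rw [h2, h3, MF_map, ht2 j, map_zero]
    have h2 := congrFun h1 l
    exact Complex.conj_eq_iff_im.1 h2
  choose! t ht1 ht2 ht3 using hex
  -- the points for one `y`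
  obtain ⟨TT, hTT⟩ : ∃ TT : (MVar n → ℂ) → Finset (MVar n → ℂ), TT = fun y =>
    Fintype.piFinset fun v => if v ∈ RJ then N (Function.extend J (t y) y v) rho else {y v} :=
    ⟨_, rfl⟩
  have hTm : ∀ y u, u ∈ TT y → ∀ v, v ∈ RJ → u v ∈ N (Function.extend J (t y) y v) rho := by
    intro y u hu v hv
    rw [hTT] at hu
    have := Fintype.mem_piFinset.1 hu v
    rwa [if_pos hv] at this
  have hTm0 : ∀ y u, u ∈ TT y → ∀ v, v ∉ RJ → u v = y v := by
    intro y u hu v hv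
    rw [hTT] at hu
    have := Fintype.mem_piFinset.1 hu v
    rwa [if_neg hv, Finset.mem_singleton] at this
  have hTc : ∀ y ∈ PY, ((rho * R / 4) ^ w.mult) ^ r ≤ ((TT y).card : ℝ) := by
    intro y hy
    rw [hTT]
    show _ ≤ ((Fintype.piFinset fun v => if v ∈ RJ then
      N (Function.extend J (t y) y v) rho else {y v}).card : ℝ)
    rw [Fintype.card_piFinset]
    have h0 := gi_prod RJ (fun v => (if v ∈ RJ then
      N (Function.extend J (t y) y v) rho else {y v}).card) ((rho * R / 4) ^ w.mult)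
      (by positivity) (fun v hv => ?_) (fun v hv => ?_)
    · rw [hRJc] at h0
      exact h0
    · obtain ⟨l, rfl⟩ := (hRJm v).1 hv
      rw [if_pos hv, hJ.extend_apply]
      refine hNc (t y l) rho (fun hw => ht3 y hy hw l) ?_ hrpos (by linarith) hRr
      have h1 : t y l = (t y l - z0 (J l)) + z0 (J l) := by ring
      rw [h1]
      refine (norm_add_le _ _).trans ?_
      linarith [ht1 y hy l, hz1 (J l)]
    · rw [if_neg hv, Finset.card_singleton]
  -- the union
  have hdisj : ∀ y ∈ PY, ∀ y' ∈ PY, y ≠ y' → Disjoint (TT y) (TT y') := by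
    intro y hy y' hy' hne
    rw [Finset.disjoint_left]
    intro u hu hu'
    apply hne
    funext v
    by_cases hv : v ∈ RJ
    · rw [hPYm0 y hy v hv, hPYm0 y' hy' v hv]
    · rw [← hTm0 y u hu v hv, ← hTm0 y' u hu' v hv]
  have hcard : ((kap ^ 2 * R / 4) ^ w.mult) ^ (V - r) * ((rho * R / 4) ^ w.mult) ^ r ≤
      ((PY.biUnion TT).card : ℝ) := by
    rw [Finset.card_biUnion hdisj, Nat.cast_sum]
    calc ((kap ^ 2 * R / 4) ^ w.mult) ^ (V - r) * ((rho * R / 4) ^ w.mult) ^ r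
        ≤ PY.card * ((rho * R / 4) ^ w.mult) ^ r :=
          mul_le_mul_of_nonneg_right hPYc (by positivity)
      _ = ∑ _y ∈ PY, ((rho * R / 4) ^ w.mult) ^ r := by rw [Finset.sum_const, nsmul_eq_mul]
      _ ≤ _ := Finset.sum_le_sum fun y hy => hTc y hy
  have hsub : PY.biUnion TT ⊆ (Fintype.piFinset fun _ : MVar n => gset w R).filter fun u =>
          (∀ v, ‖u v - z0 v‖ ≤ 1 / 2) ∧ ∀ j, ‖MF (B j) u‖ ≤ th := by
    intro u hu
    obtain ⟨y, hy, hu⟩ := Finset.mem_biUnion.1 hu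
    have hx : ∀ v, ‖Function.extend J (t y) y v - z0 v‖ ≤ kap := by
      intro v
      by_cases hv : v ∈ RJ
      · obtain ⟨l, rfl⟩ := (hRJm v).1 hv
        rw [hJ.extend_apply]
        exact ht1 y hy l
      · rw [Function.extend_apply' _ _ _ (fun h => hv ((hRJm v).2 h))]
        refine ((hNm _ _ _).1 (hPYm y hy v hv)).2.trans ?_
        nlinarith
    have hux : ∀ v, ‖u v - Function.extend J (t y) y v‖ ≤ rho := by
      intro v
      by_cases hv : v ∈ RJ
      · exact ((hNm _ _ _).1 (hTm y u hu v hv)).2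
      · rw [hTm0 y u hu v hv, Function.extend_apply' _ _ _ (fun h => hv ((hRJm v).2 h)), sub_self,
          norm_zero]
        exact hrpos.le
    rw [Finset.mem_filter, Fintype.mem_piFinset]
    refine ⟨fun v => ?_, fun v => ?_, fun j => ?_⟩
    · by_cases hv : v ∈ RJ
      · exact ((hNm _ _ _).1 (hTm y u hu v hv)).1
      · rw [hTm0 y u hu v hv]
        exact ((hNm _ _ _).1 (hPYm y hy v hv)).1
    · have h1 : u v - z0 v = (u v - Function.extend J (t y) y v) +
        (Function.extend J (t y) y v - z0 v) := by ring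
      rw [h1]
      refine (norm_add_le _ _).trans ?_
      linarith [hux v, hx v]
    · have h2 : ∀ v, ‖Function.extend J (t y) y v‖ ≤ 2 := by
        intro v
        have h3 : Function.extend J (t y) y v = (Function.extend J (t y) y v - z0 v) + z0 v := by
          ring
        rw [h3]
        refine (norm_add_le _ _).trans ?_
        linarith [hx v, hz1 v]
      have h4 := kM_lip B (Function.extend J (t y) y) u 1 rho hB h2 (by linarith) hux hrpos.le j
      rw [ht2 y hy j, sub_zero, mul_one, ← hQ, hrho] at h4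
      refine h4.trans (le_of_eq ?_)
      field_simp
  have hfin : ((PY.biUnion TT).card : ℝ) ≤ (((Fintype.piFinset fun _ : MVar n => gset w R).filter
      fun u => (∀ v, ‖u v - z0 v‖ ≤ 1 / 2) ∧ ∀ j, ‖MF (B j) u‖ ≤ th).card : ℝ) := by
    exact_mod_cast Finset.card_le_card hsub
  refine le_trans (le_of_eq ?_) (hcard.trans hfin)
  rw [← hV]
  have h5 : ((R : ℝ) ^ w.mult) ^ V = ((R : ℝ) ^ w.mult) ^ (V - r) * ((R : ℝ) ^ w.mult) ^ r := by
    rw [← pow_add, Nat.sub_add_cancel hrV]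
  rw [h5]
  have e1 : kap ^ 2 * (R : ℝ) / 4 = (kap ^ 2 / 4) * R := by ring
  have e2 : rho * (R : ℝ) / 4 = (1 / (4 * Q)) * th * R := by
    rw [hrho]
    field_simp
  rw [e1, e2, mul_pow (kap ^ 2 / 4), mul_pow ((kap ^ 2 / 4) ^ w.mult), mul_pow (1 / (4 * Q) * th),
    mul_pow (1 / (4 * Q)), mul_pow ((1 / (4 * Q)) ^ w.mult * th ^ w.mult),
    mul_pow ((1 / (4 * Q)) ^ w.mult)]
  ring

end multi

end NKPHP
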