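import Pool.Agent.Lib.MP_e426f4_ag.NKP.ClassCard
import Pool.Agent.Lib.MP_e426f4_ag.P.Alg
import Pool.Agent.Lib.MP_e426f4_ag.M.Spec

/-! Module NKP-PosProp: a positive proportion of the systems is soluble. -/

set_option linter.unusedSectionVars false

namespace NKPHP

open NumberField GenHP NFHP NKHP Finset Filter Topology
open CIPHP (PSys NP PJac blk pev)

section multi
variable {ι : Type} [Fintype ι] [DecidableEq ι] {n : ι → ℕ} {r : ℕ} {d : Fin r → ι → ℕ}

/-- base point -/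
private def pp_e (R : Type) [CommRing R] : MVar n → R := fun v => if v.2 = 0 then 1 else 0

/-- the special variables -/
private def pp_v {i0 : ι} (hn0 : r ≤ n i0) (j : Fin r) : Fin (n i0 + 1) :=
  ⟨(j : ℕ) + 1, by have := j.2; omega⟩

private theorem pp_v_ne {i0 : ι} (hn0 : r ≤ n i0) (j : Fin r) : pp_v hn0 j ≠ 0 := by
  intro h
  have := congrArg Fin.val h
  simp [pp_v] at this

private theorem pp_v_inj {i0 : ι} (hn0 : r ≤ n i0) {j l : Fin r} (h : pp_v hn0 j = pp_v hn0 l) :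
    j = l := by
  have := congrArg Fin.val h
  simp only [pp_v] at this
  exact Fin.ext (by omega)

private theorem pp_mon (R : Type) [CommRing R] {d : ι → ℕ} (v : MVar n) (hv : v.2 ≠ 0)
    (hd : ∀ i, 1 ≤ d i) :
    mon (pp_e (n := n) R) (mex (ms1 (fun _ => 0) v : MIdx n d)) = 0 := by
  have h1 : mex (ms1 (fun _ => 0) v : MIdx n d) v ≠ 0 := by
    have h2 := dmon_ms1 (R := ℤ) hd (fun _ => 0) (fun _ => 1) v hv
    intro h3
    unfold dmon at h2
    rw [h3] at h2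
    simp at h2
  unfold mon
  refine Finset.prod_eq_zero (Finset.mem_univ v) ?_
  unfold pp_e
  rw [if_neg hv, zero_pow h1]

private theorem pp_dmon (R : Type) [CommRing R] {d : ι → ℕ} (v : MVar n) (hv : v.2 ≠ 0)
    (hd : ∀ i, 1 ≤ d i) :
    dmon (pp_e (n := n) R) v (mex (ms1 (fun _ => 0) v : MIdx n d)) = 1 := by
  rw [dmon_ms1 hd (fun _ => 0) _ v hv]
  have h0 : ∀ i, pp_e (n := n) R ⟨i, 0⟩ = 1 := fun i => by simp [pp_e]
  rw [h0, one_pow, one_mul]
  exact Finset.prod_eq_one fun i _ => by rw [h0, one_pow]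

/-- the special system -/
private noncomputable def pp_A (R : Type) [CommRing R] (d : Fin r → ι → ℕ) {i0 : ι}
    (hn0 : r ≤ n i0) (c : R) : PSys n d R :=
  open Classical in fun j t => if t = ms1 (fun _ => 0) ⟨i0, pp_v hn0 j⟩ then c else 0

private theorem pp_MF (R : Type) [CommRing R] {i0 : ι} (hn0 : r ≤ n i0) (c : R)
    (hd : ∀ j i, 1 ≤ d j i) (j : Fin r) : MF (pp_A R d hn0 c j) (pp_e R) = 0 := by
  classical
  unfold MF Fg
  rw [Finset.sum_eq_single (ms1 (fun _ => 0) ⟨i0, pp_v hn0 j⟩)]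
  · rw [pp_mon R _ (pp_v_ne hn0 j) (hd j), mul_zero]
  · intro b _ hb
    simp [pp_A, hb]
  · intro h
    exact absurd (Finset.mem_univ _) h

private theorem pp_MD (R : Type) [CommRing R] {i0 : ι} (hn0 : r ≤ n i0) (c : R)
    (hd : ∀ j i, 1 ≤ d j i) (j l : Fin r) :
    MD (pp_A R d hn0 c j) (pp_e R) ⟨i0, pp_v hn0 l⟩ = if j = l then c else 0 := by
  classical
  unfold MD Dg
  rw [Finset.sum_eq_single (ms1 (fun _ => 0) ⟨i0, pp_v hn0 j⟩)]
  · by_cases h : j = l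
    · subst h
      rw [pp_dmon R _ (pp_v_ne hn0 j) (hd j), mul_one, if_pos rfl]
      simp [pp_A]
    · rw [dmon_ms1_of_ne (fun _ => 0) (pp_e R) ⟨i0, pp_v hn0 l⟩ ⟨i0, pp_v hn0 j⟩
        (pp_v_ne hn0 l) (pp_v_ne hn0 j), mul_zero, if_neg h]
      intro h1
      simp only [Sigma.mk.injEq, heq_eq_eq, true_and] at h1
      exact h (pp_v_inj hn0 h1).symm
  · intro b _ hb
    simp [pp_A, hb]
  · intro h
    exact absurd (Finset.mem_univ _) h

private theorem pp_det (R : Type) [CommRing R] {i0 : ι} (hn0 : r ≤ n i0) (c : R)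
    (hd : ∀ j i, 1 ≤ d j i) :
    (PJac (pp_A R d hn0 c) (pp_e R) (blk i0 (pp_v hn0))).det = c ^ r := by
  have h : PJac (pp_A R d hn0 c) (pp_e R) (blk i0 (pp_v hn0)) =
      Matrix.diagonal fun _ : Fin r => c := by
    ext j l
    rw [Matrix.diagonal_apply]
    simp only [PJac, Matrix.of_apply]
    exact pp_MD R hn0 c hd j l
  rw [h, Matrix.det_diagonal, Finset.prod_const, Finset.card_univ, Fintype.card_fin]

section field
variable {K : Type} [Field K] [NumberField K]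

private theorem pp_goodP {i0 : ι} (hn0 : r ≤ n i0) (hd : ∀ j i, 1 ≤ d j i) (P : Ideal (𝓞 K))
    (hP : P.IsMaximal) (W : ℕ) (hW : (W : 𝓞 K) ∈ P) :
    PGoodPK i0 P (1 * vW W P) (pp_A (𝓞 K) d hn0 1) := by
  have h1 : (1 : 𝓞 K) ∉ P := fun h => hP.ne_top ((Ideal.eq_top_iff_one P).mpr h)
  refine ⟨pp_e (𝓞 K), fun i => ⟨0, by simpa [pp_e] using h1⟩, fun j => ?_, pp_v hn0, ?_⟩
  · rw [pp_MF (𝓞 K) hn0 1 hd j]
    exact Ideal.zero_mem _
  · rw [pp_det (𝓞 K) hn0 1 hd, one_pow, one_mul]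
    intro h
    have h2 : vW W P ≠ 0 := by
      unfold vW
      rw [multiplicity_ne_zero, Ideal.dvd_span_singleton]
      exact hW
    exact h1 (Ideal.pow_le_self h2 h)

/-- coordinates of the number `1` -/
private noncomputable def ppOne (K : Type) [Field K] [NumberField K] (j : IK K) : ℝ :=
  (crd (1 : 𝓞 K) j : ℝ)

private theorem lam_ppOne (w : InfinitePlace K) : lam (ppOne K) w = 1 := by
  unfold ppOne
  rw [lam_crd, map_one]

private theorem ppOne_le (j : IK K) : |ppOne K j| ≤ cK K := by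
  unfold ppOne
  have h := crd_le_of_norm_sg (a := (1 : 𝓞 K)) (R := 1) (fun w => by rw [map_one, norm_one]) j
  rwa [mul_one] at h

end field

theorem p_pos_solubleK (K : Type) [Field K] [NumberField K] (n : ι → ℕ) {r : ℕ}
    (d : Fin r → ι → ℕ) (hd : ∀ j i, 1 ≤ d j i) (i0 : ι) (hn0 : r ≤ n i0)
    (hcls : PCLSK K n d i0) : ∃ c : ℝ, 0 < c ∧ ∀ᶠ H : ℕ in atTop,
      c * (2 * H + 1) ^ (mK K * NP n d) ≤
        (Set.ncard {A : PSys n d (𝓞 K) | A ∈ BoxP K n d H ∧ PSolubleK A} : ℝ) := by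
  classical
  have hcK := cK_pos (K := K)
  have hcK1 := one_le_cK (K := K)
  obtain ⟨w1, hclass⟩ := hcls (1 / 4) (by norm_num)
  obtain ⟨W, hW⟩ : ∃ W : ℕ, W = max w1 2 := ⟨_, rfl⟩
  obtain ⟨bet, hbet⟩ : ∃ bet : ℝ, bet = (1 / 2 / cK K) ^ r := ⟨_, rfl⟩
  have hbet0 : 0 < bet := by rw [hbet]; positivity
  have hbet1 : bet ≤ 1 := by
    rw [hbet]
    refine pow_le_one₀ (by positivity) ?_
    rw [div_div, div_le_one (by positivity)]
    linarith
  obtain ⟨rho0, hrho0, hrho01, hclass⟩ := hclass W (by rw [hW]; exact le_max_left _ _)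
    (by rw [hW]; exact le_max_right _ _) bet hbet0 hbet1
  obtain ⟨rho, hrho⟩ : ∃ rho : ℝ, rho = min rho0 (1 / 2) := ⟨_, rfl⟩
  have hr0 : 0 < rho := by rw [hrho]; exact lt_min hrho0 (by norm_num)
  have hr1 : rho ≤ rho0 := by rw [hrho]; exact min_le_left _ _
  have hr2 : rho ≤ 1 / 2 := by rw [hrho]; exact min_le_right _ _
  have hprim : 0 < primorial W := primorial_pos W
  obtain ⟨A0, hA0⟩ : ∃ A0 : PSys n d (𝓞 K), A0 = pp_A (𝓞 K) d hn0 1 := ⟨_, rfl⟩
  obtain ⟨Ainf, hAinf⟩ : ∃ Ainf : PSys n d (IK K → ℝ),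
      Ainf = fun j t l => pp_A ℝ d hn0 (1 / 2) j t / cK K * ppOne K l := ⟨_, rfl⟩
  have hsys : ∀ w : InfinitePlace K,
      sysPC Ainf w = pp_A ℂ d hn0 ((1 / 2 / cK K : ℝ) : ℂ) := by
    intro w
    funext j t
    rw [hAinf]
    show lam (fun l => pp_A ℝ d hn0 (1 / 2) j t / cK K * ppOne K l) w = _
    rw [lam_smul, lam_ppOne, mul_one]
    unfold pp_A
    split_ifs <;> simp
  have hAle : ∀ j t l, |Ainf j t l| ≤ 1 / 2 := by
    intro j t l
    rw [hAinf]
    show |pp_A ℝ d hn0 (1 / 2) j t / cK K * ppOne K l| ≤ 1 / 2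
    have h1 : |pp_A ℝ d hn0 (1 / 2) j t| ≤ 1 / 2 := by
      unfold pp_A
      split_ifs
      · rw [abs_of_pos (by norm_num)]
      · rw [abs_zero]
        norm_num
    rw [abs_mul, abs_div, abs_of_pos hcK]
    calc |pp_A ℝ d hn0 (1 / 2) j t| / cK K * |ppOne K l|
        ≤ |pp_A ℝ d hn0 (1 / 2) j t| / cK K * cK K :=
          mul_le_mul_of_nonneg_left (ppOne_le l) (by positivity)
      _ = |pp_A ℝ d hn0 (1 / 2) j t| := by field_simp
      _ ≤ 1 / 2 := h1
  have hGI : ∀ w', PGoodIK i0 w' rho0 bet (sysPC Ainf w') := by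
    intro w'
    rw [hsys]
    refine ⟨pp_e ℂ, ⟨fun _ v => ?_, fun v => ?_, fun i => ⟨0, by simp [pp_e]⟩⟩, fun j => ?_,
      pp_v hn0, ?_⟩
    · unfold pp_e
      split_ifs <;> simp
    · unfold pp_e
      split_ifs <;> simp
    · rw [pp_MF ℂ hn0 _ hd j, norm_zero]
      exact hrho0.le
    · rw [pp_det ℂ hn0 _ hd, norm_pow, Complex.norm_real, Real.norm_eq_abs,
        abs_of_pos (by positivity), hbet]
  have hN := hclass rho hr0 hr1 1 le_rfl A0 (fun P hP hPW => by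
    rw [hA0]
    exact pp_goodP hn0 hd P hP _ hPW) Ainf Ainf (fun j t l => (hAle j t l).trans (by norm_num))
    (fun j t l => by rw [sub_self, abs_zero]; exact hr0.le) hGI
  have hcard := tendsto_natCast_atTop_atTop.eventually
    (pclassK_card Ainf A0 (primorial W ^ (2 * 1)) (pow_pos hprim _) rho (1 / 2) hr0 (by norm_num))
  have hN' := tendsto_natCast_atTop_atTop.eventually hN
  have hQr : ((primorial W ^ (2 * 1) : ℕ) : ℝ) = (primorial W : ℝ) ^ (2 * 1) := by push_cast; rfl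
  refine ⟨(1 / 4) * (2 * rho / (3 * (primorial W : ℝ) ^ (2 * 1))) ^ (mK K * NP n d),
    by positivity, ?_⟩
  filter_upwards [hN', hcard, eventually_ge_atTop 1] with H h1 h2 h3
  obtain ⟨h4, _⟩ := h2
  rw [hQr] at h4
  have hH1 : (1 : ℝ) ≤ H := by exact_mod_cast h3
  have hH0 : (0 : ℝ) < H := by linarith
  set X : ℝ := (2 * rho * H / (primorial W : ℝ) ^ (2 * 1)) ^ (mK K * NP n d) with hX
  have hX0 : 0 ≤ X := by positivity
  set N : Set (PSys n d (𝓞 K)) := {A : PSys n d (𝓞 K) |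
      (∀ j t l, |(crd (A j t) l : ℝ) - H * Ainf j t l| ≤ rho * H) ∧
      (∀ j t, (((primorial W) ^ (2 * 1) : ℕ) : 𝓞 K) ∣ A j t - A0 j t) ∧ ¬ PSolubleK A} with hNdef
  set S : Set (PSys n d (𝓞 K)) :=
    {A : PSys n d (𝓞 K) | A ∈ BoxP K n d H ∧ PSolubleK A} with hS'
  set Q : Set (PSys n d (𝓞 K)) := {A : PSys n d (𝓞 K) |
      (∀ j t l, |(crd (A j t) l : ℝ) - H * Ainf j t l| ≤ rho * H) ∧
      ∀ j t, (((primorial W) ^ (2 * 1) : ℕ) : 𝓞 K) ∣ A j t - A0 j t} with hQdef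
  have hsub : Q ⊆ N ∪ S := by
    rintro A ⟨hA, hA'⟩
    by_cases hsol : PSolubleK A
    · right
      refine ⟨?_, hsol⟩
      intro j t l
      have h6 : |(crd (A j t) l : ℝ) - H * Ainf j t l| ≤ rho * H := hA j t l
      have h7 : |(H : ℝ) * Ainf j t l| ≤ H * (1 / 2) := by
        rw [abs_mul, abs_of_nonneg hH0.le]
        exact mul_le_mul_of_nonneg_left (hAle j t l) hH0.le
      have h9 : (crd (A j t) l : ℝ) = ((crd (A j t) l : ℝ) - H * Ainf j t l) + H * Ainf j t l := by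
        ring
      rw [h9]
      refine (abs_add_le _ _).trans ?_
      nlinarith
    · left
      exact ⟨hA, hA', hsol⟩
  have hSfin : S.Finite := (BoxP_finite (H : ℝ)).subset fun A hA => hA.1
  have hNfin : N.Finite := pclassK_finite Ainf rho H _
  have hle : (Q.ncard : ℝ) ≤ (N.ncard : ℝ) + (S.ncard : ℝ) := by
    have h5 := Set.ncard_le_ncard hsub (hNfin.union hSfin)
    have h6 := Set.ncard_union_le N S
    exact_mod_cast h5.trans h6
  have h1' : (N.ncard : ℝ) ≤ 1 / 4 * X := h1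
  have h4' : (1 - 1 / 2) * X ≤ (Q.ncard : ℝ) := h4
  have hSX : 1 / 4 * X ≤ (S.ncard : ℝ) := by linarith
  refine le_trans ?_ hSX
  have h5 : (2 * (H : ℝ) + 1) ^ (mK K * NP n d) ≤ (3 * H) ^ (mK K * NP n d) :=
    pow_le_pow_left₀ (by positivity) (by linarith) _
  have h6 : (2 * rho / (3 * (primorial W : ℝ) ^ (2 * 1))) ^ (mK K * NP n d) *
      (3 * (H : ℝ)) ^ (mK K * NP n d) = X := by
    rw [hX, ← mul_pow]
    congr 1
    field_simp
  calc (1 / 4) * (2 * rho / (3 * (primorial W : ℝ) ^ (2 * 1))) ^ (mK K * NP n d) *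
        (2 * (H : ℝ) + 1) ^ (mK K * NP n d)
      ≤ (1 / 4) * (2 * rho / (3 * (primorial W : ℝ) ^ (2 * 1))) ^ (mK K * NP n d) *
        (3 * H) ^ (mK K * NP n d) :=
        mul_le_mul_of_nonneg_left h5 (by positivity)
    _ = 1 / 4 * ((2 * rho / (3 * (primorial W : ℝ) ^ (2 * 1))) ^ (mK K * NP n d) *
        (3 * (H : ℝ)) ^ (mK K * NP n d)) := by
        ring
    _ = 1 / 4 * X := by rw [h6]

end multi

end NKPHP
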