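import Pool.Agent.Lib.MP_e426f4_ag.NK.HouseAbs
import Pool.Agent.Lib.MP_e426f4_ag.NKP.PosProp
import Pool.Agent.Lib.MP_e426f4_ag.NKP.FewSing
import Pool.Agent.Lib.MP_e426f4_ag.NKP.Els

/-! Module NKP-House: the final count in the house ordering, blocks. -/

set_option linter.unusedSectionVars false

namespace NKPHP

open NumberField GenHP NFHP NKHP Finset Filter Topology
open CIPHP (PSys NP PJac blk pev)

section multi
variable {ι : Type} [Fintype ι] [DecidableEq ι]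
variable {K : Type} [Field K] [NumberField K] {n : ι → ℕ} {r : ℕ} {d : Fin r → ι → ℕ}

private theorem pos_smoothP (hr : 1 ≤ r) (hd : ∀ j i, 1 ≤ d j i)
    (hpos : ∃ c : ℝ, 0 < c ∧ ∀ᶠ H : ℕ in atTop, c * (2 * H + 1) ^ (mK K * NP n d) ≤
      (Set.ncard {A : PSys n d (𝓞 K) | A ∈ BoxP K n d H ∧ PSolubleK A} : ℝ)) :
    ∃ c : ℝ, 0 < c ∧ ∀ᶠ H : ℕ in atTop, c * (2 * H + 1) ^ (mK K * NP n d) ≤
      (Set.ncard {A : PSys n d (𝓞 K) | A ∈ BoxP K n d H ∧ (PSmoothK A ∧ PSolubleK A)} : ℝ) := by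
  obtain ⟨c, hc, hpos⟩ := hpos
  refine ⟨c / 2, by positivity, ?_⟩
  filter_upwards [hpos, few_singularP (n := n) K hr hd (c / 2) (by positivity)] with H h1 h2
  have h3 : {A : PSys n d (𝓞 K) | A ∈ BoxP K n d H ∧ PSolubleK A} ⊆
      {A | A ∈ BoxP K n d H ∧ (PSmoothK A ∧ PSolubleK A)} ∪
        {A | A ∈ BoxP K n d H ∧ ¬ PSmoothK A} := by
    rintro A ⟨hA, hA'⟩
    by_cases h : PSmoothK A
    · exact Or.inl ⟨hA, h, hA'⟩
    · exact Or.inr ⟨hA, h⟩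
  have h4 := (Set.ncard_le_ncard h3 (((BoxP_finite (H : ℝ)).subset fun A hA => hA.1).union
    ((BoxP_finite (H : ℝ)).subset fun A hA => hA.1))).trans (Set.ncard_union_le _ _)
  have h5 : (Set.ncard {A : PSys n d (𝓞 K) | A ∈ BoxP K n d H ∧ PSolubleK A} : ℝ) ≤
      (Set.ncard {A : PSys n d (𝓞 K) | A ∈ BoxP K n d H ∧ (PSmoothK A ∧ PSolubleK A)} : ℝ) +
      (Set.ncard {A : PSys n d (𝓞 K) | A ∈ BoxP K n d H ∧ ¬ PSmoothK A} : ℝ) := by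
    exact_mod_cast h4
  linarith

/-- NKP-House: `hpos` is a positive proportion of soluble systems, `hex` the estimate of the
exceptional set. -/
theorem house_finalP_of (hr : 1 ≤ r) (hd : ∀ j i, 1 ≤ d j i)
    (hpos : ∃ c : ℝ, 0 < c ∧ ∀ᶠ H : ℕ in atTop, c * (2 * H + 1) ^ (mK K * NP n d) ≤
      (Set.ncard {A : PSys n d (𝓞 K) | A ∈ BoxP K n d H ∧ PSolubleK A} : ℝ))
    (hex : ∀ eps : ℝ, 0 < eps → ∀ᶠ H : ℕ in atTop,
      (Set.ncard {A : PSys n d (𝓞 K) | A ∈ BoxP K n d H ∧ PELSeK A ∧ ¬ PSolubleK A} : ℝ) ≤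
        eps * (2 * H + 1) ^ (mK K * NP n d)) :
    (∃ c : ℝ, 0 < c ∧ ∀ᶠ H : ℕ in atTop, c * ((HouseP K n d H).ncard : ℝ) ≤
      (Set.ncard {A : PSys n d (𝓞 K) | A ∈ HouseP K n d H ∧ PSmoothK A ∧ PSolubleK A} : ℝ)) ∧
    (∀ eps : ℝ, 0 < eps → ∀ᶠ H : ℕ in atTop,
      (Set.ncard {A : PSys n d (𝓞 K) | A ∈ HouseP K n d H ∧ PELSK A ∧ ¬ PSolubleK A} : ℝ) ≤
        eps * ((HouseP K n d H).ncard : ℝ)) ∧
    ∀ eps : ℝ, 0 < eps → ∀ᶠ H : ℕ in atTop,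
      (Set.ncard {A : PSys n d (𝓞 K) | A ∈ HouseP K n d H ∧ ¬ PSmoothK A} : ℝ) ≤
        eps * ((HouseP K n d H).ncard : ℝ) := by
  have hc1 : 1 ≤ cK K := one_le_cK
  have hfin : ∀ R : ℕ, (BoxP K n d R).Finite := fun R => BoxP_finite (R : ℝ)
  refine ⟨house_pos (Bx := fun R : ℕ => BoxP K n d R) (Hs := fun H : ℕ => HouseP K n d H) hc1 hfin
      (fun R => card_BoxP R) houseP_sub1 houseP_sub2 {A | PSmoothK A ∧ PSolubleK A}
      (pos_smoothP hr hd hpos),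
      fun eps heps => ?_, fun eps heps => ?_⟩
  · refine house_small (Bx := fun R : ℕ => BoxP K n d R) (Hs := fun H : ℕ => HouseP K n d H) hc1
      hfin (fun R => card_BoxP R) houseP_sub1 houseP_sub2 {A | PELSK A ∧ ¬ PSolubleK A} ?_ eps heps
    intro eps' heps'
    filter_upwards [hex eps' heps'] with H hH
    refine le_trans ?_ hH
    have h1 : {A : PSys n d (𝓞 K) | A ∈ BoxP K n d H ∧ A ∈ {A | PELSK A ∧ ¬ PSolubleK A}} ⊆
        {A | A ∈ BoxP K n d H ∧ PELSeK A ∧ ¬ PSolubleK A} := by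
      rintro A ⟨hA, h2, h3⟩
      exact ⟨hA, PELSeK_of_PELSK A h2, h3⟩
    exact_mod_cast Set.ncard_le_ncard h1 ((hfin H).subset fun A hA => hA.1)
  · exact house_small (Bx := fun R : ℕ => BoxP K n d R) (Hs := fun H : ℕ => HouseP K n d H) hc1
      hfin (fun R => card_BoxP R) houseP_sub1 houseP_sub2 {A | ¬ PSmoothK A}
      (fun eps' heps' => few_singularP (n := n) K hr hd eps' heps') eps heps

/-- NKP-House: `hcls` is the class theorem with respect to the block `i0`, `hex` the estimate of the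
exceptional set. -/
theorem house_finalP (hr : 1 ≤ r) (hd : ∀ j i, 1 ≤ d j i) (i0 : ι) (hn0 : r ≤ n i0)
    (hcls : PCLSK K n d i0)
    (hex : ∀ eps : ℝ, 0 < eps → ∀ᶠ H : ℕ in atTop,
      (Set.ncard {A : PSys n d (𝓞 K) | A ∈ BoxP K n d H ∧ PELSeK A ∧ ¬ PSolubleK A} : ℝ) ≤
        eps * (2 * H + 1) ^ (mK K * NP n d)) :
    (∃ c : ℝ, 0 < c ∧ ∀ᶠ H : ℕ in atTop, c * ((HouseP K n d H).ncard : ℝ) ≤
      (Set.ncard {A : PSys n d (𝓞 K) | A ∈ HouseP K n d H ∧ PSmoothK A ∧ PSolubleK A} : ℝ)) ∧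
    (∀ eps : ℝ, 0 < eps → ∀ᶠ H : ℕ in atTop,
      (Set.ncard {A : PSys n d (𝓞 K) | A ∈ HouseP K n d H ∧ PELSK A ∧ ¬ PSolubleK A} : ℝ) ≤
        eps * ((HouseP K n d H).ncard : ℝ)) ∧
    ∀ eps : ℝ, 0 < eps → ∀ᶠ H : ℕ in atTop,
      (Set.ncard {A : PSys n d (𝓞 K) | A ∈ HouseP K n d H ∧ ¬ PSmoothK A} : ℝ) ≤
        eps * ((HouseP K n d H).ncard : ℝ) :=
  house_finalP_of hr hd (p_pos_solubleK K n d hd i0 hn0 hcls) hex

end multi

end NKPHP
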