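import Pool.Agent.Lib.MP_e426f4_ag.M.Poly

/-! Module NKP-Poly: coefficient vectors and multihomogeneous polynomials over a commutative ring. -/

set_option linter.unusedSectionVars false

namespace NKPHP

open Finset GenHP MvPolynomial

section multi
variable {ι : Type} [Fintype ι] [DecidableEq ι] {n d : ι → ℕ} {S : Type*} [CommRing S]

/-- the polynomial with coefficient vector `A` -/
noncomputable def kPoly (A : MIdx n d → S) : MvPolynomial (MVar n) S :=
  ∑ t, monomial (mexpo t) (A t)

theorem coeff_kPoly (A : MIdx n d → S) (t : MIdx n d) : (kPoly A).coeff (mexpo t) = A t := by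
  classical
  rw [kPoly, coeff_sum]
  simp only [coeff_monomial]
  rw [Finset.sum_eq_single t]
  · simp
  · intro s _ hs
    rw [if_neg]
    intro h
    exact hs (mexpo_injective h)
  · simp

theorem coeff_kPoly_of_ne (A : MIdx n d → S) (m : MVar n →₀ ℕ) (hm : ∀ t : MIdx n d, mexpo t ≠ m) :
    (kPoly A).coeff m = 0 := by
  classical
  rw [kPoly, coeff_sum]
  simp only [coeff_monomial]
  exact Finset.sum_eq_zero fun t _ => if_neg (hm t)

theorem kPoly_injective : Function.Injective (kPoly : (MIdx n d → S) → MvPolynomial (MVar n) S) := by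
  intro A B h
  funext t
  rw [← coeff_kPoly A t, h, coeff_kPoly]

/-- multihomogeneous polynomials of multidegree `d` -/
def IsMultiHomK (d : ι → ℕ) (f : MvPolynomial (MVar n) S) : Prop :=
  ∀ m, f.coeff m ≠ 0 → ∀ i, ∑ a, m ⟨i, a⟩ = d i

theorem kPoly_isMultiHom (A : MIdx n d → S) : IsMultiHomK d (kPoly A) := by
  intro m hm i
  by_cases h : ∃ t : MIdx n d, mexpo t = m
  · obtain ⟨t, rfl⟩ := h
    exact (t i).2
  · push Not at h
    exact absurd (coeff_kPoly_of_ne A m h) hm

theorem exists_kPoly (f : MvPolynomial (MVar n) S) (hf : IsMultiHomK d f) :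
    ∃ A : MIdx n d → S, kPoly A = f := by
  refine ⟨fun t => f.coeff (mexpo t), ?_⟩
  ext m
  by_cases hm : ∃ t : MIdx n d, mexpo t = m
  · obtain ⟨t, rfl⟩ := hm
    rw [coeff_kPoly]
  · push Not at hm
    rw [coeff_kPoly_of_ne _ _ hm]
    by_contra h
    obtain ⟨t, ht⟩ := exists_mexpo (d := d) m (hf m fun h0 => h h0.symm)
    exact hm t ht

theorem kPoly_forall_coeff (A : MIdx n d → S) (p : S → Prop) (h0 : p 0) :
    (∀ m, p ((kPoly A).coeff m)) ↔ ∀ t, p (A t) := by
  constructor
  · intro h t
    have := h (mexpo t)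
    rwa [coeff_kPoly] at this
  · intro h m
    by_cases hm : ∃ t : MIdx n d, mexpo t = m
    · obtain ⟨t, rfl⟩ := hm
      rw [coeff_kPoly]
      exact h t
    · push Not at hm
      rw [coeff_kPoly_of_ne _ _ hm]
      exact h0

theorem aeval_kPoly {R : Type*} [CommRing R] [Algebra S R] (A : MIdx n d → S) (z : MVar n → R) :
    aeval z (kPoly A) = MF (fun t => algebraMap S R (A t)) z := by
  simp only [kPoly, map_sum, aeval_monomial, prod_mexpo, MF, Fg]

theorem aeval_pderiv_mexpoK {R : Type*} [CommRing R] [Algebra S R] (z : MVar n → R)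
    (t : MIdx n d) (v : MVar n) (a : S) :
    aeval z (pderiv v (monomial (mexpo t) a)) = algebraMap S R a * dmon z v (mex t) := by
  rw [pderiv_monomial, aeval_monomial, Finsupp.prod_fintype _ _ (fun i => pow_zero _)]
  simp only [dmon, mexpo_apply]
  rw [← mul_assoc]
  congr 1
  · simp
  · refine Finset.prod_congr rfl fun u _ => ?_
    congr 1
    rw [Finsupp.tsub_apply, mexpo_apply, Finsupp.single_apply]
    by_cases h : u = v
    · subst h; simp
    · rw [if_neg h, if_neg (fun h' => h h'.symm)]; simp

theorem aeval_pderiv_kPoly {R : Type*} [CommRing R] [Algebra S R] (A : MIdx n d → S)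
    (z : MVar n → R) (v : MVar n) :
    aeval z (pderiv v (kPoly A)) = MD (fun t => algebraMap S R (A t)) z v := by
  simp only [kPoly, map_sum, aeval_pderiv_mexpoK, MD, Dg]

end multi

end NKPHP
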