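import Pool.Agent.Lib.MP_e426f4_ag.NKP.Ring
import Pool.Agent.Lib.MP_e426f4_ag.P.CondAux
import Pool.Agent.Lib.MP_e426f4_ag.M.CondAux

/-!
NKP-RCond: systems over the finite ring with given value and gradient conditions at a fixed point.

TEMPLATES: pex_unique and pex_ker_card in N/PadicExc.lean (injection argument), P/CondAux (pca_MD_diff), M/CondAux
(cond_MF_diff, cond_card), M/Spec (dmon_ms1, mon_ms0, ms1_inj, ms1_ne_ms0).

PROOF. S = the set of systems. T_m, T_k = representatives of R modulo π^m and π^k (PR.exists_reps), T_m has q^m elements, T_k has q^k.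
Ψ : S × (Fin r -> T_m) × (U -> T_k) -> PSys n d R, Ψ(A, a, b) = A + (a j at the monomial ms0 τ of the j-th form)
+ (b v at the monomial ms1 τ v of the j0-th form, v ∈ U). Ψ is injective: if Ψ(A,a,b) = Ψ(A',a',b'), then for v ∈ U
∑_j c_j (MD (A j) z v - MD (A' j) z v) = (A j0 (ms1 τ v) - A' j0 (ms1 τ v)) * (c j0 * dmon z v (mex (ms1 τ v))) by pca_MD_diff,
and c j0, dmon z v (...) = z_{v.1,τ}^(d-1) ∏ z_{i,τ i}^{d i} are units (dmon_ms1), so π^k ∣ b' v - b v, so b = b' (representatives);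
then cond_MF_diff: MF (A j) z - MF (A' j) z = (A j (ms0 τ) - A' j (ms0 τ)) * ∏ z_{i, τ i} ^ d j i, so π^m ∣ a' j - a j, a = a'; then A = A'.
Hence ncard S * (q^m)^r * (q^k)^(card U) <= card (PSys n d R) = (q^L)^(NP n d) (card_sigma_NP, piCurry, PR.card_eq).
-/

set_option linter.unusedSectionVars false

namespace NKPHP

open GenHP NKHP Finset Filter Topology
open CIPHP (PSys NP PJac blk pev)

section multi
variable {ι : Type} [Fintype ι] [DecidableEq ι] {n : ι → ℕ} {r : ℕ} {d : Fin r → ι → ℕ}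

/-- number of all systems over a finite ring -/
theorem card_PSys_ring {R : Type} [CommRing R] {π : R} {q L : ℕ} (hR : PR R π q L) :
    Finite (PSys n d R) ∧ Nat.card (PSys n d R) = (q ^ L) ^ NP n d := by
  have hfin := hR.fin
  obtain ⟨E, -⟩ : ∃ E : ((x : Σ j : Fin r, MIdx n (d j)) → R) ≃ PSys n d R, True :=
    ⟨Equiv.piCurry (fun (j : Fin r) (_ : MIdx n (d j)) => R), trivial⟩
  refine ⟨Finite.of_equiv _ E, ?_⟩
  rw [← Nat.card_congr E, Nat.card_fun, hR.card_eq, Nat.card_eq_fintype_card,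
    CIPHP.card_sigma_NP]

theorem ring_cond {R : Type} [CommRing R] {π : R} {q L : ℕ} (hR : PR R π q L)
    (hd : ∀ j i, 1 ≤ d j i) (τ : ∀ i, Fin (n i + 1)) (z : MVar n → R)
    (hz : ∀ i, IsUnit (z ⟨i, τ i⟩)) (c : Fin r → R) (j0 : Fin r) (hc : IsUnit (c j0)) (m k : ℕ)
    (hm : m ≤ L) (hk : k ≤ L) (U : Finset (MVar n)) (hU : ∀ v ∈ U, v.2 ≠ τ v.1) :
    Set.ncard {A : PSys n d R | (∀ j, π ^ m ∣ MF (A j) z) ∧
      ∀ v ∈ U, π ^ k ∣ ∑ j, c j * MD (A j) z v} * q ^ (m * r + k * U.card) ≤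
      (q ^ L) ^ NP n d := by
  classical
  obtain ⟨hfinP, hcardP⟩ := card_PSys_ring (n := n) (d := d) hR
  have hfinR := hR.fin
  obtain ⟨Tm, hTm1, -, hTm3, -⟩ := hR.exists_reps m hm
  obtain ⟨Tk, hTk1, -, hTk3, -⟩ := hR.exists_reps k hk
  set S : Set (PSys n d R) := {A : PSys n d R | (∀ j, π ^ m ∣ MF (A j) z) ∧
      ∀ v ∈ U, π ^ k ∣ ∑ j, c j * MD (A j) z v} with hS
  let Ψ : PSys n d R × ((Fin r → {x // x ∈ Tm}) × ({v // v ∈ U} → {x // x ∈ Tk})) →
      PSys n d R := fun p j t =>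
    p.1 j t + (if t = ms0 τ then ((p.2.1 j : R)) else 0) +
      (if j = j0 then ∑ v : {v // v ∈ U}, if t = ms1 τ v.1 then (p.2.2 v : R) else 0 else 0)
  have hinj : Set.InjOn Ψ (S ×ˢ (Set.univ : Set ((Fin r → {x // x ∈ Tm}) ×
      ({v // v ∈ U} → {x // x ∈ Tk})))) := by
    rintro ⟨A, a, b⟩ ⟨hA, -⟩ ⟨A', a', b'⟩ ⟨hA', -⟩ h
    have hA1 : (∀ j, π ^ m ∣ MF (A j) z) ∧ ∀ v ∈ U, π ^ k ∣ ∑ j, c j * MD (A j) z v := hA
    have hA2 : (∀ j, π ^ m ∣ MF (A' j) z) ∧ ∀ v ∈ U, π ^ k ∣ ∑ j, c j * MD (A' j) z v := hA'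
    have hjt : ∀ j t, A j t + (if t = ms0 τ then ((a j : R)) else 0) +
        (if j = j0 then ∑ v : {v // v ∈ U}, if t = ms1 τ v.1 then (b v : R) else 0 else 0) =
        A' j t + (if t = ms0 τ then ((a' j : R)) else 0) +
        (if j = j0 then ∑ v : {v // v ∈ U}, if t = ms1 τ v.1 then (b' v : R) else 0 else 0) :=
      fun j t => congrFun (congrFun h j) t
    -- the values off the special coefficients
    have h1 : ∀ j, j ≠ j0 → ∀ t, t ≠ ms0 τ → A j t = A' j t := by
      intro j hj t ht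
      have h2 := hjt j t
      rwa [if_neg ht, if_neg ht, if_neg hj, if_neg hj, add_zero, add_zero, add_zero,
        add_zero] at h2
    have h2 : ∀ t, t ∉ U.image (fun v => (ms1 τ v : MIdx n (d j0))) → t ≠ ms0 τ →
        A j0 t = A' j0 t := by
      intro t ht1 ht2
      have h3 := hjt j0 t
      have h4 : ∀ f : {v // v ∈ U} → R, ∑ v : {v // v ∈ U},
          (if t = ms1 τ v.1 then f v else 0) = 0 := by
        intro f
        refine Finset.sum_eq_zero fun v _ => ?_
        rw [if_neg]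
        intro h5
        exact ht1 (Finset.mem_image.2 ⟨v.1, v.2, h5.symm⟩)
      rw [if_neg ht2, if_neg ht2, if_pos rfl, if_pos rfl, h4 (fun v => (b v : R)),
        h4 (fun v => (b' v : R)), add_zero, add_zero, add_zero, add_zero] at h3
      exact h3
    have h3 : ∀ v : {v // v ∈ U}, A j0 (ms1 τ v.1) + (b v : R) =
        A' j0 (ms1 τ v.1) + (b' v : R) := by
      intro v
      have h4 := hjt j0 (ms1 τ v.1)
      have h5 : ∀ f : {v // v ∈ U} → R, ∑ v' : {v // v ∈ U},
          (if (ms1 τ v.1 : MIdx n (d j0)) = ms1 τ v'.1 then f v' else 0) = f v := by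
        intro f
        rw [Finset.sum_eq_single v]
        · rw [if_pos rfl]
        · intro v' _ hv'
          rw [if_neg]
          intro h6
          exact hv' (Subtype.ext (ms1_inj (hd j0) τ v.1 v'.1 (hU _ v.2) (hU _ v'.2) h6).symm)
        · intro h6
          exact absurd (Finset.mem_univ _) h6
      have h6 := ms1_ne_ms0 (hd j0) τ v.1 (hU _ v.2)
      rw [if_neg h6, if_neg h6, if_pos rfl, if_pos rfl, h5 (fun v => (b v : R)),
        h5 (fun v => (b' v : R)), add_zero, add_zero] at h4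
      exact h4
    have h4 : ∀ j, A j (ms0 τ) + (a j : R) = A' j (ms0 τ) + (a' j : R) := by
      intro j
      have h5 := hjt j (ms0 τ)
      have h6 : ∀ f : {v // v ∈ U} → R, (if j = j0 then ∑ v : {v // v ∈ U},
          (if (ms0 τ : MIdx n (d j)) = ms1 τ v.1 then f v else 0) else 0) = 0 := by
        intro f
        split_ifs
        · refine Finset.sum_eq_zero fun v _ => ?_
          rw [if_neg]
          intro h7
          exact ms1_ne_ms0 (hd j) τ v.1 (hU _ v.2) h7.symm
        · rfl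
      rw [if_pos rfl, if_pos rfl, h6 (fun v => (b v : R)), h6 (fun v => (b' v : R)),
        add_zero, add_zero] at h5
      exact h5
    -- the gradient conditions
    have hb : b = b' := by
      funext v
      have h5 := CIPHP.pca_MD_diff hd τ z U hU v.1 v.2 c j0 A A' h2 h1
      have h6 : π ^ k ∣ ∑ j, c j * MD (A j) z v.1 - ∑ j, c j * MD (A' j) z v.1 :=
        dvd_sub (hA1.2 v.1 v.2) (hA2.2 v.1 v.2)
      have h7 : IsUnit (c j0 * dmon z v.1 (mex (ms1 τ v.1 : MIdx n (d j0)))) := by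
        rw [dmon_ms1 (hd j0) τ z v.1 (hU _ v.2)]
        refine hc.mul (IsUnit.mul ((hz _).pow _) ?_)
        exact IsUnit.prod_iff.2 fun i _ => (hz i).pow _
      rw [h5, h7.dvd_mul_right] at h6
      have h8 : A j0 (ms1 τ v.1) - A' j0 (ms1 τ v.1) = (b' v : R) - (b v : R) := by
        linear_combination h3 v
      rw [h8] at h6
      exact Subtype.ext (hTk3 _ (b' v).2 _ (b v).2 h6).symm
    have h5 : ∀ j t, t ≠ ms0 τ → A j t = A' j t := by
      intro j t ht
      by_cases hj : j = j0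
      · subst hj
        by_cases h6 : t ∈ U.image (fun v => (ms1 τ v : MIdx n (d j)))
        · obtain ⟨v, hv, rfl⟩ := Finset.mem_image.1 h6
          have h7 := h3 ⟨v, hv⟩
          rw [hb] at h7
          exact add_right_cancel h7
        · exact h2 t h6 ht
      · exact h1 j hj t ht
    have ha : a = a' := by
      funext j
      have h6 := cond_MF_diff τ z (A j) (A' j) (h5 j)
      have h7 : π ^ m ∣ MF (A j) z - MF (A' j) z := dvd_sub (hA1.1 j) (hA2.1 j)
      have h8 : IsUnit (∏ i, z ⟨i, τ i⟩ ^ d j i) :=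
        IsUnit.prod_iff.2 fun i _ => (hz i).pow _
      rw [h6, h8.dvd_mul_right] at h7
      have h9 : A j (ms0 τ) - A' j (ms0 τ) = (a' j : R) - (a j : R) := by
        linear_combination h4 j
      rw [h9] at h7
      exact Subtype.ext (hTm3 _ (a' j).2 _ (a j).2 h7).symm
    have hAA : A = A' := by
      funext j t
      by_cases ht : t = ms0 τ
      · rw [ht]
        have h6 := h4 j
        rw [ha] at h6
        exact add_right_cancel h6
      · exact h5 j t ht
    rw [hAA, ha, hb]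
  have hfinA : Finite (Fin r → {x // x ∈ Tm}) := inferInstance
  have hfinB : Finite ({v // v ∈ U} → {x // x ∈ Tk}) := inferInstance
  have h1 : (S ×ˢ (Set.univ : Set ((Fin r → {x // x ∈ Tm}) ×
      ({v // v ∈ U} → {x // x ∈ Tk})))).ncard ≤ (Set.univ : Set (PSys n d R)).ncard :=
    Set.ncard_le_ncard_of_injOn Ψ (fun _ _ => Set.mem_univ _) hinj (Set.toFinite _)
  rw [Set.ncard_prod, Set.ncard_univ, Set.ncard_univ, hcardP, Nat.card_prod, Nat.card_fun,
    Nat.card_fun, Nat.card_eq_fintype_card, Nat.card_eq_fintype_card, Nat.card_eq_fintype_card,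
    Nat.card_eq_fintype_card, Fintype.card_coe, Fintype.card_coe, Fintype.card_coe,
    Fintype.card_fin, hTm1, hTk1, ← pow_mul, ← pow_mul, ← pow_add] at h1
  exact h1

end multi

end NKPHP
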