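import Pool.Agent.Lib.MP_e426f4_ag.NKP.Defs2
import Pool.Agent.Lib.MP_e426f4_ag.N.CubeCount

/-!
NKP-Ring: the ring `𝓞 K ⧸ P ^ L` (P maximal) is a finite local ring with principal maximal ideal.

exists_PR: P ≠ ⊥ (Ring.ne_bot_of_isMaximal_of_not_isField, RingOfIntegers.not_isField K). Choose ϖ ∈ P \ P^2
(Ideal.exists_mem_pow_notMem_pow_succ P with exponent 1, or Submodule.exists_of_lt with Ideal.pow_right_strictAnti),
π = mk ϖ. Key fact: for m <= L and x : 𝓞 K: x ∈ P^m <-> π^m ∣ mk x. <-: π^m y = mk x, so x - ϖ^m y' ∈ P^L <= P^m and ϖ^m ∈ P^m.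
->: P^m = span {ϖ^m} ⊔ P^L for m <= L: by induction on L - m with Mathlib's `Ideal.exists_mul_add_mem_pow_succ`
([IsDedekindDomain S] P prime, ≠ ⊥, a ∈ P^i, a ∉ P^(i+1), c ∈ P^i : ∃ d, ∃ e ∈ P^(i+1), a * d + e = c), applied with a = ϖ^i (ϖ^i ∉ P^(i+1):
count of P / Ideal.IsPrime.mul_mem_pow, or the valuation; `Ideal.mul_mem_pow...`). Or use
ideals: `Ideal.irreducible_pow_sup` / sup = gcd of ideals in a Dedekind domain: span {ϖ^m} = P^m * J with J not divisible by P.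
unit: not π ∣ mk x -> x ∉ P -> mk x is a unit (proof in N/PadicExc.lean, padic_exc: IsCoprime (P^a) (span {z i})).
not_unit: L >= 1, else 1 ∈ P. nil: ϖ^L ∈ P^L. q_two: absNorm P > 1 (Ideal.absNorm_eq_one_iff; absNorm ≠ 0).
card_dvd: {x : R | π^s ∣ x} = image of P^s, an ideal of R with quotient 𝓞 K ⧸ P^s: number = absNorm (P^L) / absNorm (P^s):
fibres of the surjection R -> 𝓞 K ⧸ P^s (Ideal.Quotient.factor) all have the same size (private card_fiber in N/PadicCount.lean: copy it), cardinality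
absNorm (P^s) = (absNorm P)^s (map_pow), N/CubeCount.card_quot.
ann: ϖ^s x ∈ P^L -> x ∈ P^(L - s): P prime power in a Dedekind domain, ϖ ∉ P^2: Ideal.IsPrime.mul_mem_pow, or
via count: emultiplicity; or from x ∈ P^m maximal m: x ∈ P^m, x ∉ P^(m+1) then ϖ^s x ∉ P^(m+s+1) (the product of elements of exact orders; Mathlib:
`Ideal.IsPrime.mul_mem_pow (I) [hI : I.IsPrime] {a b} {n} (h : a * b ∈ I ^ n) : a ∈ I ∨ b ∈ I ^ n` and `Ideal.IsPrime.mem_pow_mul`), induction on s.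
-/

set_option linter.unusedSectionVars false

namespace NKPHP

open NumberField GenHP NFHP NKHP Finset Filter Topology

variable {K : Type} [Field K] [NumberField K]

private theorem pr_ne_bot {P : Ideal (𝓞 K)} (hP : P.IsMaximal) : P ≠ ⊥ :=
  Ring.ne_bot_of_isMaximal_of_not_isField hP (RingOfIntegers.not_isField K)

private theorem pr_prime {P : Ideal (𝓞 K)} (hP : P.IsMaximal) : Prime P :=
  Ideal.prime_of_isPrime (pr_ne_bot hP) hP.isPrime

/-- the valuation -/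
private noncomputable def vv (P : Ideal (𝓞 K)) (x : 𝓞 K) : ℕ∞ := emultiplicity P (Ideal.span {x})

private theorem vv_iff (P : Ideal (𝓞 K)) (k : ℕ) (x : 𝓞 K) : x ∈ P ^ k ↔ (k : ℕ∞) ≤ vv P x := by
  unfold vv
  rw [← pow_dvd_iff_le_emultiplicity, Ideal.dvd_span_singleton]

private theorem vv_mul {P : Ideal (𝓞 K)} (hP : P.IsMaximal) (x y : 𝓞 K) :
    vv P (x * y) = vv P x + vv P y := by
  unfold vv
  rw [← Ideal.span_singleton_mul_span_singleton, emultiplicity_mul (pr_prime hP)]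

private theorem vv_pow {P : Ideal (𝓞 K)} (hP : P.IsMaximal) (x : 𝓞 K) (k : ℕ) :
    vv P (x ^ k) = k * vv P x := by
  unfold vv
  rw [← Ideal.span_singleton_pow, emultiplicity_pow (pr_prime hP)]

private theorem exists_pi {P : Ideal (𝓞 K)} (hP : P.IsMaximal) : ∃ ϖ : 𝓞 K, vv P ϖ = 1 := by
  obtain ⟨x, hx1, hx2⟩ := Ideal.exists_mem_pow_notMem_pow_succ P (pr_ne_bot hP) hP.ne_top 1
  refine ⟨x, ?_⟩
  rw [vv_iff] at hx1 hx2
  have h1 : vv P x < ((1 : ℕ) : ℕ∞) + 1 := by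
    have h2 := not_le.1 hx2
    push_cast at h2 ⊢
    exact h2
  have h2 : vv P x ≤ ((1 : ℕ) : ℕ∞) := Order.le_of_lt_add_one h1
  have h3 := le_antisymm h2 hx1
  rw [h3, Nat.cast_one]

private theorem pr_pow_le {P : Ideal (𝓞 K)} (hP : P.IsMaximal) {ϖ : 𝓞 K} (h1 : vv P ϖ = 1)
    {m L : ℕ} (hm : m ≤ L) : P ^ L ⊔ Ideal.span {ϖ ^ m} = P ^ m := by
  have h2 : emultiplicity P (Ideal.span {ϖ ^ m}) = m := by
    have h3 := vv_pow hP ϖ m
    rw [h1, mul_one] at h3
    exact h3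
  have h0 : Ideal.span {ϖ ^ m} ≠ ⊥ := by
    intro h3
    rw [h3] at h2
    have h4 : emultiplicity P (⊥ : Ideal (𝓞 K)) = ⊤ := emultiplicity_zero P
    rw [h4] at h2
    exact ENat.top_ne_natCast m h2
  rw [Ideal.irreducible_pow_sup_of_ge h0 (pr_prime hP).irreducible L (by
    rw [h2]
    exact_mod_cast hm)]
  congr 1
  exact multiplicity_eq_of_emultiplicity_eq_some h2

private theorem pr_card {P : Ideal (𝓞 K)} (s : ℕ) :
    Nat.card (𝓞 K ⧸ P ^ s) = Ideal.absNorm P ^ s := by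
  rw [← map_pow, Ideal.absNorm_apply, Submodule.cardQuot_apply]

theorem exists_PR (P : Ideal (𝓞 K)) (hP : P.IsMaximal) (L : ℕ) (hL : 1 ≤ L) :
    ∃ π : 𝓞 K ⧸ P ^ L, PR (𝓞 K ⧸ P ^ L) π (Ideal.absNorm P) L ∧
      ∀ m : ℕ, m ≤ L → ∀ x : 𝓞 K, π ^ m ∣ Ideal.Quotient.mk (P ^ L) x ↔ x ∈ P ^ m := by
  obtain ⟨ϖ, hϖ⟩ := exists_pi hP
  have hϖm : ∀ m : ℕ, ϖ ^ m ∈ P ^ m := fun m => by
    rw [vv_iff, vv_pow hP, hϖ, mul_one]
  have key : ∀ m : ℕ, m ≤ L → ∀ x : 𝓞 K,
      (Ideal.Quotient.mk (P ^ L) ϖ) ^ m ∣ Ideal.Quotient.mk (P ^ L) x ↔ x ∈ P ^ m := by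
    intro m hm x
    constructor
    · rintro ⟨y, hy⟩
      obtain ⟨y, rfl⟩ := Ideal.Quotient.mk_surjective y
      rw [← map_pow, ← map_mul, Ideal.Quotient.eq] at hy
      have h1 : x - ϖ ^ m * y ∈ P ^ m := Ideal.pow_le_pow_right hm hy
      have h2 := (P ^ m).add_mem h1 (Ideal.mul_mem_right y _ (hϖm m))
      rwa [sub_add_cancel] at h2
    · intro hx
      rw [← pr_pow_le hP hϖ hm] at hx
      obtain ⟨a, ha, b, hb, hab⟩ := Submodule.mem_sup.1 hx
      obtain ⟨c, rfl⟩ := Ideal.mem_span_singleton.1 hb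
      refine ⟨Ideal.Quotient.mk (P ^ L) c, ?_⟩
      rw [← hab, map_add, Ideal.Quotient.eq_zero_iff_mem.2 ha, zero_add, map_mul, map_pow]
  have hLP : P ^ L ≤ P := by
    calc P ^ L ≤ P ^ 1 := Ideal.pow_le_pow_right hL
      _ = P := pow_one P
  refine ⟨Ideal.Quotient.mk (P ^ L) ϖ, ?_, key⟩
  have hN0 : Ideal.absNorm P ≠ 0 := by
    rw [Ne, Ideal.absNorm_eq_zero_iff]
    exact pr_ne_bot hP
  have hN1 : Ideal.absNorm P ≠ 1 := by
    rw [Ne, Ideal.absNorm_eq_one_iff]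
    exact hP.ne_top
  have hfin : Finite (𝓞 K ⧸ P ^ L) :=
    Ideal.finiteQuotientOfFreeOfNeBot (P ^ L) (pow_ne_zero L (pr_ne_bot hP))
  refine ⟨hfin, by omega, hL, ?_, ?_, ?_, ?_, ?_⟩
  · intro x hx
    obtain ⟨x, rfl⟩ := Ideal.Quotient.mk_surjective x
    have h1 : x ∉ P := by
      intro h2
      apply hx
      have h3 := (key 1 hL x).2 (by rwa [pow_one])
      rwa [pow_one] at h3
    have h2 : IsCoprime P (Ideal.span {x}) := by
      rw [Ideal.isCoprime_iff_sup_eq]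
      by_contra hne
      have h3 : P = P ⊔ Ideal.span {x} := hP.eq_of_le hne le_sup_left
      apply h1
      rw [h3]
      exact Ideal.mem_sup_right (Ideal.mem_span_singleton_self _)
    have h3 : P ^ L ⊔ Ideal.span {x} = ⊤ := by
      rw [← Ideal.isCoprime_iff_sup_eq]
      exact h2.pow_left
    obtain ⟨a, ha, b, hb, hab⟩ := Submodule.mem_sup.1 (h3 ▸ Submodule.mem_top : (1 : 𝓞 K) ∈
      P ^ L ⊔ Ideal.span {x})
    obtain ⟨c, rfl⟩ := Ideal.mem_span_singleton.1 hb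
    refine IsUnit.of_mul_eq_one (Ideal.Quotient.mk (P ^ L) c) ?_
    rw [← map_mul, ← map_one (Ideal.Quotient.mk (P ^ L)), ← hab, map_add,
      Ideal.Quotient.eq_zero_iff_mem.2 ha, zero_add]
  · intro h1
    have h2 : (Ideal.Quotient.mk (P ^ L) ϖ) ^ 1 ∣ Ideal.Quotient.mk (P ^ L) 1 := by
      rw [pow_one, map_one]
      exact h1.dvd
    have h3 := (key 1 hL 1).1 h2
    rw [pow_one] at h3
    exact hP.ne_top ((Ideal.eq_top_iff_one P).2 h3)
  · rw [← map_pow]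
    exact Ideal.Quotient.eq_zero_iff_mem.2 (hϖm L)
  · intro s hs
    have hJ : ((P ^ s).map (Ideal.Quotient.mk (P ^ L)) : Set (𝓞 K ⧸ P ^ L)) =
        {x | (Ideal.Quotient.mk (P ^ L) ϖ) ^ s ∣ x} := by
      ext x
      obtain ⟨x, rfl⟩ := Ideal.Quotient.mk_surjective x
      show Ideal.Quotient.mk (P ^ L) x ∈ (P ^ s).map (Ideal.Quotient.mk (P ^ L)) ↔
        (Ideal.Quotient.mk (P ^ L) ϖ) ^ s ∣ Ideal.Quotient.mk (P ^ L) x
      rw [key s hs x, Ideal.mem_map_iff_of_surjective _ Ideal.Quotient.mk_surjective]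
      constructor
      · rintro ⟨y, hy, hyx⟩
        rw [Ideal.Quotient.eq] at hyx
        have h1 : y - x ∈ P ^ s := Ideal.pow_le_pow_right hs hyx
        have h2 := (P ^ s).sub_mem hy h1
        rwa [sub_sub_cancel] at h2
      · intro hx
        exact ⟨x, hx, rfl⟩
    have h1 := Submodule.card_eq_card_quotient_mul_card
      ((P ^ s).map (Ideal.Quotient.mk (P ^ L)))
    have h2 : Nat.card ((𝓞 K ⧸ P ^ L) ⧸ (P ^ s).map (Ideal.Quotient.mk (P ^ L))) =
        Nat.card (𝓞 K ⧸ P ^ s) :=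
      Nat.card_congr (DoubleQuot.quotQuotEquivQuotOfLE (Ideal.pow_le_pow_right hs)).toEquiv
    rw [h2, pr_card, pr_card] at h1
    have h3 : Set.ncard {x | (Ideal.Quotient.mk (P ^ L) ϖ) ^ s ∣ x} =
        Nat.card ((P ^ s).map (Ideal.Quotient.mk (P ^ L))) := by
      rw [← hJ]
      rfl
    rw [h3]
    have h4 : Ideal.absNorm P ^ L = Ideal.absNorm P ^ s * Ideal.absNorm P ^ (L - s) := by
      rw [← pow_add, Nat.add_sub_cancel' hs]
    rw [h4] at h1
    have h5 : 0 < Ideal.absNorm P ^ s := pow_pos (Nat.pos_of_ne_zero hN0) s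
    first
      | exact (Nat.eq_of_mul_eq_mul_left h5 h1).symm
      | exact (Nat.eq_of_mul_eq_mul_left h5 (h1.trans (mul_comm _ _))).symm
  · intro s hs x hx
    obtain ⟨x, rfl⟩ := Ideal.Quotient.mk_surjective x
    rw [key (L - s) (Nat.sub_le _ _) x, vv_iff]
    rw [← map_pow, ← map_mul, Ideal.Quotient.eq_zero_iff_mem, vv_iff, vv_mul hP, vv_pow hP, hϖ,
      mul_one] at hx
    rw [ENat.natCast_sub]
    exact tsub_le_iff_left.2 hx

section ring
variable {R : Type} [CommRing R] {π : R} {q L : ℕ}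

theorem PR.card_eq (h : PR R π q L) : Nat.card R = q ^ L := by
  have h1 := h.card_dvd 0 (Nat.zero_le _)
  have h2 : {x : R | π ^ 0 ∣ x} = Set.univ := by
    ext x
    simp
  rw [h2, Set.ncard_univ] at h1
  exact h1

theorem PR.not_dvd_of_isUnit (h : PR R π q L) {x : R} (hx : IsUnit x) : ¬ π ∣ x := fun h1 =>
  h.not_unit (isUnit_of_dvd_unit h1 hx)

theorem PR.isUnit_iff (h : PR R π q L) {x : R} : IsUnit x ↔ ¬ π ∣ x :=
  ⟨h.not_dvd_of_isUnit, h.unit x⟩

/-- cancellation -/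
theorem PR.dvd_of_pow_mul_dvd (h : PR R π q L) {s t : ℕ} (hst : s + t ≤ L) {x : R}
    (hx : π ^ (s + t) ∣ π ^ s * x) : π ^ t ∣ x := by
  obtain ⟨y, hy⟩ := hx
  have h1 : π ^ s * (x - π ^ t * y) = 0 := by
    rw [mul_sub, hy, pow_add]
    ring
  have h2 := h.ann s (by omega) _ h1
  have h3 : π ^ t ∣ x - π ^ t * y := (pow_dvd_pow π (by omega)).trans h2
  have h4 := dvd_add h3 (Dvd.intro y rfl : π ^ t ∣ π ^ t * y)
  rwa [sub_add_cancel] at h4

/-- every element is a power of `π` times a unit -/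
theorem PR.exists_pow_mul_unit (h : PR R π q L) (x : R) (c : ℕ) (hc : c < L)
    (hx : ¬ π ^ (c + 1) ∣ x) : ∃ (s : ℕ) (u : R), s ≤ c ∧ IsUnit u ∧ x = π ^ s * u := by
  have _ := hc
  induction c with
  | zero =>
    refine ⟨0, x, le_rfl, h.unit x (by simpa using hx), by rw [pow_zero, one_mul]⟩
  | succ c ih =>
    by_cases h1 : π ^ (c + 1) ∣ x
    · obtain ⟨u, hu⟩ := h1
      refine ⟨c + 1, u, le_rfl, h.unit u fun h2 => hx ?_, hu⟩
      rw [hu, pow_succ]
      exact mul_dvd_mul_left _ h2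
    · obtain ⟨s, u, h2, h3, h4⟩ := ih (by omega) h1 (by omega)
      exact ⟨s, u, by omega, h3, h4⟩

/-- a set of representatives modulo `π ^ m` -/
theorem PR.exists_reps (h : PR R π q L) (m : ℕ) (hm : m ≤ L) : ∃ T : Finset R, T.card = q ^ m ∧
    (∀ x : R, ∃ y ∈ T, π ^ m ∣ x - y) ∧ (∀ x ∈ T, ∀ y ∈ T, π ^ m ∣ x - y → x = y) ∧
    (1 ∈ T) := by
  classical
  have hfin := h.fin
  obtain ⟨I, hI⟩ : ∃ I : Ideal R, I = Ideal.span {π ^ m} := ⟨_, rfl⟩
  have hmem : ∀ x, x ∈ I ↔ π ^ m ∣ x := fun x => by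
    rw [hI, Ideal.mem_span_singleton]
  have hQ : Finite (R ⧸ I) := Finite.of_surjective _ Ideal.Quotient.mk_surjective
  let _ : Fintype (R ⧸ I) := Fintype.ofFinite _
  have hcard : Nat.card (R ⧸ I) = q ^ m := by
    have h1 := Submodule.card_eq_card_quotient_mul_card I
    have h2 : Nat.card I = q ^ (L - m) := by
      rw [← h.card_dvd m hm]
      have h3 : {x : R | π ^ m ∣ x} = (I : Set R) := by
        ext x
        exact (hmem x).symm
      rw [h3]
      rfl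
    rw [h.card_eq, h2] at h1
    have h4 : q ^ L = q ^ (L - m) * q ^ m := by
      rw [← pow_add, Nat.sub_add_cancel hm]
    rw [h4] at h1
    have h5 : 0 < q ^ (L - m) := pow_pos (by have := h.q_two; omega) _
    first
      | exact (Nat.eq_of_mul_eq_mul_left h5 (h1.trans (mul_comm _ _))).symm
      | exact (Nat.eq_of_mul_eq_mul_left h5 h1).symm
  let σ : R ⧸ I → R := fun c => if c = Ideal.Quotient.mk I 1 then 1 else Quotient.out c
  have hσ : ∀ c, Ideal.Quotient.mk I (σ c) = c := by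
    intro c
    show Ideal.Quotient.mk I (if c = Ideal.Quotient.mk I 1 then 1 else Quotient.out c) = c
    split_ifs with h1
    · exact h1.symm
    · exact Ideal.Quotient.mk_out c
  have hinj : Function.Injective σ := fun a b hab => by
    rw [← hσ a, ← hσ b, hab]
  refine ⟨Finset.univ.image σ, ?_, ?_, ?_, ?_⟩
  · rw [Finset.card_image_of_injective _ hinj, Finset.card_univ, ← Nat.card_eq_fintype_card, hcard]
  · intro x
    refine ⟨σ (Ideal.Quotient.mk I x), Finset.mem_image_of_mem _ (Finset.mem_univ _), ?_⟩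
    rw [← hmem, ← Ideal.Quotient.eq, hσ]
  · intro x hx y hy hxy
    obtain ⟨a, _, rfl⟩ := Finset.mem_image.1 hx
    obtain ⟨b, _, rfl⟩ := Finset.mem_image.1 hy
    rw [← hmem, ← Ideal.Quotient.eq, hσ, hσ] at hxy
    rw [hxy]
  · refine Finset.mem_image.2 ⟨Ideal.Quotient.mk I 1, Finset.mem_univ _, ?_⟩
    exact if_pos rfl

end ring

end NKPHP
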