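import Pool.Agent.Lib.MP_e426f4_ag.NKP.Defs2
import Pool.Agent.Lib.MP_e426f4_ag.N.Const

/-!
NKP-Rmul: multiplication in `K ⊗ ℝ` in real coordinates.

lam_rmul: lam (rmul x v) w = ∑_l ∑_j x_j crd (b_j v) l sg w b_l = ∑_j x_j sg w (b_j v) (lam_crd) = lam x w * sg w v. crd_mul: a = ∑ crd a j b_j (sum_crd), crd linear (crd_sum, crd_intCast_mul).
rmul_le: |rmul x v l| <= cK max_w ‖lam (rmul x v) w‖ (abs_le_of_lam), ‖lam x w‖ <= cK R (norm_lam_le).
-/

set_option linter.unusedSectionVars false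

namespace NKPHP

open NumberField GenHP NFHP NKHP Finset

variable {K : Type} [Field K] [NumberField K]

theorem lam_rmul (x : IK K → ℝ) (v : 𝓞 K) (w : InfinitePlace K) :
    lam (rmul x v) w = lam x w * sg w v := by
  have h1 : lam (rmul x v) w = ∑ j, (x j : ℂ) * lam (fun l => (crd (RingOfIntegers.basis K j * v) l : ℝ)) w := by
    unfold lam rmul
    simp only [Complex.ofReal_sum, Complex.ofReal_mul, Finset.sum_mul, Finset.mul_sum]
    rw [Finset.sum_comm]
    refine Finset.sum_congr rfl fun j _ => Finset.sum_congr rfl fun l _ => ?_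
    ring
  rw [h1]
  simp only [lam_crd, map_mul]
  unfold lam
  rw [Finset.sum_mul]
  refine Finset.sum_congr rfl fun j _ => ?_
  ring

theorem crd_mul (a v : 𝓞 K) (l : IK K) : (crd (a * v) l : ℝ) = rmul (fun j => (crd a j : ℝ)) v l := by
  have h1 : rmul (fun j => (crd a j : ℝ)) v = fun l => (crd (a * v) l : ℝ) := by
    refine lam_injective fun w => ?_
    rw [lam_rmul, lam_crd, lam_crd, map_mul]
  rw [h1]

theorem rmul_sub (x y : IK K → ℝ) (v : 𝓞 K) (l : IK K) :
    rmul (fun j => x j - y j) v l = rmul x v l - rmul y v l := by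
  unfold rmul
  rw [← Finset.sum_sub_distrib]
  refine Finset.sum_congr rfl fun j _ => ?_
  ring

theorem rmul_smul (c : ℝ) (x : IK K → ℝ) (v : 𝓞 K) (l : IK K) :
    rmul (fun j => c * x j) v l = c * rmul x v l := by
  unfold rmul
  rw [Finset.mul_sum]
  refine Finset.sum_congr rfl fun j _ => ?_
  ring

theorem rmul_le (x : IK K → ℝ) (v : 𝓞 K) (R V : ℝ) (hx : ∀ j, |x j| ≤ R)
    (hv : ∀ w, ‖sg w v‖ ≤ V) (l : IK K) : |rmul x v l| ≤ cK K ^ 2 * R * V := by
  have hw : Nonempty (InfinitePlace K) := inferInstance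
  have hV : 0 ≤ V := (norm_nonneg _).trans (hv (Classical.arbitrary _))
  have hl : Nonempty (IK K) := ⟨l⟩
  have hR : 0 ≤ R := (abs_nonneg _).trans (hx l)
  have h1 := abs_le_of_lam (rmul x v) (cK K * R * V) (fun w => by
    rw [lam_rmul, norm_mul]
    exact mul_le_mul (norm_lam_le x R hx w) (hv w) (norm_nonneg _)
      (mul_nonneg cK_pos.le hR)) l
  refine h1.trans (le_of_eq ?_)
  ring

theorem sum_rmul_le {S : Type} [Fintype S] (x : S → IK K → ℝ) (v : S → 𝓞 K) (R V : ℝ)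
    (hx : ∀ s j, |x s j| ≤ R) (hv : ∀ s w, ‖sg w (v s)‖ ≤ V) (l : IK K) :
    |∑ s, rmul (x s) (v s) l| ≤ Fintype.card S * (cK K ^ 2 * R * V) := by
  refine (Finset.abs_sum_le_sum_abs _ _).trans ?_
  calc ∑ s, |rmul (x s) (v s) l| ≤ ∑ _s : S, cK K ^ 2 * R * V :=
        Finset.sum_le_sum fun s _ => rmul_le (x s) (v s) R V (hx s) (hv s) l
    _ = _ := by rw [Finset.sum_const, Finset.card_univ, nsmul_eq_mul]

end NKPHP
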