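import Pool.Agent.Lib.MP_e426f4_ag.NKP.Basic
import Pool.Agent.Lib.MP_e426f4_ag.P.CondAux

/-!
# Systems over `𝓞 K` under two triangular conditions
-/

set_option linter.unusedSectionVars false

namespace NKPHP

open NumberField GenHP NFHP NKHP Finset Filter Topology
open CIPHP (PSys NP PJac blk pev)

private theorem tck_prod_ite {I : Type*} [Fintype I] [DecidableEq I] (K : Finset I) (c : ℕ) :
    ∏ t : I, (if t ∈ K then c else 1) = c ^ K.card := by
  rw [Finset.prod_ite_mem, Finset.univ_inter, Finset.prod_const]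

/-- a set of vectors which agree off `T` -/
private theorem tck_fibre {I M : Type*} [Fintype I] [DecidableEq I] [DecidableEq M] (T : Finset I)
    (S : Finset (I → M)) (N : ℕ) (hag : ∀ A ∈ S, ∀ A' ∈ S, ∀ t, t ∉ T → A t = A' t)
    (h : ∀ t ∈ T, (S.image fun A => A t).card ≤ N) : S.card ≤ N ^ T.card := by
  classical
  rcases S.eq_empty_or_nonempty with rfl | ⟨A0, hA0⟩
  · simp
  have hsub : S ⊆ Fintype.piFinset fun t => if t ∈ T then S.image (fun A => A t) else {A0 t} := by
    intro A hA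
    rw [Fintype.mem_piFinset]
    intro t
    split_ifs with ht
    · exact Finset.mem_image.mpr ⟨A, hA, rfl⟩
    · rw [Finset.mem_singleton]
      exact hag A hA A0 hA0 t ht
  refine (Finset.card_le_card hsub).trans ?_
  rw [Fintype.card_piFinset, ← tck_prod_ite T N]
  refine Finset.prod_le_prod' fun t _ => ?_
  split_ifs with ht
  · exact h t ht
  · simp

theorem tri_countM {I M : Type*} [Fintype I] [DecidableEq I] [DecidableEq M] [Zero M]
    (J T : Finset I)
    (hJT : Disjoint J T) (Bf : Finset M) (S : Finset (I → M)) (hS : ∀ A ∈ S, ∀ t, A t ∈ Bf)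
    (N1 N2 : ℕ)
    (h1 : ∀ a ∈ J, ∀ S' ⊆ S, (∀ A ∈ S', ∀ A' ∈ S', ∀ t, t ∉ J → t ∉ T → A t = A' t) →
      (S'.image fun A => A a).card ≤ N1)
    (h0 : ∀ a ∈ T, ∀ S' ⊆ S, (∀ A ∈ S', ∀ A' ∈ S', ∀ t, t ∉ T → A t = A' t) →
      (S'.image fun A => A a).card ≤ N2) :
    S.card ≤ Bf.card ^ (Fintype.card I - (J.card + T.card)) * (N1 ^ J.card * N2 ^ T.card) := by
  classical
  set K : Finset I := (J ∪ T)ᶜ with hK
  have hKcard : K.card = Fintype.card I - (J.card + T.card) := by
    rw [hK, Finset.card_compl, Finset.card_union_of_disjoint hJT]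
  have memK : ∀ t, t ∈ K ↔ t ∉ J ∧ t ∉ T := by
    intro t
    simp [hK]
  have hJT' : ∀ t, t ∈ J → t ∉ T := fun t ht ht' => (Finset.disjoint_left.mp hJT) ht ht'
  -- fibres over the values off `T`
  have step0 : ∀ S' ⊆ S, (∀ A ∈ S', ∀ A' ∈ S', ∀ t, t ∉ T → A t = A' t) →
      S'.card ≤ N2 ^ T.card := fun S' hS' hag => tck_fibre T S' N2 hag fun t ht => h0 t ht S' hS' hag
  -- fibres over the values off `J` and `T`
  have step1 : ∀ S' ⊆ S, (∀ A ∈ S', ∀ A' ∈ S', ∀ t, t ∉ J → t ∉ T → A t = A' t) →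
      S'.card ≤ N1 ^ J.card * N2 ^ T.card := by
    intro S' hS' hagree
    let σ : (I → M) → I → M := fun A t => if t ∈ T then 0 else A t
    have e1 := Finset.card_le_mul_card_image (f := σ) S' (N2 ^ T.card) (by
      intro r _
      apply step0
      · exact (Finset.filter_subset _ _).trans hS'
      · intro A hA A' hA' t ht
        rw [Finset.mem_filter] at hA hA'
        have := congrFun (hA.2.trans hA'.2.symm) t
        simpa [σ, ht] using this)
    have e2 : (S'.image σ).card ≤ N1 ^ J.card := by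
      apply tck_fibre J
      · intro B hB B' hB' t ht
        obtain ⟨A, hA, rfl⟩ := Finset.mem_image.mp hB
        obtain ⟨A', hA', rfl⟩ := Finset.mem_image.mp hB'
        by_cases htT : t ∈ T
        · simp [σ, htT]
        · simp only [σ, if_neg htT]
          exact hagree A hA A' hA' t ht htT
      · intro t ht
        have hs : ((S'.image σ).image fun A => A t) ⊆ S'.image fun A => A t := by
          intro v hv
          obtain ⟨B, hB, rfl⟩ := Finset.mem_image.mp hv
          obtain ⟨A, hA, rfl⟩ := Finset.mem_image.mp hB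
          refine Finset.mem_image.mpr ⟨A, hA, ?_⟩
          simp [σ, hJT' t ht]
        exact (Finset.card_le_card hs).trans (h1 t ht S' hS' hagree)
    calc S'.card ≤ N2 ^ T.card * (S'.image σ).card := e1
      _ ≤ N2 ^ T.card * N1 ^ J.card := Nat.mul_le_mul_left _ e2
      _ = N1 ^ J.card * N2 ^ T.card := Nat.mul_comm _ _
  let ρ : (I → M) → I → M := fun A t => if t ∈ K then A t else 0
  have e1 := Finset.card_le_mul_card_image (f := ρ) S (N1 ^ J.card * N2 ^ T.card) (by
    intro r _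
    apply step1
    · exact Finset.filter_subset _ _
    · intro A hA A' hA' t ht ht'
      rw [Finset.mem_filter] at hA hA'
      have := congrFun (hA.2.trans hA'.2.symm) t
      have htK : t ∈ K := (memK t).mpr ⟨ht, ht'⟩
      simpa [ρ, htK] using this)
  have e2 : (S.image ρ).card ≤ Bf.card ^ K.card := by
    have hsub : S.image ρ ⊆ Fintype.piFinset fun t => if t ∈ K then Bf else {0} := by
      intro B hB
      rw [Finset.mem_image] at hB
      obtain ⟨A, hA, rfl⟩ := hB
      rw [Fintype.mem_piFinset]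
      intro t
      by_cases ht : t ∈ K
      · simp only [ρ, ht, if_true]
        exact hS A hA t
      · simp [ρ, ht]
    refine (Finset.card_le_card hsub).trans ?_
    rw [Fintype.card_piFinset, ← tck_prod_ite K Bf.card]
    refine Finset.prod_le_prod' fun t _ => ?_
    split_ifs with ht
    · exact le_rfl
    · simp
  calc S.card ≤ (N1 ^ J.card * N2 ^ T.card) * (S.image ρ).card := e1
    _ ≤ (N1 ^ J.card * N2 ^ T.card) * Bf.card ^ K.card := Nat.mul_le_mul_left _ e2
    _ = Bf.card ^ (Fintype.card I - (J.card + T.card)) * (N1 ^ J.card * N2 ^ T.card) := by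
        rw [hKcard]; ring

/-- the box in one coefficient -/
theorem boxO_finset (K : Type) [Field K] [NumberField K] (H : ℕ) :
    ∃ Bf : Finset (𝓞 K), Bf.card = (2 * H + 1) ^ mK K ∧
      ∀ a : 𝓞 K, (∀ j, |(crd a j : ℝ)| ≤ H) → a ∈ Bf := by
  classical
  choose g hg using exists_crd (K := K)
  have hginj : Function.Injective g := by
    intro c c' h
    funext j
    rw [← hg c j, ← hg c' j, h]
  refine ⟨(Fintype.piFinset fun _ : IK K => Icc (-(H : ℤ)) H).image g, ?_, fun a ha => ?_⟩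
  · rw [Finset.card_image_of_injective _ hginj, Fintype.card_piFinset]
    rw [Finset.prod_const, Finset.card_univ, card_IK, Int.card_Icc]
    congr 1
    omega
  · refine Finset.mem_image.mpr ⟨fun j => crd a j, ?_, ?_⟩
    · rw [Fintype.mem_piFinset]
      intro j
      rw [Finset.mem_Icc]
      have := ha j
      rw [abs_le] at this
      constructor
      · exact_mod_cast this.1
      · exact_mod_cast this.2
    · exact crd_ext fun j => hg _ j

section multi
variable {ι : Type} [Fintype ι] [DecidableEq ι]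
variable {K : Type} [Field K] [NumberField K] {n : ι → ℕ} {r : ℕ} {d : Fin r → ι → ℕ}

/-- the count of systems under two triangular conditions -/
theorem pca_countK (hd : ∀ j i, 1 ≤ d j i) (τ : ∀ i, Fin (n i + 1)) (U : Finset (MVar n))
    (hU : ∀ v ∈ U, v.2 ≠ τ v.1) (j0 : Fin r) (H : ℕ) (P : PSys n d (𝓞 K) → Prop) (N1 N2 : ℕ)
    (R1 R2 : 𝓞 K → 𝓞 K → Prop)
    (hN1 : ∀ Z : Finset (𝓞 K), (∀ a ∈ Z, ∀ k, |(crd a k : ℝ)| ≤ H) → (∀ a ∈ Z, ∀ b ∈ Z, R1 a b) → Z.card ≤ N1)
    (hN2 : ∀ Z : Finset (𝓞 K), (∀ a ∈ Z, ∀ k, |(crd a k : ℝ)| ≤ H) → (∀ a ∈ Z, ∀ b ∈ Z, R2 a b) → Z.card ≤ N2)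
    (h1 : ∀ v ∈ U, ∀ A A' : PSys n d (𝓞 K), P A → P A' →
      (∀ t, t ∉ U.image (fun v => (ms1 τ v : MIdx n (d j0))) → t ≠ ms0 τ → A j0 t = A' j0 t) →
      (∀ j, j ≠ j0 → ∀ t, t ≠ ms0 τ → A j t = A' j t) →
      R1 (A j0 (ms1 τ v)) (A' j0 (ms1 τ v)))
    (h2 : ∀ j, ∀ A A' : PSys n d (𝓞 K), P A → P A' → (∀ j t, t ≠ ms0 τ → A j t = A' j t) →
      R2 (A j (ms0 τ)) (A' j (ms0 τ))) :
    Set.ncard {A : PSys n d (𝓞 K) | A ∈ BoxP K n d H ∧ P A} ≤
      ((2 * H + 1) ^ mK K) ^ (NP n d - (U.card + r)) * (N1 ^ U.card * N2 ^ r) ∧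
      U.card + r ≤ NP n d := by
  classical
  set E : ((x : Σ j : Fin r, MIdx n (d j)) → 𝓞 K) ≃ PSys n d (𝓞 K) :=
    Equiv.piCurry (fun (j : Fin r) (_ : MIdx n (d j)) => 𝓞 K) with hE
  have hEapp : ∀ (f : (x : Σ j : Fin r, MIdx n (d j)) → 𝓞 K) (j : Fin r) (t : MIdx n (d j)),
      E f j t = f ⟨j, t⟩ := fun f j t => rfl
  have hfin : {A : PSys n d (𝓞 K) | A ∈ BoxP K n d H ∧ P A}.Finite :=
    (BoxP_finite (H : ℝ)).subset fun A hA => hA.1
  set S : Finset ((x : Σ j : Fin r, MIdx n (d j)) → 𝓞 K) := hfin.toFinset.map E.symm.toEmbedding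
    with hS
  have memS : ∀ f, f ∈ S ↔ (∀ j t k, |(crd (f ⟨j, t⟩) k : ℝ)| ≤ H) ∧ P (E f) := by
    intro f
    rw [hS, Finset.mem_map]
    constructor
    · rintro ⟨A, hA, rfl⟩
      rw [Set.Finite.mem_toFinset] at hA
      refine ⟨fun j t k => hA.1 j t k, ?_⟩
      have h3 : E (E.symm.toEmbedding A) = A := E.apply_symm_apply A
      rw [h3]
      exact hA.2
    · rintro ⟨hf1, hf2⟩
      refine ⟨E f, ?_, E.symm_apply_apply f⟩
      rw [Set.Finite.mem_toFinset]
      exact ⟨fun j t k => hf1 j t k, hf2⟩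
  have hcard : Set.ncard {A : PSys n d (𝓞 K) | A ∈ BoxP K n d H ∧ P A} = S.card := by
    rw [hS, Finset.card_map, Set.ncard_eq_toFinset_card _ hfin]
  set J : Finset (Σ j : Fin r, MIdx n (d j)) := U.image fun v => ⟨j0, ms1 τ v⟩ with hJ
  set T : Finset (Σ j : Fin r, MIdx n (d j)) := Finset.univ.image fun j => ⟨j, ms0 τ⟩ with hT
  have memJ : ∀ j t, (⟨j, t⟩ : Σ j : Fin r, MIdx n (d j)) ∈ J ↔
      ∃ v ∈ U, (⟨j0, ms1 τ v⟩ : Σ j : Fin r, MIdx n (d j)) = ⟨j, t⟩ := by
    intro j t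
    rw [hJ, Finset.mem_image]
  have memT : ∀ j t, (⟨j, t⟩ : Σ j : Fin r, MIdx n (d j)) ∈ T ↔ t = ms0 τ := by
    intro j t
    rw [hT, Finset.mem_image]
    constructor
    · rintro ⟨j', _, h⟩
      simp only [Sigma.mk.injEq] at h
      obtain ⟨rfl, h⟩ := h
      exact (eq_of_heq h).symm
    · rintro rfl
      exact ⟨j, Finset.mem_univ _, rfl⟩
  have hJcard : J.card = U.card := by
    rw [hJ]
    refine Finset.card_image_of_injOn fun v hv v' hv' h => ?_
    simp only [Sigma.mk.injEq, heq_eq_eq, true_and] at h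
    exact ms1_inj (hd j0) τ v v' (hU v hv) (hU v' hv') h
  have hTcard : T.card = r := by
    rw [hT, Finset.card_image_of_injective, Finset.card_univ, Fintype.card_fin]
    intro j j' h
    exact congrArg Sigma.fst h
  have hJT : Disjoint J T := by
    rw [Finset.disjoint_left]
    rintro ⟨j, t⟩ hj ht
    rw [memT] at ht
    obtain ⟨v, hv, h⟩ := (memJ j t).mp hj
    simp only [Sigma.mk.injEq] at h
    obtain ⟨rfl, h⟩ := h
    have h' := eq_of_heq h
    rw [ht] at h'
    exact ms1_ne_ms0 (hd j0) τ v (hU v hv) h'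
  obtain ⟨Bf, hBf, hBfm⟩ := boxO_finset K H
  have hmain := tri_countM J T hJT Bf S (by
      rintro f hf ⟨j, t⟩
      exact hBfm _ (((memS f).mp hf).1 j t)) N1 N2 (by
    intro a ha S' hS' hag
    obtain ⟨v, hv, rfl⟩ := Finset.mem_image.mp ha
    apply hN1
    · intro x hx
      obtain ⟨f, hf, rfl⟩ := Finset.mem_image.mp hx
      exact ((memS f).mp (hS' hf)).1 _ _
    · intro x hx y hy
      obtain ⟨f, hf, rfl⟩ := Finset.mem_image.mp hx
      obtain ⟨f', hf', rfl⟩ := Finset.mem_image.mp hy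
      refine h1 v hv (E f) (E f') ((memS f).mp (hS' hf)).2 ((memS f').mp (hS' hf')).2 ?_ ?_
      · intro t ht1 ht2
        refine hag f hf f' hf' ⟨j0, t⟩ ?_ ?_
        · rw [memJ]
          rintro ⟨v', hv', h⟩
          simp only [Sigma.mk.injEq, heq_eq_eq, true_and] at h
          exact ht1 (Finset.mem_image.mpr ⟨v', hv', h⟩)
        · rw [memT]
          exact ht2
      · intro j hj t ht
        refine hag f hf f' hf' ⟨j, t⟩ ?_ ?_
        · rw [memJ]
          rintro ⟨v', hv', h⟩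
          exact hj (congrArg Sigma.fst h).symm
        · rw [memT]
          exact ht) (by
    intro a ha S' hS' hag
    obtain ⟨j, _, rfl⟩ := Finset.mem_image.mp ha
    apply hN2
    · intro x hx
      obtain ⟨f, hf, rfl⟩ := Finset.mem_image.mp hx
      exact ((memS f).mp (hS' hf)).1 _ _
    · intro x hx y hy
      obtain ⟨f, hf, rfl⟩ := Finset.mem_image.mp hx
      obtain ⟨f', hf', rfl⟩ := Finset.mem_image.mp hy
      refine h2 j (E f) (E f') ((memS f).mp (hS' hf)).2 ((memS f').mp (hS' hf')).2 ?_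
      intro j t ht
      refine hag f hf f' hf' ⟨j, t⟩ ?_
      rw [memT]
      exact ht)
  rw [hJcard, hTcard, CIPHP.card_sigma_NP, hBf] at hmain
  refine ⟨hcard ▸ hmain, ?_⟩
  have h3 : (J ∪ T).card ≤ Fintype.card (Σ j : Fin r, MIdx n (d j)) := Finset.card_le_univ _
  rw [Finset.card_union_of_disjoint hJT, hJcard, hTcard, CIPHP.card_sigma_NP] at h3
  exact h3

end multi

end NKPHP
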