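import Pool.Agent.Lib.MP_e426f4_ag.NKP.AlgC
import Pool.Agent.Lib.MP_e426f4_ag.P.Alg

/-!
# Complex zeros of systems near a nonsingular zero
-/

set_option linter.unusedSectionVars false

namespace NKPHP

open GenHP Finset Filter Topology
open CIPHP (PSys NP PJac blk pev)

section multi
variable {ι : Type} [Fintype ι] [DecidableEq ι]

/-- a constant for all estimates -/
noncomputable def kM (n : ι → ℕ) {r : ℕ} (d : Fin r → ι → ℕ) : ℝ :=
  1 + ∑ j, 2 * ((NM n (d j) : ℝ) * (((Fintype.card (MVar n) : ℝ) + 1) *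
    (((∑ i, d j i : ℕ) : ℝ) + 1) * 16 ^ (∑ i, d j i)))

variable {n : ι → ℕ} {r : ℕ} {d : Fin r → ι → ℕ}

theorem kM_one (n : ι → ℕ) {r : ℕ} (d : Fin r → ι → ℕ) : 1 ≤ kM n d := by
  unfold kM
  have : (0 : ℝ) ≤ ∑ j, 2 * ((NM n (d j) : ℝ) * (((Fintype.card (MVar n) : ℝ) + 1) *
    (((∑ i, d j i : ℕ) : ℝ) + 1) * 16 ^ (∑ i, d j i))) :=
    Finset.sum_nonneg fun i _ => by positivity
  linarith

theorem kM_ge (n : ι → ℕ) {r : ℕ} (d : Fin r → ι → ℕ) (j : Fin r) (q : ℝ)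
    (hq : q ≤ 2 * (((Fintype.card (MVar n) : ℝ) + 1) *
    (((∑ i, d j i : ℕ) : ℝ) + 1) * 16 ^ (∑ i, d j i))) : (NM n (d j) : ℝ) * q ≤ kM n d := by
  have h := Finset.single_le_sum
    (f := fun j => 2 * ((NM n (d j) : ℝ) * (((Fintype.card (MVar n) : ℝ) + 1) *
    (((∑ i, d j i : ℕ) : ℝ) + 1) * 16 ^ (∑ i, d j i))))
    (fun i _ => by positivity) (Finset.mem_univ j)
  have h1 : (NM n (d j) : ℝ) * q ≤ (NM n (d j) : ℝ) * (2 * (((Fintype.card (MVar n) : ℝ) + 1) *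
    (((∑ i, d j i : ℕ) : ℝ) + 1) * 16 ^ (∑ i, d j i))) :=
    mul_le_mul_of_nonneg_left hq (Nat.cast_nonneg _)
  have h2 : (NM n (d j) : ℝ) * (2 * (((Fintype.card (MVar n) : ℝ) + 1) *
    (((∑ i, d j i : ℕ) : ℝ) + 1) * 16 ^ (∑ i, d j i))) = 2 * ((NM n (d j) : ℝ) *
    (((Fintype.card (MVar n) : ℝ) + 1) * (((∑ i, d j i : ℕ) : ℝ) + 1) * 16 ^ (∑ i, d j i))) := by
    ring
  rw [h2] at h1
  refine h1.trans (h.trans ?_)
  unfold kM
  linarith

/-- four elementary bounds -/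
private theorem zi_el (V e : ℕ) : (e : ℝ) * 4 ^ e * 2 ^ e ≤ 2 * (((V : ℝ) + 1) * ((e : ℝ) + 1) * 16 ^ e) ∧
    (4 : ℝ) ^ e * 2 ^ e ≤ 2 * (((V : ℝ) + 1) * ((e : ℝ) + 1) * 16 ^ e) ∧
    (e : ℝ) * 2 ^ e ≤ 2 * (((V : ℝ) + 1) * ((e : ℝ) + 1) * 16 ^ e) ∧
    ((V : ℝ) * e + 4 ^ e * 2) * 2 ^ e ≤ 2 * (((V : ℝ) + 1) * ((e : ℝ) + 1) * 16 ^ e) := by
  have hV : (0 : ℝ) ≤ V := Nat.cast_nonneg V
  have he : (0 : ℝ) ≤ e := Nat.cast_nonneg e
  have h16 : (1 : ℝ) ≤ 16 ^ e := one_le_pow₀ (by norm_num)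
  have h8 : (4 : ℝ) ^ e * 2 ^ e ≤ 16 ^ e := by
    rw [← mul_pow]
    exact pow_le_pow_left₀ (by norm_num) (by norm_num) _
  have h2 : (2 : ℝ) ^ e ≤ 16 ^ e := pow_le_pow_left₀ (by norm_num) (by norm_num) _
  have h2' : (0 : ℝ) < 2 ^ e := by positivity
  have hVe : 0 ≤ (V : ℝ) * e := mul_nonneg hV he
  have hA : (e : ℝ) + 1 ≤ ((V : ℝ) + 1) * ((e : ℝ) + 1) := by nlinarith
  obtain ⟨W, hW⟩ : ∃ W : ℝ, W = (16 : ℝ) ^ e := ⟨_, rfl⟩
  rw [← hW] at h16 h8 h2 ⊢
  have hk : ∀ q : ℝ, q ≤ ((V : ℝ) + 1) * ((e : ℝ) + 1) * W →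
      q ≤ 2 * (((V : ℝ) + 1) * ((e : ℝ) + 1) * W) := by
    intro q hq
    have : 0 ≤ ((V : ℝ) + 1) * ((e : ℝ) + 1) * W := by positivity
    linarith
  refine ⟨hk _ ?_, hk _ ?_, hk _ ?_, ?_⟩
  · calc (e : ℝ) * 4 ^ e * 2 ^ e = e * (4 ^ e * 2 ^ e) := by ring
      _ ≤ (((V : ℝ) + 1) * ((e : ℝ) + 1)) * W :=
        mul_le_mul (by linarith) h8 (by positivity) (by positivity)
  · calc (4 : ℝ) ^ e * 2 ^ e = 1 * (4 ^ e * 2 ^ e) := by ring
      _ ≤ (((V : ℝ) + 1) * ((e : ℝ) + 1)) * W :=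
        mul_le_mul (by nlinarith) h8 (by positivity) (by positivity)
  · exact mul_le_mul (by linarith) h2 (by positivity) (by positivity)
  · calc ((V : ℝ) * e + 4 ^ e * 2) * 2 ^ e = (V : ℝ) * e * 2 ^ e + 2 * (4 ^ e * 2 ^ e) := by ring
      _ ≤ (V : ℝ) * e * W + 2 * W := by
          refine add_le_add (mul_le_mul_of_nonneg_left h2 hVe) (by linarith)
      _ = ((V : ℝ) * e + 2) * W := by ring
      _ ≤ (2 * (((V : ℝ) + 1) * ((e : ℝ) + 1))) * W := by
          refine mul_le_mul_of_nonneg_right ?_ (by linarith)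
          nlinarith
      _ = _ := by ring

/-- the derivatives are bounded -/
theorem kM_MD (A : PSys n d ℂ) (z : MVar n → ℂ) (a : ℝ) (hA : ∀ j t, ‖A j t‖ ≤ a)
    (hz : ∀ v, ‖z v‖ ≤ 2) (j : Fin r) (v : MVar n) : ‖MD (A j) z v‖ ≤ kM n d * a := by
  have ha : 0 ≤ a := by
    have h1 : 0 < Fintype.card (MIdx n (d j)) := NM_pos n (d j)
    obtain ⟨t⟩ := Fintype.card_pos_iff.mp h1
    exact (norm_nonneg _).trans (hA j t)
  refine (MDC_norm_le (A j) z v a 2 (by norm_num) (hA j) hz).trans ?_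
  have h := kM_ge n d j _ (zi_el (Fintype.card (MVar n)) (∑ i, d j i)).2.2.1
  calc (NM n (d j) : ℝ) * (∑ i, d j i : ℕ) * a * 2 ^ (∑ i, d j i) =
      ((NM n (d j) : ℝ) * ((∑ i, d j i : ℕ) * 2 ^ (∑ i, d j i))) * a := by ring
    _ ≤ kM n d * a := mul_le_mul_of_nonneg_right h ha

/-- Lipschitz bound for the values -/
theorem kM_lip (A : PSys n d ℂ) (z y : MVar n → ℂ) (a Y : ℝ) (hA : ∀ j t, ‖A j t‖ ≤ a)
    (hz : ∀ v, ‖z v‖ ≤ 2) (hY : Y ≤ 2) (hy : ∀ v, ‖y v - z v‖ ≤ Y) (hY0 : 0 ≤ Y) (j : Fin r) :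
    ‖MF (A j) y - MF (A j) z‖ ≤ kM n d * a * Y := by
  have ha : 0 ≤ a := by
    have h1 : 0 < Fintype.card (MIdx n (d j)) := NM_pos n (d j)
    obtain ⟨t⟩ := Fintype.card_pos_iff.mp h1
    exact (norm_nonneg _).trans (hA j t)
  have e : (fun v => z v + (y v - z v)) = y := funext fun v => by ring
  have h1 := MFC_lip (A j) z (fun v => y v - z v) a 2 Y (by norm_num) hY0 hY (hA j) hz hy
  rw [e] at h1
  refine h1.trans ?_
  have h := kM_ge n d j _ (zi_el (Fintype.card (MVar n)) (∑ i, d j i)).2.2.2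
  calc (NM n (d j) : ℝ) * (Fintype.card (MVar n) * (∑ i, d j i : ℕ) + 4 ^ (∑ i, d j i) * 2) * a *
        2 ^ (∑ i, d j i) * Y =
      ((NM n (d j) : ℝ) * ((Fintype.card (MVar n) * (∑ i, d j i : ℕ) + 4 ^ (∑ i, d j i) * 2) *
        2 ^ (∑ i, d j i))) * (a * Y) := by ring
    _ ≤ kM n d * (a * Y) := mul_le_mul_of_nonneg_right h (by positivity)
    _ = _ := by ring

/-- differences of the derivatives -/
theorem kM_MDT (A : PSys n d ℂ) (z y : MVar n → ℂ) (a Y : ℝ) (hA : ∀ j t, ‖A j t‖ ≤ a)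
    (hz : ∀ v, ‖z v‖ ≤ 2) (hY : Y ≤ 2) (hy : ∀ v, ‖y v - z v‖ ≤ Y) (hY0 : 0 ≤ Y) (j : Fin r)
    (v : MVar n) : ‖MD (A j) y v - MD (A j) z v‖ ≤ kM n d * a * Y := by
  have ha : 0 ≤ a := by
    have h1 : 0 < Fintype.card (MIdx n (d j)) := NM_pos n (d j)
    obtain ⟨t⟩ := Fintype.card_pos_iff.mp h1
    exact (norm_nonneg _).trans (hA j t)
  have e : (fun v => z v + (y v - z v)) = y := funext fun v => by ring
  have h1 := MDC_taylor (A j) z (fun v => y v - z v) v a 2 Y (by norm_num) hY0 hY (hA j) hz hy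
  rw [e] at h1
  refine h1.trans ?_
  have h := kM_ge n d j _ (zi_el (Fintype.card (MVar n)) (∑ i, d j i)).1
  calc (NM n (d j) : ℝ) * (∑ i, d j i : ℕ) * 4 ^ (∑ i, d j i) * a * 2 ^ (∑ i, d j i) * Y =
      ((NM n (d j) : ℝ) * ((∑ i, d j i : ℕ) * 4 ^ (∑ i, d j i) * 2 ^ (∑ i, d j i))) * (a * Y) := by
        ring
    _ ≤ kM n d * (a * Y) := mul_le_mul_of_nonneg_right h (by positivity)
    _ = _ := by ring

/-- second order -/
theorem kM_MFT (A : PSys n d ℂ) (z y : MVar n → ℂ) (a Y : ℝ) (hA : ∀ j t, ‖A j t‖ ≤ a)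
    (hz : ∀ v, ‖z v‖ ≤ 2) (hY : Y ≤ 2) (hy : ∀ v, ‖y v - z v‖ ≤ Y) (hY0 : 0 ≤ Y) (j : Fin r) :
    ‖MF (A j) y - MF (A j) z - ∑ v, MD (A j) z v * (y v - z v)‖ ≤ kM n d * a * Y ^ 2 := by
  have ha : 0 ≤ a := by
    have h1 : 0 < Fintype.card (MIdx n (d j)) := NM_pos n (d j)
    obtain ⟨t⟩ := Fintype.card_pos_iff.mp h1
    exact (norm_nonneg _).trans (hA j t)
  have e : (fun v => z v + (y v - z v)) = y := funext fun v => by ring
  have h1 := MFC_taylor (A j) z (fun v => y v - z v) a 2 Y (by norm_num) hY0 hY (hA j) hz hy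
  rw [e] at h1
  refine h1.trans ?_
  have h := kM_ge n d j _ (zi_el (Fintype.card (MVar n)) (∑ i, d j i)).2.1
  calc (NM n (d j) : ℝ) * 4 ^ (∑ i, d j i) * a * 2 ^ (∑ i, d j i) * Y ^ 2 =
      ((NM n (d j) : ℝ) * (4 ^ (∑ i, d j i) * 2 ^ (∑ i, d j i))) * (a * Y ^ 2) := by ring
    _ ≤ kM n d * (a * Y ^ 2) := mul_le_mul_of_nonneg_right h (by positivity)
    _ = _ := by ring

private theorem zi_adj {r : ℕ} (L : Matrix (Fin r) (Fin r) ℂ) (K : ℝ) (hK : 1 ≤ K)
    (hL : ∀ i l, ‖L i l‖ ≤ K) (i l : Fin r) :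
    ‖L.adjugate i l‖ ≤ (Nat.factorial r : ℝ) * K ^ r := by
  rw [Matrix.adjugate_apply]
  have h := Matrix.det_le (A := L.updateRow l (Pi.single i 1)) (abv := (⟨⟨fun z : ℂ => ‖z‖,
      fun a b => norm_mul a b⟩, fun a => norm_nonneg a, fun a => norm_eq_zero,
      fun a b => norm_add_le a b⟩ : AbsoluteValue ℂ ℝ))
    (x := K) (fun a b => by
      rw [Matrix.updateRow_apply]
      split_ifs with hab
      · change ‖(Pi.single i (1 : ℂ) : Fin r → ℂ) b‖ ≤ K
        rcases eq_or_ne b i with rfl | hbi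
        · rw [Pi.single_eq_same, norm_one]
          exact hK
        · rw [Pi.single_eq_of_ne hbi, norm_zero]
          linarith
      · exact hL a b)
  rw [Fintype.card_fin, nsmul_eq_mul] at h
  exact h

theorem extend_apply_off {V : Type*} {r : ℕ} (J : Fin r → V) (t : Fin r → ℂ) (y : V → ℂ) (v : V)
    (h : ∀ l, J l ≠ v) : Function.extend J t y v = y v :=
  Function.extend_apply' _ _ _ fun ⟨l, hl⟩ => h l hl

/-- zeros near a nonsingular zero -/
theorem zero_near (n : ι → ℕ) {r : ℕ} (d : Fin r → ι → ℕ) (hr : 1 ≤ r) (bet : ℝ) (hb : 0 < bet) :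
    ∃ kap : ℝ, 0 < kap ∧ kap ≤ 1 / 20 ∧ ∀ B : PSys n d ℂ, (∀ j t, ‖B j t‖ ≤ 1) →
      ∀ xi y : MVar n → ℂ, ∀ J : Fin r → MVar n, Function.Injective J → (∀ v, ‖xi v‖ ≤ 1) →
      (∀ j, MF (B j) xi = 0) → bet ≤ ‖(PJac B xi J).det‖ →
      (∀ v, (∀ l, J l ≠ v) → ‖y v - xi v‖ ≤ kap ^ 2) →
      ∃ t : Fin r → ℂ, ((∀ l, ‖t l - xi (J l)‖ ≤ kap) ∧
        ∀ j, MF (B j) (Function.extend J t y) = 0) ∧
        ∀ t' : Fin r → ℂ, (∀ l, ‖t' l - xi (J l)‖ ≤ kap) →
          (∀ j, MF (B j) (Function.extend J t' y) = 0) → t' = t := by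
  classical
  have hK := kM_one n d
  obtain ⟨K, hKdef⟩ : ∃ K, K = kM n d := ⟨_, rfl⟩
  rw [← hKdef] at hK
  have hr' : (0 : ℝ) < r := by exact_mod_cast hr
  have hfac : (0 : ℝ) < Nat.factorial r := by exact_mod_cast Nat.factorial_pos r
  obtain ⟨c2, hc2⟩ : ∃ c2 : ℝ, c2 = (Nat.factorial r : ℝ) * K ^ r / bet := ⟨_, rfl⟩
  have hc2pos : 0 < c2 := by rw [hc2]; positivity
  obtain ⟨Lam, hLam⟩ : ∃ Lam : ℝ, Lam = r * c2 := ⟨_, rfl⟩
  have hLampos : 0 < Lam := by rw [hLam]; positivity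
  obtain ⟨D1, hD1⟩ : ∃ D1 : ℝ, D1 = Lam * (K * (r + 2)) * 4 := ⟨_, rfl⟩
  have hD1pos : 0 < D1 := by rw [hD1]; positivity
  obtain ⟨kap, hkap⟩ : ∃ kap : ℝ, kap = min (1 / 20) (1 / D1) := ⟨_, rfl⟩
  have hkpos : 0 < kap := by rw [hkap]; positivity
  have hk1 : kap ≤ 1 / 20 := by rw [hkap]; exact min_le_left _ _
  have hk2 : Lam * (K * (r + 2)) * kap ≤ 1 / 4 := by
    have h1 : kap ≤ 1 / D1 := by rw [hkap]; exact min_le_right _ _
    rw [le_div_iff₀ hD1pos, hD1] at h1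
    linarith
  have hk3 : Lam * K * kap ≤ 1 / 4 := by
    refine le_trans ?_ hk2
    have h0 : 0 < Lam * K * kap := by positivity
    have h1 : Lam * (K * (r + 2)) * kap = (Lam * K * kap) * (r + 2) := by ring
    rw [h1]
    nlinarith
  refine ⟨kap, hkpos, hk1, fun B hB xi y J hJ hxi hF hD hy => ?_⟩
  obtain ⟨L, hL⟩ : ∃ L, L = PJac B xi J := ⟨_, rfl⟩
  rw [← hL] at hD
  have hdet : L.det ≠ 0 := by
    intro h
    rw [h, norm_zero] at hD
    linarith
  have hxi2 : ∀ v, ‖xi v‖ ≤ 2 := fun v => (hxi v).trans (by norm_num)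
  have hLb : ∀ i l, ‖L i l‖ ≤ K := by
    intro i l
    have h1 := kM_MD B xi 1 hB hxi2 i (J l)
    rw [mul_one, ← hKdef] at h1
    rw [hL]
    exact h1
  obtain ⟨Li, hLi⟩ : ∃ Li : Matrix (Fin r) (Fin r) ℂ, Li = (L.det)⁻¹ • L.adjugate := ⟨_, rfl⟩
  have hLiL : Li * L = 1 := by
    rw [hLi, Matrix.smul_mul, Matrix.adjugate_mul, smul_smul, inv_mul_cancel₀ hdet, one_smul]
  have hLLi : L * Li = 1 := by
    rw [hLi, Matrix.mul_smul, Matrix.mul_adjugate, smul_smul, inv_mul_cancel₀ hdet, one_smul]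
  have hLib : ∀ i l, ‖Li i l‖ ≤ c2 := by
    intro i l
    have h1 := zi_adj L K hK hLb i l
    have h2 : Li i l = (L.det)⁻¹ * L.adjugate i l := by rw [hLi]; rfl
    rw [h2, norm_mul, norm_inv, hc2, div_eq_inv_mul]
    exact mul_le_mul (inv_anti₀ hb hD) h1 (norm_nonneg _) (by positivity)
  have hmv : ∀ (v : Fin r → ℂ) (Y : ℝ), 0 ≤ Y → (∀ m, ‖v m‖ ≤ Y) → ∀ i,
      ‖(Li.mulVec v) i‖ ≤ Lam * Y := by
    intro v Y hY hv i
    have e : (Li.mulVec v) i = ∑ m, Li i m * v m := rfl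
    rw [e]
    calc ‖∑ m, Li i m * v m‖ ≤ ∑ m, ‖Li i m * v m‖ := norm_sum_le _ _
      _ ≤ ∑ _m : Fin r, c2 * Y := by
          refine Finset.sum_le_sum fun m _ => ?_
          rw [norm_mul]
          exact mul_le_mul (hLib i m) (hv m) (norm_nonneg _) hc2pos.le
      _ = Lam * Y := by
          rw [Finset.sum_const, Finset.card_univ, Fintype.card_fin, nsmul_eq_mul, hLam]
          ring
  -- the map
  obtain ⟨xJ, hxJ⟩ : ∃ xJ : Fin r → ℂ, xJ = fun l => xi (J l) := ⟨_, rfl⟩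
  obtain ⟨Phi, hPhi⟩ : ∃ Phi : (Fin r → ℂ) → Fin r → ℂ,
    Phi = fun t j => MF (B j) (Function.extend J t y) := ⟨_, rfl⟩
  obtain ⟨T, hT⟩ : ∃ T : (Fin r → ℂ) → Fin r → ℂ, T = fun t => t - Li.mulVec (Phi t) := ⟨_, rfl⟩
  obtain ⟨s, hs⟩ : ∃ s : Set (Fin r → ℂ), s = Metric.closedBall xJ kap := ⟨_, rfl⟩
  have hmem : ∀ t, t ∈ s ↔ ∀ l, ‖t l - xi (J l)‖ ≤ kap := by
    intro t
    rw [hs, Metric.mem_closedBall, dist_eq_norm, pi_norm_le_iff_of_nonneg hkpos.le, hxJ]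
    rfl
  -- distance of the extended points
  have hPx : ∀ t, t ∈ s → ∀ v, ‖Function.extend J t y v - xi v‖ ≤ kap := by
    intro t ht v
    by_cases hv : ∃ l, J l = v
    · obtain ⟨l, rfl⟩ := hv
      rw [hJ.extend_apply]
      exact (hmem t).1 ht l
    · rw [Function.extend_apply' _ _ _ hv]
      refine (hy v fun l hl => hv ⟨l, hl⟩).trans ?_
      nlinarith
  have hP2 : ∀ t, t ∈ s → ∀ v, ‖Function.extend J t y v‖ ≤ 2 := by
    intro t ht v
    have h1 := hPx t ht v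
    have h2 : Function.extend J t y v = (Function.extend J t y v - xi v) + xi v := by ring
    rw [h2]
    refine (norm_add_le _ _).trans ?_
    linarith [hxi v]
  have hPP : ∀ t t' : Fin r → ℂ, ∀ v,
      Function.extend J t y v - Function.extend J t' y v =
        Function.extend J (t - t') 0 v := by
    intro t t' v
    by_cases hv : ∃ l, J l = v
    · obtain ⟨l, rfl⟩ := hv
      rw [hJ.extend_apply, hJ.extend_apply, hJ.extend_apply]
      rfl
    · rw [Function.extend_apply' _ _ _ hv, Function.extend_apply' _ _ _ hv,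
        Function.extend_apply' _ _ _ hv, sub_self]
      rfl
  have hkey : ∀ t ∈ s, ∀ t' ∈ s, ∀ j,
      ‖Phi t j - Phi t' j - (L.mulVec (t - t')) j‖ ≤ K * (r + 2) * kap * ‖t - t'‖ := by
    intro t ht t' ht' j
    obtain ⟨del, hdel⟩ : ∃ del : ℝ, del = ‖t - t'‖ := ⟨_, rfl⟩
    have hdel0 : 0 ≤ del := by rw [hdel]; exact norm_nonneg _
    have hdel1 : del ≤ 2 * kap := by
      rw [hdel, ← dist_eq_norm]
      rw [hs, Metric.mem_closedBall] at ht ht'
      have := dist_triangle_right t t' xJ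
      linarith
    have hdl : ∀ l, ‖(t - t') l‖ ≤ del := fun l => by rw [hdel]; exact norm_le_pi_norm (t - t') l
    have hy' : ∀ v, ‖Function.extend J t y v - Function.extend J t' y v‖ ≤ del := by
      intro v
      rw [hPP]
      by_cases hv : ∃ l, J l = v
      · obtain ⟨l, rfl⟩ := hv
        rw [hJ.extend_apply]
        exact hdl l
      · rw [Function.extend_apply' _ _ _ hv]
        simpa using hdel0
    have h1 := kM_MFT B (Function.extend J t' y) (Function.extend J t y) 1 del hB (hP2 t' ht')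
      (by linarith) hy' hdel0 j
    rw [mul_one, ← hKdef] at h1
    have h2 : ∑ v, MD (B j) (Function.extend J t' y) v *
        (Function.extend J t y v - Function.extend J t' y v) =
        ∑ l, MD (B j) (Function.extend J t' y) (J l) * (t - t') l := by
      symm
      refine Fintype.sum_of_injective J hJ _ _ ?_ ?_
      · intro v hv
        have hv' : ¬ ∃ l, J l = v := fun ⟨l, hl⟩ => hv ⟨l, hl⟩
        rw [hPP, Function.extend_apply' _ _ _ hv']
        simp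
      · intro l
        rw [hPP, hJ.extend_apply]
    rw [h2] at h1
    have h3 : ∀ l, ‖MD (B j) (Function.extend J t' y) (J l) - L j l‖ ≤ K * kap := by
      intro l
      have h4 := kM_MDT B xi (Function.extend J t' y) 1 kap hB hxi2 (by linarith)
        (hPx t' ht') hkpos.le j (J l)
      rw [mul_one, ← hKdef] at h4
      rw [hL]
      exact h4
    have h5 : ‖∑ l, (MD (B j) (Function.extend J t' y) (J l) - L j l) * (t - t') l‖ ≤
        r * (K * kap * del) := by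
      refine (norm_sum_le _ _).trans ?_
      calc ∑ l, ‖(MD (B j) (Function.extend J t' y) (J l) - L j l) * (t - t') l‖
          ≤ ∑ _l : Fin r, K * kap * del := by
            refine Finset.sum_le_sum fun l _ => ?_
            rw [norm_mul]
            exact mul_le_mul (h3 l) (hdl l) (norm_nonneg _) (by positivity)
        _ = r * (K * kap * del) := by
            rw [Finset.sum_const, Finset.card_univ, Fintype.card_fin, nsmul_eq_mul]
    have h6 : Phi t j - Phi t' j - (L.mulVec (t - t')) j =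
        (MF (B j) (Function.extend J t y) - MF (B j) (Function.extend J t' y) -
          ∑ l, MD (B j) (Function.extend J t' y) (J l) * (t - t') l) +
        ∑ l, (MD (B j) (Function.extend J t' y) (J l) - L j l) * (t - t') l := by
      have e : (L.mulVec (t - t')) j = ∑ l, L j l * (t - t') l := rfl
      rw [e, hPhi]
      simp only [sub_mul, Finset.sum_sub_distrib]
      ring
    rw [h6]
    refine (norm_add_le _ _).trans ((add_le_add h1 h5).trans ?_)
    rw [← hdel]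
    have h7 : K * del ^ 2 ≤ K * (2 * kap) * del := by
      rw [sq]
      calc K * (del * del) ≤ K * (2 * kap * del) :=
            mul_le_mul_of_nonneg_left (mul_le_mul_of_nonneg_right hdel1 hdel0) (by linarith)
        _ = _ := by ring
    calc K * del ^ 2 + r * (K * kap * del) ≤ K * (2 * kap) * del + r * (K * kap * del) := by
          linarith
      _ = K * (r + 2) * kap * del := by ring
  have hcontr : ∀ t ∈ s, ∀ t' ∈ s, ‖T t - T t'‖ ≤ 1 / 4 * ‖t - t'‖ := by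
    intro t ht t' ht'
    rw [pi_norm_le_iff_of_nonneg (by positivity)]
    intro i
    have h1 : (T t - T t') i =
        -(Li.mulVec (fun j => Phi t j - Phi t' j - (L.mulVec (t - t')) j)) i := by
      have e1 : (fun j => Phi t j - Phi t' j - (L.mulVec (t - t')) j) =
          Phi t - Phi t' - L.mulVec (t - t') := rfl
      rw [e1, Matrix.mulVec_sub, Matrix.mulVec_sub, Matrix.mulVec_mulVec, hLiL, Matrix.one_mulVec,
        hT]
      simp only [Pi.sub_apply]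
      ring
    rw [h1, norm_neg]
    refine (hmv _ (K * (r + 2) * kap * ‖t - t'‖) (by positivity) (hkey t ht t' ht') i).trans ?_
    calc Lam * (K * (r + 2) * kap * ‖t - t'‖) = (Lam * (K * (r + 2)) * kap) * ‖t - t'‖ := by ring
      _ ≤ 1 / 4 * ‖t - t'‖ := mul_le_mul_of_nonneg_right hk2 (norm_nonneg _)
  have hxs : xJ ∈ s := by
    rw [hs]
    exact Metric.mem_closedBall_self hkpos.le
  have hx0 : ‖T xJ - xJ‖ ≤ kap / 4 := by
    rw [pi_norm_le_iff_of_nonneg (by positivity)]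
    intro i
    have h1 : (T xJ - xJ) i = -(Li.mulVec (Phi xJ)) i := by
      rw [hT]
      simp only [Pi.sub_apply]
      ring
    rw [h1, norm_neg]
    have h2 : ∀ m, ‖Phi xJ m‖ ≤ K * kap ^ 2 := by
      intro m
      have h3 : ∀ v, ‖Function.extend J xJ y v - xi v‖ ≤ kap ^ 2 := by
        intro v
        by_cases hv : ∃ l, J l = v
        · obtain ⟨l, rfl⟩ := hv
          rw [hJ.extend_apply, hxJ, sub_self, norm_zero]
          positivity
        · rw [Function.extend_apply' _ _ _ hv]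
          exact hy v fun l hl => hv ⟨l, hl⟩
      have h4 := kM_lip B xi (Function.extend J xJ y) 1 (kap ^ 2) hB hxi2 (by nlinarith) h3
        (by positivity) m
      rw [hF m, sub_zero, mul_one, ← hKdef] at h4
      rw [hPhi]
      exact h4
    refine (hmv _ (K * kap ^ 2) (by positivity) h2 i).trans ?_
    calc Lam * (K * kap ^ 2) = (Lam * K * kap) * kap := by ring
      _ ≤ 1 / 4 * kap := mul_le_mul_of_nonneg_right hk3 hkpos.le
      _ = kap / 4 := by ring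
  have hmaps : Set.MapsTo T s s := by
    intro t ht
    have h1 := hcontr t ht xJ hxs
    have h2 : ‖t - xJ‖ ≤ kap := by
      rw [hs, Metric.mem_closedBall, dist_eq_norm] at ht
      exact ht
    rw [hs, Metric.mem_closedBall, dist_eq_norm]
    have h3 : T t - xJ = (T t - T xJ) + (T xJ - xJ) := by abel
    rw [h3]
    refine (norm_add_le _ _).trans ?_
    linarith
  have hzero : ∀ t, T t = t ↔ ∀ j, MF (B j) (Function.extend J t y) = 0 := by
    intro t
    have e0 : T t = t - Li.mulVec (Phi t) := by rw [hT]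
    constructor
    · intro h
      rw [e0, sub_eq_self] at h
      have h1 : L.mulVec (Li.mulVec (Phi t)) = Phi t := by
        rw [Matrix.mulVec_mulVec, hLLi, Matrix.one_mulVec]
      rw [h, Matrix.mulVec_zero] at h1
      intro j
      have h2 := congrFun h1 j
      rw [hPhi] at h2
      exact h2.symm
    · intro h
      have h1 : Phi t = 0 := by
        rw [hPhi]
        funext j
        exact h j
      rw [e0, h1, Matrix.mulVec_zero, sub_zero]
  have hcw : ContractingWith (1 / 4 : NNReal) (hmaps.restrict T s s) := by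
    refine ⟨by
      rw [← NNReal.coe_lt_coe]
      norm_num, LipschitzWith.of_dist_le_mul fun x y => ?_⟩
    rw [Subtype.dist_eq, Subtype.dist_eq, dist_eq_norm, dist_eq_norm]
    have := hcontr x.1 x.2 y.1 y.2
    simpa using this
  have hcomp : IsComplete s := by
    rw [hs]
    exact Metric.isClosed_closedBall.isComplete
  obtain ⟨t, ht, hfix, -⟩ := ContractingWith.exists_fixedPoint' hcomp hmaps hcw hxs
    (edist_ne_top _ _)
  refine ⟨t, ⟨(hmem t).1 ht, (hzero t).1 hfix⟩, fun t' ht' hF' => ?_⟩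
  have ht's : t' ∈ s := (hmem t').2 ht'
  have h1 : T t' = t' := (hzero t').2 hF'
  have h2 := hcontr t' ht's t ht
  rw [h1, hfix] at h2
  have h3 : ‖t' - t‖ = 0 := by linarith [norm_nonneg (t' - t)]
  exact sub_eq_zero.1 (norm_eq_zero.1 h3)

end multi

end NKPHP
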